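import Mathlib

/-!
# Closed unbounded sets of countable ordinals: definition
-/

set_option autoImplicit false

namespace Run7.h603

/-- `E` is a closed unbounded set of countable ordinals: a set of countable ordinals, unbounded in
`ω₁`, which contains every countable ordinal `δ > 0` that is a limit of elements of `E`. -/
structure IsClubOmegaOne (E : Set Ordinal.{0}) : Prop where
  subset : ∀ α ∈ E, α < Ordinal.omega 1
  unbounded : ∀ α < Ordinal.omega.{0} 1, ∃ β ∈ E, α < β
  closed : ∀ δ < Ordinal.omega.{0} 1, δ ≠ 0 → (∀ α < δ, ∃ β ∈ E, α < β ∧ β < δ) → δ ∈ E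

end Run7.h603
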