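import Pool.Agent.Run7.h603.Bridge
import Pool.Agent.Run7.h603.ClubDef

/-!
# Closed unbounded sets of countable ordinals
-/

set_option autoImplicit false

open Set

namespace Run7.h603

theorem isClub_of_isClubOmegaOne {D : Set Ordinal.{0}} (hD : IsClubOmegaOne D) :
    IsClub {a : Om | ordOf a ∈ D} := by
  constructor
  · intro d hd hne hdir b hb
    by_cases hbd : b ∈ d
    · exact hd hbd
    · have key : ∀ a < b, ∃ c ∈ d, a < c := fun a ha => Om.exists_lt_of_isLUB hb ha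
      refine hD.closed (ordOf b) (ordOf_lt b) ?_ ?_
      · intro h0
        obtain ⟨c, hc⟩ := hne
        have h1 : c ≤ b := hb.1 hc
        have hb0 : b = ⊥ := ordOf_inj.1 (h0.trans ordOf_bot.symm)
        rw [hb0, le_bot_iff] at h1
        exact hbd (by rw [hb0, ← h1]; exact hc)
      · intro α hα
        obtain ⟨a, rfl⟩ := exists_ordOf (hα.trans (ordOf_lt b))
        obtain ⟨c, hc, hac⟩ := key a (ordOf_lt_iff.1 hα)
        refine ⟨ordOf c, hd hc, ordOf_lt_iff.2 hac, ordOf_lt_iff.2 (lt_of_le_of_ne (hb.1 hc) ?_)⟩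
        rintro rfl
        exact hbd hc
  · intro a
    obtain ⟨β, hβ, h1⟩ := hD.unbounded (ordOf a) (ordOf_lt a)
    obtain ⟨b, rfl⟩ := exists_ordOf (hD.subset β hβ)
    exact ⟨b, hβ, (ordOf_lt_iff.1 h1).le⟩

theorem mem_limPts_of {E : Set Om} {d : Om} (h0 : ordOf d ≠ 0)
    (h : ∀ α < ordOf d, ∃ β ∈ ordOf '' E, α < β ∧ β < ordOf d) : d ∈ Om.limPts E := by
  refine ⟨?_, ?_⟩
  · rw [Om.isSuccLimit_iff']
    refine ⟨?_, ?_⟩
    · rintro rfl
      exact h0 ordOf_bot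
    · intro a ha
      obtain ⟨_, ⟨b, hb, rfl⟩, h1, h2⟩ := h _ (ordOf_lt_iff.2 ha)
      exact (Order.succ_le_of_lt (ordOf_lt_iff.1 h1)).trans_lt (ordOf_lt_iff.1 h2)
  · intro a ha
    obtain ⟨_, ⟨b, hb, rfl⟩, h1, h2⟩ := h _ (ordOf_lt_iff.2 ha)
    exact ⟨b, hb, ordOf_lt_iff.1 h1, ordOf_lt_iff.1 h2⟩

theorem isClubOmegaOne_image {E : Set Om} (hE : IsClub E) : IsClubOmegaOne (ordOf '' E) where
  subset := by
    rintro _ ⟨a, -, rfl⟩
    exact ordOf_lt a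
  unbounded := by
    intro α hα
    obtain ⟨a, rfl⟩ := exists_ordOf hα
    obtain ⟨c, hc⟩ := exists_gt a
    obtain ⟨b, hb, hcb⟩ := hE.isCofinal c
    exact ⟨ordOf b, ⟨b, hb, rfl⟩, ordOf_lt_iff.2 (hc.trans_le hcb)⟩
  closed := by
    intro δ hδ h0 h
    obtain ⟨d, rfl⟩ := exists_ordOf hδ
    exact ⟨d, Om.limPts_subset hE (mem_limPts_of h0 h), rfl⟩

theorem ordOf_mem_image {E : Set Om} {a : Om} : ordOf a ∈ ordOf '' E ↔ a ∈ E := by
  constructor
  · rintro ⟨b, hb, h1⟩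
    rw [← ordOf_inj.1 h1]
    exact hb
  · intro ha
    exact ⟨a, ha, rfl⟩

end Run7.h603
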