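import Pool.Agent.Run7.h603.Dl5

set_option autoImplicit false

/-!
# Generalized Collatz maps: product sets of trajectories and of finite unions of cycles
-/

namespace Run7.h603.GC

open Finset Run7.h603 Run7.h603.Q Pool.Agent.N811.IS

/-- the generalized Collatz map -/
def T (d : ℕ) (m r : ℕ → ℤ) (x : ℤ) : ℤ := (m (x % d).toNat * x - r (x % d).toNat) / d

/-- the elements of `X` which are moved inside `X` by a branch with `r ≠ 0` -/
def act (d : ℕ) (m r : ℕ → ℤ) (X : Finset ℤ) : Finset ℤ :=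
  X.filter fun y => y ≠ 0 ∧ T d m r y ≠ 0 ∧ T d m r y ∈ X ∧ r (y % d).toNat ≠ 0

lemma large_zero (X : Finset ℤ) : Large X 0 := by
  refine ⟨?_, ?_, ?_⟩
  · intro N hN
    have hN2 : (2:ℝ) ≤ N := by exact_mod_cast hN
    have hL1 := Real.log_two_gt_d9
    have hx0 : Real.log 2 ≤ Real.log N := Real.log_le_log (by norm_num) hN2
    have hDp : 0 < Real.log (Real.log N) + 7 / 5 := den_pos (by linarith)
    have he : 0 < Real.log N / (Real.log (Real.log N) + 7 / 5) :=
      div_pos (by linarith) hDp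
    rw [Real.zero_rpow he.ne']
    positivity
  · rw [zero_div, Real.zero_rpow (by norm_num)]
    positivity
  · intro Y _ _ N t β _ _ hβ _
    rw [Real.zero_rpow (by linarith), zero_mul]
    positivity

section
variable {d : ℕ} (hd : 2 ≤ d) {m r : ℕ → ℤ} (hm : ∀ i < d, m i ≠ 0)
  (hr : ∀ i < d, r i ≡ i * m i [ZMOD d])

include hd in
lemma idx_lt (x : ℤ) : (x % d).toNat < d := by
  have h1 : 0 ≤ x % d := Int.emod_nonneg _ (by omega)
  have h2 : x % d < d := Int.emod_lt_of_pos _ (by omega)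
  omega

include hd hr in
lemma T_eq (x : ℤ) : (d : ℤ) * T d m r x = m (x % d).toNat * x - r (x % d).toNat := by
  unfold T
  apply Int.mul_ediv_cancel'
  have h1 : 0 ≤ x % d := Int.emod_nonneg _ (by omega)
  have h2 := hr _ (idx_lt hd x)
  have e : (((x % d).toNat : ℕ) : ℤ) = x % d := Int.toNat_of_nonneg h1
  rw [e] at h2
  set i := (x % d).toNat with hi
  have h3 : (x % d) * m i ≡ x * m i [ZMOD d] := Int.ModEq.mul_right _ (Int.mod_modEq x d)
  have h4 := h2.trans h3
  have h5 := h4.dvd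
  have h6 : m i * x - r i = x * m i - r i := by ring
  rw [h6]
  exact h5

include hd hm hr in
/-- **Arbitrary sets.** -/
theorem arbitrary (X : Finset ℤ) (τ : ℕ) (hτ1 : 1 ≤ τ) (hτ : ∀ i < d, (Nat.divisors (r i).natAbs).card ≤ τ)
    (s : ℝ) (hs0 : 0 ≤ s) (hs : s * (2 * d * τ) ≤ (act d m r X).card) : Large X s := by
  classical
  rcases Finset.eq_empty_or_nonempty (act d m r X) with he | hne
  · -- `s = 0` or `τ = 0`
    rcases hs0.eq_or_lt with h | h
    · rw [← h]; exact large_zero X
    · exfalso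
      rw [he, Finset.card_empty, Nat.cast_zero] at hs
      have h1 : (0 : ℝ) < d := by exact_mod_cast (by omega : 0 < d)
      have h2 : (0 : ℝ) < τ := by exact_mod_cast hτ1
      have : 0 < s * (2 * d * τ) := by positivity
      linarith
  have hmem : ∀ y ∈ act d m r X, y ∈ X ∧ y ≠ 0 ∧ T d m r y ≠ 0 ∧ T d m r y ∈ X ∧
      r (y % d).toNat ≠ 0 := fun y hy => by
    obtain ⟨h1, h2⟩ := Finset.mem_filter.1 hy
    exact ⟨h1, h2⟩
  have hdd : (d : ℤ) ≠ 0 := by omega
  have hmain := several ((range d).filter fun i => r i ≠ 0) m (fun i => -(r i)) (fun _ => (d : ℤ))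
    (fun i hi => hm i (Finset.mem_range.1 (Finset.mem_filter.1 hi).1))
    (fun i hi => neg_ne_zero.2 (Finset.mem_filter.1 hi).2) X (act d m r X)
    (fun y => (y % d).toNat) hne (fun y hy => (hmem y hy).1)
    (fun y hy => Finset.mem_filter.2 ⟨Finset.mem_range.2 (idx_lt hd y), (hmem y hy).2.2.2.2⟩)
    (fun y hy => (hmem y hy).2.1)
    (fun y hy h => by
      have h1 := T_eq hd hr y
      have h2 : m (y % d).toNat * y - r (y % d).toNat = 0 := by linarith
      rw [h2] at h1
      exact (hmem y hy).2.2.1 ((mul_eq_zero.1 h1).resolve_left hdd))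
    (fun y hy => ⟨T d m r y, (hmem y hy).2.2.2.1, by
      have h1 := T_eq hd hr y
      linarith⟩) τ (fun i hi => by
      rw [Int.natAbs_neg]
      exact hτ i (Finset.mem_range.1 (Finset.mem_filter.1 hi).1)) s hs0
    (by
      refine le_trans ?_ hs
      apply mul_le_mul_of_nonneg_left _ hs0
      have h1 : ((range d).filter fun i => r i ≠ 0).card ≤ d := by
        refine (Finset.card_filter_le _ _).trans ?_
        rw [Finset.card_range]
      have h2 : ((((range d).filter fun i => r i ≠ 0).card : ℕ) : ℝ) ≤ d := by exact_mod_cast h1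
      have h3 : (0 : ℝ) ≤ τ := by positivity
      nlinarith)
  exact hmain

include hd hm hr in
/-- **Trajectories.** `h` of the first `n` steps use a branch with `r ≠ 0`. -/
theorem trajectory (x : ℤ) (n h : ℕ) (hinj : Set.InjOn (fun k => (T d m r)^[k] x) (Set.Iio n))
    (hh : h ≤ ((range n).filter fun k => r ((T d m r)^[k] x % d).toNat ≠ 0).card)
    (τ : ℕ) (hτ1 : 1 ≤ τ) (hτ : ∀ i < d, (Nat.divisors (r i).natAbs).card ≤ τ)
    (s : ℝ) (hs0 : 0 ≤ s) (hs : s * (2 * d * τ) + 3 ≤ h) :
    Large ((range n).image fun k => (T d m r)^[k] x) s := by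
  classical
  set X := (range n).image fun k => (T d m r)^[k] x with hX
  set J := (range n).filter fun k => r ((T d m r)^[k] x % d).toNat ≠ 0 with hJ
  -- the exceptional indices
  set E : Finset ℕ := {n - 1} ∪ (((range n).filter fun k => (T d m r)^[k] x = 0) ∪
    ((range (n - 1)).filter fun k => (T d m r)^[k + 1] x = 0)) with hE
  have hEc : E.card ≤ 3 := by
    have h1 : ((range n).filter fun k => (T d m r)^[k] x = 0).card ≤ 1 := by
      apply Finset.card_le_one.2
      intro a ha b hb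
      rw [Finset.mem_filter, Finset.mem_range] at ha hb
      exact hinj ha.1 hb.1 (ha.2.trans hb.2.symm)
    have h2 : ((range (n - 1)).filter fun k => (T d m r)^[k + 1] x = 0).card ≤ 1 := by
      apply Finset.card_le_one.2
      intro a ha b hb
      rw [Finset.mem_filter, Finset.mem_range] at ha hb
      have h3 : a + 1 = b + 1 := hinj (show a + 1 < n by omega) (show b + 1 < n by omega)
        (ha.2.trans hb.2.symm)
      omega
    refine (Finset.card_union_le _ _).trans ?_
    have h4 := Finset.card_union_le ((range n).filter fun k => (T d m r)^[k] x = 0)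
      ((range (n - 1)).filter fun k => (T d m r)^[k + 1] x = 0)
    rw [Finset.card_singleton]
    omega
  have hcard : h - 3 ≤ (act d m r X).card := by
    have h1 : (J \ E).card ≤ (act d m r X).card := by
      apply Finset.card_le_card_of_injOn (fun k => (T d m r)^[k] x)
      · intro k hk
        have hk' : k ∈ J \ E := hk
        rw [Finset.mem_sdiff] at hk'
        obtain ⟨hkJ, hkE⟩ := hk'
        obtain ⟨hkn, hkr⟩ := Finset.mem_filter.1 hkJ
        rw [Finset.mem_range] at hkn
        have hk1 : k ≠ n - 1 := by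
          rintro rfl
          exact hkE (Finset.mem_union_left _ (Finset.mem_singleton_self _))
        have hk0 : (T d m r)^[k] x ≠ 0 := by
          intro h0
          exact hkE (Finset.mem_union_right _ (Finset.mem_union_left _
            (Finset.mem_filter.2 ⟨Finset.mem_range.2 hkn, h0⟩)))
        have hk2 : (T d m r)^[k + 1] x ≠ 0 := by
          intro h0
          exact hkE (Finset.mem_union_right _ (Finset.mem_union_right _
            (Finset.mem_filter.2 ⟨Finset.mem_range.2 (by omega), h0⟩)))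
        rw [Function.iterate_succ_apply'] at hk2
        refine Finset.mem_filter.2 ⟨Finset.mem_image.2 ⟨k, Finset.mem_range.2 hkn, rfl⟩, hk0, hk2,
          ?_, hkr⟩
        refine Finset.mem_image.2 ⟨k + 1, Finset.mem_range.2 (by omega), ?_⟩
        rw [Function.iterate_succ_apply']
      · intro k hk l hl he
        have hk' : k ∈ J \ E := hk
        have hl' : l ∈ J \ E := hl
        have h2 := Finset.mem_range.1 (Finset.mem_filter.1 (Finset.mem_sdiff.1 hk').1).1
        have h3 := Finset.mem_range.1 (Finset.mem_filter.1 (Finset.mem_sdiff.1 hl').1).1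
        exact hinj h2 h3 he
    have h2 : J.card - E.card ≤ (J \ E).card := Finset.le_card_sdiff _ _
    omega
  refine arbitrary hd hm hr X τ hτ1 hτ s hs0 ?_
  have hcard' : ((h : ℕ) : ℝ) ≤ (act d m r X).card + 3 := by
    exact_mod_cast (by omega : h ≤ (act d m r X).card + 3)
  linarith

include hd hm hr in
/-- **Unions of cycles.** `h` of the elements of `P` use a branch with `r ≠ 0`. -/
theorem cycles (P X : Finset ℤ) (h0 : (0 : ℤ) ∉ P) (hP : P.image (T d m r) = P) (hX : X ⊆ P)
    (h : ℕ) (hh : h ≤ (P.filter fun y : ℤ => r (y % d).toNat ≠ 0).card)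
    (τ : ℕ) (hτ1 : 1 ≤ τ) (hτ : ∀ i < d, (Nat.divisors (r i).natAbs).card ≤ τ)
    (s : ℝ) (hs0 : 0 ≤ s) (hs : s * (2 * d * τ) + 2 * (P \ X).card ≤ h) : Large X s := by
  classical
  have hinj : Set.InjOn (T d m r) (P : Set ℤ) := by
    apply Finset.card_image_iff.1
    rw [hP]
  have hmaps : ∀ y ∈ P, T d m r y ∈ P := fun y hy => by
    have := Finset.mem_image_of_mem (T d m r) hy
    rwa [hP] at this
  set J := P.filter fun y : ℤ => r (y % d).toNat ≠ 0 with hJ
  have hsub : J ⊆ act d m r X ∪ ((P \ X) ∪ P.filter fun y => T d m r y ∈ P \ X) := by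
    intro y hy
    obtain ⟨hyP, hyr⟩ := Finset.mem_filter.1 hy
    have hy0 : y ≠ 0 := by rintro rfl; exact h0 hyP
    have hT0 : T d m r y ≠ 0 := by
      intro he
      have := hmaps y hyP
      rw [he] at this
      exact h0 this
    by_cases h3 : y ∈ X
    · by_cases h4 : T d m r y ∈ X
      · exact Finset.mem_union_left _ (Finset.mem_filter.2 ⟨h3, hy0, hT0, h4, hyr⟩)
      · exact Finset.mem_union_right _ (Finset.mem_union_right _
          (Finset.mem_filter.2 ⟨hyP, Finset.mem_sdiff.2 ⟨hmaps y hyP, h4⟩⟩))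
    · exact Finset.mem_union_right _ (Finset.mem_union_left _ (Finset.mem_sdiff.2 ⟨hyP, h3⟩))
  have hsmall : (P.filter fun y => T d m r y ∈ P \ X).card ≤ (P \ X).card := by
    apply Finset.card_le_card_of_injOn (T d m r)
    · intro y hy
      exact (Finset.mem_filter.1 hy).2
    · intro y hy z hz he
      exact hinj (Finset.mem_filter.1 hy).1 (Finset.mem_filter.1 hz).1 he
  have hcard : h - 2 * (P \ X).card ≤ (act d m r X).card := by
    have h1 := Finset.card_le_card hsub
    have h2 := Finset.card_union_le (act d m r X) ((P \ X) ∪ P.filter fun y => T d m r y ∈ P \ X)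
    have h3 := Finset.card_union_le (P \ X) (P.filter fun y => T d m r y ∈ P \ X)
    omega
  refine arbitrary hd hm hr X τ hτ1 hτ s hs0 ?_
  have hcard' : ((h : ℕ) : ℝ) ≤ (act d m r X).card + 2 * (P \ X).card := by
    exact_mod_cast (by omega : h ≤ (act d m r X).card + 2 * (P \ X).card)
  linarith

include hd hr in
/-- the number of the steps which use a branch with `r ≠ 0`, if the other branches are
contracting -/
theorem many_aux {ι : Type*} (J : Finset ι) (u : ι → ℤ) (h0 : ∀ j ∈ J, u j ≠ 0)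
    (hprod : ∏ j ∈ J, |u j| ≤ ∏ j ∈ J, |T d m r (u j)|)
    (hc : ∀ i < d, r i = 0 → |m i| < d) (M K : ℕ) (hM : ∀ i < d, |m i| + |r i| ≤ M) (hK : 1 ≤ K)
    (hMK : M * (d - 1) ^ (K - 1) ≤ d ^ K) :
    J.card ≤ K * (J.filter fun j => r (u j % d).toNat ≠ 0).card := by
  classical
  set h := (J.filter fun j => r (u j % d).toNat ≠ 0).card with hh
  obtain ⟨e, he⟩ : ∃ e, d = e + 1 := ⟨d - 1, by omega⟩
  have he1 : 1 ≤ e := by omega
  have hpos : 0 < ∏ y ∈ J, |u y| := by
    refine Finset.prod_pos fun y hy => ?_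
    exact abs_pos.2 (h0 y hy)
  have h1 : ∏ y ∈ J, ((d : ℤ) * |T d m r (u y)|) ≤
      ∏ y ∈ J, ((if r (u y % d).toNat ≠ 0 then (M : ℤ) else e) * |u y|) := by
    refine Finset.prod_le_prod (fun y _ => by positivity) fun y hy => ?_
    have hy0 : u y ≠ 0 := h0 y hy
    have h1 : 1 ≤ |u y| := Int.one_le_abs hy0
    have e1 : (d : ℤ) * |T d m r (u y)| = |(d : ℤ) * T d m r (u y)| := by rw [abs_mul]; simp
    rw [e1, T_eq hd hr (u y)]
    have hi := idx_lt hd (u y)
    set i := (u y % d).toNat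
    split_ifs with hri
    · calc |m i * u y - r i| ≤ |m i * u y| + |r i| := abs_sub _ _
        _ = |m i| * |u y| + |r i| := by rw [abs_mul]
        _ ≤ (|m i| + |r i|) * |u y| := by
            have := abs_nonneg (r i)
            nlinarith
        _ ≤ M * |u y| := mul_le_mul_of_nonneg_right (hM i hi) (by positivity)
    · have hri' : r i = 0 := not_not.1 hri
      rw [hri', sub_zero, abs_mul]
      apply mul_le_mul_of_nonneg_right _ (by positivity)
      have := hc i hi hri'
      rw [he] at this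
      push_cast at this
      omega
  rw [Finset.prod_mul_distrib, Finset.prod_mul_distrib, Finset.prod_const] at h1
  have h2 : (d : ℤ) ^ J.card ≤ ∏ y ∈ J, (if r (u y % d).toNat ≠ 0 then (M : ℤ) else e) := by
    have h3 : (d : ℤ) ^ J.card * ∏ y ∈ J, |u y| ≤
        (∏ y ∈ J, (if r (u y % d).toNat ≠ 0 then (M : ℤ) else e)) * ∏ y ∈ J, |u y| :=
      (mul_le_mul_of_nonneg_left hprod (by positivity)).trans h1
    exact le_of_mul_le_mul_right h3 hpos
  rw [Finset.prod_ite, Finset.prod_const, Finset.prod_const] at h2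
  have hcard : (J.filter fun y => ¬ r (u y % d).toNat ≠ 0).card + h = J.card := by
    rw [hh, add_comm, Finset.card_filter_add_card_filter_not]
  rw [← hh] at h2
  set g := (J.filter fun y => ¬ r (u y % d).toNat ≠ 0).card with hg
  have h3 : d ^ J.card ≤ M ^ h * e ^ g := by exact_mod_cast h2
  by_contra hcon
  push Not at hcon
  -- `d ^ n ≤ M ^ h e ^ g`, `M e ^ (K - 1) ≤ d ^ K`
  have hed : d - 1 = e := by omega
  rw [hed] at hMK
  obtain ⟨L, hL⟩ : ∃ L, K = L + 1 := ⟨K - 1, by omega⟩
  subst hL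
  simp only [Nat.add_sub_cancel] at hMK
  have h4 : M ^ h * e ^ (L * h) ≤ d ^ ((L + 1) * h) := by
    have := Nat.pow_le_pow_left hMK h
    rwa [mul_pow, ← pow_mul, ← pow_mul] at this
  obtain ⟨q, hq⟩ : ∃ q, g = L * h + q := ⟨g - L * h, by
    have : L * h ≤ g := by nlinarith
    omega⟩
  have hq1 : 1 ≤ q := by nlinarith
  have hn : J.card = (L + 1) * h + q := by rw [← hcard, hq]; ring
  have h5 : d ^ ((L + 1) * h) * d ^ q ≤ d ^ ((L + 1) * h) * e ^ q := by
    calc d ^ ((L + 1) * h) * d ^ q = d ^ J.card := by rw [hn, pow_add]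
      _ ≤ M ^ h * e ^ g := h3
      _ = (M ^ h * e ^ (L * h)) * e ^ q := by rw [hq, pow_add]; ring
      _ ≤ d ^ ((L + 1) * h) * e ^ q := Nat.mul_le_mul_right _ h4
  have h6 : d ^ q ≤ e ^ q := Nat.le_of_mul_le_mul_left h5 (by positivity)
  have h7 : e ^ q < d ^ q := Nat.pow_lt_pow_left (by omega) (by omega)
  omega

include hd hr in
/-- the number of the elements of a union of cycles which use a branch with `r ≠ 0`, if the other
branches are contracting -/
theorem many (P : Finset ℤ) (h0 : (0 : ℤ) ∉ P) (hP : P.image (T d m r) = P)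
    (hc : ∀ i < d, r i = 0 → |m i| < d) (M K : ℕ) (hM : ∀ i < d, |m i| + |r i| ≤ M) (hK : 1 ≤ K)
    (hMK : M * (d - 1) ^ (K - 1) ≤ d ^ K) :
    P.card ≤ K * (P.filter fun y : ℤ => r (y % d).toNat ≠ 0).card := by
  classical
  have hinj : Set.InjOn (T d m r) (P : Set ℤ) := by
    apply Finset.card_image_iff.1
    rw [hP]
  have hprod : ∏ y ∈ P, |T d m r y| = ∏ y ∈ P, |y| := by
    conv_rhs => rw [← hP]
    rw [Finset.prod_image (fun a ha b hb h => hinj ha hb h)]
  exact many_aux hd hr P (fun y => y) (fun y hy => by rintro rfl; exact h0 hy) hprod.ge hc M K hM hK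
    hMK

include hd hr in
/-- the number of the steps of a trajectory which returns above its initial value -/
theorem many_tr (x : ℤ) (n : ℕ) (h0 : ∀ k ≤ n, (T d m r)^[k] x ≠ 0) (hup : |x| ≤ |(T d m r)^[n] x|)
    (hc : ∀ i < d, r i = 0 → |m i| < d) (M K : ℕ) (hM : ∀ i < d, |m i| + |r i| ≤ M) (hK : 1 ≤ K)
    (hMK : M * (d - 1) ^ (K - 1) ≤ d ^ K) :
    n ≤ K * ((range n).filter fun k => r ((T d m r)^[k] x % d).toNat ≠ 0).card := by
  classical
  have hprod : ∏ k ∈ range n, |(T d m r)^[k] x| ≤ ∏ k ∈ range n, |T d m r ((T d m r)^[k] x)| := by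
    have e1 : ∀ k, T d m r ((T d m r)^[k] x) = (T d m r)^[k + 1] x := fun k => by
      rw [Function.iterate_succ_apply']
    simp only [e1]
    have h1 : (∏ k ∈ range n, |(T d m r)^[k] x|) * |(T d m r)^[n] x| =
        (∏ k ∈ range n, |(T d m r)^[k + 1] x|) * |x| := by
      rw [← Finset.prod_range_succ (fun k => |(T d m r)^[k] x|) n,
        Finset.prod_range_succ' (fun k => |(T d m r)^[k] x|) n]
      rfl
    have h2 : (∏ k ∈ range n, |(T d m r)^[k] x|) * |x| ≤
        (∏ k ∈ range n, |(T d m r)^[k + 1] x|) * |x| := by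
      rw [← h1]
      exact mul_le_mul_of_nonneg_left hup (by positivity)
    have h3 : 0 < |x| := abs_pos.2 (h0 0 (Nat.zero_le _))
    exact le_of_mul_le_mul_right h2 h3
  have := many_aux hd hr (range n) (fun k => (T d m r)^[k] x)
    (fun k hk => h0 k (Finset.mem_range.1 hk).le) hprod hc M K hM hK hMK
  rwa [Finset.card_range] at this

include hd hm hr in
/-- **Unions of cycles, contracting pure branches.** -/
theorem cycles' (τ : ℕ) (hτ1 : 1 ≤ τ) (hτ : ∀ i < d, (Nat.divisors (r i).natAbs).card ≤ τ)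
    (hc : ∀ i < d, r i = 0 → |m i| < d) (M K : ℕ) (hM : ∀ i < d, |m i| + |r i| ≤ M) (hK : 1 ≤ K)
    (hMK : M * (d - 1) ^ (K - 1) ≤ d ^ K)
    (P X : Finset ℤ) (h0 : (0 : ℤ) ∉ P) (hP : P.image (T d m r) = P) (hX : X ⊆ P)
    (hmiss : 4 * K * (P \ X).card ≤ P.card) :
    Large X ((P.card : ℝ) / (4 * d * τ * K)) := by
  have h1 := many hd hr P h0 hP hc M K hM hK hMK
  have hd0 : (0 : ℝ) < d := by exact_mod_cast (by omega : 0 < d)
  have ht0 : (0 : ℝ) < τ := by exact_mod_cast hτ1
  have hK0 : (0 : ℝ) < K := by exact_mod_cast hK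
  refine cycles hd hm hr P X h0 hP hX _ le_rfl τ hτ1 hτ _ (by positivity) ?_
  have h2 : (P.card : ℝ) ≤ K * (P.filter fun y : ℤ => r (y % d).toNat ≠ 0).card := by
    exact_mod_cast h1
  have h3 : 4 * K * ((P \ X).card : ℝ) ≤ P.card := by exact_mod_cast hmiss
  have e1 : (P.card : ℝ) / (4 * d * τ * K) * (2 * d * τ) = P.card / (2 * K) := by
    field_simp
    ring
  rw [e1]
  have h4 : (P.card : ℝ) / K ≤ (P.filter fun y : ℤ => r (y % d).toNat ≠ 0).card := by
    rw [div_le_iff₀ hK0]
    linarith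
  have h5 : 2 * ((P \ X).card : ℝ) ≤ P.card / (2 * K) := by
    rw [le_div_iff₀ (by positivity)]
    linarith
  have h6 : (P.card : ℝ) / (2 * K) + P.card / (2 * K) = P.card / K := by
    field_simp
    ring
  linarith

include hd hm hr in
/-- **Trajectories which return above their initial value, contracting pure branches.** -/
theorem trajectory' (τ : ℕ) (hτ1 : 1 ≤ τ) (hτ : ∀ i < d, (Nat.divisors (r i).natAbs).card ≤ τ)
    (hc : ∀ i < d, r i = 0 → |m i| < d) (M K : ℕ) (hM : ∀ i < d, |m i| + |r i| ≤ M) (hK : 1 ≤ K)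
    (hMK : M * (d - 1) ^ (K - 1) ≤ d ^ K)
    (x : ℤ) (n : ℕ) (hinj : Set.InjOn (fun k => (T d m r)^[k] x) (Set.Iio n))
    (h0 : ∀ k ≤ n, (T d m r)^[k] x ≠ 0) (hup : |x| ≤ |(T d m r)^[n] x|) (hn : 6 * K ≤ n) :
    Large ((range n).image fun k => (T d m r)^[k] x) ((n : ℝ) / (4 * d * τ * K)) := by
  have h1 := many_tr hd hr x n h0 hup hc M K hM hK hMK
  have hd0 : (0 : ℝ) < d := by exact_mod_cast (by omega : 0 < d)
  have ht0 : (0 : ℝ) < τ := by exact_mod_cast hτ1
  have hK0 : (0 : ℝ) < K := by exact_mod_cast hK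
  refine trajectory hd hm hr x n _ hinj le_rfl τ hτ1 hτ _ (by positivity) ?_
  have h2 : (n : ℝ) ≤ K * ((range n).filter fun k => r ((T d m r)^[k] x % d).toNat ≠ 0).card := by
    exact_mod_cast h1
  have h3 : 6 * (K : ℝ) ≤ n := by exact_mod_cast hn
  have e1 : (n : ℝ) / (4 * d * τ * K) * (2 * d * τ) = n / (2 * K) := by
    field_simp
    ring
  rw [e1]
  have h4 : (n : ℝ) / K ≤ ((range n).filter fun k => r ((T d m r)^[k] x % d).toNat ≠ 0).card := by
    rw [div_le_iff₀ hK0]
    linarith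
  have h5 : 3 ≤ (n : ℝ) / (2 * K) := by
    rw [le_div_iff₀ (by positivity)]
    linarith
  have h6 : (n : ℝ) / (2 * K) + n / (2 * K) = n / K := by
    field_simp
    ring
  linarith

include hd hm hr in
/-- **Divergent trajectories, contracting pure branches.** -/
theorem divergent (τ : ℕ) (hτ1 : 1 ≤ τ) (hτ : ∀ i < d, (Nat.divisors (r i).natAbs).card ≤ τ)
    (hc : ∀ i < d, r i = 0 → |m i| < d) (M K : ℕ) (hM : ∀ i < d, |m i| + |r i| ≤ M) (hK : 1 ≤ K)
    (hMK : M * (d - 1) ^ (K - 1) ≤ d ^ K)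
    (x : ℤ) (hinj : Function.Injective fun k => (T d m r)^[k] x) :
    ∃ n₀ : ℕ, ∀ n ≥ n₀,
      Large ((range n).image fun k => (T d m r)^[k] x) ((n : ℝ) / (4 * d * τ * K)) := by
  have hd0 : (0 : ℝ) < d := by exact_mod_cast (by omega : 0 < d)
  have ht0 : (0 : ℝ) < τ := by exact_mod_cast hτ1
  have hK0 : (0 : ℝ) < K := by exact_mod_cast hK
  -- `0` is not a term from `j` on
  obtain ⟨j, hj⟩ : ∃ j, ∀ k ≥ j, (T d m r)^[k] x ≠ 0 := by
    by_cases h : ∃ k, (T d m r)^[k] x = 0
    · obtain ⟨k, hk⟩ := h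
      refine ⟨k + 1, fun l hl hl0 => ?_⟩
      have : l = k := hinj (hl0.trans hk.symm)
      omega
    · exact ⟨0, fun k _ h' => h ⟨k, h'⟩⟩
  -- the trajectory leaves the interval `[-|x_j|, |x_j|]`
  obtain ⟨n₁, hn₁⟩ : ∃ n₁, ∀ n ≥ n₁, |(T d m r)^[j] x| ≤ |(T d m r)^[n] x| := by
    have hfin : {k : ℕ | |(T d m r)^[k] x| < |(T d m r)^[j] x|}.Finite := by
      have h1 : (Set.Ioo (-|(T d m r)^[j] x|) |(T d m r)^[j] x|).Finite := Set.finite_Ioo _ _
      refine (h1.preimage (hinj.injOn (s := (fun k => (T d m r)^[k] x) ⁻¹'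
        (Set.Ioo (-|(T d m r)^[j] x|) |(T d m r)^[j] x|)))).subset ?_
      intro k hk
      exact abs_lt.1 hk
    obtain ⟨B, hB⟩ := hfin.bddAbove
    refine ⟨B + 1, fun n hn => ?_⟩
    by_contra hcon
    have := hB (show n ∈ {k : ℕ | |(T d m r)^[k] x| < |(T d m r)^[j] x|} from not_le.1 hcon)
    omega
  refine ⟨max n₁ (2 * j + 6 * K), fun n hn => ?_⟩
  have hn1 : n₁ ≤ n := (le_max_left _ _).trans hn
  have hn2 : 2 * j + 6 * K ≤ n := (le_max_right _ _).trans hn
  obtain ⟨q, rfl⟩ : ∃ q, n = q + j := ⟨n - j, by omega⟩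
  have hit : ∀ k, (T d m r)^[k] ((T d m r)^[j] x) = (T d m r)^[k + j] x := fun k => by
    rw [Function.iterate_add_apply]
  have h1 := many_tr hd hr ((T d m r)^[j] x) q (fun k hk => by
    rw [hit]; exact hj _ (by omega)) (by rw [hit]; exact hn₁ _ hn1) hc M K hM hK hMK
  simp only [hit] at h1
  refine trajectory hd hm hr x (q + j)
    ((range q).filter fun k => r ((T d m r)^[k + j] x % d).toNat ≠ 0).card
    (fun a _ b _ h => hinj h) ?_ τ hτ1 hτ _ (by positivity) ?_
  · apply Finset.card_le_card_of_injOn (fun k => k + j)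
    · intro k hk
      have hk' := Finset.mem_filter.1 hk
      have hk2 : k + j < q + j := by
        have := Finset.mem_range.1 hk'.1
        omega
      exact Finset.mem_filter.2 ⟨Finset.mem_range.2 hk2, hk'.2⟩
    · intro a _ b _ h
      have : a + j = b + j := h
      omega
  · have h2 : (q : ℝ) ≤
        K * ((range q).filter fun k => r ((T d m r)^[k + j] x % d).toNat ≠ 0).card := by
      exact_mod_cast h1
    have h3 : (j : ℝ) + 6 * (K : ℝ) ≤ q := by exact_mod_cast (by omega : j + 6 * K ≤ q)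
    have e1 : (((q + j : ℕ) : ℝ)) / (4 * d * τ * K) * (2 * d * τ) = ((q + j : ℕ) : ℝ) / (2 * K) := by
      field_simp
      ring
    rw [e1]
    have h4 : (q : ℝ) / K ≤
        ((range q).filter fun k => r ((T d m r)^[k + j] x % d).toNat ≠ 0).card := by
      rw [div_le_iff₀ hK0]
      linarith
    have h5 : ((q + j : ℕ) : ℝ) / (2 * K) + 3 ≤ q / K := by
      rw [← sub_nonneg]
      have e2 : (q : ℝ) / K - (((q + j : ℕ) : ℝ) / (2 * K) + 3) = (q - j - 6 * K) / (2 * K) := by
        push_cast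
        field_simp
        ring
      rw [e2]
      apply div_nonneg _ (by positivity)
      linarith
    linarith

end

end Run7.h603.GC
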