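import Pool.Agent.Run7.h603.Sh4

set_option autoImplicit false

/-!
# Product sets of trajectories of the Collatz map
-/

namespace Run7.h603

open Finset Pool.Agent.N811.IS

/-- **Subsets of the set of the odd terms.** -/
theorem exists_B' {x : ℤ} (hx : x ≠ 0) {n : ℕ} (hn : 1 ≤ n)
    (hinj : Set.InjOn (fun k => Cz^[k] x) (Set.Iio n))
    (h : x ^ 2 ≤ 2 ^ n * (Cz^[n] x) ^ 2) (X : Finset ℤ) (hX : X ⊆ oddT x n)
    (hmiss : 1000 * (oddT x n \ X).card ≤ n) :
    X.Nonempty ∧ ∃ (k : ℕ) (B : Finset ℤ), B ⊆ X ∧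
      (∀ y ∈ B, ∃ z ∈ X, 3 * y + 1 = 2 ^ k * z) ∧ (500 ≤ n → n ≤ 500 * B.card) := by
  classical
  obtain ⟨hne, k, B, hBX, hf, hB⟩ := exists_B hx hn hinj h
  constructor
  · by_contra hcon
    rw [Finset.not_nonempty_iff_eq_empty] at hcon
    rw [hcon, Finset.sdiff_empty] at hmiss
    have h6 := many_odd hx h
    have hcO : (Od x n).card ≤ (oddT x n).card := by
      apply Finset.card_le_card_of_injOn (fun i => Cz^[i] x)
      · intro i hi
        have hi' : i ∈ Od x n := hi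
        unfold Od at hi'
        rw [Finset.mem_filter, Finset.mem_range] at hi'
        unfold oddT
        rw [Finset.mem_coe, Finset.mem_filter]
        exact ⟨Finset.mem_image.2 ⟨i, Finset.mem_range.2 hi'.1, rfl⟩, hi'.2⟩
      · intro i hi j hj hij
        have hi' : i ∈ Od x n := hi
        have hj' : j ∈ Od x n := hj
        unfold Od at hi' hj'
        rw [Finset.mem_filter, Finset.mem_range] at hi' hj'
        exact hinj hi'.1 hj'.1 hij
    omega
  · refine ⟨k, B.filter fun y => y ∈ X ∧ ∃ z ∈ X, 3 * y + 1 = 2 ^ k * z, ?_, ?_, ?_⟩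
    · intro y hy
      exact (Finset.mem_filter.1 hy).2.1
    · intro y hy
      exact (Finset.mem_filter.1 hy).2.2
    · intro h500
      have h1 := hB (by omega)
      have h2 : B.card ≤ (B.filter fun y => y ∈ X ∧ ∃ z ∈ X, 3 * y + 1 = 2 ^ k * z).card +
          ((oddT x n \ X).card + (oddT x n \ X).card) := by
        have hsub : B ⊆ (B.filter fun y => y ∈ X ∧ ∃ z ∈ X, 3 * y + 1 = 2 ^ k * z) ∪
            ((oddT x n \ X) ∪ B.filter fun y => ∃ z ∈ oddT x n \ X, 3 * y + 1 = 2 ^ k * z) := by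
          intro y hy
          obtain ⟨z, hz, hzy⟩ := hf y hy
          by_cases h3 : y ∈ X
          · by_cases h4 : z ∈ X
            · exact Finset.mem_union_left _ (Finset.mem_filter.2 ⟨hy, h3, z, h4, hzy⟩)
            · exact Finset.mem_union_right _ (Finset.mem_union_right _
                (Finset.mem_filter.2 ⟨hy, z, Finset.mem_sdiff.2 ⟨hz, h4⟩, hzy⟩))
          · exact Finset.mem_union_right _ (Finset.mem_union_left _
              (Finset.mem_sdiff.2 ⟨hBX hy, h3⟩))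
        refine (Finset.card_le_card hsub).trans ((Finset.card_union_le _ _).trans
          (Nat.add_le_add_left ((Finset.card_union_le _ _).trans
            (Nat.add_le_add_left ?_ _)) _))
        have hch : ∀ y : ℤ, ∃ z : ℤ, (∃ z' ∈ oddT x n \ X, 3 * y + 1 = 2 ^ k * z') →
            z ∈ oddT x n \ X ∧ 3 * y + 1 = 2 ^ k * z := by
          intro y
          by_cases hy : ∃ z' ∈ oddT x n \ X, 3 * y + 1 = 2 ^ k * z'
          · obtain ⟨z', h1, h2⟩ := hy
            exact ⟨z', fun _ => ⟨h1, h2⟩⟩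
          · exact ⟨0, fun h => (hy h).elim⟩
        choose g hg using hch
        apply Finset.card_le_card_of_injOn g
        · intro y hy
          exact (hg y (Finset.mem_filter.1 hy).2).1
        · intro y hy y' hy' he
          have e1 := (hg y (Finset.mem_filter.1 hy).2).2
          have e2 := (hg y' (Finset.mem_filter.1 hy').2).2
          rw [he] at e1
          omega
      omega

/-- the exponent is nonnegative -/
lemma expo_nonneg {N : ℕ} (hN : 2 ≤ N) :
    0 ≤ Real.log N / (Real.log (Real.log N) + 7 / 5) := by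
  have hN2 : (2:ℝ) ≤ N := by exact_mod_cast hN
  have hL1 := Real.log_two_gt_d9
  have hx0 : Real.log 2 ≤ Real.log N := Real.log_le_log (by norm_num) hN2
  have hD : 0 < Real.log (Real.log N) + 7 / 5 := den_pos (by linarith)
  exact div_nonneg (by linarith) hD.le

/-- **Product sets of trajectories.** -/
theorem trajectories {x : ℤ} (hx : x ≠ 0) {n : ℕ} (hn : 1 ≤ n)
    (hinj : Set.InjOn (fun k => Cz^[k] x) (Set.Iio n))
    (h : x ^ 2 ≤ 2 ^ n * (Cz^[n] x) ^ 2) (X : Finset ℤ) (hX : X ⊆ oddT x n)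
    (hmiss : 1000 * (oddT x n \ X).card ≤ n) :
    (∀ N : ℕ, 2 ≤ N → ((n : ℝ) / 500) ^ (Real.log N / (Real.log (Real.log N) + 7 / 5)) ≤
      ((prods N X).card : ℝ)) ∧
    ((n : ℝ) / 2000) ^ (5 / 4 : ℝ) ≤ ((prods 2 X).card : ℝ) ∧
    ∀ Y : Finset ℚ, Y.Nonempty → (0 : ℚ) ∉ Y → ∀ (N : ℕ) (t β : ℝ), 2 ≤ N → 2 ≤ t → 0 ≤ β →
      1 / (2 ^ (1 / t) - 1) ≤ ((N : ℝ) - (N - 1) * (2 ^ (1 / t) - 1)) ^ β →
      ((n : ℝ) / 500) ^ (1 + β) * (Y.card : ℝ) ^ (1 - 1 / t) ≤
        ((Finset.image₂ (fun (z : ℤ) (y : ℚ) => (z : ℚ) * y) X Y).card : ℝ) *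
          ((prods N X).card : ℝ) ^ β := by
  classical
  obtain ⟨hne, k, B, hBX, hf, hB⟩ := exists_B' hx hn hinj h X hX hmiss
  -- the sign
  obtain ⟨σ, hσ, hσx⟩ : ∃ σ : ℤ, (σ = 1 ∨ σ = -1) ∧ 0 < σ * x := by
    rcases lt_or_gt_of_ne hx with h1 | h1
    · exact ⟨-1, Or.inr rfl, by linarith⟩
    · exact ⟨1, Or.inl rfl, by linarith⟩
  have hs : ∀ y ∈ B, 0 < σ * y := by
    intro y hy
    have h1 := hX (hBX hy)
    unfold oddT at h1
    obtain ⟨i, _, rfl⟩ := Finset.mem_image.1 (Finset.mem_filter.1 h1).1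
    exact it_sign hσ hσx i
  have hB0 : ∀ y ∈ B, y ≠ 0 := by
    rintro y hy rfl
    have := hs 0 hy
    simp at this
  have hX1 : ∀ N, (1:ℝ) ≤ ((prods N X).card : ℝ) := fun N => by
    exact_mod_cast (prods_nonempty N hne).card_pos
  have hn0 : (0:ℝ) ≤ (n : ℝ) / 500 := by positivity
  have hBig : 500 ≤ n → B.Nonempty ∧ (n : ℝ) / 500 ≤ B.card := by
    intro h5
    have h1 := hB h5
    refine ⟨Finset.card_pos.1 (by omega), ?_⟩
    have h2 : (n : ℝ) ≤ 500 * B.card := by exact_mod_cast h1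
    linarith
  have hSmall : n < 500 → (n : ℝ) / 500 ≤ 1 := by
    intro h5
    have : (n : ℝ) ≤ 500 := by exact_mod_cast h5.le
    linarith
  refine ⟨?_, ?_, ?_⟩
  · intro N hN
    have he := expo_nonneg hN
    rcases lt_or_ge n 500 with h5 | h5
    · exact (Real.rpow_le_one hn0 (hSmall h5) he).trans (hX1 N)
    · obtain ⟨h1, h2⟩ := hBig h5
      exact (Real.rpow_le_rpow hn0 h2 he).trans (growth σ hσ k X B h1 hBX hs hf hN)
  · have h2000 : (n : ℝ) / 2000 = (n : ℝ) / 500 / 4 := by ring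
    rcases lt_or_ge n 500 with h5 | h5
    · refine (Real.rpow_le_one (by positivity) ?_ (by norm_num)).trans (hX1 2)
      have := hSmall h5
      linarith
    · obtain ⟨h1, h2⟩ := hBig h5
      have h3 := two_factors k X B hBX hB0 hf
      have h3' : (B.card : ℝ) ^ 5 ≤ 512 * ((prods 2 X).card : ℝ) ^ 4 := by exact_mod_cast h3
      have h4 : ((n : ℝ) / 2000) ^ 5 ≤ ((prods 2 X).card : ℝ) ^ 4 := by
        have h6 : ((n : ℝ) / 500) ^ 5 ≤ (B.card : ℝ) ^ 5 := pow_le_pow_left₀ hn0 h2 5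
        rw [h2000, div_pow]
        rw [div_le_iff₀ (by norm_num)]
        have h7 : (0:ℝ) ≤ ((prods 2 X).card : ℝ) ^ 4 := by positivity
        calc ((n : ℝ) / 500) ^ 5 ≤ 512 * ((prods 2 X).card : ℝ) ^ 4 := h6.trans h3'
          _ ≤ ((prods 2 X).card : ℝ) ^ 4 * 4 ^ 5 := by nlinarith
      have hb : (0:ℝ) ≤ (n : ℝ) / 2000 := by positivity
      have hc : (0:ℝ) ≤ ((prods 2 X).card : ℝ) := by positivity
      calc ((n : ℝ) / 2000) ^ (5 / 4 : ℝ) = (((n : ℝ) / 2000) ^ 5) ^ (1 / 4 : ℝ) := by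
            rw [← Real.rpow_natCast, ← Real.rpow_mul hb]; norm_num
        _ ≤ (((prods 2 X).card : ℝ) ^ 4) ^ (1 / 4 : ℝ) :=
            Real.rpow_le_rpow (by positivity) h4 (by norm_num)
        _ = ((prods 2 X).card : ℝ) := by
            rw [← Real.rpow_natCast, ← Real.rpow_mul hc]; norm_num
  · intro Y hY hY0 N t β hN ht hβ hcond
    have ht0 : 0 < t := by linarith
    have h1t : 1 / t ≤ 1 / 2 := one_div_le_one_div_of_le (by norm_num) ht
    have h1t0 : 0 < 1 / t := by positivity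
    have hc : 0 < (2:ℝ) ^ (1 / t) - 1 := by
      have := Real.one_lt_rpow (show (1:ℝ) < 2 by norm_num) h1t0
      linarith
    rcases lt_or_ge n 500 with h5 | h5
    · have h1 : ((n : ℝ) / 500) ^ (1 + β) ≤ 1 := Real.rpow_le_one hn0 (hSmall h5) (by linarith)
      have hY1 : (1:ℝ) ≤ Y.card := by exact_mod_cast hY.card_pos
      have h2 : (Y.card : ℝ) ^ (1 - 1 / t) ≤ Y.card := by
        have := Real.rpow_le_rpow_of_exponent_le hY1 (show 1 - 1 / t ≤ 1 by linarith)
        rwa [Real.rpow_one] at this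
      have h3 : (Y.card : ℝ) ≤
          ((Finset.image₂ (fun (z : ℤ) (y : ℚ) => (z : ℚ) * y) X Y).card : ℝ) := by
        obtain ⟨z, hz⟩ := hne
        have hz0 : (z : ℚ) ≠ 0 := by
          have h1 := hX hz
          unfold oddT at h1
          have := (Finset.mem_filter.1 h1).2
          have hz0 : z ≠ 0 := by omega
          exact_mod_cast hz0
        have : Y.card ≤ (Finset.image₂ (fun (z : ℤ) (y : ℚ) => (z : ℚ) * y) X Y).card := by
          apply Finset.card_le_card_of_injOn (fun y => (z : ℚ) * y)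
          · intro y hy
            exact Finset.mem_image₂.2 ⟨z, hz, y, hy, rfl⟩
          · intro y _ y' _ he
            exact mul_left_cancel₀ hz0 he
        exact_mod_cast this
      have h4 : 1 ≤ ((prods N X).card : ℝ) ^ β := Real.one_le_rpow (hX1 N) hβ
      calc ((n : ℝ) / 500) ^ (1 + β) * (Y.card : ℝ) ^ (1 - 1 / t)
          ≤ 1 * (Y.card : ℝ) := mul_le_mul h1 h2 (by positivity) (by norm_num)
        _ ≤ ((Finset.image₂ (fun (z : ℤ) (y : ℚ) => (z : ℚ) * y) X Y).card : ℝ) * 1 := by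
            linarith
        _ ≤ _ := mul_le_mul_of_nonneg_left h4 (by positivity)
    · obtain ⟨h1, h2⟩ := hBig h5
      have h3 := expand σ hσ k X B h1 hBX hs hf hN (θ := 1 - 1 / t) (c := 2 ^ (1 / t) - 1)
        (β := β) (by linarith) (by linarith) hc (by rw [sub_sub_cancel]) hβ hcond Y hY hY0
      refine le_trans ?_ h3
      apply mul_le_mul_of_nonneg_right _ (by positivity)
      exact Real.rpow_le_rpow hn0 h2 (by linarith)

end Run7.h603
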