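import Pool.Agent.Run7.h603.Dl1
import Pool.Agent.Run7.h603.Sh5

set_option autoImplicit false

/-!
# Finite unions of cycles of the maps `x ↦ x / 2`, `(q x + 1) / 2`
-/

namespace Run7.h603.Q

open Finset

/-- the shortcut map -/
def T (q x : ℤ) : ℤ := if x % 2 = 0 then x / 2 else (q * x + 1) / 2

lemma T_even {q y : ℤ} (h : y % 2 = 0) : 2 * T q y = y := by
  unfold T
  rw [if_pos h]
  omega

lemma T_odd {q y : ℤ} (hq : q % 2 = 1) (h : y % 2 = 1) : 2 * T q y = q * y + 1 := by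
  unfold T
  rw [if_neg (by omega)]
  have h1 : (q * y + 1) % 2 = 0 := by
    rw [Int.add_emod, Int.mul_emod, hq, h]
    norm_num
  omega

lemma it_succ' (q x : ℤ) (i : ℕ) : (T q)^[i + 1] x = T q ((T q)^[i] x) :=
  Function.iterate_succ_apply' _ _ _

/-- a run of even terms after an odd one -/
lemma run' {q x : ℤ} (hq : q % 2 = 1) (hx : x % 2 = 1) {k : ℕ} (hk : 1 ≤ k)
    (h : ∀ j, 1 ≤ j → j < k → (T q)^[j] x % 2 = 0) : q * x + 1 = 2 ^ k * (T q)^[k] x := by
  induction k, hk using Nat.le_induction with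
  | base =>
    rw [Function.iterate_one, pow_one]
    exact (T_odd hq hx).symm
  | succ k hk ih =>
    have h1 := ih fun j hj1 hj2 => h j hj1 (by omega)
    have h2 := h k hk (by omega)
    have h3 : 2 * T q ((T q)^[k] x) = (T q)^[k] x := T_even h2
    rw [h1, it_succ', pow_succ, mul_assoc, h3]

section
variable {q : ℤ} (hq : q % 2 = 1) (hq3 : 3 ≤ q) {L : ℕ} (hL : q + 1 ≤ 2 ^ L) {P : Finset ℤ}
  (hP0 : (0 : ℤ) ∉ P) (hP : P.image (T q) = P)

include hP in
lemma inj : Set.InjOn (T q) (P : Set ℤ) := by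
  apply Finset.card_image_iff.1
  rw [hP]

include hP in
lemma maps {y : ℤ} (hy : y ∈ P) : T q y ∈ P := by
  have := Finset.mem_image_of_mem (T q) hy
  rwa [hP] at this

include hP in
lemma maps_it {y : ℤ} (hy : y ∈ P) (j : ℕ) : (T q)^[j] y ∈ P := by
  induction j with
  | zero => exact hy
  | succ j ih => rw [it_succ']; exact maps hP ih

include hP in
lemma inj_it {y z : ℤ} (hy : y ∈ P) (hz : z ∈ P) (j : ℕ) (h : (T q)^[j] y = (T q)^[j] z) :
    y = z := by
  induction j with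
  | zero => exact h
  | succ j ih =>
    rw [it_succ', it_succ'] at h
    exact ih (inj hP (maps_it hP hy j) (maps_it hP hz j) h)

include hq hq3 hL hP0 hP in
/-- there are many odd elements -/
lemma many_odd' : P.card ≤ L * (P.filter fun y => y % 2 = 1).card := by
  classical
  have hprod : ∏ y ∈ P, |T q y| = ∏ y ∈ P, |y| := by
    conv_rhs => rw [← hP]
    rw [Finset.prod_image (fun a ha b hb h => inj hP ha hb h)]
  have hpos : 0 < ∏ y ∈ P, |y| := by
    refine Finset.prod_pos fun y hy => ?_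
    have : y ≠ 0 := by rintro rfl; exact hP0 hy
    positivity
  have h1 : ∏ y ∈ P, (2 * |T q y|) ≤ ∏ y ∈ P, ((if y % 2 = 1 then 2 ^ L else 1) * |y|) := by
    refine Finset.prod_le_prod (fun y _ => by positivity) fun y hy => ?_
    have hy0 : y ≠ 0 := by rintro rfl; exact hP0 hy
    have h1 : 1 ≤ |y| := Int.one_le_abs hy0
    have e : 2 * |T q y| = |2 * T q y| := by rw [abs_mul]; simp
    rcases Int.emod_two_eq_zero_or_one y with h | h
    · rw [e, T_even h, if_neg (by omega), one_mul]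
    · rw [e, T_odd hq h, if_pos h]
      calc |q * y + 1| ≤ |q * y| + |1| := abs_add_le _ _
        _ = q * |y| + 1 := by rw [abs_mul, abs_of_nonneg (show (0 : ℤ) ≤ q by omega)]; norm_num
        _ ≤ (q + 1) * |y| := by linarith
        _ ≤ 2 ^ L * |y| := mul_le_mul_of_nonneg_right hL (by positivity)
  rw [Finset.prod_mul_distrib, Finset.prod_mul_distrib, hprod, Finset.prod_const] at h1
  have h2 := le_of_mul_le_mul_right h1 hpos
  rw [Finset.prod_ite, Finset.prod_const, Finset.prod_const_one, mul_one, ← pow_mul] at h2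
  exact (pow_le_pow_iff_right₀ (by norm_num : (1 : ℤ) < 2)).1 h2

/-- the orbit of `y` has its first odd term after `y` at time `k` -/
def Pk' (q y : ℤ) (k : ℕ) : Prop :=
  (∀ j, 1 ≤ j → j < k → (T q)^[j] y % 2 = 0) ∧ (T q)^[k] y % 2 = 1

/-- there are at least `M - 1` even terms after `y` -/
def Qk' (q : ℤ) (M : ℕ) (y : ℤ) : Prop := ∀ j, 1 ≤ j → j < M → (T q)^[j] y % 2 = 0

lemma dich' (q : ℤ) (M : ℕ) (y : ℤ) : Qk' q M y ∨ ∃ k ∈ Ico 1 M, Pk' q y k := by
  classical
  by_cases hQ : Qk' q M y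
  · exact Or.inl hQ
  right
  unfold Qk' at hQ
  push Not at hQ
  have hex : ∃ j, 1 ≤ j ∧ j < M ∧ ¬ (T q)^[j] y % 2 = 0 := by
    obtain ⟨j, h1, h2, h3⟩ := hQ
    exact ⟨j, h1, h2, h3⟩
  obtain ⟨h1, h2, h3⟩ := Nat.find_spec hex
  have hmin := fun j (hj : j < Nat.find hex) => Nat.find_min hex hj
  obtain ⟨j, hj⟩ : ∃ j, j = Nat.find hex := ⟨_, rfl⟩
  rw [← hj] at h1 h2 h3 hmin
  refine ⟨j, Finset.mem_Ico.2 ⟨h1, h2⟩, ?_, ?_⟩
  · intro a ha1 ha2
    by_contra hcon
    exact hmin a ha2 ⟨ha1, by omega, hcon⟩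
  · omega

include hP in
open Classical in
/-- long runs are rare -/
lemma few_long (M : ℕ) :
    ((P.filter fun y => y % 2 = 1).filter (Qk' q M)).card * M ≤ P.card := by
  have e : ((P.filter fun y => y % 2 = 1).filter (Qk' q M)).card * M =
      (((P.filter fun y => y % 2 = 1).filter (Qk' q M)) ×ˢ range M).card := by
    rw [Finset.card_product, Finset.card_range]
  rw [e]
  have key : ∀ (y z : ℤ) (i j : ℕ), y ∈ P → z ∈ P → y % 2 = 1 → Qk' q M z → j < M → i ≤ j →
      (T q)^[i] y = (T q)^[j] z → i = j ∧ y = z := by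
    intro y z i j hy hz hy1 hQ hj hij he
    have e1 : (T q)^[j] z = (T q)^[i] ((T q)^[j - i] z) := by
      rw [← Function.iterate_add_apply, show i + (j - i) = j by omega]
    rw [e1] at he
    have h1 := inj_it hP hy (maps_it hP hz _) i he
    rcases Nat.eq_or_lt_of_le hij with h | h
    · subst h
      exact ⟨rfl, by simpa using h1⟩
    · exfalso
      have := hQ (j - i) (by omega) (by omega)
      rw [← h1] at this
      omega
  apply Finset.card_le_card_of_injOn (fun w => (T q)^[w.2] w.1)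
  · rintro ⟨y, j⟩ hw
    simp only [Finset.coe_product, Set.mem_prod, Finset.mem_coe, Finset.mem_filter] at hw
    exact maps_it hP hw.1.1.1 j
  · rintro ⟨y, i⟩ hw ⟨z, j⟩ hw' he
    simp only [Finset.coe_product, Set.mem_prod, Finset.mem_coe, Finset.mem_filter,
      Finset.mem_range] at hw hw'
    simp only at he
    obtain ⟨⟨⟨hy, hy1⟩, hyQ⟩, hi⟩ := hw
    obtain ⟨⟨⟨hz, hz1⟩, hzQ⟩, hj⟩ := hw'
    rcases le_total i j with h | h
    · obtain ⟨h1, h2⟩ := key y z i j hy hz hy1 hzQ hj h he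
      rw [h1, h2]
    · obtain ⟨h1, h2⟩ := key z y j i hz hy hz1 hyQ hi h he.symm
      rw [h1, h2]

include hq hq3 hL hP0 hP in
/-- **The set `B`.** -/
theorem exists_Bu (hne : P.Nonempty) (X : Finset ℤ) (hX : X ⊆ P.filter fun y => y % 2 = 1)
    (hmiss : 32 * L ^ 2 * ((P.filter fun y => y % 2 = 1) \ X).card ≤ P.card) :
    ∃ (σ : ℤ) (k : ℕ) (B : Finset ℤ), (σ = 1 ∨ σ = -1) ∧ B.Nonempty ∧ B ⊆ X ∧
      (∀ y ∈ B, 0 < σ * y) ∧ (∀ y ∈ B, ∃ z ∈ X, q * y + 1 = 2 ^ k * z) ∧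
      P.card ≤ 16 * L ^ 2 * B.card := by
  classical
  have hL1 : 2 ≤ L := by
    by_contra hcon
    have : L ≤ 1 := by omega
    have h2 : (2 : ℤ) ^ L ≤ 2 ^ 1 := pow_le_pow_right₀ (by norm_num) this
    omega
  set S := P.filter fun y => y % 2 = 1 with hS
  have hodd := many_odd' hq hq3 hL hP0 hP
  rw [← hS] at hodd
  have hlong := few_long hP (2 * L)
  rw [← hS] at hlong
  -- the classes
  set I : Finset (ℤ × ℕ) := ({1, -1} : Finset ℤ) ×ˢ Ico 1 (2 * L) with hI
  have hIc : I.card = 2 * (2 * L - 1) := by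
    rw [hI, Finset.card_product, Nat.card_Ico]
    rfl
  set C : ℤ × ℕ → Finset ℤ := fun w => S.filter fun y => 0 < w.1 * y ∧ Pk' q y w.2 with hC
  have hsplit : S ⊆ S.filter (Qk' q (2 * L)) ∪ I.biUnion C := by
    intro y hy
    have hyP : y ∈ P := (Finset.mem_filter.1 hy).1
    have hy0 : y ≠ 0 := by rintro rfl; exact hP0 hyP
    rcases dich' q (2 * L) y with h | ⟨k, hk, hp⟩
    · exact Finset.mem_union_left _ (Finset.mem_filter.2 ⟨hy, h⟩)
    · refine Finset.mem_union_right _ (Finset.mem_biUnion.2 ?_)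
      rcases lt_or_gt_of_ne hy0 with h | h
      · exact ⟨(-1, k), by simp only [hI, Finset.mem_product]; exact ⟨by simp, hk⟩,
          Finset.mem_filter.2 ⟨hy, by simp only; omega, hp⟩⟩
      · exact ⟨(1, k), by simp only [hI, Finset.mem_product]; exact ⟨by simp, hk⟩,
          Finset.mem_filter.2 ⟨hy, by simp only; omega, hp⟩⟩
  have hcard : S.card ≤ (S.filter (Qk' q (2 * L))).card + ∑ w ∈ I, (C w).card :=
    (Finset.card_le_card hsplit).trans ((Finset.card_union_le _ _).trans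
      (Nat.add_le_add_left Finset.card_biUnion_le _))
  obtain ⟨w, hw, hle⟩ : ∃ w ∈ I, ∑ w ∈ I, (C w).card ≤ 2 * (2 * L - 1) * (C w).card := by
    have hIne : I.Nonempty := by
      rw [← Finset.card_pos, hIc]
      have : 0 < 2 * L - 1 := by omega
      positivity
    obtain ⟨w, hw, hmax⟩ := Finset.exists_max_image I (fun w => (C w).card) hIne
    refine ⟨w, hw, ?_⟩
    have := Finset.sum_le_card_nsmul I (fun w => (C w).card) _ hmax
    rwa [hIc, smul_eq_mul] at this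
  have hn : 0 < P.card := hne.card_pos
  -- `n ≤ 8 L ^ 2 |C w|`
  have hbig : P.card ≤ 8 * L ^ 2 * (C w).card := by
    obtain ⟨M, hM⟩ : ∃ M, L = M + 1 := ⟨L - 1, by omega⟩
    have e1 : 2 * L - 1 = 2 * M + 1 := by omega
    rw [e1] at hle
    set s := S.card
    set t := (S.filter (Qk' q (2 * L))).card
    set b := (C w).card
    set r := ∑ w ∈ I, (C w).card
    have h1 : 2 * L * s ≤ 2 * L * (t + r) := Nat.mul_le_mul_left _ hcard
    have h2 : t * (2 * L) ≤ P.card := hlong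
    have h3 : 2 * L * r ≤ 2 * L * (2 * (2 * M + 1) * b) := Nat.mul_le_mul_left _ hle
    have h4 : P.card ≤ 2 * L * (2 * (2 * M + 1) * b) := by nlinarith
    have h5 : 2 * L * (2 * (2 * M + 1) * b) ≤ 8 * L ^ 2 * b := by
      rw [hM]
      nlinarith [Nat.zero_le b, Nat.zero_le (M * b)]
    exact h4.trans h5
  obtain ⟨σ, k⟩ := w
  have hw' := Finset.mem_product.1 hw
  have hσ : σ = 1 ∨ σ = -1 := by simpa using hw'.1
  have hk1 : 1 ≤ k := (Finset.mem_Ico.1 hw'.2).1
  -- remove the elements which are missing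
  set B := (C (σ, k)).filter fun y => y ∈ X ∧ (T q)^[k] y ∈ X with hBdef
  have hCP : ∀ y ∈ C (σ, k), y ∈ P ∧ y % 2 = 1 := fun y hy =>
    Finset.mem_filter.1 (Finset.mem_filter.1 hy).1
  have hsub : C (σ, k) ⊆ B ∪ ((S \ X) ∪ (C (σ, k)).filter fun y => (T q)^[k] y ∈ S \ X) := by
    intro y hy
    have hyS : y ∈ S := (Finset.mem_filter.1 hy).1
    have hy2 := (Finset.mem_filter.1 hy).2
    have hz : (T q)^[k] y ∈ S :=
      Finset.mem_filter.2 ⟨maps_it hP (hCP y hy).1 k, hy2.2.2⟩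
    by_cases h3 : y ∈ X
    · by_cases h4 : (T q)^[k] y ∈ X
      · exact Finset.mem_union_left _ (Finset.mem_filter.2 ⟨hy, h3, h4⟩)
      · exact Finset.mem_union_right _ (Finset.mem_union_right _
          (Finset.mem_filter.2 ⟨hy, Finset.mem_sdiff.2 ⟨hz, h4⟩⟩))
    · exact Finset.mem_union_right _ (Finset.mem_union_left _ (Finset.mem_sdiff.2 ⟨hyS, h3⟩))
  have hsmall : ((C (σ, k)).filter fun y => (T q)^[k] y ∈ S \ X).card ≤ (S \ X).card := by
    apply Finset.card_le_card_of_injOn (fun y => (T q)^[k] y)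
    · intro y hy
      exact (Finset.mem_filter.1 hy).2
    · intro y hy z hz he
      exact inj_it hP (hCP y (Finset.mem_filter.1 hy).1).1 (hCP z (Finset.mem_filter.1 hz).1).1 k he
  have hBc : (C (σ, k)).card ≤ B.card + 2 * (S \ X).card := by
    have h1 := Finset.card_le_card hsub
    have h2 := Finset.card_union_le B ((S \ X) ∪ (C (σ, k)).filter fun y => (T q)^[k] y ∈ S \ X)
    have h3 := Finset.card_union_le (S \ X) ((C (σ, k)).filter fun y => (T q)^[k] y ∈ S \ X)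
    omega
  have hfin : P.card ≤ 16 * L ^ 2 * B.card := by
    have h1 : 8 * L ^ 2 * (C (σ, k)).card ≤ 8 * L ^ 2 * (B.card + 2 * (S \ X).card) :=
      Nat.mul_le_mul_left _ hBc
    have h2 : 2 * P.card ≤ 16 * L ^ 2 * B.card + 32 * L ^ 2 * (S \ X).card := by nlinarith
    omega
  refine ⟨σ, k, B, hσ, ?_, ?_, ?_, ?_, hfin⟩
  · rw [← Finset.card_pos]
    by_contra hcon
    have h0 : B.card = 0 := by omega
    rw [h0, mul_zero] at hfin
    omega
  · intro y hy
    exact (Finset.mem_filter.1 hy).2.1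
  · intro y hy
    exact (Finset.mem_filter.1 (Finset.mem_filter.1 hy).1).2.1
  · intro y hy
    have h1 := Finset.mem_filter.1 hy
    have h2 := (Finset.mem_filter.1 h1.1).2.2
    refine ⟨_, h1.2.2, run' hq (hCP y h1.1).2 hk1 h2.1⟩

include hq hq3 hL hP0 hP in
/-- **Product sets of finite unions of cycles.** -/
theorem cycles (hne : P.Nonempty) (X : Finset ℤ) (hX : X ⊆ P.filter fun y => y % 2 = 1)
    (hmiss : 32 * L ^ 2 * ((P.filter fun y => y % 2 = 1) \ X).card ≤ P.card) :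
    (∀ N : ℕ, 2 ≤ N →
      ((P.card : ℝ) / (16 * L ^ 2)) ^ (Real.log N / (Real.log (Real.log N) + 7 / 5)) ≤
        ((prods N X).card : ℝ)) ∧
    ((P.card : ℝ) / (64 * L ^ 2)) ^ (5 / 4 : ℝ) ≤ ((prods 2 X).card : ℝ) ∧
    ∀ Y : Finset ℚ, Y.Nonempty → (0 : ℚ) ∉ Y → ∀ (N : ℕ) (t β : ℝ), 2 ≤ N → 2 ≤ t → 0 ≤ β →
      1 / (2 ^ (1 / t) - 1) ≤ ((N : ℝ) - (N - 1) * (2 ^ (1 / t) - 1)) ^ β →
      ((P.card : ℝ) / (16 * L ^ 2)) ^ (1 + β) * (Y.card : ℝ) ^ (1 - 1 / t) ≤
        ((Finset.image₂ (fun (z : ℤ) (y : ℚ) => (z : ℚ) * y) X Y).card : ℝ) *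
          ((prods N X).card : ℝ) ^ β := by
  classical
  obtain ⟨σ, k, B, hσ, hBne, hBX, hs, hf, hB⟩ := exists_Bu hq hq3 hL hP0 hP hne X hX hmiss
  have hL1 : 2 ≤ L := by
    by_contra hcon
    have : L ≤ 1 := by omega
    have h2 : (2 : ℤ) ^ L ≤ 2 ^ 1 := pow_le_pow_right₀ (by norm_num) this
    omega
  have hL0 : (0 : ℝ) < L := by exact_mod_cast (by omega : 0 < L)
  have hn0 : (0 : ℝ) ≤ (P.card : ℝ) / (16 * L ^ 2) := by positivity
  have hle : (P.card : ℝ) / (16 * L ^ 2) ≤ B.card := by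
    rw [div_le_iff₀ (by positivity)]
    have : (P.card : ℝ) ≤ 16 * L ^ 2 * B.card := by exact_mod_cast hB
    linarith
  have hB0 : ∀ y ∈ B, y ≠ 0 := by
    rintro y hy rfl
    have := hs 0 hy
    simp at this
  refine ⟨?_, ?_, ?_⟩
  · intro N hN
    exact (Real.rpow_le_rpow hn0 hle (expo_nonneg hN)).trans
      (growth q (by omega) σ hσ k X B hBne hBX hs hf hN)
  · have h3 := two_factors q (by omega) k X B hBX hB0 hf
    have h3' : (B.card : ℝ) ^ 5 ≤ 512 * ((prods 2 X).card : ℝ) ^ 4 := by exact_mod_cast h3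
    have e64 : (P.card : ℝ) / (64 * L ^ 2) = (P.card : ℝ) / (16 * L ^ 2) / 4 := by
      field_simp
      norm_num
    have h4 : ((P.card : ℝ) / (64 * L ^ 2)) ^ 5 ≤ ((prods 2 X).card : ℝ) ^ 4 := by
      have h6 : ((P.card : ℝ) / (16 * L ^ 2)) ^ 5 ≤ (B.card : ℝ) ^ 5 := pow_le_pow_left₀ hn0 hle 5
      rw [e64, div_pow]
      rw [div_le_iff₀ (by norm_num)]
      have h7 : (0:ℝ) ≤ ((prods 2 X).card : ℝ) ^ 4 := by positivity
      calc ((P.card : ℝ) / (16 * L ^ 2)) ^ 5 ≤ 512 * ((prods 2 X).card : ℝ) ^ 4 := h6.trans h3'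
        _ ≤ ((prods 2 X).card : ℝ) ^ 4 * 4 ^ 5 := by nlinarith
    have hb : (0:ℝ) ≤ (P.card : ℝ) / (64 * L ^ 2) := by positivity
    have hc : (0:ℝ) ≤ ((prods 2 X).card : ℝ) := by positivity
    generalize (P.card : ℝ) / (64 * L ^ 2) = w at h4 hb ⊢
    calc w ^ (5 / 4 : ℝ) = (w ^ 5) ^ (1 / 4 : ℝ) := by
          rw [← Real.rpow_natCast, ← Real.rpow_mul hb]; norm_num
      _ ≤ (((prods 2 X).card : ℝ) ^ 4) ^ (1 / 4 : ℝ) :=
          Real.rpow_le_rpow (by positivity) h4 (by norm_num)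
      _ = ((prods 2 X).card : ℝ) := by
          rw [← Real.rpow_natCast, ← Real.rpow_mul hc]; norm_num
  · intro Y hY hY0 N t β hN ht hβ hcond
    have ht0 : 0 < t := by linarith
    have h1t : 1 / t ≤ 1 / 2 := one_div_le_one_div_of_le (by norm_num) ht
    have h1t0 : 0 < 1 / t := by positivity
    have hc : 0 < (2:ℝ) ^ (1 / t) - 1 := by
      have := Real.one_lt_rpow (show (1:ℝ) < 2 by norm_num) h1t0
      linarith
    have h3 := expand q (by omega) σ hσ k X B hBne hBX hs hf hN (θ := 1 - 1 / t)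
      (c := 2 ^ (1 / t) - 1) (β := β) (by linarith) (by linarith) hc (by rw [sub_sub_cancel]) hβ
      hcond Y hY hY0
    refine le_trans ?_ h3
    apply mul_le_mul_of_nonneg_right _ (by positivity)
    exact Real.rpow_le_rpow hn0 hle (by linarith)

end

end Run7.h603.Q
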