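import Pool.Agent.Run7.h603.Dl7

set_option autoImplicit false

/-!
# The generalized Hasse-Syracuse maps of Möller
-/

namespace Run7.h603.MO

open Finset Run7.h603 Run7.h603.Q Run7.h603.GC Run7.h603.AC

/-- the map -/
noncomputable def H (d m : ℕ) (r : ℤ → ℤ) (x : ℤ) : ℤ :=
  ((m : ℤ) * x - r (x % (d : ℤ))) / (d : ℤ) ^ (multiplicity (d : ℤ) ((m : ℤ) * x - r (x % (d : ℤ))))

/-- the exceptional set -/
def E (d m : ℕ) (r : ℤ → ℤ) : Set ℤ :=
  {n : ℤ | 0 < n ∧ ¬ ((d : ℤ) ∣ n) ∧ ∀ k : ℕ, ¬ ((H d m r)^[k] n < n)}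

/-- the exponent of the denominator -/
noncomputable def ex (d m : ℕ) (r : ℤ → ℤ) (x : ℤ) : ℕ :=
  multiplicity (d : ℤ) ((m : ℤ) * x - r (x % (d : ℤ)))

section
variable {d m : ℕ} (hd : 2 ≤ d) (hm : 1 ≤ m) (hcop : Nat.Coprime m d) {r : ℤ → ℤ}
  (hr : ∀ j : ℤ, 0 < j → j < (d : ℤ) → r j ≡ (m : ℤ) * j [ZMOD (d : ℤ)])

include hd in
lemma res_pos {y : ℤ} (hy : ¬ (d : ℤ) ∣ y) : 0 < y % d ∧ y % d < d := by
  have h1 : 0 ≤ y % d := Int.emod_nonneg _ (by omega)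
  have h2 : y % d < d := Int.emod_lt_of_pos _ (by omega)
  have h3 : y % d ≠ 0 := fun h => hy (Int.dvd_of_emod_eq_zero h)
  omega

include hcop hr in
lemma r_ne {j : ℤ} (h1 : 0 < j) (h2 : j < d) : r j ≠ 0 := by
  intro h0
  have h3 := hr j h1 h2
  rw [h0] at h3
  have h4 : (d : ℤ) ∣ m * j := by
    have := h3.dvd
    simpa using this
  have h5 : IsCoprime (d : ℤ) (m : ℤ) := by
    rw [Nat.isCoprime_iff_coprime]
    exact hcop.symm
  have h6 := h5.dvd_of_dvd_mul_left h4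
  have := Int.le_of_dvd h1 h6
  omega

include hd hr in
lemma dvd_step {y : ℤ} (hy : ¬ (d : ℤ) ∣ y) : (d : ℤ) ∣ (m : ℤ) * y - r (y % d) := by
  obtain ⟨h1, h2⟩ := res_pos hd hy
  have h3 := hr _ h1 h2
  have h4 : (m : ℤ) * (y % d) ≡ m * y [ZMOD d] := Int.ModEq.mul_left _ (Int.mod_modEq y d)
  exact (h3.trans h4).dvd

include hd in
lemma fin_mult {z : ℤ} (hz : z ≠ 0) : FiniteMultiplicity (d : ℤ) z := by
  rw [Int.finiteMultiplicity_iff]
  refine ⟨?_, hz⟩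
  rw [Int.natAbs_natCast]
  omega

include hd in
lemma step_eq {y : ℤ} (h0 : (m : ℤ) * y - r (y % d) ≠ 0) :
    (m : ℤ) * y + -(r (y % d)) = (d : ℤ) ^ ex d m r y * H d m r y ∧ ¬ (d : ℤ) ∣ H d m r y := by
  have hf := fin_mult hd h0
  have h1 : (d : ℤ) ^ ex d m r y ∣ (m : ℤ) * y - r (y % d) := pow_multiplicity_dvd _ _
  have h2 : (d : ℤ) ^ ex d m r y * H d m r y = (m : ℤ) * y - r (y % d) :=
    Int.mul_ediv_cancel' h1
  refine ⟨by rw [h2]; ring, fun h3 => ?_⟩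
  have h4 : (d : ℤ) ^ (ex d m r y + 1) ∣ (m : ℤ) * y - r (y % d) := by
    rw [← h2, pow_succ]
    exact mul_dvd_mul_left _ h3
  exact hf.not_pow_dvd_of_multiplicity_lt (Nat.lt_succ_self _) h4

include hd hm hr in
lemma step {y : ℤ} (hy : ¬ (d : ℤ) ∣ y) (hH : H d m r y ≠ 0) :
    Step d (m : ℤ) (Ioo (0 : ℤ) d) (fun j => -(r j)) (H d m r) (ex d m r) (fun y => y % d) y ∧
      ¬ (d : ℤ) ∣ H d m r y := by
  have h0 : (m : ℤ) * y - r (y % d) ≠ 0 := by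
    intro h0
    apply hH
    unfold H
    rw [h0, Int.zero_ediv]
  obtain ⟨h1, h2⟩ := step_eq hd h0
  have h3 := dvd_step hd hr hy
  have h4 : 1 ≤ ex d m r y := by
    have hf := fin_mult hd h0
    unfold ex
    rw [Nat.one_le_iff_ne_zero]
    intro h5
    exact (multiplicity_eq_zero.1 h5) h3
  refine ⟨⟨?_, hH, Finset.mem_Ioo.2 (res_pos hd hy), h4, h1⟩, h2⟩
  rintro rfl
  exact hy (dvd_zero _)

include hd hm hr in
lemma steps {x : ℤ} (hx : ¬ (d : ℤ) ∣ x) {n : ℕ} (h0 : ∀ k, k ≤ n → (H d m r)^[k] x ≠ 0) :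
    ∀ k, k < n → Step d (m : ℤ) (Ioo (0 : ℤ) d) (fun j => -(r j)) (H d m r) (ex d m r)
      (fun y => y % d) ((H d m r)^[k] x) := by
  have key : ∀ k, k ≤ n → ¬ (d : ℤ) ∣ (H d m r)^[k] x := by
    intro k
    induction k with
    | zero => intro _; exact hx
    | succ k ih =>
      intro hk
      have h1 := h0 (k + 1) hk
      rw [Function.iterate_succ_apply'] at h1 ⊢
      exact (step hd hm hr (ih (by omega)) h1).2
  intro k hk
  have h1 := h0 (k + 1) hk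
  rw [Function.iterate_succ_apply'] at h1
  exact (step hd hm hr (key k hk.le) h1).1

/-- `|m y - r| ≤ d ^ A |y|` -/
lemma bound {A : ℕ} {R y b : ℤ} (hR : |b| ≤ R) (hA : (m : ℤ) * |y| + R ≤ (d : ℤ) ^ A * |y|) :
    |(m : ℤ) * y + -b| ≤ (d : ℤ) ^ A * |y| := by
  calc |(m : ℤ) * y + -b| ≤ |(m : ℤ) * y| + |-b| := abs_add_le _ _
    _ = m * |y| + |b| := by rw [abs_mul, abs_neg, Nat.abs_cast]
    _ ≤ _ := by linarith

lemma card_C (hd : 2 ≤ d) : ((Ioo (0 : ℤ) d).card : ℝ) = (d : ℝ) - 1 := by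
  rw [Int.card_Ioo]
  have : (((d : ℤ) - 0 - 1).toNat : ℤ) = (d : ℤ) - 1 := by
    rw [Int.toNat_of_nonneg (by omega)]
    ring
  have h2 : ((((d : ℤ) - 0 - 1).toNat : ℤ) : ℝ) = ((d : ℤ) - 1 : ℤ) := by exact_mod_cast this
  push_cast at h2 ⊢
  exact h2

lemma C_ne (hd : 2 ≤ d) : (Ioo (0 : ℤ) d).Nonempty := ⟨1, Finset.mem_Ioo.2 ⟨by norm_num, by omega⟩⟩

/-- Möller's condition implies `m < d ^ 2` -/
lemma moller (hd : 2 ≤ d) (hcop : Nat.Coprime m d)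
    (h : (m : ℝ) ≤ (d : ℝ) ^ ((d : ℝ) / ((d : ℝ) - 1))) : m < d ^ 2 := by
  have hd1 : (1 : ℝ) < d := by exact_mod_cast (by omega : 1 < d)
  rcases Nat.eq_or_lt_of_le hd with h2 | h2
  · subst h2
    have h3 : (m : ℝ) ≤ 4 := by
      refine h.trans ?_
      norm_num
    have h4 : m ≤ 4 := by exact_mod_cast h3
    have h5 : m ≠ 4 := by
      rintro rfl
      revert hcop
      decide
    omega
  · have h3 : (d : ℝ) ^ ((d : ℝ) / ((d : ℝ) - 1)) < (d : ℝ) ^ (2 : ℝ) := by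
      apply Real.rpow_lt_rpow_of_exponent_lt hd1
      rw [div_lt_iff₀ (by linarith)]
      have : (3 : ℝ) ≤ d := by exact_mod_cast h2
      linarith
    have h4 := h.trans_lt h3
    rw [Real.rpow_two] at h4
    exact_mod_cast h4

variable {τ : ℕ} (hτ1 : 1 ≤ τ) (hτ : ∀ j : ℤ, 0 < j → j < d → (Nat.divisors (r j).natAbs).card ≤ τ)
  {R : ℤ} (hR : ∀ j : ℤ, 0 < j → j < d → |r j| ≤ R)

include hd hm hcop hr hτ1 hτ hR in
/-- **Trajectories.** -/
theorem traj (x : ℤ) (n : ℕ) (hx : ¬ (d : ℤ) ∣ x) (hinj : Set.InjOn (fun k => (H d m r)^[k] x) (Set.Iic n))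
    (h0 : ∀ k, k ≤ n → (H d m r)^[k] x ≠ 0) (hup : |x| ≤ |(H d m r)^[n] x|) (A : ℕ) (hA1 : 1 ≤ A)
    (hA : ∀ k, k < n → (m : ℤ) * |(H d m r)^[k] x| + R ≤ (d : ℤ) ^ A * |(H d m r)^[k] x|) :
    Large ((range (n + 1)).image fun k => (H d m r)^[k] x) ((n : ℝ) / (8 * (d - 1) * A * τ)) := by
  have hd1 : (0 : ℝ) < (d : ℝ) - 1 := by
    have : (2 : ℝ) ≤ d := by exact_mod_cast hd
    linarith
  have hA0 : (0 : ℝ) < A := by exact_mod_cast hA1
  have ht0 : (0 : ℝ) < τ := by exact_mod_cast hτ1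
  have hst := steps hd hm hr hx h0
  refine Run7.h603.AC.traj hd (by omega) (C_ne hd)
    (b := fun j => -(r j)) (fun j hj => neg_ne_zero.2 (r_ne hcop hr (Finset.mem_Ioo.1 hj).1
      (Finset.mem_Ioo.1 hj).2)) hτ1 (fun j hj => by
      rw [Int.natAbs_neg]
      exact hτ j (Finset.mem_Ioo.1 hj).1 (Finset.mem_Ioo.1 hj).2) x n hinj hst hup A hA1 ?_ _
    (by positivity) ?_
  · intro k hk
    have h1 := (hst k hk).2.2.1
    rw [Finset.mem_Ioo] at h1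
    exact bound (hR _ h1.1 h1.2) (hA k hk)
  · rw [card_C hd, div_mul_cancel₀ _ (by positivity)]

include hd hm hcop hr hτ1 hτ hR in
/-- **Unions of cycles.** -/
theorem cyc (P X : Finset ℤ) (hPd : ∀ y ∈ P, ¬ (d : ℤ) ∣ y) (hP : P.image (H d m r) = P)
    (hX : X ⊆ P) (A : ℕ) (hA1 : 1 ≤ A)
    (hA : ∀ y ∈ P, (m : ℤ) * |y| + R ≤ (d : ℤ) ^ A * |y|) (hmiss : 8 * (P \ X).card ≤ P.card) :
    Large X ((P.card : ℝ) / (16 * (d - 1) * A * τ)) := by
  have hd1 : (0 : ℝ) < (d : ℝ) - 1 := by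
    have : (2 : ℝ) ≤ d := by exact_mod_cast hd
    linarith
  have hA0 : (0 : ℝ) < A := by exact_mod_cast hA1
  have ht0 : (0 : ℝ) < τ := by exact_mod_cast hτ1
  have hst : ∀ y ∈ P, Step d (m : ℤ) (Ioo (0 : ℤ) d) (fun j => -(r j)) (H d m r) (ex d m r)
      (fun y => y % d) y := by
    intro y hy
    refine (step hd hm hr (hPd y hy) ?_).1
    intro h0
    have h1 := Finset.mem_image_of_mem (H d m r) hy
    rw [hP, h0] at h1
    exact hPd 0 h1 (dvd_zero _)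
  refine Run7.h603.AC.cyc hd (by omega) (C_ne hd)
    (b := fun j => -(r j)) (fun j hj => neg_ne_zero.2 (r_ne hcop hr (Finset.mem_Ioo.1 hj).1
      (Finset.mem_Ioo.1 hj).2)) hτ1 (fun j hj => by
      rw [Int.natAbs_neg]
      exact hτ j (Finset.mem_Ioo.1 hj).1 (Finset.mem_Ioo.1 hj).2) P X hP hst hX A hA1 ?_ _
    (by positivity) ?_
  · rw [pow_mul, ← Finset.prod_const, ← Finset.prod_mul_distrib]
    refine Finset.prod_le_prod (fun y _ => by positivity) fun y hy => ?_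
    have h1 := (hst y hy).2.2.1
    rw [Finset.mem_Ioo] at h1
    exact bound (hR _ h1.1 h1.2) (hA y hy)
  · have h2 : 8 * ((P \ X).card : ℝ) ≤ P.card := by exact_mod_cast hmiss
    have e1 : (P.card : ℝ) / (16 * (d - 1) * A * τ) * (8 * (Ioo (0 : ℤ) d).card * A * τ) =
        P.card / 2 := by
      rw [card_C hd]
      field_simp
      ring
    rw [e1]
    linarith

include hd hm hcop hr hτ1 hτ in
/-- **Divergent trajectories.** -/
theorem divergent (x : ℤ) (hx : ¬ (d : ℤ) ∣ x)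
    (hinj : Function.Injective fun k => (H d m r)^[k] x) (h0 : ∀ k, (H d m r)^[k] x ≠ 0)
    (A : ℕ) (hA1 : 1 ≤ A) (hA : m < d ^ A) :
    ∃ n₀ : ℕ, ∀ n ≥ n₀, Large ((range n).image fun k => (H d m r)^[k] x)
      ((n : ℝ) / (16 * (d - 1) * A * τ)) := by
  have h := Run7.h603.AC.divergent hd (m := (m : ℤ)) (by omega) (C_ne hd)
    (b := fun j => -(r j)) (fun j hj => neg_ne_zero.2 (r_ne hcop hr (Finset.mem_Ioo.1 hj).1
      (Finset.mem_Ioo.1 hj).2)) hτ1 (fun j hj => by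
      rw [Int.natAbs_neg]
      exact hτ j (Finset.mem_Ioo.1 hj).1 (Finset.mem_Ioo.1 hj).2) x hinj
    (fun k => steps hd hm hr hx (n := k + 1) (fun l _ => h0 l) k (Nat.lt_succ_self _)) A hA1
    (by rw [Nat.abs_cast]; exact_mod_cast hA)
  rw [card_C hd] at h
  exact h

include hd hm hcop hr hτ1 hτ hR in
/-- **The exceptional set.** -/
theorem exceptional (x : ℤ) (hx : x ∈ E d m r) (hxR : R ≤ x) (n : ℕ)
    (hinj : Set.InjOn (fun k => (H d m r)^[k] x) (Set.Iic n)) (A : ℕ) (hA : m < d ^ A) :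
    Large ((range (n + 1)).image fun k => (H d m r)^[k] x) ((n : ℝ) / (8 * (d - 1) * A * τ)) := by
  obtain ⟨hx0, hxd, hxk⟩ := hx
  have hge : ∀ k, x ≤ (H d m r)^[k] x := fun k => not_lt.1 (hxk k)
  have hA1 : 1 ≤ A := by
    rw [Nat.one_le_iff_ne_zero]
    rintro rfl
    rw [pow_zero] at hA
    omega
  refine traj hd hm hcop hr hτ1 hτ hR x n hxd hinj (fun k _ => by have := hge k; omega) ?_ A hA1 ?_
  · rw [abs_of_pos hx0, abs_of_pos (hx0.trans_le (hge n))]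
    exact hge n
  · intro k _
    have h1 : 0 < (H d m r)^[k] x := hx0.trans_le (hge k)
    rw [abs_of_pos h1]
    have h2 : ((m : ℤ)) + 1 ≤ (d : ℤ) ^ A := by exact_mod_cast hA
    have h3 := hge k
    nlinarith

end

end Run7.h603.MO
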