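import Pool.Agent.Run7.h603.Cat

/-!
# Heights and level functions
-/

set_option autoImplicit false

open Set

namespace Run7.h603

section Height

variable {T : Type} [PartialOrder T] [IsTree T]

theorem typein_eq_ht {u t : T} (h : u < t) :
    Ordinal.typein (α := Set.Iio t) (· < ·) ⟨u, h⟩ = ht u := by
  rw [← Ordinal.type_subrel]
  unfold ht
  refine RelIso.ordinalType_congr ?_
  refine ⟨⟨fun x => ⟨x.1.1, x.2⟩, fun y => ⟨⟨y.1, lt_trans y.2 h⟩, y.2⟩, ?_, ?_⟩, ?_⟩
  · intro x; rfl
  · intro y; rfl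
  · intro x y; rfl

theorem ht_lt {u t : T} (h : u < t) : ht u < ht t := by
  rw [← typein_eq_ht h]
  exact Ordinal.typein_lt_type (α := Set.Iio t) (· < ·) ⟨u, h⟩

theorem exists_ht {t : T} {δ : Ordinal.{0}} (h : δ < ht t) : ∃ u < t, ht u = δ := by
  obtain ⟨x, hx⟩ := Ordinal.typein_surj (α := Set.Iio t) (· < ·) h
  refine ⟨x.1, x.2, ?_⟩
  rw [← typein_eq_ht (u := x.1) (t := t) x.2]
  exact hx

theorem eq_of_ht {u v s : T} (hu : u < s) (hv : v < s) (h : ht u = ht v) : u = v := by
  rw [← typein_eq_ht hu, ← typein_eq_ht hv] at h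
  exact congrArg Subtype.val (Ordinal.typein_injective (α := Set.Iio s) (· < ·) h)

end Height

/-- the ordinal of an element of `Om` -/
noncomputable def ordOf (a : Om) : Ordinal.{0} := (Ordinal.ToType.mk.symm a).1

theorem ordOf_lt (a : Om) : ordOf a < Ordinal.omega 1 := (Ordinal.ToType.mk.symm a).2

theorem ordOf_lt_iff {a b : Om} : ordOf a < ordOf b ↔ a < b := by
  unfold ordOf
  rw [Subtype.coe_lt_coe]
  exact Ordinal.ToType.mk.symm.lt_iff_lt

theorem ordOf_le_iff {a b : Om} : ordOf a ≤ ordOf b ↔ a ≤ b := by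
  rw [← not_lt, ordOf_lt_iff, not_lt]

theorem ordOf_inj {a b : Om} : ordOf a = ordOf b ↔ a = b := by
  rw [le_antisymm_iff, le_antisymm_iff, ordOf_le_iff, ordOf_le_iff]

theorem exists_ordOf {α : Ordinal.{0}} (h : α < Ordinal.omega 1) : ∃ a : Om, ordOf a = α := by
  refine ⟨Ordinal.ToType.mk ⟨α, h⟩, ?_⟩
  unfold ordOf
  rw [OrderIso.symm_apply_apply]

theorem isSuccPrelimit_ordOf {a : Om} :
    Order.IsSuccPrelimit (ordOf a) ↔ Order.IsSuccPrelimit a := by
  constructor
  · intro h b hb
    refine h (ordOf b) ⟨ordOf_lt_iff.2 hb.lt, ?_⟩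
    intro c h1 h2
    obtain ⟨c', rfl⟩ := exists_ordOf (h2.trans (ordOf_lt a))
    exact hb.2 (ordOf_lt_iff.1 h1) (ordOf_lt_iff.1 h2)
  · intro h b hb
    obtain ⟨b', rfl⟩ := exists_ordOf (hb.lt.trans (ordOf_lt a))
    refine h b' ⟨ordOf_lt_iff.1 hb.lt, ?_⟩
    intro c h1 h2
    exact hb.2 (ordOf_lt_iff.2 h1) (ordOf_lt_iff.2 h2)

theorem ordOf_bot : ordOf ⊥ = 0 := by
  by_contra hc
  have h1 : (0 : Ordinal.{0}) < ordOf ⊥ := pos_iff_ne_zero.2 hc
  obtain ⟨b, hb⟩ := exists_ordOf (h1.trans (ordOf_lt ⊥))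
  rw [← hb, ordOf_lt_iff] at h1
  exact not_lt_bot h1

theorem isSuccLimit_ordOf {a : Om} :
    Order.IsSuccLimit (ordOf a) ↔ Order.IsSuccLimit a := by
  have key : IsMin (ordOf a) ↔ IsMin a := by
    rw [isMin_iff_eq_bot, isMin_iff_eq_bot, ← ordOf_inj, ordOf_bot]
    rfl
  constructor
  · intro h
    exact ⟨fun hm => h.1 (key.2 hm), isSuccPrelimit_ordOf.1 h.2⟩
  · intro h
    exact ⟨fun hm => h.1 (key.1 hm), isSuccPrelimit_ordOf.2 h.2⟩

section Bridge

variable {T : Type} [PartialOrder T]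

/-- the level function of a tree of height `ω₁` -/
noncomputable def levOf [IsTree T] (h : IsOmegaOneTree T) (t : T) : Om :=
  Ordinal.ToType.mk ⟨ht t, h.ht_lt t⟩

theorem ordOf_levOf [IsTree T] (h : IsOmegaOneTree T) (t : T) : ordOf (levOf h t) = ht t := by
  unfold ordOf levOf
  rw [OrderIso.symm_apply_apply]

theorem isOmTree_levOf [IsTree T] (h : IsOmegaOneTree T) : IsOmTree (levOf h) where
  mono := fun {s t} hst => by
    rw [← ordOf_lt_iff, ordOf_levOf, ordOf_levOf]
    exact ht_lt hst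
  ex := fun {t a} ha => by
    rw [← ordOf_lt_iff, ordOf_levOf] at ha
    obtain ⟨u, hu, h1⟩ := exists_ht ha
    refine ⟨u, hu, ?_⟩
    rw [← ordOf_inj, ordOf_levOf, h1]
  uniq := fun {s s' t} hs hs' he => by
    rw [← ordOf_inj, ordOf_levOf, ordOf_levOf] at he
    exact eq_of_ht hs hs' he
  ne := fun a => by
    obtain ⟨t, ht1⟩ := h.level_nonempty (ordOf a) (ordOf_lt a)
    refine ⟨t, ?_⟩
    rw [← ordOf_inj, ordOf_levOf, ht1]
  cnt := fun a => by
    have : {t : T | levOf h t = a} = {t : T | ht t = ordOf a} := by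
      ext t
      show levOf h t = a ↔ ht t = ordOf a
      rw [← ordOf_inj, ordOf_levOf]
    rw [this]
    exact h.level_countable _
  haus := fun s t hst hl hI => by
    rw [← ordOf_inj, ordOf_levOf, ordOf_levOf] at hst
    rw [← isSuccPrelimit_ordOf, ordOf_levOf] at hl
    exact h.hausdorff s t hst hl hI

theorem isAron_levOf [IsTree T] (h : IsAronszajn T) : IsAron (levOf h.toIsOmegaOneTree) where
  toIsOmTree := isOmTree_levOf h.toIsOmegaOneTree
  chain := h.chain_countable

theorem IsLev.isTree {lev : T → Om} (h : IsLev lev) : IsTree T where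
  wo := fun t => by
    let f : ((· < ·) : Iio t → Iio t → Prop) ↪r ((· < ·) : Om → Om → Prop) :=
      { toFun := fun x => lev x.1
        inj' := fun x y hxy => Subtype.ext (h.uniq x.2 y.2 hxy)
        map_rel_iff' := fun {x y} => by
          constructor
          · intro (hxy : lev x.1 < lev y.1)
            exact h.lt_of_lev_lt (le_of_lt x.2) (le_of_lt y.2) hxy
          · intro hxy
            exact h.mono hxy }
    exact f.isWellOrder

theorem IsLev.ht_eq [IsTree T] {lev : T → Om} (h : IsLev lev) (t : T) : ht t = ordOf (lev t) := by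
  have h1 : ordOf (lev t) = Ordinal.typein (α := Om) (· < ·) (lev t) := rfl
  rw [h1, ← Ordinal.type_subrel]
  unfold ht
  refine RelIso.ordinalType_congr ?_
  refine ⟨⟨fun x => ⟨lev x.1, h.mono x.2⟩, fun y => ⟨res lev t y.1, ?_⟩, ?_, ?_⟩, ?_⟩
  · have hy : y.1 < lev t := y.2
    refine lt_of_le_of_ne (h.res_le hy.le) fun he => ?_
    have h2 := h.lev_res hy.le
    rw [he] at h2
    exact hy.ne h2.symm
  · intro x
    exact Subtype.ext (h.res_eq (le_of_lt x.2))
  · intro y
    have hy : y.1 < lev t := y.2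
    exact Subtype.ext (h.lev_res hy.le)
  · intro x y
    constructor
    · intro (hxy : lev x.1 < lev y.1)
      exact h.lt_of_lev_lt (le_of_lt x.2) (le_of_lt y.2) hxy
    · intro (hxy : x < y)
      exact h.mono hxy

theorem IsOmTree.isOmegaOneTree [IsTree T] {lev : T → Om} (h : IsOmTree lev) :
    IsOmegaOneTree T where
  ht_lt := fun t => by
    rw [h.ht_eq]
    exact ordOf_lt _
  level_nonempty := fun α hα => by
    obtain ⟨a, rfl⟩ := exists_ordOf hα
    obtain ⟨t, ht1⟩ := h.ne a
    exact ⟨t, by rw [h.ht_eq, ht1]⟩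
  level_countable := fun α => by
    by_cases hα : α < Ordinal.omega 1
    · obtain ⟨a, rfl⟩ := exists_ordOf hα
      have : {t : T | ht t = ordOf a} = {t : T | lev t = a} := by
        ext t
        show ht t = ordOf a ↔ lev t = a
        rw [h.ht_eq, ordOf_inj]
      rw [this]
      exact h.cnt a
    · have : {t : T | ht t = α} = ∅ := by
        ext t
        constructor
        · intro (hx : ht t = α)
          rw [h.ht_eq] at hx
          exact absurd (hx ▸ ordOf_lt (lev t)) hα
        · intro hx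
          exact absurd hx (notMem_empty t)
      rw [this]
      exact countable_empty
  hausdorff := fun s t hst hl hI => by
    rw [h.ht_eq, h.ht_eq, ordOf_inj] at hst
    rw [h.ht_eq, isSuccPrelimit_ordOf] at hl
    exact h.haus s t hst hl hI

theorem IsAron.isAronszajn [IsTree T] {lev : T → Om} (h : IsAron lev) : IsAronszajn T where
  toIsOmegaOneTree := h.toIsOmTree.isOmegaOneTree
  chain_countable := h.chain

end Bridge

theorem cat_iff_catL : CAT ↔ CATL := by
  constructor
  · intro h T _ lev hl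
    have : IsTree T := hl.isTree
    exact h T hl.isAronszajn
  · intro h T _ _ hT
    exact h T _ (isAron_levOf hT)

end Run7.h603
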