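import Mathlib

/-!
# Aronszajn trees and the coloring axiom for trees: definitions
-/

set_option autoImplicit false

namespace Run7.h603

/-- A tree is a partially ordered set in which the set of the predecessors of every node is
well-ordered. -/
class IsTree (T : Type) [PartialOrder T] : Prop where
  wo : ∀ t : T, IsWellOrder (Set.Iio t) (· < ·)

attribute [instance] IsTree.wo

/-- The height of a node is the order type of the set of its predecessors. -/
noncomputable def ht {T : Type} [PartialOrder T] [IsTree T] (t : T) : Ordinal.{0} :=
  Ordinal.type (α := Set.Iio t) (· < ·)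

/-- `T` is a tree of height `ω₁` with countable levels, and Hausdorff: distinct nodes of the same
limit height (or of height `0`) have different sets of predecessors. -/
structure IsOmegaOneTree (T : Type) [PartialOrder T] [IsTree T] : Prop where
  ht_lt : ∀ t : T, ht t < Ordinal.omega 1
  level_nonempty : ∀ α < Ordinal.omega.{0} 1, ∃ t : T, ht t = α
  level_countable : ∀ α : Ordinal.{0}, {t : T | ht t = α}.Countable
  hausdorff : ∀ s t : T, ht s = ht t → Order.IsSuccPrelimit (ht s) → Set.Iio s = Set.Iio t → s = t

/-- An Aronszajn tree: a Hausdorff tree of height `ω₁` with countable levels and no uncountable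
chain. -/
structure IsAronszajn (T : Type) [PartialOrder T] [IsTree T] : Prop extends IsOmegaOneTree T where
  chain_countable : ∀ C : Set T, IsChain (· ≤ ·) C → C.Countable

/-- `CAT` holds for the tree `T`: for every set `K` of nodes there is an uncountable antichain `A`
such that all the meets of two distinct elements of `A` are in `K`, or all are outside `K`. -/
def CATFor (T : Type) [PartialOrder T] : Prop :=
  ∀ K : Set T, ∃ A : Set T, ¬ A.Countable ∧ IsAntichain (· ≤ ·) A ∧
    ((∀ x ∈ A, ∀ y ∈ A, x ≠ y → ∃ m ∈ K, IsGLB {x, y} m) ∨
      (∀ x ∈ A, ∀ y ∈ A, x ≠ y → ∃ m ∉ K, IsGLB {x, y} m))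

/-- The coloring axiom for trees. -/
def CAT : Prop := ∀ (T : Type) [PartialOrder T] [IsTree T], IsAronszajn T → CATFor T

end Run7.h603
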