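import Pool.Agent.Run7.h603.Tree
import Pool.Agent.Run7.h603.Defs

/-!
# The coloring axiom for trees: relative and finite versions
-/

set_option autoImplicit false

open Set

namespace Run7.h603

/-- `CAT` for the trees with a level function -/
def CATL : Prop := ∀ (T : Type) [PartialOrder T] (lev : T → Om), IsAron lev → CATFor T

variable {T : Type} [PartialOrder T]

/-- nodes with uncountably many elements of `P` above -/
def big (P : Set T) : Set T := {t | ¬ {p | p ∈ P ∧ t ≤ p}.Countable}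

theorem big_lower (P : Set T) : IsLowerSet (big P) := by
  intro t s hst ht hc
  refine ht (Countable.mono ?_ hc)
  intro p hp
  exact ⟨hp.1, hst.trans hp.2⟩

theorem big_exists {P : Set T} {t : T} (ht : t ∈ big P) : ∃ p ∈ P, t ≤ p := by
  by_contra hc
  push Not at hc
  apply ht
  have : {p | p ∈ P ∧ t ≤ p} = ∅ := by
    ext p
    constructor
    · intro hp
      exact absurd hp.2 (hc p hp.1)
    · intro hp
      exact absurd hp (notMem_empty p)
  rw [this]
  exact countable_empty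

namespace IsAron

variable {lev : T → Om} (h : IsAron lev)

include h

theorem big_level {P : Set T} (hP : ¬ P.Countable) (a : Om) : ∃ t ∈ big P, lev t = a := by
  by_contra hc
  push Not at hc
  apply hP
  have h1 : P ⊆ {t | lev t ≤ a} ∪ ⋃ t ∈ {t : T | lev t = a}, {p | p ∈ P ∧ t ≤ p} := by
    intro p hp
    rcases le_total (lev p) a with h2 | h2
    · exact Or.inl h2
    · refine Or.inr ?_
      simp only [mem_iUnion]
      exact ⟨res lev p a, h.lev_res h2, hp, h.res_le h2⟩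
  refine Countable.mono h1 ((h.countable_levels a).union ?_)
  refine (h.cnt a).biUnion fun t ht => ?_
  by_contra hc2
  exact hc t hc2 ht

theorem big_above {P : Set T} {t : T} (ht : t ∈ big P) {a : Om} (ha : lev t ≤ a) :
    ∃ s ∈ big P, t ≤ s ∧ lev s = a := by
  obtain ⟨s, hs, h1⟩ := h.big_level ht a
  have h2 : s ∈ big P := by
    intro hc
    refine hs (Countable.mono ?_ hc)
    intro p hp
    exact ⟨hp.1.1, hp.2⟩
  obtain ⟨p, hp, h3⟩ := big_exists hs
  exact ⟨s, h2, h.le_of_lev_le hp.2 h3 (by rw [h1]; exact ha), h1⟩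

/-- downward closed subsets which meet all levels -/
theorem sub {S : Set T} (hS : IsLowerSet S) (hS2 : ∀ a, ∃ t ∈ S, lev t = a) :
    IsAron (fun t : S => lev t.1) where
  mono := fun {s t} hst => h.mono hst
  ex := fun {t a} ha => by
    obtain ⟨s, hs, h1⟩ := h.ex ha
    exact ⟨⟨s, hS hs.le t.2⟩, hs, h1⟩
  uniq := fun {s s' t} hs hs' he => Subtype.ext (h.uniq (s := s.1) (s' := s'.1) (t := t.1) hs hs' he)
  ne := fun a => by
    obtain ⟨t, ht, h1⟩ := hS2 a
    exact ⟨⟨t, ht⟩, h1⟩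
  cnt := fun a => by
    have : {t : S | lev t.1 = a} = Subtype.val ⁻¹' {t : T | lev t = a} := rfl
    rw [this]
    exact (h.cnt a).preimage Subtype.val_injective
  chain := fun C hC => by
    have h1 : IsChain (· ≤ ·) (Subtype.val '' C) := by
      rintro _ ⟨x, hx, rfl⟩ _ ⟨y, hy, rfl⟩ hxy
      exact hC hx hy (fun e => hxy (congrArg _ e))
    have h2 := h.chain _ h1
    exact (h2.preimage Subtype.val_injective).mono (subset_preimage_image _ _)
  haus := fun s t hst hl hI => by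
    refine Subtype.ext (h.haus s.1 t.1 hst hl ?_)
    ext r
    constructor
    · intro hr
      have : (⟨r, hS (le_of_lt hr) s.2⟩ : S) ∈ Iio s := hr
      rw [hI] at this
      exact this
    · intro hr
      have : (⟨r, hS (le_of_lt hr) t.2⟩ : S) ∈ Iio t := hr
      rw [← hI] at this
      exact this

end IsAron

theorem glb_sub {S : Set T} (hS : IsLowerSet S) {x y m : S} (hm : IsGLB {x, y} m) :
    IsGLB {x.1, y.1} m.1 := by
  constructor
  · rintro z (rfl | rfl)
    · exact hm.1 (show x ∈ ({x, y} : Set S) by simp)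
    · exact hm.1 (show y ∈ ({x, y} : Set S) by simp)
  · intro z hz
    have hzx : z ≤ x.1 := hz (by simp)
    have hzy : z ≤ y.1 := hz (by simp)
    have hzS : z ∈ S := hS hzx x.2
    have : (⟨z, hzS⟩ : S) ≤ m := by
      refine hm.2 ?_
      rintro w (rfl | rfl)
      · exact hzx
      · exact hzy
    exact this

/-- `CAT` inside an uncountable set -/
theorem CATL.rel (hC : CATL) {lev : T → Om} (h : IsAron lev) {P : Set T} (hP : ¬ P.Countable)
    (K : Set T) : ∃ A ⊆ P, ¬ A.Countable ∧ IsAntichain (· ≤ ·) A ∧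
      ((∀ x ∈ A, ∀ y ∈ A, x ≠ y → ∃ m ∈ K, IsGLB {x, y} m) ∨
        (∀ x ∈ A, ∀ y ∈ A, x ≠ y → ∃ m ∉ K, IsGLB {x, y} m)) := by
  have hlow := big_lower P
  obtain ⟨A0, hA0, hanti, hhom⟩ := hC (big P) _ (h.sub hlow (fun a => h.big_level hP a))
    (Subtype.val ⁻¹' K)
  have hp : ∀ t : big P, ∃ p ∈ P, t.1 ≤ p := fun t => big_exists t.2
  choose p hp1 hp2 using hp
  have hincomp : ∀ a ∈ A0, ∀ a' ∈ A0, a ≠ a' → ¬ a.1 ≤ a'.1 := fun a ha a' ha' hne hle =>
    hanti ha ha' hne hle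
  have hinj : InjOn p A0 := by
    intro a ha a' ha' he
    by_contra hne
    have h1 : a'.1 ≤ p a := by rw [he]; exact hp2 a'
    rcases h.comp (hp2 a) h1 with h2 | h2
    · exact hincomp a ha a' ha' hne h2
    · exact hincomp a' ha' a ha (Ne.symm hne) h2
  refine ⟨p '' A0, ?_, ?_, ?_, ?_⟩
  · rintro _ ⟨a, -, rfl⟩
    exact hp1 a
  · intro hc
    exact hA0 (countable_of_injective_of_countable_image hinj hc)
  · rintro _ ⟨a, ha, rfl⟩ _ ⟨a', ha', rfl⟩ hne hle
    have hne' : a ≠ a' := fun e => hne (congrArg p e)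
    rcases h.comp ((hp2 a).trans hle) (hp2 a') with h2 | h2
    · exact hincomp a ha a' ha' hne' h2
    · exact hincomp a' ha' a ha (Ne.symm hne') h2
  · rcases hhom with hhom | hhom
    · left
      rintro _ ⟨a, ha, rfl⟩ _ ⟨a', ha', rfl⟩ hne
      have hne' : a ≠ a' := fun e => hne (congrArg p e)
      obtain ⟨m, hmK, hm⟩ := hhom a ha a' ha' hne'
      exact ⟨m.1, hmK, h.isGLB_ext (hp2 a) (hp2 a') (hincomp a ha a' ha' hne')
        (hincomp a' ha' a ha (Ne.symm hne')) (glb_sub hlow hm)⟩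
    · right
      rintro _ ⟨a, ha, rfl⟩ _ ⟨a', ha', rfl⟩ hne
      have hne' : a ≠ a' := fun e => hne (congrArg p e)
      obtain ⟨m, hmK, hm⟩ := hhom a ha a' ha' hne'
      exact ⟨m.1, hmK, h.isGLB_ext (hp2 a) (hp2 a') (hincomp a ha a' ha' hne')
        (hincomp a' ha' a ha (Ne.symm hne')) (glb_sub hlow hm)⟩

/-- `CAT` for finitely many colours, inside an uncountable set -/
theorem CATL.fin (hC : CATL) {lev : T → Om} (h : IsAron lev) {P : Set T} (hP : ¬ P.Countable)
    {C : Type} [Finite C] (K : T → C) : ∃ A ⊆ P, ¬ A.Countable ∧ IsAntichain (· ≤ ·) A ∧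
      ∃ c, ∀ x ∈ A, ∀ y ∈ A, x ≠ y → ∃ m, K m = c ∧ IsGLB {x, y} m := by
  classical
  have key : ∀ F : Finset C, ∀ P : Set T, ¬ P.Countable → IsAntichain (· ≤ ·) P →
      (∀ x ∈ P, ∀ y ∈ P, x ≠ y → ∃ m, K m ∈ F ∧ IsGLB {x, y} m) →
      ∃ A ⊆ P, ¬ A.Countable ∧ IsAntichain (· ≤ ·) A ∧
        ∃ c, ∀ x ∈ A, ∀ y ∈ A, x ≠ y → ∃ m, K m = c ∧ IsGLB {x, y} m := by
    intro F
    induction F using Finset.induction_on with
    | empty =>
      intro P hP _ hm
      exfalso
      have hnt : P.Nontrivial := by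
        by_contra hc
        exact hP (not_nontrivial_iff.1 hc).countable
      obtain ⟨x, hx, y, hy, hxy⟩ := hnt
      obtain ⟨m, hm1, -⟩ := hm x hx y hy hxy
      simp at hm1
    | insert c F hc ih =>
      intro P hP hPa hm
      obtain ⟨A, hAP, hA, hanti, hhom⟩ := hC.rel h hP (K ⁻¹' {c})
      rcases hhom with hhom | hhom
      · refine ⟨A, hAP, hA, hanti, c, fun x hx y hy hxy => ?_⟩
        obtain ⟨m, hm1, hm2⟩ := hhom x hx y hy hxy
        exact ⟨m, hm1, hm2⟩
      · obtain ⟨B, hBA, hB⟩ := ih A hA hanti (fun x hx y hy hxy => by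
          obtain ⟨m, hm1, hm2⟩ := hhom x hx y hy hxy
          obtain ⟨m', hm1', hm2'⟩ := hm x (hAP hx) y (hAP hy) hxy
          have : m = m' := hm2.unique hm2'
          subst this
          refine ⟨m, ?_, hm2⟩
          rcases Finset.mem_insert.1 hm1' with h3 | h3
          · exact absurd h3 hm1
          · exact h3)
        exact ⟨B, hBA.trans hAP, hB⟩
  obtain ⟨A, hAP, hA, hanti, -⟩ := hC.rel h hP ∅
  have := Fintype.ofFinite C
  obtain ⟨B, hBA, hB⟩ := key Finset.univ A hA hanti (fun x hx y hy hxy => by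
    obtain ⟨m, hm⟩ := h.exists_meet x y
    exact ⟨m, Finset.mem_univ _, hm⟩)
  exact ⟨B, hBA.trans hAP, hB⟩

/-- `CAT` for finitely many colours, subtree version -/
theorem CATL.tree (hC : CATL) {lev : T → Om} (h : IsAron lev) {P : Set T} (hP : ¬ P.Countable)
    {C : Type} [Finite C] (K : T → C) : ∃ S : Set T, IsLowerSet S ∧ (∀ a, ∃ t ∈ S, lev t = a) ∧
      (∀ t ∈ S, ∀ a, lev t ≤ a → ∃ s ∈ S, t ≤ s ∧ lev s = a) ∧ (∀ t ∈ S, ∃ p ∈ P, t ≤ p) ∧
      ∃ c, ∀ x ∈ S, ∀ y ∈ S, ¬ x ≤ y → ¬ y ≤ x → ∃ m, K m = c ∧ IsGLB {x, y} m := by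
  obtain ⟨A, hAP, hA, hanti, c, hc⟩ := hC.fin h hP K
  refine ⟨big A, big_lower A, fun a => h.big_level hA a, fun t ht a ha => h.big_above ht ha,
    fun t ht => ?_, c, fun x hx y hy hxy hyx => ?_⟩
  · obtain ⟨p, hp, h1⟩ := big_exists ht
    exact ⟨p, hAP hp, h1⟩
  · obtain ⟨p, hp, h1⟩ := big_exists hx
    obtain ⟨q, hq, h2⟩ := big_exists hy
    obtain ⟨m, hm⟩ := h.exists_meet x y
    have hm2 := h.isGLB_ext h1 h2 hxy hyx hm
    have hpq : p ≠ q := by
      rintro rfl
      rcases h.comp h1 h2 with h3 | h3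
      · exact hxy h3
      · exact hyx h3
    obtain ⟨m', hm1, hm3⟩ := hc p hp q hq hpq
    have : m = m' := hm2.unique hm3
    subst this
    exact ⟨m, hm1, hm⟩

end Run7.h603
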