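import Pool.Agent.Run7.h603.Coh

/-!
# Cocycles on trees with values in a finite group are trivial on a club
-/

set_option autoImplicit false

open Set

namespace Run7.h603

variable {R : Type} [PartialOrder R] {G : Type} [Group G]

/-- step functions -/
noncomputable def stepFn (ξ : Om) (g : Om → G) (z : G) : Om → G :=
  fun α => if α ≤ ξ then g α else z

omit [Group G] in
theorem stepFn_cont {ξ : Om} {g : Om → G} (hg : ContOn ξ g) (z : G) (β : Om) :
    ContOn β (stepFn ξ g z) := by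
  intro δ _ hl
  rcases le_or_gt δ ξ with h1 | h1
  · obtain ⟨ξ', h2, h3⟩ := hg δ h1 hl
    refine ⟨ξ', h2, fun α hα hαδ => ?_⟩
    unfold stepFn
    rw [if_pos (hαδ.le.trans h1), if_pos h1]
    exact h3 α hα hαδ
  · refine ⟨ξ, h1, fun α hα _ => ?_⟩
    unfold stepFn
    rw [if_neg (not_le.2 hα), if_neg (not_le.2 h1)]

theorem stepFn_bot {ξ : Om} {g : Om → G} (hg : g ⊥ = 1) (z : G) : stepFn ξ g z ⊥ = 1 := by
  unfold stepFn
  rw [if_pos bot_le, hg]

variable {lev : R → Om} {a : R → R → G}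

theorem CTree.isOmTree (hR : IsOmTree lev) (ha : IsCoc lev a) [Countable G] :
    IsOmTree (CTree.lv : CTree lev hR.toIsLev a → Om) where
  toIsLev := CTree.isLev ha
  ne := fun β => by
    obtain ⟨t, ht⟩ := hR.ne β
    exact ⟨CTree.base hR.toIsLev a t, ht⟩
  cnt := fun β => CTree.cnt_level hR.cnt β
  haus := fun s t hst hl hI => by
    have hlt : ∀ r < s.nd, ∃ (hr : r ≤ s.nd), s.rst ha r hr < t := by
      intro r hr
      refine ⟨hr.le, ?_⟩
      have h1 : s.rst ha r hr.le ∈ Iio s := s.rst_lt ha r hr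
      rw [hI] at h1
      exact h1
    have hlt' : ∀ r < t.nd, ∃ (hr : r ≤ t.nd), t.rst ha r hr < s := by
      intro r hr
      refine ⟨hr.le, ?_⟩
      have h1 : t.rst ha r hr.le ∈ Iio t := t.rst_lt ha r hr
      rw [← hI] at h1
      exact h1
    have hnd : s.nd = t.nd := by
      refine hR.haus s.nd t.nd hst hl ?_
      ext r
      constructor
      · intro hr
        obtain ⟨h1, h2⟩ := hlt r hr
        refine lt_of_le_of_ne h2.le.1 ?_
        intro he
        have he' : r = t.nd := he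
        subst he'
        have h3 : lev t.nd < lev s.nd := hR.mono hr
        exact h3.ne hst.symm
      · intro hr
        obtain ⟨h1, h2⟩ := hlt' r hr
        refine lt_of_le_of_ne h2.le.1 ?_
        intro he
        have he' : r = s.nd := he
        subst he'
        have h3 : lev s.nd < lev t.nd := hR.mono hr
        exact h3.ne hst
    refine CTree.ext' hnd fun α hα => ?_
    have key : ∀ α < s.lv, s.val α = t.val α := by
      intro α hα
      obtain ⟨r, hr, h0⟩ := hR.ex (t := s.nd) hα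
      obtain ⟨h1, h2⟩ := hlt r hr
      have h3 := h2.le.2 α (show α ≤ lev r by rw [h0])
      rw [CTree.val_rst ha s r h1 (by rw [h0])] at h3
      exact h3
    rcases hα.lt_or_eq with h1 | h1
    · exact key α h1
    · subst h1
      by_cases hb : s.lv = ⊥
      · have h2 := s.val_bot
        have h3 := t.val_bot
        rw [hb, h2, h3]
      · have hlim : Order.IsSuccLimit s.lv := ⟨by rwa [isMin_iff_eq_bot], hl⟩
        obtain ⟨ξ, h2, h3⟩ := s.cont s.lv le_rfl hlim
        obtain ⟨ξ', h2', h3'⟩ := t.cont s.lv hst.le hlim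
        obtain ⟨α, h4, h5⟩ : ∃ α, max ξ ξ' < α ∧ α < s.lv :=
          ⟨Order.succ (max ξ ξ'), Order.lt_succ _, hlim.succ_lt (max_lt h2 h2')⟩
        have h6 := h3 α ((le_max_left _ _).trans_lt h4) h5
        have h7 := h3' α ((le_max_right _ _).trans_lt h4) h5
        simp only at h6 h7
        rw [← hnd, ← key α h5, h6] at h7
        exact mul_right_cancel h7

/-- the conclusion of the theorem -/
def TrivOnClub (lev : R → Om) (a : R → R → G) : Prop :=
  ∃ S : Set R, IsLowerSet S ∧ (∀ α, ∃ t ∈ S, lev t = α) ∧ ∃ E : Set Om, IsClub E ∧ ∃ κ : R → G,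
    ∀ t ∈ S, lev t ∈ E → Order.IsSuccLimit (lev t) → ∃ ξ < lev t, ∀ s < t, lev s ∈ E →
      ξ < lev s → a s t = (κ s)⁻¹ * κ t

theorem triv_of_chain (hR : IsOmTree lev) (ha : IsCoc lev a)
    {C : Set (CTree lev hR.toIsLev a)} (hC : IsChain (· ≤ ·) C)
    (hC2 : ¬ C.Countable) : TrivOnClub lev a := by
  classical
  have hlev : IsLev (CTree.lv : CTree lev hR.toIsLev a → Om) := CTree.isLev ha
  have hinj : InjOn CTree.lv C := by
    intro s hs t ht he
    rcases hC.total hs ht with h1 | h1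
    · exact hlev.eq_of_le_of_lev h1 he
    · exact (hlev.eq_of_le_of_lev h1 he.symm).symm
  have h1 : ¬ (CTree.lv '' C).Countable := fun hc =>
    hC2 (countable_of_injective_of_countable_image hinj hc)
  have h2 : ∀ α : Om, ∃ t ∈ C, α < t.lv := by
    intro α
    obtain ⟨_, ⟨t, ht, rfl⟩, h3⟩ := Om.exists_gt_of_not_countable h1 α
    exact ⟨t, ht, h3⟩
  choose t ht1 ht2 using h2
  -- the branch of `R`
  let S : Set R := {r | ∃ p ∈ C, r ≤ p.nd}
  have key : ∀ p ∈ C, ∀ r, r ≤ p.nd → r ≤ (t (lev r)).nd ∧ p.val (lev r) = (t (lev r)).val (lev r) := by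
    intro p hp r hr
    have hlr : lev r < (t (lev r)).lv := ht2 (lev r)
    rcases hC.total hp (ht1 (lev r)) with h3 | h3
    · exact ⟨hr.trans h3.1, h3.2 _ (hR.mono_le hr)⟩
    · exact ⟨hR.le_of_lev_le hr h3.1 hlr.le, (h3.2 _ hlr.le).symm⟩
  refine ⟨S, ?_, ?_, univ, IsClub.univ, fun r => (t (lev r)).val (lev r), ?_⟩
  · rintro x y hyx ⟨p, hp, hx⟩
    exact ⟨p, hp, hyx.trans hx⟩
  · intro α
    exact ⟨res lev (t α).nd α, ⟨t α, ht1 α, hR.res_le (ht2 α).le⟩, hR.lev_res (ht2 α).le⟩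
  · rintro r ⟨p, hp, hr⟩ - hlim
    obtain ⟨ξ, h3, h4⟩ := CTree.contOn_restrict (h := hR.toIsLev) ha hr p.cont (lev r) le_rfl hlim
    refine ⟨ξ, h3, fun s hs _ hξs => ?_⟩
    have h5 := h4 (lev s) hξs (hR.mono hs)
    simp only at h5
    rw [hR.res_eq hs.le, hR.res_self, ha.diag, mul_one, (key p hp s (hs.le.trans hr)).2,
      (key p hp r hr).2] at h5
    show a s r = ((t (lev s)).val (lev s))⁻¹ * (t (lev r)).val (lev r)
    rw [← h5, inv_mul_cancel_left]

/-- the nodes of `S` which stay in `S` when they are shifted by the step function -/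
def shiftSet {h : IsLev lev} (S : Set (CTree lev h a)) (ξ : Om) (g : Om → G) (z : G) :
    Set (CTree lev h a) :=
  {t | t ∈ S ∧ ∃ t' ∈ S, t'.nd = t.nd ∧ ∀ α ≤ t.lv, t'.val α = stepFn ξ g z α * t.val α}

theorem exists_bound_fn [Countable G] {h : IsLev lev} (S : Set (CTree lev h a)) :
    ∃ h : Om → Om, ∀ ξ, ∀ g ∈ CF G 1 ξ,
    ∀ z : G, (∃ b, ∀ t ∈ shiftSet S ξ g z, t.lv ≤ b) → ∀ t ∈ shiftSet S ξ g z, t.lv < h ξ := by
  classical
  have hstep : ∀ ξ : Om, ∃ b : Om, ∀ g ∈ CF G 1 ξ,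
      ∀ z : G, (∃ b, ∀ t ∈ shiftSet S ξ g z, t.lv ≤ b) → ∀ t ∈ shiftSet S ξ g z, t.lv < b := by
    intro ξ
    let f : (Om → G) × G → Om := fun p =>
      if hx : ∃ b, ∀ t ∈ shiftSet S ξ p.1 p.2, t.lv ≤ b then hx.choose else ⊥
    have h1 : (f '' (CF G 1 ξ ×ˢ (univ : Set G))).Countable :=
      ((countable_CF 1 ξ).prod countable_univ).image f
    obtain ⟨b, hb⟩ := Om.exists_gt_of_countable h1
    refine ⟨b, fun g hg z hx t ht => ?_⟩
    have h2 : f (g, z) < b := hb _ ⟨(g, z), ⟨hg, trivial⟩, rfl⟩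
    have h3 : f (g, z) = hx.choose := dif_pos hx
    rw [h3] at h2
    exact (hx.choose_spec t ht).trans_lt h2
  choose h hh using hstep
  exact ⟨h, hh⟩

theorem CATL.cocycle (hC : CATL) [Finite G] (hR : IsOmTree lev) (ha : IsCoc lev a) :
    TrivOnClub lev a := by
  classical
  by_cases hch : ∀ C : Set (CTree lev hR.toIsLev a), IsChain (· ≤ ·) C → C.Countable
  swap
  · push Not at hch
    obtain ⟨C, h1, h2⟩ := hch
    exact triv_of_chain hR ha h1 h2
  have h : IsAron (CTree.lv : CTree lev hR.toIsLev a → Om) :=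
    { toIsOmTree := CTree.isOmTree hR ha, chain := hch }
  have huniv : ¬ (univ : Set (CTree lev hR.toIsLev a)).Countable := by
    intro hc
    have h1 := hc.image (CTree.lv : CTree lev hR.toIsLev a → Om)
    refine Om.not_countable_univ (h1.mono ?_)
    intro β _
    obtain ⟨t, ht⟩ := h.ne β
    exact ⟨t, trivial, ht⟩
  obtain ⟨S, hlow, hne, -, -, c, hc⟩ := hC.tree h huniv
    (fun p : CTree lev hR.toIsLev a => p.val p.lv)
  obtain ⟨hb, hhb⟩ := exists_bound_fn S
  have hlev := h.toIsLev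
  -- the main claim
  have main : ∀ δ ∈ Om.clos hb, ∀ b ∈ S, ∀ b' ∈ S, b.lv = δ → b.nd = b'.nd →
      b.val δ = b'.val δ := by
    intro δ hδ b hbS b' hb'S hbδ hnd
    by_contra hz
    have hb'δ : b'.lv = δ := by
      rw [← hbδ]
      show lev b'.nd = lev b.nd
      rw [hnd]
    have hc1 := b.cont
    have hc2 := b'.cont
    rw [hbδ] at hc1
    rw [hb'δ, ← hnd] at hc2
    have hτ : ContOn δ (fun α => b'.val α * (b.val α)⁻¹) :=
      (hc2.map2 hc1 (fun x y => x * y⁻¹)).congr fun α _ => by group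
    obtain ⟨ξ, hξ, hconst⟩ := hτ δ le_rfl hδ.1
    set z : G := b'.val δ * (b.val δ)⁻¹ with hzdef
    have hz0 : z ≠ 1 := fun e => hz (mul_inv_eq_one.1 (hzdef ▸ e)).symm
    let g : Om → G := fun α => if α ≤ ξ then b'.val α * (b.val α)⁻¹ else 1
    have hg0 : g ⊥ = 1 := by
      show (if (⊥ : Om) ≤ ξ then b'.val ⊥ * (b.val ⊥)⁻¹ else 1) = 1
      rw [if_pos bot_le, b.val_bot, b'.val_bot, inv_one, mul_one]
    have hg : g ∈ CF G 1 ξ := by
      refine ⟨(hτ.mono hξ.le).congr fun α hα => ?_, fun α hα => ?_⟩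
      · show _ = (if α ≤ ξ then b'.val α * (b.val α)⁻¹ else 1)
        rw [if_pos hα]
      · show (if α ≤ ξ then b'.val α * (b.val α)⁻¹ else 1) = 1
        rw [if_neg (not_le.2 hα)]
    have hstep : ∀ α ≤ δ, stepFn ξ g z α = b'.val α * (b.val α)⁻¹ := by
      intro α hα
      unfold stepFn
      by_cases h1 : α ≤ ξ
      · rw [if_pos h1]
        show (if α ≤ ξ then b'.val α * (b.val α)⁻¹ else 1) = _
        rw [if_pos h1]
      · rw [if_neg h1]
        rcases hα.lt_or_eq with h2 | h2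
        · exact (hconst α (not_le.1 h1) h2).symm
        · rw [h2]
    have hbW : b ∈ shiftSet S ξ g z := by
      refine ⟨hbS, b', hb'S, hnd.symm, fun α hα => ?_⟩
      rw [hbδ] at hα
      rw [hstep α hα, inv_mul_cancel_right]
    have hW : ∀ b0 : Om, ∃ t ∈ shiftSet S ξ g z, b0 < t.lv := by
      by_contra hcon
      push Not at hcon
      have h1 := hhb ξ g hg z hcon b hbW
      rw [hbδ] at h1
      exact absurd (h1.trans (hδ.2 ξ hξ)) (lt_irrefl _)
    have hWc : ¬ (shiftSet S ξ g z).Countable := by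
      intro hcc
      refine Om.not_countable_of_unbounded (s := CTree.lv '' shiftSet S ξ g z) ?_ (hcc.image _)
      intro b0
      obtain ⟨t, ht, h1⟩ := hW b0
      exact ⟨_, ⟨t, ht, rfl⟩, h1⟩
    obtain ⟨u, hu, hulv⟩ := h.big_level hWc (Order.succ ξ)
    have hnc : ¬ IsChain (· ≤ ·) {p | p ∈ shiftSet S ξ g z ∧ u ≤ p} := fun hcc =>
      hu (h.chain _ hcc)
    obtain ⟨x, hx, y, hy, hxy, hyx⟩ : ∃ x ∈ {p | p ∈ shiftSet S ξ g z ∧ u ≤ p},
        ∃ y ∈ {p | p ∈ shiftSet S ξ g z ∧ u ≤ p}, ¬ x ≤ y ∧ ¬ y ≤ x := by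
      by_contra hcon
      push Not at hcon
      apply hnc
      intro x hx y hy _
      by_cases h1 : x ≤ y
      · exact Or.inl h1
      · exact Or.inr (hcon x hx y hy h1)
    obtain ⟨⟨hxS, x', hx'S, hx'nd, hx'val⟩, hux⟩ := hx
    obtain ⟨⟨hyS, y', hy'S, hy'nd, hy'val⟩, huy⟩ := hy
    have hσ : ∀ β, ContOn β (stepFn ξ g z) := stepFn_cont hg.1 z
    have hσ0 : stepFn ξ g z ⊥ = 1 := stepFn_bot hg0 z
    have hx'eq : x' = x.shift (stepFn ξ g z) hσ0 hσ := by
      refine CTree.ext' hx'nd fun α hα => ?_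
      have hα' : α ≤ x.lv := by
        unfold CTree.lv at hα ⊢
        rwa [hx'nd] at hα
      rw [CTree.val_shift hσ0 hσ x hα', hx'val α hα']
    have hy'eq : y' = y.shift (stepFn ξ g z) hσ0 hσ := by
      refine CTree.ext' hy'nd fun α hα => ?_
      have hα' : α ≤ y.lv := by
        unfold CTree.lv at hα ⊢
        rwa [hy'nd] at hα
      rw [CTree.val_shift hσ0 hσ y hα', hy'val α hα']
    obtain ⟨m, hmc, hm⟩ := hc x hxS y hyS hxy hyx
    obtain ⟨m', hm'c, hm'⟩ := hc x' hx'S y' hy'S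
      (by rw [hx'eq, hy'eq, CTree.shift_le_iff]; exact hxy)
      (by rw [hx'eq, hy'eq, CTree.shift_le_iff]; exact hyx)
    have hm2 := CTree.isGLB_shift hσ0 hσ hm
    rw [hx'eq, hy'eq] at hm'
    have hmm : m' = m.shift (stepFn ξ g z) hσ0 hσ := hm'.unique hm2
    have hum : u ≤ m := hm.2 (by
      rintro w (rfl | rfl)
      · exact hux
      · exact huy)
    have hmlv : ξ < m.lv := by
      have := hR.mono_le hum.1
      have h7 : u.lv ≤ m.lv := this
      rw [hulv] at h7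
      exact (Order.lt_succ ξ).trans_le h7
    rw [hmm] at hm'c
    have h5 : (m.shift (stepFn ξ g z) hσ0 hσ).val (m.shift (stepFn ξ g z) hσ0 hσ).lv =
        stepFn ξ g z m.lv * m.val m.lv := CTree.val_shift hσ0 hσ m le_rfl
    have h6 : stepFn ξ g z m.lv = z := by
      unfold stepFn
      rw [if_neg (not_le.2 hmlv)]
    have hmc' : m.val m.lv = c := hmc
    have hm'c' : (m.shift (stepFn ξ g z) hσ0 hσ).val (m.shift (stepFn ξ g z) hσ0 hσ).lv = c :=
      hm'c
    rw [h5, h6, hmc'] at hm'c'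
    exact hz0 (by simpa using hm'c')
  let κ : R → G := fun r => if hx : ∃ p ∈ S, p.nd = r then hx.choose.val (lev r) else 1
  have hκ : ∀ p ∈ S, p.lv ∈ Om.clos hb → κ p.nd = p.val p.lv := by
    intro p hp hpE
    have hx : ∃ q ∈ S, q.nd = p.nd := ⟨p, hp, rfl⟩
    have h1 : κ p.nd = hx.choose.val (lev p.nd) := dif_pos hx
    rw [h1]
    refine (main p.lv hpE p hp hx.choose hx.choose_spec.1 rfl hx.choose_spec.2.symm).symm
  refine ⟨{r | ∃ p ∈ S, p.nd = r}, ?_, ?_, Om.clos hb, Om.isClub_clos hb, κ, ?_⟩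
  · rintro x y hyx ⟨p, hp, rfl⟩
    exact ⟨p.rst ha y hyx, hlow (p.rst_le ha y hyx) hp, rfl⟩
  · intro α
    obtain ⟨p, hp, h1⟩ := hne α
    exact ⟨p.nd, ⟨p, hp, rfl⟩, h1⟩
  · rintro t ⟨p, hp, rfl⟩ hE hl
    obtain ⟨ξ, hξ, h1⟩ := p.cont p.lv le_rfl hl
    refine ⟨ξ, hξ, fun s hs hsE hξs => ?_⟩
    have h2 := h1 (lev s) hξs (hR.mono hs)
    simp only at h2
    have h3 : res lev p.nd p.lv = p.nd := hR.res_self p.nd
    rw [hR.res_eq hs.le, h3, ha.diag, mul_one] at h2
    have h4 : κ s = p.val (lev s) := by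
      have h5 := hκ (p.rst ha s hs.le) (hlow (p.rst_le ha s hs.le) hp) hsE
      rw [CTree.nd_rst] at h5
      rw [h5]
      exact CTree.val_rst ha p s hs.le le_rfl
    rw [hκ p hp hE, h4, ← h2, inv_mul_cancel_left]

end Run7.h603
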