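import Pool.Agent.Run7.h603.Cat

/-!
# Trees of functions attached to a cocycle on a tree, with values in a group
-/

set_option autoImplicit false

open Set

namespace Run7.h603

/-- `g` is continuous on the interval `[0, β]` (order topology on `[0, β]`, discrete values): at
every limit `δ ≤ β`, the function `g` is constant on some interval `(ξ, δ]` with `ξ < δ`. -/
def ContOn {A : Type} (β : Om) (g : Om → A) : Prop :=
  ∀ δ, δ ≤ β → Order.IsSuccLimit δ → ∃ ξ < δ, ∀ α, ξ < α → α < δ → g α = g δ

section ContOn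

variable {A : Type}

theorem ContOn.mono {β γ : Om} (h : β ≤ γ) {g : Om → A} (hg : ContOn γ g) : ContOn β g :=
  fun δ hδ hl => hg δ (hδ.trans h) hl

theorem ContOn.map2 {B C : Type} {β : Om} {g : Om → A} {g' : Om → B} (hg : ContOn β g)
    (hg' : ContOn β g') (f : A → B → C) : ContOn β (fun α => f (g α) (g' α)) := by
  intro δ hδ hl
  obtain ⟨ξ, h1, h2⟩ := hg δ hδ hl
  obtain ⟨ξ', h1', h2'⟩ := hg' δ hδ hl
  refine ⟨max ξ ξ', max_lt h1 h1', fun α hα hαδ => ?_⟩
  show f (g α) (g' α) = f (g δ) (g' δ)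
  rw [h2 α ((le_max_left _ _).trans_lt hα) hαδ, h2' α ((le_max_right _ _).trans_lt hα) hαδ]

theorem ContOn.congr {β : Om} {g g' : Om → A} (hg : ContOn β g) (h : ∀ α ≤ β, g α = g' α) :
    ContOn β g' := by
  intro δ hδ hl
  obtain ⟨ξ, h1, h2⟩ := hg δ hδ hl
  refine ⟨ξ, h1, fun α hα hαδ => ?_⟩
  rw [← h α (hαδ.le.trans hδ), ← h δ hδ]
  exact h2 α hα hαδ

theorem contOn_const {β : Om} (c : A) : ContOn β (fun _ => c) := by
  intro δ _ hl
  exact ⟨⊥, bot_lt_iff_ne_bot.2 hl.ne_bot, fun _ _ _ => rfl⟩

theorem exists_const_Ioc {β : Om} (hβ : β ≠ ⊥) {g : Om → A} (hg : ContOn β g) :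
    ∃ ξ < β, ∀ α, ξ < α → α ≤ β → g α = g β := by
  by_cases hl : Order.IsSuccLimit β
  · obtain ⟨ξ, h1, h2⟩ := hg β le_rfl hl
    refine ⟨ξ, h1, fun α hα hαβ => ?_⟩
    rcases hαβ.lt_or_eq with h3 | h3
    · exact h2 α hα h3
    · rw [h3]
  · have h1 : ¬ Order.IsSuccPrelimit β := by
      intro h
      exact hl ⟨by rwa [isMin_iff_eq_bot], h⟩
    rw [Order.not_isSuccPrelimit_iff_mem_range_succ] at h1
    obtain ⟨b, hb⟩ := h1
    refine ⟨b, ?_, fun α hα hαβ => ?_⟩
    · rw [← hb]
      exact Order.lt_succ b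
    · have : α = β := by
        refine le_antisymm hαβ ?_
        rw [← hb]
        exact Order.succ_le_of_lt hα
      rw [this]

/-- the continuous functions on `[0, β]`, extended by `o` -/
def CF (A : Type) (o : A) (β : Om) : Set (Om → A) :=
  {g | ContOn β g ∧ ∀ α, β < α → g α = o}

theorem countable_CF [Countable A] (o : A) (β : Om) : (CF A o β).Countable := by
  induction β using WellFoundedLT.induction with
  | ind β ih =>
    by_cases hβ : β = ⊥
    · subst hβ
      have : CF A o ⊥ ⊆ range (fun c : A => fun α : Om => if α = ⊥ then c else o) := by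
        rintro g ⟨-, hg⟩
        refine ⟨g ⊥, ?_⟩
        funext α
        by_cases hα : α = ⊥
        · simp [hα]
        · simp only [hα, if_false]
          exact (hg α (bot_lt_iff_ne_bot.2 hα)).symm
      exact (countable_range _).mono this
    · have hsub : CF A o β ⊆ ⋃ ξ ∈ Iio β, (fun p : (Om → A) × A =>
          (fun α : Om => if α ≤ ξ then p.1 α else if α ≤ β then p.2 else o)) ''
            (CF A o ξ ×ˢ (univ : Set A)) := by
        rintro g ⟨hg, hg2⟩
        obtain ⟨ξ, hξ, h1⟩ := exists_const_Ioc hβ hg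
        simp only [mem_iUnion]
        refine ⟨ξ, hξ, ⟨(fun α => if α ≤ ξ then g α else o), g β⟩, ⟨⟨?_, ?_⟩, trivial⟩, ?_⟩
        · refine (hg.mono hξ.le).congr fun α hα => ?_
          simp [hα]
        · intro α hα
          simp [not_le.2 hα]
        · funext α
          by_cases h2 : α ≤ ξ
          · simp [h2]
          · simp only [h2, if_false]
            by_cases h3 : α ≤ β
            · simp only [h3, if_true]
              exact (h1 α (not_le.1 h2) h3).symm
            · simp only [h3, if_false]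
              exact (hg2 α (not_le.1 h3)).symm
      refine Countable.mono hsub ((Om.countable_Iio β).biUnion fun ξ hξ => ?_)
      exact ((ih ξ hξ).prod countable_univ).image _

end ContOn

variable {R : Type} [PartialOrder R] {G : Type} [Group G]

/-- a cocycle on a tree: `a` is trivial on the diagonal, and for `s ≤ t` the function
`r ↦ (a r s)⁻¹ * a r t` is continuous on the set of the `r ≤ s` -/
structure IsCoc (lev : R → Om) (a : R → R → G) : Prop where
  diag : ∀ t, a t t = 1
  cont : ∀ s t, s ≤ t → ContOn (lev s) (fun α => (a (res lev s α) s)⁻¹ * a (res lev s α) t)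

/-- the nodes of the tree of a cocycle -/
def Node (lev : R → Om) (a : R → R → G) : Type :=
  {p : R × (Om → G) // p.2 ⊥ = 1 ∧ (∀ α, lev p.1 < α → p.2 α = 1) ∧
    ContOn (lev p.1) (fun α => p.2 α * a (res lev p.1 α) p.1)}

namespace Node

variable {lev : R → Om} {a : R → R → G}

/-- the node of `R` -/
def nd (p : Node lev a) : R := p.1.1

/-- level of a node -/
def lv (p : Node lev a) : Om := lev p.nd

/-- value of a node -/
def val (p : Node lev a) (α : Om) : G := p.1.2 α

theorem val_bot (p : Node lev a) : p.val ⊥ = 1 := p.2.1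

theorem val_of_lt (p : Node lev a) {α : Om} (h : p.lv < α) : p.val α = 1 := p.2.2.1 α h

theorem cont (p : Node lev a) : ContOn p.lv (fun α => p.val α * a (res lev p.nd α) p.nd) :=
  p.2.2.2

theorem ext' {p q : Node lev a} (h1 : p.nd = q.nd) (h2 : ∀ α ≤ p.lv, p.val α = q.val α) :
    p = q := by
  apply Subtype.ext
  apply Prod.ext h1
  funext α
  rcases le_or_gt α p.lv with h3 | h3
  · exact h2 α h3
  · have h4 : q.lv < α := by
      show lev q.nd < α
      rw [← h1]
      exact h3
    exact (p.val_of_lt h3).trans (q.val_of_lt h4).symm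

end Node

/-- the tree of a cocycle, for a tree `R` with level function `lev` -/
structure CTree (lev : R → Om) (h : IsLev lev) (a : R → R → G) : Type where
  toNode : Node lev a

namespace CTree

variable {lev : R → Om} {h : IsLev lev} {a : R → R → G}

/-- the node of `R` -/
def nd (p : CTree lev h a) : R := p.toNode.nd

/-- level of a node -/
def lv (p : CTree lev h a) : Om := lev p.nd

/-- value of a node -/
def val (p : CTree lev h a) (α : Om) : G := p.toNode.val α

theorem val_bot (p : CTree lev h a) : p.val ⊥ = 1 := p.toNode.val_bot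

theorem val_of_lt (p : CTree lev h a) {α : Om} (h : p.lv < α) : p.val α = 1 :=
  p.toNode.val_of_lt h

theorem cont (p : CTree lev h a) : ContOn p.lv (fun α => p.val α * a (res lev p.nd α) p.nd) :=
  p.toNode.cont

theorem ext' {p q : CTree lev h a} (h1 : p.nd = q.nd) (h2 : ∀ α ≤ p.lv, p.val α = q.val α) :
    p = q := by
  cases p
  cases q
  congr 1
  exact Node.ext' h1 h2

instance : PartialOrder (CTree lev h a) where
  le p q := p.nd ≤ q.nd ∧ ∀ α ≤ p.lv, p.val α = q.val α
  le_refl p := ⟨le_rfl, fun _ _ => rfl⟩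
  le_trans p q r h1 h2 := ⟨h1.1.trans h2.1, fun α hα =>
    (h1.2 α hα).trans (h2.2 α (hα.trans (h.mono_le h1.1)))⟩
  le_antisymm p q h1 h2 := ext' (le_antisymm h1.1 h2.1) h1.2

theorem le_def {p q : CTree lev h a} : p ≤ q ↔ p.nd ≤ q.nd ∧ ∀ α ≤ p.lv, p.val α = q.val α :=
  Iff.rfl

include h in
theorem contOn_restrict (ha : IsCoc lev a) {f : Om → G} {s t : R} (hst : s ≤ t)
    (hf : ContOn (lev t) (fun α => f α * a (res lev t α) t)) :
    ContOn (lev s) (fun α => f α * a (res lev s α) s) := by
  have h1 := (hf.mono (h.mono_le hst)).map2 (ha.cont s t hst) (fun x y => x * y⁻¹)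
  refine h1.congr fun α hα => ?_
  rw [h.res_of_le hst hα]
  group

/-- restriction of a node -/
noncomputable def rst (ha : IsCoc lev a) (p : CTree lev h a) (s : R) (hs : s ≤ p.nd) :
    CTree lev h a :=
  ⟨⟨(s, fun α => if α ≤ lev s then p.val α else 1), by simpa using p.val_bot,
    fun α hα => by
      have hα' : ¬ α ≤ lev s := not_le.2 hα
      simp [hα'],
    (contOn_restrict (h := h) ha hs p.cont).congr fun α hα => by simp [hα]⟩⟩

theorem val_rst (ha : IsCoc lev a) (p : CTree lev h a) (s : R) (hs : s ≤ p.nd) {α : Om}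
    (hα : α ≤ lev s) : (p.rst ha s hs).val α = p.val α := by
  show (if α ≤ lev s then p.val α else 1) = p.val α
  simp [hα]

theorem rst_le (ha : IsCoc lev a) (p : CTree lev h a) (s : R) (hs : s ≤ p.nd) :
    p.rst ha s hs ≤ p :=
  ⟨hs, fun _ hα => p.val_rst ha s hs hα⟩

theorem nd_rst (ha : IsCoc lev a) (p : CTree lev h a) (s : R) (hs : s ≤ p.nd) :
    (p.rst ha s hs).nd = s := rfl

theorem rst_lt (ha : IsCoc lev a) (p : CTree lev h a) (s : R) (hs : s < p.nd) :
    p.rst ha s hs.le < p := by
  refine lt_of_le_of_ne (p.rst_le ha s hs.le) fun he => ?_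
  have := congrArg nd he
  rw [nd_rst] at this
  exact hs.ne this

theorem isLev (ha : IsCoc lev a) : IsLev (lv : CTree lev h a → Om) where
  mono := fun {s t} hst => by
    refine lt_of_le_of_ne (h.mono_le hst.le.1) fun he => ?_
    exact hst.ne (ext' (h.eq_of_le_of_lev hst.le.1 he) hst.le.2)
  ex := fun {t b} hb => by
    obtain ⟨s, hs, h1⟩ := h.ex (t := t.nd) hb
    exact ⟨t.rst ha s hs.le, t.rst_lt ha s hs, h1⟩
  uniq := fun {s s' t} hs hs' he => by
    have h1 : s.nd = s'.nd := h.uniq_le hs.le.1 hs'.le.1 he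
    refine ext' h1 fun α hα => ?_
    refine (hs.le.2 α hα).trans (hs'.le.2 α ?_).symm
    rw [← he]
    exact hα

/-- the shift of a node by a continuous function -/
noncomputable def shift (σ : Om → G) (h0 : σ ⊥ = 1) (hσ : ∀ β, ContOn β σ) (p : CTree lev h a) :
    CTree lev h a :=
  ⟨⟨(p.nd, fun α => if α ≤ p.lv then σ α * p.val α else 1), by simp [p.val_bot, h0],
    fun α hα => by
      have hα' : ¬ α ≤ p.lv := not_le.2 hα
      simp [hα'],
    ((p.cont).map2 (hσ p.lv) (fun x y => y * x)).congr fun α hα => by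
      simp only [hα, if_true]
      rw [mul_assoc]⟩⟩

section shift

variable {σ : Om → G} (h0 : σ ⊥ = 1) (hσ : ∀ β, ContOn β σ)

theorem nd_shift (p : CTree lev h a) : (p.shift σ h0 hσ).nd = p.nd := rfl

theorem lv_shift (p : CTree lev h a) : (p.shift σ h0 hσ).lv = p.lv := rfl

theorem val_shift (p : CTree lev h a) {α : Om} (hα : α ≤ p.lv) :
    (p.shift σ h0 hσ).val α = σ α * p.val α := by
  show (if α ≤ p.lv then σ α * p.val α else 1) = _
  simp [hα]

theorem shift_le {p q : CTree lev h a} (hpq : p ≤ q) : p.shift σ h0 hσ ≤ q.shift σ h0 hσ := by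
  refine ⟨hpq.1, fun α hα => ?_⟩
  have hα' : α ≤ p.lv := hα
  rw [val_shift h0 hσ p hα', val_shift h0 hσ q (hα'.trans (h.mono_le hpq.1)), hpq.2 α hα']

include hσ in
theorem inv_cont : ∀ β, ContOn β (fun α => (σ α)⁻¹) := fun β =>
  (hσ β).map2 (hσ β) (fun x _ => x⁻¹)

include h0 in
theorem inv_bot : (fun α => (σ α)⁻¹) (⊥ : Om) = 1 := by
  show (σ ⊥)⁻¹ = 1
  rw [h0, inv_one]

theorem shift_inv (p : CTree lev h a) :
    (p.shift σ h0 hσ).shift (fun α => (σ α)⁻¹) (inv_bot h0) (inv_cont hσ) = p := by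
  refine ext' rfl fun α hα => ?_
  have hα' : α ≤ p.lv := hα
  rw [val_shift (σ := fun α => (σ α)⁻¹) _ _ (p.shift σ h0 hσ) hα', val_shift h0 hσ p hα',
    inv_mul_cancel_left]

theorem inv_shift (p : CTree lev h a) :
    (p.shift (fun α => (σ α)⁻¹) (inv_bot h0) (inv_cont hσ)).shift σ h0 hσ = p := by
  refine ext' rfl fun α hα => ?_
  have hα' : α ≤ p.lv := hα
  rw [val_shift h0 hσ (p.shift (fun α => (σ α)⁻¹) _ _) hα',
    val_shift (σ := fun α => (σ α)⁻¹) _ _ p hα', mul_inv_cancel_left]

theorem shift_le_iff {p q : CTree lev h a} : p.shift σ h0 hσ ≤ q.shift σ h0 hσ ↔ p ≤ q := by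
  constructor
  · intro hpq
    have := shift_le (σ := fun α => (σ α)⁻¹) (inv_bot h0) (inv_cont hσ) hpq
    rwa [shift_inv, shift_inv] at this
  · exact shift_le h0 hσ

theorem isGLB_shift {p q m : CTree lev h a} (hm : IsGLB {p, q} m) :
    IsGLB {p.shift σ h0 hσ, q.shift σ h0 hσ} (m.shift σ h0 hσ) := by
  constructor
  · rintro z (rfl | rfl)
    · exact shift_le h0 hσ (hm.1 (by simp))
    · exact shift_le h0 hσ (hm.1 (by simp))
  · intro z hz
    have hz1 : z ≤ p.shift σ h0 hσ := hz (by simp)
    have hz2 : z ≤ q.shift σ h0 hσ := hz (by simp)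
    rw [← inv_shift h0 hσ z] at hz1 hz2 ⊢
    rw [shift_le_iff] at hz1 hz2 ⊢
    refine hm.2 ?_
    rintro w (rfl | rfl)
    · exact hz1
    · exact hz2

end shift

/-- the basic node above `t` -/
noncomputable def base (h : IsLev lev) (a : R → R → G) (t : R) : CTree lev h a :=
  ⟨⟨(t, fun α => if α ≤ lev t then a (res lev t ⊥) t * (a (res lev t α) t)⁻¹ else 1), by simp,
    fun α hα => by
      have hα' : ¬ α ≤ lev t := not_le.2 hα
      simp [hα'],
    (contOn_const (a (res lev t ⊥) t)).congr fun α hα => by simp [hα]⟩⟩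

theorem cnt_nd [Countable G] (t : R) : {p : CTree lev h a | p.nd = t}.Countable := by
  have h1 := countable_CF (A := G) 1 (lev t)
  have h2 : MapsTo (fun p : CTree lev h a => fun α => if α ≤ lev t then
      p.val α * a (res lev t α) t else 1) {p : CTree lev h a | p.nd = t} (CF G 1 (lev t)) := by
    intro p hp
    have hp' : p.nd = t := hp
    refine ⟨?_, fun α hα => by simp [not_le.2 hα]⟩
    have := p.cont
    unfold lv at this
    rw [hp'] at this
    exact this.congr fun α hα => by simp [hα]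
  refine h2.countable_of_injOn ?_ h1
  intro p hp q hq he
  have hp' : p.nd = t := hp
  have hq' : q.nd = t := hq
  refine ext' (hp'.trans hq'.symm) fun α hα => ?_
  have hα' : α ≤ lev t := by
    unfold lv at hα
    rwa [hp'] at hα
  have h3 := congrFun he α
  simp only [hα', if_true] at h3
  exact mul_right_cancel h3

theorem cnt_level [Countable G] (hR : ∀ β : Om, {t : R | lev t = β}.Countable) (β : Om) :
    {p : CTree lev h a | p.lv = β}.Countable := by
  have : {p : CTree lev h a | p.lv = β} ⊆ ⋃ t ∈ {t : R | lev t = β},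
      {p : CTree lev h a | p.nd = t} := by
    intro p hp
    simp only [mem_iUnion]
    exact ⟨p.nd, hp, rfl⟩
  exact Countable.mono this ((hR β).biUnion fun t _ => cnt_nd t)

end CTree

end Run7.h603
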