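import Pool.Agent.Run7.h603.Cat

/-!
# Retimed trees
-/

set_option autoImplicit false

open Set

namespace Run7.h603

variable {T : Type} [PartialOrder T]

/-- `φ t` is the time at which the successors of `t` are revealed -/
structure IsTiming (lev : T → Om) (φ : T → Om) : Prop where
  mono : ∀ {s t}, s < t → φ s < φ t
  succ : ∀ t, ∃ b, φ t = Order.succ b
  gt : ∀ t, lev t < φ t

/-- the retimed tree: at the time `tm`, the current node is `nd` -/
structure RT (φ : T → Om) : Type where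
  nd : T
  tm : Om
  le_tm' : ∀ s < nd, φ s ≤ tm
  tm_lt : tm < φ nd

namespace RT

variable {φ : T → Om}

theorem le_tm (p : RT φ) {s : T} (h : s < p.nd) : φ s ≤ p.tm := p.le_tm' s h

theorem ext' {p q : RT φ} (h1 : p.nd = q.nd) (h2 : p.tm = q.tm) : p = q := by
  cases p
  cases q
  simp only at h1 h2
  subst h1
  subst h2
  rfl

instance : PartialOrder (RT φ) where
  le p q := p.nd ≤ q.nd ∧ p.tm ≤ q.tm
  le_refl _ := ⟨le_rfl, le_rfl⟩
  le_trans _ _ _ h1 h2 := ⟨h1.1.trans h2.1, h1.2.trans h2.2⟩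
  le_antisymm _ _ h1 h2 := ext' (le_antisymm h1.1 h2.1) (le_antisymm h1.2 h2.2)

theorem le_def {p q : RT φ} : p ≤ q ↔ p.nd ≤ q.nd ∧ p.tm ≤ q.tm := Iff.rfl

theorem nd_eq_of_le {p q : RT φ} (h : p.nd ≤ q.nd) (ht : q.tm ≤ p.tm) : p.nd = q.nd := by
  rcases h.lt_or_eq with h1 | h1
  · exact absurd ((q.le_tm h1).trans ht) (not_le.2 p.tm_lt)
  · exact h1

theorem comp_of_nd {p q : RT φ} (h : p.nd ≤ q.nd) : p ≤ q ∨ q ≤ p := by
  rcases le_total p.tm q.tm with h1 | h1
  · exact Or.inl ⟨h, h1⟩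
  · exact Or.inr ⟨(nd_eq_of_le h h1).ge, h1⟩

end RT

variable {lev : T → Om} {φ : T → Om}

theorem RT.exists_at (h : IsLev lev) {t : T} {m : Om} (hm : m < φ t) :
    ∃ t' ≤ t, (∀ s < t', φ s ≤ m) ∧ m < φ t' := by
  have hne : {a : Om | a ≤ lev t ∧ m < φ (res lev t a)}.Nonempty :=
    ⟨lev t, le_rfl, by rw [h.res_self]; exact hm⟩
  obtain ⟨a, ⟨ha1, ha2⟩, hmin⟩ : ∃ a ∈ {a : Om | a ≤ lev t ∧ m < φ (res lev t a)}, ∀ b < a,
      b ∉ {a : Om | a ≤ lev t ∧ m < φ (res lev t a)} :=
    ⟨WellFounded.min wellFounded_lt _ hne, WellFounded.min_mem wellFounded_lt _ hne,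
      fun b hb hb2 => WellFounded.not_lt_min wellFounded_lt _ hb2 hb⟩
  refine ⟨res lev t a, h.res_le ha1, fun s hs => ?_, ha2⟩
  have h1 : lev s < a := by
    have := h.mono hs
    rwa [h.lev_res ha1] at this
  by_contra hc
  rw [not_le] at hc
  refine hmin (lev s) h1 ⟨h1.le.trans ha1, ?_⟩
  rw [h.res_eq (hs.le.trans (h.res_le ha1))]
  exact hc

theorem RT.isLev (h : IsLev lev) : IsLev (RT.tm : RT φ → Om) where
  mono := fun {p q} hpq => by
    refine lt_of_le_of_ne hpq.le.2 fun he => ?_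
    exact hpq.ne (RT.ext' (RT.nd_eq_of_le hpq.le.1 he.ge) he)
  ex := fun {q m} hm => by
    obtain ⟨t', h1, h2, h3⟩ := RT.exists_at (φ := φ) h (hm.trans q.tm_lt)
    refine ⟨RT.mk t' m h2 h3, lt_of_le_of_ne ⟨h1, hm.le⟩ ?_, rfl⟩
    intro he
    exact hm.ne (congrArg RT.tm he)
  uniq := fun {p p' q} hp hp' he => by
    rcases h.comp hp.le.1 hp'.le.1 with h1 | h1
    · exact RT.ext' (RT.nd_eq_of_le h1 he.ge) he
    · exact RT.ext' (RT.nd_eq_of_le h1 he.le).symm he

/-- the last moment of a node -/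
theorem RT.exists_last (hφ : IsTiming lev φ) (s : T) : ∃ p : RT φ, p.nd = s ∧ Order.succ p.tm = φ s := by
  obtain ⟨b, hb⟩ := hφ.succ s
  refine ⟨RT.mk s b (fun r hr => ?_) ?_, rfl, hb.symm⟩
  · have := hφ.mono hr
    rw [hb] at this
    exact Order.lt_succ_iff.1 this
  · rw [hb]
    exact Order.lt_succ b

theorem RT.isAron (h : IsAron lev) (hφ : IsTiming lev φ) : IsAron (RT.tm : RT φ → Om) where
  toIsLev := RT.isLev h.toIsLev
  ne := fun n => by
    obtain ⟨t, ht⟩ := h.ne n
    obtain ⟨t', -, h2, h3⟩ := RT.exists_at (φ := φ) h.toIsLev (m := n) (t := t)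
      (by rw [← ht]; exact hφ.gt t)
    exact ⟨RT.mk t' n h2 h3, rfl⟩
  cnt := fun n => by
    have h1 : MapsTo (RT.nd : RT φ → T) {p | p.tm = n} {t | lev t ≤ n} := by
      intro p hp
      have hp' : p.tm = n := hp
      show lev p.nd ≤ n
      by_contra hc
      rw [not_le] at hc
      obtain ⟨s, hs, h2⟩ := h.ex hc
      have h3 := p.le_tm hs
      rw [hp', ← h2] at h3
      exact absurd h3 (not_le.2 (hφ.gt s))
    refine h1.countable_of_injOn ?_ (h.countable_levels n)
    intro p hp q hq he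
    exact RT.ext' he (Eq.trans hp (Eq.symm hq))
  chain := fun C hC => by
    have h1 : IsChain (· ≤ ·) (RT.nd '' C) := by
      rintro _ ⟨x, hx, rfl⟩ _ ⟨y, hy, rfl⟩ hxy
      rcases hC hx hy (fun e => hxy (congrArg _ e)) with h2 | h2
      · exact Or.inl h2.1
      · exact Or.inr h2.1
    have h2 := h.chain _ h1
    have h3 : C ⊆ ⋃ t ∈ RT.nd '' C, {p : RT φ | p.nd = t} := by
      intro p hp
      simp only [mem_iUnion]
      exact ⟨p.nd, ⟨p, hp, rfl⟩, rfl⟩
    refine Countable.mono h3 (h2.biUnion fun t _ => ?_)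
    have h4 : MapsTo (RT.tm : RT φ → Om) {p | p.nd = t} (Iio (φ t)) := by
      intro p hp
      have hp' : p.nd = t := hp
      show p.tm < φ t
      rw [← hp']
      exact p.tm_lt
    refine h4.countable_of_injOn ?_ (Om.countable_Iio _)
    intro p hp q hq he
    exact RT.ext' (Eq.trans hp (Eq.symm hq)) he
  haus := fun p q hpq hl hI => by
    have hA : ∀ p q : RT φ, Iio p = Iio q → ∀ s < p.nd, s ≤ q.nd := by
      intro p q hI s hs
      obtain ⟨r, hr1, hr2⟩ := RT.exists_last hφ s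
      have h1 : r ∈ Iio p := by
        have h2 : r ≤ p := RT.le_def.2 ⟨by rw [hr1]; exact hs.le, by
          refine (Order.le_succ _).trans ?_
          rw [hr2]
          exact p.le_tm hs⟩
        refine lt_of_le_of_ne h2 ?_
        rintro rfl
        exact hs.ne hr1.symm
      rw [hI] at h1
      rw [← hr1]
      have h1' : r < q := h1
      exact h1'.le.1
    have hBq : ¬ p.nd < q.nd := fun hc =>
      absurd (q.le_tm hc) (not_le.2 (hpq ▸ p.tm_lt))
    have hBp : ¬ q.nd < p.nd := fun hc =>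
      absurd (p.le_tm hc) (not_le.2 (hpq ▸ q.tm_lt))
    by_contra hne
    have hnd : p.nd ≠ q.nd := fun e => hne (RT.ext' e hpq)
    have hIio : Iio p.nd = Iio q.nd := by
      ext s
      constructor
      · intro hs
        refine lt_of_le_of_ne (hA p q hI s hs) ?_
        rintro rfl
        exact hBp hs
      · intro hs
        refine lt_of_le_of_ne (hA q p hI.symm s hs) ?_
        rintro rfl
        exact hBq hs
    have hlev : lev p.nd = lev q.nd := by
      rcases lt_trichotomy (lev p.nd) (lev q.nd) with h1 | h1 | h1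
      · exfalso
        obtain ⟨s, hs, h2⟩ := h.ex h1
        have h3 : s ∈ Iio q.nd := hs
        rw [← hIio] at h3
        have h4 : lev s < lev p.nd := h.mono h3
        rw [h2] at h4
        exact lt_irrefl _ h4
      · exact h1
      · exfalso
        obtain ⟨s, hs, h2⟩ := h.ex h1
        have h3 : s ∈ Iio p.nd := hs
        rw [hIio] at h3
        have h4 : lev s < lev q.nd := h.mono h3
        rw [h2] at h4
        exact lt_irrefl _ h4
    refine hnd (h.haus _ _ hlev ?_ hIio)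
    by_contra hnl
    rw [Order.not_isSuccPrelimit_iff_mem_range_succ] at hnl
    obtain ⟨a, ha⟩ := hnl
    have hap : a < lev p.nd := by
      rw [← ha]
      exact Order.lt_succ a
    have hr := h.res_le hap.le
    have hr2 := h.lev_res hap.le
    have hr3 : res lev p.nd a < p.nd := lt_of_le_of_ne hr (fun e => by
      rw [e] at hr2
      exact hap.ne hr2.symm)
    obtain ⟨b, hb⟩ := hφ.succ (res lev p.nd a)
    have h5 : φ (res lev p.nd a) ≤ p.tm := p.le_tm hr3
    have h6 : φ (res lev p.nd a) < p.tm := by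
      refine lt_of_le_of_ne h5 fun he => ?_
      rw [hb] at he
      exact Order.not_isSuccPrelimit_succ b (he ▸ hl)
    let m : RT φ := ⟨p.nd, φ (res lev p.nd a), (fun s hs => by
      have h7 : s ≤ res lev p.nd a := by
        refine h.le_res hs.le ?_ hap.le
        have := h.mono hs
        rw [← ha] at this
        exact Order.lt_succ_iff.1 this
      rcases h7.lt_or_eq with h8 | h8
      · exact (hφ.mono h8).le
      · rw [h8]), (h6.trans p.tm_lt)⟩
    have h7 : m ∈ Iio p := by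
      have h7a : m ≤ p := RT.le_def.2 ⟨le_rfl, h6.le⟩
      refine lt_of_le_of_ne h7a ?_
      intro he
      exact h6.ne (congrArg RT.tm he)
    rw [hI] at h7
    have h7' : m < q := h7
    rcases h7'.le.1.lt_or_eq with h8 | h8
    · exact hBq h8
    · exact hnd h8

/-- meets in the retimed tree -/
theorem RT.exists_glb (hφ : IsTiming lev φ) {p q : RT φ} (hpq : ¬ p ≤ q) (hqp : ¬ q ≤ p)
    {r : T} (hr : IsGLB {p.nd, q.nd} r) : ∃ m : RT φ, IsGLB {p, q} m ∧ m.nd = r ∧
      Order.succ m.tm = φ r := by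
  obtain ⟨m, hm1, hm2⟩ := RT.exists_last hφ r
  have hnd1 : ¬ p.nd ≤ q.nd := fun hc => (RT.comp_of_nd hc).elim hpq hqp
  have hnd2 : ¬ q.nd ≤ p.nd := fun hc => (RT.comp_of_nd hc).elim hqp hpq
  have hrp : r < p.nd := lt_of_le_of_ne (hr.1 (by simp)) (by
    rintro rfl
    exact hnd1 (hr.1 (by simp)))
  have hrq : r < q.nd := lt_of_le_of_ne (hr.1 (by simp)) (by
    rintro rfl
    exact hnd2 (hr.1 (by simp)))
  refine ⟨m, ⟨?_, ?_⟩, hm1, hm2⟩
  · rintro z (rfl | rfl)
    · refine RT.le_def.2 ⟨by rw [hm1]; exact hrp.le, ?_⟩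
      refine (Order.le_succ _).trans ?_
      rw [hm2]
      exact RT.le_tm _ hrp
    · refine RT.le_def.2 ⟨by rw [hm1]; exact hrq.le, ?_⟩
      refine (Order.le_succ _).trans ?_
      rw [hm2]
      exact RT.le_tm _ hrq
  · intro z hz
    have hzp : z ≤ p := hz (by simp)
    have hzq : z ≤ q := hz (by simp)
    have h1 : z.nd ≤ r := hr.2 (by
      rintro w (rfl | rfl)
      · exact hzp.1
      · exact hzq.1)
    refine RT.le_def.2 ⟨by rw [hm1]; exact h1, ?_⟩
    have h2 : z.tm < φ r := by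
      refine z.tm_lt.trans_le ?_
      rcases h1.lt_or_eq with h3 | h3
      · exact (hφ.mono h3).le
      · rw [h3]
    rw [← hm2] at h2
    exact Order.lt_succ_iff.1 h2

end Run7.h603
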