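import Pool.Agent.Run7.h603.Bridge
import Pool.Agent.Run7.h603.Retime

/-!
# Doubling of countable ordinals
-/

set_option autoImplicit false

open Set

namespace Run7.h603

theorem two_mul_lt {α : Ordinal.{0}} (h : α < Ordinal.omega 1) : 2 * α < Ordinal.omega 1 := by
  rw [← Cardinal.ord_aleph, Cardinal.lt_ord] at h ⊢
  rw [Ordinal.card_mul]
  refine Cardinal.mul_lt_of_lt (Cardinal.aleph0_le_aleph 1) ?_ h
  have h2 : (2 : Ordinal.{0}).card = 2 := by simp
  rw [h2]
  exact (Cardinal.natCast_lt_aleph0 (n := 2)).trans Cardinal.aleph0_lt_aleph_one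

/-- doubling -/
noncomputable def dbl (a : Om) : Om := (exists_ordOf (two_mul_lt (ordOf_lt a))).choose

theorem ordOf_dbl (a : Om) : ordOf (dbl a) = 2 * ordOf a :=
  (exists_ordOf (two_mul_lt (ordOf_lt a))).choose_spec

theorem ordOf_succ (a : Om) : ordOf (Order.succ a) = Order.succ (ordOf a) := by
  refine le_antisymm ?_ ?_
  · have h1 : Order.succ (ordOf a) < Ordinal.omega 1 := by
      have h2 := Cardinal.isSuccLimit_ord (Cardinal.aleph0_le_aleph 1)
      rw [Cardinal.ord_aleph] at h2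
      exact h2.succ_lt (ordOf_lt a)
    obtain ⟨b, hb⟩ := exists_ordOf h1
    rw [← hb, ordOf_le_iff]
    refine Order.succ_le_of_lt ?_
    rw [← ordOf_lt_iff, hb]
    exact Order.lt_succ _
  · refine Order.succ_le_of_lt ?_
    rw [ordOf_lt_iff]
    exact Order.lt_succ a

theorem dbl_lt_dbl {a b : Om} (h : a < b) : dbl a < dbl b := by
  rw [← ordOf_lt_iff, ordOf_dbl, ordOf_dbl]
  rw [← ordOf_lt_iff] at h
  exact mul_lt_mul_of_pos_left h (by simp)

theorem dbl_le_dbl {a b : Om} (h : a ≤ b) : dbl a ≤ dbl b := by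
  rcases h.lt_or_eq with h1 | h1
  · exact (dbl_lt_dbl h1).le
  · rw [h1]

theorem dbl_inj {a b : Om} (h : dbl a = dbl b) : a = b := by
  rcases lt_trichotomy a b with h1 | h1 | h1
  · exact absurd h (dbl_lt_dbl h1).ne
  · exact h1
  · exact absurd h.symm (dbl_lt_dbl h1).ne

theorem le_dbl (a : Om) : a ≤ dbl a := by
  rw [← ordOf_le_iff, ordOf_dbl]
  exact Ordinal.le_mul_right _ (by simp)

theorem dbl_succ (a : Om) : dbl (Order.succ a) = Order.succ (Order.succ (dbl a)) := by
  rw [← ordOf_inj, ordOf_dbl, ordOf_succ, ordOf_succ, ordOf_succ, ordOf_dbl, Ordinal.mul_succ]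
  rw [Order.succ_eq_add_one, Order.succ_eq_add_one, add_assoc]
  congr 1
  exact one_add_one_eq_two.symm

theorem even_dbl (a : Om) : (2 : Ordinal.{0}) ∣ ordOf (dbl a) := by
  rw [ordOf_dbl]
  exact dvd_mul_right _ _

theorem not_even_succ_dbl (a : Om) : ¬ (2 : Ordinal.{0}) ∣ ordOf (Order.succ (dbl a)) := by
  rw [ordOf_succ, ordOf_dbl, Order.succ_eq_add_one, Ordinal.dvd_iff_mod_eq_zero,
    Ordinal.mul_add_mod_self]
  intro h
  rw [Ordinal.mod_eq_of_lt] at h
  · simp at h
  · exact one_lt_two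

theorem succ_dbl_ne (a b : Om) : Order.succ (dbl a) ≠ dbl b := by
  intro h
  exact not_even_succ_dbl a (h ▸ even_dbl b)

section

variable {T : Type} [PartialOrder T]

omit [PartialOrder T] in
open Classical in
/-- the timing attached to a set `K` of nodes -/
noncomputable def tmg (lev : T → Om) (K : Set T) (t : T) : Om :=
  if t ∈ K then Order.succ (dbl (lev t)) else Order.succ (Order.succ (dbl (lev t)))

omit [PartialOrder T] in
theorem tmg_pos {lev : T → Om} {K : Set T} {t : T} (h : t ∈ K) :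
    tmg lev K t = Order.succ (dbl (lev t)) := by
  unfold tmg
  rw [if_pos h]

omit [PartialOrder T] in
theorem tmg_neg {lev : T → Om} {K : Set T} {t : T} (h : t ∉ K) :
    tmg lev K t = Order.succ (Order.succ (dbl (lev t))) := by
  unfold tmg
  rw [if_neg h]

omit [PartialOrder T] in
theorem tmg_le (lev : T → Om) (K : Set T) (t : T) :
    tmg lev K t ≤ Order.succ (Order.succ (dbl (lev t))) := by
  by_cases h : t ∈ K
  · rw [tmg_pos h]
    exact Order.le_succ _
  · rw [tmg_neg h]

omit [PartialOrder T] in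
theorem lt_tmg (lev : T → Om) (K : Set T) (t : T) : dbl (lev t) < tmg lev K t := by
  by_cases h : t ∈ K
  · rw [tmg_pos h]
    exact Order.lt_succ _
  · rw [tmg_neg h]
    exact (Order.lt_succ _).trans (Order.lt_succ _)

theorem tmg_le_of_lt {lev : T → Om} (hl : IsLev lev) (K : Set T) {s t : T} (h : s < t) :
    tmg lev K s ≤ dbl (lev t) := by
  refine (tmg_le lev K s).trans ?_
  rw [← dbl_succ]
  exact dbl_le_dbl (Order.succ_le_of_lt (hl.mono h))

theorem isTiming_tmg {lev : T → Om} (hl : IsLev lev) (K : Set T) : IsTiming lev (tmg lev K) where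
  mono := fun {s t} h => (tmg_le_of_lt hl K h).trans_lt (lt_tmg lev K t)
  succ := fun t => by
    by_cases h : t ∈ K
    · exact ⟨_, tmg_pos h⟩
    · exact ⟨_, tmg_neg h⟩
  gt := fun t => (le_dbl _).trans_lt (lt_tmg lev K t)

/-- the node of the retimed tree at the time `2 * lev t` -/
noncomputable def emb {lev : T → Om} (hl : IsLev lev) (K : Set T) (t : T) : RT (tmg lev K) :=
  ⟨t, dbl (lev t), fun _ hs => tmg_le_of_lt hl K hs, lt_tmg lev K t⟩

end

end Run7.h603
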