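import Pool.Agent.Run7.h603.Sh3

set_option autoImplicit false

/-!
# Sets of integers that are mapped into themselves by `y ↦ (q y + 1) / 2 ^ k`: product sets

The version of `Sh3` for an arbitrary integer `q ≥ 2` in place of `3`.
-/

namespace Run7.h603.Q

open Finset Pool.Agent.N811.IS Run7.h603
open scoped Pointwise

section
variable (q : ℤ) (hq : 2 ≤ q) (σ : ℤ) (hσ : σ = 1 ∨ σ = -1) (k : ℕ) (X B : Finset ℤ)
  (hB : B.Nonempty) (hBX : B ⊆ X)
  (hs : ∀ y ∈ B, 0 < σ * y) (hf : ∀ y ∈ B, ∃ z ∈ X, q * y + 1 = 2 ^ k * z)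

include hq hσ hBX hs in
lemma setA : ∃ A : Finset ℤ, A = B.image (fun y => q * σ * y) ∧ A.card = B.card ∧
    (∀ a ∈ A, 0 < a) ∧ (∀ a ∈ A, 1 + σ * a ≠ 0) ∧ (∀ a ∈ A, ∃ y ∈ X, a = (q * σ) * y) ∧
    (∀ a ∈ A, ∃ y ∈ B, 1 + σ * a = q * y + 1) ∧ ∀ y ∈ B, q * σ * y ∈ A := by
  have hσ2 : σ * σ = 1 := by rcases hσ with rfl | rfl <;> norm_num
  have h1 : ∀ y ∈ B, 1 + σ * (q * σ * y) = q * y + 1 := by
    intro y _
    have : 1 + σ * (q * σ * y) = 1 + q * (σ * σ) * y := by ring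
    rw [this, hσ2]; ring
  refine ⟨_, rfl, ?_, ?_, ?_, ?_, ?_, ?_⟩
  · apply Finset.card_image_of_injOn
    intro y _ z _ h
    simp only at h
    have h2 : σ * (q * σ * y) = σ * (q * σ * z) := by rw [h]
    have h3 : q * (σ * σ) * y = q * (σ * σ) * z := by linarith
    rw [hσ2, mul_one] at h3
    exact mul_left_cancel₀ (show q ≠ 0 by omega) h3
  · intro a ha
    obtain ⟨y, hy, rfl⟩ := Finset.mem_image.1 ha
    have := hs y hy
    have e : q * σ * y = q * (σ * y) := by ring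
    rw [e]
    exact mul_pos (by omega) this
  · intro a ha
    obtain ⟨y, hy, rfl⟩ := Finset.mem_image.1 ha
    rw [h1 y hy]
    intro h0
    have h2 : q ∣ 1 := ⟨-y, by linarith⟩
    have h3 := Int.le_of_dvd (by norm_num) h2
    omega
  · intro a ha
    obtain ⟨y, hy, rfl⟩ := Finset.mem_image.1 ha
    exact ⟨y, hBX hy, rfl⟩
  · intro a ha
    obtain ⟨y, hy, rfl⟩ := Finset.mem_image.1 ha
    exact ⟨y, hy, h1 y hy⟩
  · intro y hy
    exact Finset.mem_image_of_mem _ hy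

include hq hσ hB hBX hs hf in
/-- **Growth of the iterated product sets.** -/
theorem growth {N : ℕ} (hN : 2 ≤ N) :
    (B.card : ℝ) ^ (Real.log N / (Real.log (Real.log N) + 7 / 5)) ≤ ((prods N X).card : ℝ) := by
  classical
  obtain ⟨A, hA, hcard, hpos, hne, hmul, hsh, hmem⟩ := setA q hq σ hσ X B hBX hs
  have hAn : A.Nonempty := by rw [hA]; exact hB.image _
  have h := shift_low σ hσ hN A hAn hpos hne
  rw [hcard] at h
  refine h.trans (max_le ?_ ?_)
  · have := prods_mul_le N (2 ^ k) B X (A.image fun a => 1 + σ * a) (fun b hb => by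
      obtain ⟨a, ha, rfl⟩ := Finset.mem_image.1 hb
      obtain ⟨y, hy, he⟩ := hsh a ha
      obtain ⟨z, hz, hz'⟩ := hf y hy
      exact ⟨z, hz, by rw [he, hz']⟩)
    exact_mod_cast this
  · have := prods_mul_le N (q * σ) B X A hmul
    exact_mod_cast this

include hq hσ hB hBX hs hf in
/-- **Expansion of arbitrary sets.** -/
theorem expand {N : ℕ} (hN : 2 ≤ N) {θ c β : ℝ}
    (hθ : 1 / 2 ≤ θ) (hθ1 : θ < 1) (hc : 0 < c) (hcθ : c ≤ 2 ^ (1 - θ) - 1) (hβ : 0 ≤ β)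
    (hcβ : 1 / c ≤ ((N : ℝ) - (N - 1) * c) ^ β) (Y : Finset ℚ) (hY : Y.Nonempty)
    (hY0 : (0 : ℚ) ∉ Y) :
    (B.card : ℝ) ^ (1 + β) * (Y.card : ℝ) ^ θ ≤
      ((Finset.image₂ (fun (z : ℤ) (y : ℚ) => (z : ℚ) * y) X Y).card : ℝ) *
        ((prods N X).card : ℝ) ^ β := by
  classical
  obtain ⟨A, hA, hcard, hpos, hne, hmul, hsh, hmem⟩ := setA q hq σ hσ X B hBX hs
  have hAn : A.Nonempty := by rw [hA]; exact hB.image _
  have h := shift_one σ hσ hN hθ hθ1 hc hcθ hcβ A hAn hpos hne Y hY hY0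
  rw [hcard] at h
  refine h.trans ?_
  have h1 : (Finset.image₂ (fun (a : ℤ) (y : ℚ) => ((1 + σ * a : ℤ) : ℚ) * y) A Y).card ≤
      (Finset.image₂ (fun (z : ℤ) (y : ℚ) => (z : ℚ) * y) X Y).card := by
    have hsub : Finset.image₂ (fun (a : ℤ) (y : ℚ) => ((1 + σ * a : ℤ) : ℚ) * y) A Y ⊆
        (Finset.image₂ (fun (z : ℤ) (y : ℚ) => (z : ℚ) * y) X Y).image fun w => 2 ^ k * w := by
      intro w hw
      obtain ⟨a, ha, y, hy, rfl⟩ := Finset.mem_image₂.1 hw
      obtain ⟨b, hb, he⟩ := hsh a ha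
      obtain ⟨z, hz, hz'⟩ := hf b hb
      refine Finset.mem_image.2 ⟨(z : ℚ) * y, Finset.mem_image₂.2 ⟨z, hz, y, hy, rfl⟩, ?_⟩
      rw [he, hz']
      push_cast; ring
    exact (Finset.card_le_card hsub).trans Finset.card_image_le
  have h2 : (prodset fun _ : Fin N => A).card ≤ (prods N X).card := prods_mul_le N (q * σ) B X A hmul
  have h1' : ((Finset.image₂ (fun (a : ℤ) (y : ℚ) => ((1 + σ * a : ℤ) : ℚ) * y) A Y).card : ℝ) ≤
      ((Finset.image₂ (fun (z : ℤ) (y : ℚ) => (z : ℚ) * y) X Y).card : ℝ) := by exact_mod_cast h1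
  have h2' : (((prodset fun _ : Fin N => A).card : ℝ)) ^ β ≤ ((prods N X).card : ℝ) ^ β :=
    Real.rpow_le_rpow (by positivity) (by exact_mod_cast h2) hβ
  exact mul_le_mul h1' h2' (by positivity) (by positivity)

end

/-- **Two factors.** (The argument of Elekes with the theorem of Szemerédi and Trotter.) -/
theorem two_factors (q : ℤ) (hq : 2 ≤ q) (k : ℕ) (X B : Finset ℤ) (hBX : B ⊆ X) (hB0 : ∀ y ∈ B, y ≠ 0)
    (hf : ∀ y ∈ B, ∃ z ∈ X, q * y + 1 = 2 ^ k * z) :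
    B.card ^ 5 ≤ 512 * (prods 2 X).card ^ 4 := by
  classical
  rcases Nat.lt_or_ge B.card 2 with h2 | h2
  · rcases B.eq_empty_or_nonempty with he | hne
    · rw [he]; simp
    · have h1 : B.card ^ 5 ≤ 1 := by
        have : B.card ≤ 1 := by omega
        simpa using Nat.pow_le_pow_left this 5
      have h3 : 1 ≤ (prods 2 X).card ^ 4 := Nat.one_le_pow _ _
        (prods_nonempty 2 (hne.mono hBX)).card_pos
      omega
  have hmem2 : ∀ a ∈ X, ∀ b ∈ X, a * b ∈ prods 2 X := by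
    intro a ha b hb
    refine mem_prods.2 ⟨![a, b], ?_, by simp⟩
    intro i
    fin_cases i
    · simpa using ha
    · simpa using hb
  set P : Finset ℝ := (prods 2 X).image fun z : ℤ => (z : ℝ) with hP
  set Q : Finset ℝ := (prods 2 X).image fun z : ℤ => (2 ^ (2 * k) : ℝ) * z with hQ
  set L : Finset (ℝ × ℝ) := (B ×ˢ B).image fun w : ℤ × ℤ =>
    (((q : ℝ) * ((q : ℝ) * (w.2 : ℝ) + 1) / (w.1 : ℝ), (q : ℝ) * (w.2 : ℝ) + 1) : ℝ × ℝ) with hL
  have hPc : P.card ≤ (prods 2 X).card := Finset.card_image_le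
  have hQc : Q.card ≤ (prods 2 X).card := Finset.card_image_le
  have hq0 : (q : ℝ) ≠ 0 := by
    have : q ≠ 0 := by omega
    exact_mod_cast this
  have h30 : ∀ y : ℤ, ((q : ℝ) * (y : ℝ) + 1) ≠ 0 := by
    intro y h
    have h1 : (q * y + 1 : ℤ) = 0 := by exact_mod_cast h
    have h2 : q ∣ 1 := ⟨-y, by linarith⟩
    have h3 := Int.le_of_dvd (by norm_num) h2
    omega
  have hLc : L.card = B.card ^ 2 := by
    rw [hL, Finset.card_image_of_injOn, Finset.card_product, pow_two]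
    rintro ⟨b, c⟩ hq ⟨b', c'⟩ hq' h
    simp only [Finset.coe_product, Set.mem_prod, Finset.mem_coe] at hq hq'
    simp only [Prod.mk.injEq] at h
    obtain ⟨e1, e2⟩ := h
    have hc : (c : ℝ) = c' := by
      have h0 : (q : ℝ) * c = q * c' := by linarith
      exact mul_left_cancel₀ hq0 h0
    have hc' : c = c' := by exact_mod_cast hc
    subst hc'
    have hb : (b : ℝ) ≠ 0 := by exact_mod_cast hB0 b hq.1
    have hb' : (b' : ℝ) ≠ 0 := by exact_mod_cast hB0 b' hq'.1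
    rw [div_eq_div_iff hb hb'] at e1
    have h3 : ((q : ℝ) * ((q : ℝ) * (c : ℝ) + 1)) ≠ 0 := mul_ne_zero hq0 (h30 c)
    have := mul_left_cancel₀ h3 e1
    have : b' = b := by exact_mod_cast this
    rw [this]
  have hmain := Pool.Agent.W975.SP.main' P Q L B.card h2 (by
    intro l hl
    obtain ⟨⟨b, c⟩, hq, rfl⟩ := Finset.mem_image.1 hl
    rw [Finset.mem_product] at hq
    obtain ⟨hb, hc⟩ := hq
    simp only at hb hc ⊢
    have hb0 : (b : ℝ) ≠ 0 := by exact_mod_cast hB0 b hb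
    refine ⟨div_ne_zero (mul_ne_zero hq0 (h30 c)) hb0, ?_⟩
    apply Finset.card_le_card_of_injOn (fun a : ℤ => (a : ℝ) * b)
    · intro a ha
      have ha' : a ∈ B := ha
      simp only [Finset.coe_filter, Set.mem_setOf_eq]
      refine ⟨?_, ?_⟩
      · rw [hP]
        exact Finset.mem_image.2 ⟨a * b, hmem2 a (hBX ha') b (hBX hb), by push_cast; ring⟩
      · obtain ⟨z, hz, hz'⟩ := hf a ha'
        obtain ⟨w, hw, hw'⟩ := hf c hc
        rw [hQ]
        refine Finset.mem_image.2 ⟨z * w, hmem2 z hz w hw, ?_⟩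
        have e1 : ((q : ℝ) * (a : ℝ) + 1) = 2 ^ k * z := by exact_mod_cast hz'
        have e2 : ((q : ℝ) * (c : ℝ) + 1) = 2 ^ k * w := by exact_mod_cast hw'
        have e3 : (q : ℝ) * ((q : ℝ) * (c : ℝ) + 1) / b * (a * b) + ((q : ℝ) * (c : ℝ) + 1) =
            ((q : ℝ) * (a : ℝ) + 1) * ((q : ℝ) * (c : ℝ) + 1) := by
          field_simp
        rw [e3, e1, e2]
        push_cast
        ring
    · intro a _ a' _ h
      simp only at h
      have := mul_right_cancel₀ hb0 h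
      exact_mod_cast this)
  rw [hLc] at hmain
  have h5 : P.card ^ 2 * Q.card ^ 2 ≤ (prods 2 X).card ^ 2 * (prods 2 X).card ^ 2 :=
    Nat.mul_le_mul (Nat.pow_le_pow_left hPc 2) (Nat.pow_le_pow_left hQc 2)
  calc B.card ^ 5 = B.card ^ 2 * B.card ^ 3 := by ring
    _ ≤ 512 * P.card ^ 2 * Q.card ^ 2 := hmain
    _ = 512 * (P.card ^ 2 * Q.card ^ 2) := by ring
    _ ≤ 512 * ((prods 2 X).card ^ 2 * (prods 2 X).card ^ 2) := Nat.mul_le_mul_left _ h5
    _ = _ := by ring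

end Run7.h603.Q
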