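import Pool.Agent.Run7.h603.Sh3

set_option autoImplicit false

/-!
# Products of the numbers `b + m a`

For nonzero integers `b`, `m` (`m` positive) and a finite nonempty set `A` of positive integers prime
to `b` the `N`-fold product sets of `A` and of `b + m A` cannot both be small. (The version of `Sh2`
for `b = 1`, `-1` and `m = 1`.)
-/

namespace Run7.h603.Q

open Finset Pool.Agent.N811.IS Run7.h603
open scoped Pointwise

/-- the positive integers prime to `b` with their valuations -/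
noncomputable def vrCop (b : ℤ) : VR ℤ where
  ι := vrInt.ι
  S := {a | 0 < a ∧ IsCoprime a b}
  v := vrInt.v
  H := vrInt.H
  one_mem := ⟨one_pos, isCoprime_one_left⟩
  mul_mem a ha c hc := ⟨mul_pos ha.1 hc.1, IsCoprime.mul_left ha.2 hc.2⟩
  v_one := vrInt.v_one
  v_mul i a ha c hc := vrInt.v_mul i a ha.1 c hc.1
  mem_H i j a ha := vrInt.mem_H i j a ha.1
  sep a ha c hc h := vrInt.sep a ha.1 c hc.1 h
  inj c hc a ha d hd h := vrInt.inj c hc.1 a ha.1 d hd.1 h

/-- `(b + m a) / b`, or `2` if this is zero -/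
def shb (m b a : ℤ) : ℚ := if b + m * a = 0 then 2 else ((b + m * a : ℤ) : ℚ) / b

lemma shb_ne {m b : ℤ} (hb : b ≠ 0) (a : ℤ) : shb m b a ≠ 0 := by
  unfold shb
  split_ifs with h
  · norm_num
  · have h1 : ((b + m * a : ℤ) : ℚ) ≠ 0 := by exact_mod_cast h
    have h2 : (b : ℚ) ≠ 0 := by exact_mod_cast hb
    exact div_ne_zero h1 h2

lemma shb_eq {m b a : ℤ} (h : b + m * a ≠ 0) : shb m b a = ((b + m * a : ℤ) : ℚ) / b := by
  unfold shb
  rw [if_neg h]

/-- the unit `(b + m a) / b` -/
def phb (m b : ℤ) (hb : b ≠ 0) (a : ℤ) : ℚˣ := Units.mk0 (shb m b a) (shb_ne hb a)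

/-- the exponent of `p` in `m` -/
lemma dvd_shift {p m a : ℤ} (hp : Prime p) (hm : m ≠ 0) (j : ℕ) :
    p ^ (j + multiplicity p m + 1) ∣ m * a ↔ p ^ (j + 1) ∣ a := by
  have hf : FiniteMultiplicity p m := FiniteMultiplicity.of_prime_left hp hm
  obtain ⟨c, hc, hpc⟩ := hf.exists_eq_pow_mul_and_not_dvd
  set e := multiplicity p m with he
  have hpe : p ^ e ≠ 0 := pow_ne_zero _ hp.ne_zero
  rw [hc, show j + e + 1 = e + (j + 1) by ring, pow_add, mul_assoc, mul_dvd_mul_iff_left hpe]
  constructor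
  · intro h
    exact hp.pow_dvd_of_dvd_mul_left _ hpc h
  · intro h
    exact Dvd.dvd.mul_left h _

lemma phb_mem {m b : ℤ} (hm : 0 < m) (hb : b ≠ 0) (p : ℤ) (hp : Prime p) (hpb : ¬ p ∣ b) (j : ℕ)
    (a : ℤ) (ha : 0 < a) (hab : IsCoprime a b) :
    phb m b hb a ∈ Kp p hp (j + multiplicity p m) ↔ p ^ (j + 1) ∣ a := by
  have hpu : ∀ l : ℕ, p ^ (l + 1) ∣ 1 → False := fun l h =>
    hp.not_unit (isUnit_of_dvd_one ((dvd_pow_self p (Nat.succ_ne_zero l)).trans h))
  rw [← dvd_shift hp hm.ne' j]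
  by_cases h0 : b + m * a = 0
  · -- `a = 1`
    have h1 : a ∣ b := ⟨-m, by linarith⟩
    have h2 : IsUnit a := hab.isUnit_of_dvd' dvd_rfl h1
    have ha1 : a = 1 := by
      rcases Int.isUnit_iff.1 h2 with h | h <;> omega
    have hs : shb m b a = 2 := by
      unfold shb
      rw [if_pos h0]
    have hmb : m = -b := by rw [ha1] at h0; linarith
    constructor
    · rintro ⟨A, B, hB, hd, e⟩
      exfalso
      unfold phb at e
      rw [Units.val_mk0, hs] at e
      have e' : 2 * B = A := by exact_mod_cast e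
      apply hB
      have : A - B = B := by omega
      rw [this] at hd
      exact (dvd_pow_self p (Nat.succ_ne_zero _)).trans hd
    · intro h
      exfalso
      apply hpb
      have h3 : p ∣ m * a := (dvd_pow_self p (Nat.succ_ne_zero _)).trans h
      rw [ha1, mul_one, hmb, dvd_neg] at h3
      exact h3
  · have hs := shb_eq h0
    have hbq : (b : ℚ) ≠ 0 := by exact_mod_cast hb
    constructor
    · rintro ⟨A, B, hB, hd, e⟩
      unfold phb at e
      rw [Units.val_mk0, hs] at e
      have e' : (b + m * a) * B = A * b := by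
        have : ((b + m * a : ℤ) : ℚ) * B = A * b := by
          field_simp at e
          linarith
        exact_mod_cast this
      have e2 : (A - B) * b = B * (m * a) := by
        have : (A - B) * b = A * b - B * b := by ring
        rw [this, ← e']; ring
      have hd2 : p ^ (j + multiplicity p m + 1) ∣ B * (m * a) := by
        rw [← e2]
        exact Dvd.dvd.mul_right hd _
      exact hp.pow_dvd_of_dvd_mul_left _ hB hd2
    · intro h
      refine ⟨b + m * a, b, hpb, ?_, ?_⟩
      · have : b + m * a - b = m * a := by ring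
        rw [this]
        exact h
      · unfold phb
        rw [Units.val_mk0, hs]
        field_simp

lemma phb_inj {m b : ℤ} (hm : 0 < m) (hb : b ≠ 0) {a c : ℤ} (ha : 0 < a) (hc : 0 < c)
    (hab : IsCoprime a b) (hcb : IsCoprime c b) (h : phb m b hb a = phb m b hb c) : a = c := by
  have h' : shb m b a = shb m b c := by
    have := congrArg (fun u : ℚˣ => (u : ℚ)) h
    simpa [phb] using this
  have hbq : (b : ℚ) ≠ 0 := by exact_mod_cast hb
  -- the value `2` is not of the form `(b + m c) / b` if some `b + m a = 0`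
  have key : ∀ a c : ℤ, 0 < a → 0 < c → IsCoprime a b → b + m * a = 0 → b + m * c ≠ 0 →
      (2 : ℚ) ≠ ((b + m * c : ℤ) : ℚ) / b := by
    intro a c ha hc hab h0 h1 h2
    rw [eq_div_iff hbq] at h2
    have h3 : 2 * b = b + m * c := by exact_mod_cast h2
    have h4 : m * c = b := by linarith
    have h5 : 0 < m * c := mul_pos hm hc
    have h6 : 0 < m * a := mul_pos hm ha
    omega
  by_cases h0 : b + m * a = 0
  · by_cases h1 : b + m * c = 0
    · have : m * a = m * c := by linarith
      exact mul_left_cancel₀ hm.ne' this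
    · exfalso
      rw [shb_eq h1] at h'
      unfold shb at h'
      rw [if_pos h0] at h'
      exact key a c ha hc hab h0 h1 h'
  · by_cases h1 : b + m * c = 0
    · exfalso
      rw [shb_eq h0] at h'
      unfold shb at h'
      rw [if_pos h1] at h'
      exact key c a hc ha hcb h1 h0 h'.symm
    · rw [shb_eq h0, shb_eq h1, div_left_inj' hbq] at h'
      have h2 : b + m * a = b + m * c := by exact_mod_cast h'
      have : m * a = m * c := by linarith
      exact mul_left_cancel₀ hm.ne' this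

open Classical in
/-- the map `a ↦ (b + m a) / b` -/
noncomputable def Fshb (m b : ℤ) (hm : 0 < m) (hb : b ≠ 0) : VMap (vrCop b) (Additive ℚˣ) where
  φ a := Additive.ofMul (phb m b hb a)
  K i j := match j with
    | 0 => ⊤
    | j + 1 => if i.1 ∣ b then ⊥ else
        Subgroup.toAddSubgroup (Kp i.1 i.2 (j + multiplicity i.1 m))
  mem_K i j a ha := by
    obtain ⟨ha', hab⟩ := ha
    have hv : j + 1 ≤ (vrCop b).v i a ↔ i.1 ^ (j + 1) ∣ a :=
      ((FiniteMultiplicity.of_prime_left i.2 (ne_of_gt ha')).pow_dvd_iff_le_multiplicity).symm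
    rw [hv]
    by_cases hpb : i.1 ∣ b
    · simp only [if_pos hpb]
      constructor
      · intro h
        exfalso
        rw [AddSubgroup.mem_bot] at h
        have h1 : phb m b hb a = 1 := Additive.ofMul.injective h
        have h2 : shb m b a = 1 := by
          have := congrArg (fun u : ℚˣ => (u : ℚ)) h1
          simpa [phb] using this
        by_cases h0 : b + m * a = 0
        · unfold shb at h2
          rw [if_pos h0] at h2
          norm_num at h2
        · rw [shb_eq h0, div_eq_one_iff_eq (by exact_mod_cast hb)] at h2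
          have h3 : b + m * a = b := by exact_mod_cast h2
          have h4 : 0 < m * a := mul_pos hm ha'
          omega
      · intro h
        exfalso
        have h1 : i.1 ∣ a := (dvd_pow_self _ (Nat.succ_ne_zero j)).trans h
        exact i.2.not_unit (hab.isUnit_of_dvd' h1 hpb)
    · simp only [if_neg hpb]
      have h1 : Additive.ofMul (phb m b hb a) ∈
          Subgroup.toAddSubgroup (Kp i.1 i.2 (j + multiplicity i.1 m)) ↔
          phb m b hb a ∈ Kp i.1 i.2 (j + multiplicity i.1 m) := Iff.rfl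
      rw [h1]
      exact phb_mem hm hb i.1 i.2 hpb j a ha' hab

/-- **Multiplication by the numbers `b + m a` expands every finite set.** -/
theorem shiftb_one {m b : ℤ} (hm : 0 < m) (hb : b ≠ 0) {n : ℕ} (hn : 2 ≤ n) {θ c β : ℝ}
    (hθ : 1 / 2 ≤ θ) (hθ1 : θ < 1) (hc : 0 < c) (hcθ : c ≤ 2 ^ (1 - θ) - 1)
    (hcβ : 1 / c ≤ ((n : ℝ) - (n - 1) * c) ^ β)
    (A : Finset ℤ) (hA : A.Nonempty) (hAp : ∀ a ∈ A, 0 < a ∧ IsCoprime a b)
    (hA1 : ∀ a ∈ A, b + m * a ≠ 0)
    (Y : Finset ℚ) (hY : Y.Nonempty) (hY0 : (0 : ℚ) ∉ Y) :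
    (A.card : ℝ) ^ (1 + β) * (Y.card : ℝ) ^ θ ≤
      ((Finset.image₂ (fun (a : ℤ) (y : ℚ) => ((b + m * a : ℤ) : ℚ) * y) A Y).card : ℝ) *
        ((prodset fun _ : Fin n => A).card : ℝ) ^ β := by
  classical
  have hbq : (b : ℚ) ≠ 0 := by exact_mod_cast hb
  have hy0 : ∀ y : Y, (y : ℚ) ≠ 0 := fun y h => hY0 (h ▸ y.2)
  set Y' : Finset (Additive ℚˣ) :=
    Y.attach.image fun y : Y => Additive.ofMul (Units.mk0 (y : ℚ) (hy0 y)) with hY'
  have hcY : Y'.card = Y.card := by
    rw [hY', Finset.card_image_of_injective, Finset.card_attach]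
    intro y z h
    apply Subtype.ext
    have := congrArg toQ h
    simpa [toQ] using this
  have hY'n : Y'.Nonempty := by
    rw [hY']
    exact (Finset.attach_nonempty_iff.2 hY).image _
  have h := iso_one (Fshb m b hm hb) hn hθ hθ1 hc hcθ hcβ A hA hAp Y' hY'n
  rw [hcY] at h
  refine h.trans ?_
  apply mul_le_mul_of_nonneg_right _ (by positivity)
  have hle : (A.image (Fshb m b hm hb).φ + Y').card ≤
      (Finset.image₂ (fun (a : ℤ) (y : ℚ) => ((b + m * a : ℤ) : ℚ) * y) A Y).card := by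
    rw [← Finset.card_image_of_injective (A.image (Fshb m b hm hb).φ + Y') toQ_inj]
    refine le_trans (Finset.card_le_card ?_) (Finset.card_image_le
      (s := Finset.image₂ (fun (a : ℤ) (y : ℚ) => ((b + m * a : ℤ) : ℚ) * y) A Y)
      (f := fun z : ℚ => z / b))
    intro z hz
    obtain ⟨g, hg, rfl⟩ := Finset.mem_image.1 hz
    obtain ⟨u, hu, v, hv, rfl⟩ := Finset.mem_add.1 hg
    obtain ⟨a, ha, rfl⟩ := Finset.mem_image.1 hu
    rw [hY'] at hv
    obtain ⟨y, _, rfl⟩ := Finset.mem_image.1 hv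
    rw [Finset.mem_image]
    refine ⟨((b + m * a : ℤ) : ℚ) * y, Finset.mem_image₂.2 ⟨a, ha, y, y.2, rfl⟩, ?_⟩
    rw [toQ_add]
    have e1 : toQ ((Fshb m b hm hb).φ a) = shb m b a := rfl
    have e2 : toQ (Additive.ofMul (Units.mk0 (y : ℚ) (hy0 y))) = y := rfl
    rw [e1, e2, shb_eq (hA1 a ha)]
    ring
  exact_mod_cast hle

lemma ksumb_le {m b : ℤ} (hm : 0 < m) (hb : b ≠ 0) (N : ℕ) (A : Finset ℤ)
    (hA1 : ∀ a ∈ A, b + m * a ≠ 0) :
    (ksum N (A.image (Fshb m b hm hb).φ)).card ≤
      (prodset fun _ : Fin N => A.image fun a => b + m * a).card := by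
  classical
  rw [← Finset.card_image_of_injective (ksum N (A.image (Fshb m b hm hb).φ)) toQ_inj]
  refine le_trans (Finset.card_le_card ?_)
    (Finset.card_image_le (s := prodset fun _ : Fin N => A.image fun a => b + m * a)
      (f := fun z : ℤ => (z : ℚ) / (b : ℚ) ^ N))
  intro z hz
  obtain ⟨g, hg, rfl⟩ := Finset.mem_image.1 hz
  unfold ksum at hg
  obtain ⟨f, hf, rfl⟩ := Finset.mem_image.1 hg
  rw [Fintype.mem_piFinset] at hf
  have hch : ∀ i, ∃ a ∈ A, (Fshb m b hm hb).φ a = f i := fun i => Finset.mem_image.1 (hf i)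
  choose a ha haf using hch
  rw [Finset.mem_image]
  refine ⟨∏ i, (b + m * a i), (mem_prodset _ _).2 ⟨fun i => b + m * a i, fun i =>
    Finset.mem_image_of_mem _ (ha i), rfl⟩, ?_⟩
  rw [toQ_sum]
  have e0 : (b : ℚ) ^ N = ∏ _i : Fin N, (b : ℚ) := by simp
  rw [Int.cast_prod, e0, ← Finset.prod_div_distrib]
  refine Finset.prod_congr rfl fun i _ => ?_
  rw [← haf i]
  have e1 : toQ ((Fshb m b hm hb).φ (a i)) = shb m b (a i) := rfl
  rw [e1, shb_eq (hA1 _ (ha i))]

/-- **Products of shifts**: the exponent `log N / (log log N + 7/5)`. -/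
theorem shiftb_low {m b : ℤ} (hm : 0 < m) (hb : b ≠ 0) {N : ℕ} (hN : 2 ≤ N) (A : Finset ℤ)
    (hA : A.Nonempty) (hAp : ∀ a ∈ A, 0 < a ∧ IsCoprime a b) (hA1 : ∀ a ∈ A, b + m * a ≠ 0) :
    (A.card : ℝ) ^ (Real.log N / (Real.log (Real.log N) + 7 / 5)) ≤
      max ((prodset fun _ : Fin N => A.image fun a => b + m * a).card : ℝ)
        ((prodset fun _ : Fin N => A).card : ℝ) := by
  classical
  have h := low (Fshb m b hm hb) (fun a ha c hc h => phb_inj hm hb ha.1 hc.1 ha.2 hc.2
    (Additive.ofMul.injective h)) hN A hA hAp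
  refine h.trans (max_le_max_right _ ?_)
  exact_mod_cast ksumb_le hm hb N A hA1

end Run7.h603.Q
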