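import Pool.Agent.Run7.h603.Dl3
import Pool.Agent.W975.SP.ST1

set_option autoImplicit false

/-!
# Sets of integers and the maps `y ↦ (m y + b) / D`: product sets

`X` is a finite set of integers, `B` a subset all of whose elements `y` have the same sign, the same
greatest common divisor with `b`, and satisfy `0 ≠ m y + b = D z` with `z ∈ X`. Then the product sets of
`X` are large in terms of `|B|`.
-/

namespace Run7.h603.Q

open Finset Pool.Agent.N811.IS Run7.h603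
open scoped Pointwise

lemma prods_mul_le' (N : ℕ) {c d : ℤ} (hc : c ≠ 0) (A X : Finset ℤ)
    (h : ∀ a ∈ A, ∃ y ∈ X, c * a = d * y) : (prods N A).card ≤ (prods N X).card := by
  classical
  have hinj : Set.InjOn (fun z : ℤ => c ^ N * z) (prods N A : Set ℤ) := by
    intro z _ w _ h
    exact mul_left_cancel₀ (pow_ne_zero _ hc) h
  rw [← Finset.card_image_of_injOn hinj]
  have hsub : (prods N A).image (fun z => c ^ N * z) ⊆ (prods N X).image fun z => d ^ N * z := by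
    intro z hz
    obtain ⟨w, hw, rfl⟩ := Finset.mem_image.1 hz
    obtain ⟨f, hf, rfl⟩ := mem_prods.1 hw
    have hch := fun i => h _ (hf i)
    choose y hy hye using hch
    refine Finset.mem_image.2 ⟨∏ i, y i, mem_prods.2 ⟨y, hy, rfl⟩, ?_⟩
    have : ∏ i, (c * f i) = ∏ i, (d * y i) := Finset.prod_congr rfl fun i _ => hye i
    rw [Finset.prod_mul_distrib, Finset.prod_mul_distrib] at this
    simpa using this.symm
  exact (Finset.card_le_card hsub).trans Finset.card_image_le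

section
variable {m b D : ℤ} (hm : 0 < m) (hb : b ≠ 0) (σ : ℤ) (hσ : σ = 1 ∨ σ = -1) (g : ℤ)
  (X B : Finset ℤ) (hB : B.Nonempty) (hBX : B ⊆ X) (hs : ∀ y ∈ B, 0 < σ * y)
  (hg : ∀ y ∈ B, (Int.gcd y b : ℤ) = g) (h0 : ∀ y ∈ B, m * y + b ≠ 0)
  (hf : ∀ y ∈ B, ∃ z ∈ X, m * y + b = D * z)

include hb hσ hB hBX hs hg h0 hf in
lemma setB : g ≠ 0 ∧ σ * (b / g) ≠ 0 ∧ ∃ A : Finset ℤ, A.card = B.card ∧ A.Nonempty ∧
    (∀ a ∈ A, 0 < a ∧ IsCoprime a (σ * (b / g))) ∧ (∀ a ∈ A, σ * (b / g) + m * a ≠ 0) ∧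
    (∀ a ∈ A, ∃ y ∈ X, (σ * g) * a = 1 * y) ∧
    (∀ a ∈ A, ∃ z ∈ X, (σ * g) * (σ * (b / g) + m * a) = D * z) := by
  classical
  have hσ2 : σ * σ = 1 := by rcases hσ with rfl | rfl <;> norm_num
  have hσ0 : σ ≠ 0 := by rintro rfl; simp at hσ2
  obtain ⟨y0, hy0⟩ := hB
  have hgpos : 0 < g := by
    rw [← hg y0 hy0]
    have : Int.gcd y0 b ≠ 0 := by
      intro h
      exact hb (Int.gcd_eq_zero_iff.1 h).2
    omega
  have hgb : g ∣ b := by rw [← hg y0 hy0]; exact Int.gcd_dvd_right _ _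
  have hgy : ∀ y ∈ B, g ∣ y := fun y hy => by rw [← hg y hy]; exact Int.gcd_dvd_left _ _
  have hbg : g * (b / g) = b := Int.mul_ediv_cancel' hgb
  have hyg : ∀ y ∈ B, g * (y / g) = y := fun y hy => Int.mul_ediv_cancel' (hgy y hy)
  have hbg0 : b / g ≠ 0 := by
    intro h
    rw [h, mul_zero] at hbg
    exact hb hbg.symm
  have hsh : ∀ y ∈ B, (σ * g) * (σ * (b / g) + m * (σ * (y / g))) = m * y + b := by
    intro y hy
    have : (σ * g) * (σ * (b / g) + m * (σ * (y / g))) =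
        (σ * σ) * (g * (b / g)) + m * ((σ * σ) * (g * (y / g))) := by ring
    rw [this, hσ2, hbg, hyg y hy]; ring
  refine ⟨hgpos.ne', mul_ne_zero hσ0 hbg0, B.image fun y => σ * (y / g), ?_,
    Finset.Nonempty.image ⟨y0, hy0⟩ _, ?_, ?_, ?_, ?_⟩
  · apply Finset.card_image_of_injOn
    intro y hy z hz h
    simp only at h
    have h1 := mul_left_cancel₀ hσ0 h
    rw [← hyg y hy, ← hyg z hz, h1]
  · intro a ha
    obtain ⟨y, hy, rfl⟩ := Finset.mem_image.1 ha
    constructor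
    · have h1 := hs y hy
      rw [← hyg y hy] at h1
      have h2 : σ * (g * (y / g)) = g * (σ * (y / g)) := by ring
      rw [h2] at h1
      exact pos_of_mul_pos_right h1 hgpos.le
    · have h1 : Int.gcd (y / g) (b / g) = 1 := by
        rw [← hg y hy]
        apply Int.gcd_div_gcd_div_gcd
        have := hgpos
        rw [← hg y hy] at this
        omega
      have h2 : IsCoprime (y / g) (b / g) := Int.isCoprime_iff_gcd_eq_one.2 h1
      rcases hσ with rfl | rfl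
      · simpa using h2
      · have := h2.neg_neg
        simpa using this
  · intro a ha h
    obtain ⟨y, hy, rfl⟩ := Finset.mem_image.1 ha
    have := hsh y hy
    rw [h, mul_zero] at this
    exact h0 y hy this.symm
  · intro a ha
    obtain ⟨y, hy, rfl⟩ := Finset.mem_image.1 ha
    refine ⟨y, hBX hy, ?_⟩
    have : (σ * g) * (σ * (y / g)) = (σ * σ) * (g * (y / g)) := by ring
    rw [this, hσ2, hyg y hy]
  · intro a ha
    obtain ⟨y, hy, rfl⟩ := Finset.mem_image.1 ha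
    obtain ⟨z, hz, hz'⟩ := hf y hy
    exact ⟨z, hz, by rw [hsh y hy, hz']⟩

include hm hb hσ hB hBX hs hg h0 hf in
/-- **Growth of the iterated product sets.** -/
theorem growthb {N : ℕ} (hN : 2 ≤ N) :
    (B.card : ℝ) ^ (Real.log N / (Real.log (Real.log N) + 7 / 5)) ≤ ((prods N X).card : ℝ) := by
  classical
  obtain ⟨hg0, hb', A, hcard, hAn, hA1, hA2, hA3, hA4⟩ := setB hb σ hσ g X B hB hBX hs hg h0 hf
  have hσ0 : σ ≠ 0 := by rcases hσ with rfl | rfl <;> norm_num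
  have h := shiftb_low hm hb' hN A hAn hA1 hA2
  rw [hcard] at h
  refine h.trans (max_le ?_ ?_)
  · have := prods_mul_le' N (mul_ne_zero hσ0 hg0) (A.image fun a => σ * (b / g) + m * a) X
      (d := D) (fun w hw => by
      obtain ⟨a, ha, rfl⟩ := Finset.mem_image.1 hw
      exact hA4 a ha)
    exact_mod_cast this
  · have := prods_mul_le' N (mul_ne_zero hσ0 hg0) A X (d := 1) hA3
    exact_mod_cast this

include hm hb hσ hB hBX hs hg h0 hf in
/-- **Expansion of arbitrary sets.** -/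
theorem expandb {N : ℕ} (hN : 2 ≤ N) {θ c β : ℝ}
    (hθ : 1 / 2 ≤ θ) (hθ1 : θ < 1) (hc : 0 < c) (hcθ : c ≤ 2 ^ (1 - θ) - 1) (hβ : 0 ≤ β)
    (hcβ : 1 / c ≤ ((N : ℝ) - (N - 1) * c) ^ β) (Y : Finset ℚ) (hY : Y.Nonempty)
    (hY0 : (0 : ℚ) ∉ Y) :
    (B.card : ℝ) ^ (1 + β) * (Y.card : ℝ) ^ θ ≤
      ((Finset.image₂ (fun (z : ℤ) (y : ℚ) => (z : ℚ) * y) X Y).card : ℝ) *
        ((prods N X).card : ℝ) ^ β := by
  classical
  obtain ⟨hg0, hb', A, hcard, hAn, hA1, hA2, hA3, hA4⟩ := setB hb σ hσ g X B hB hBX hs hg h0 hf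
  have hσ0 : σ ≠ 0 := by rcases hσ with rfl | rfl <;> norm_num
  have h := shiftb_one hm hb' hN hθ hθ1 hc hcθ hcβ A hAn hA1 hA2 Y hY hY0
  rw [hcard] at h
  refine h.trans ?_
  have hcc : ((σ * g : ℤ) : ℚ) ≠ 0 := by exact_mod_cast mul_ne_zero hσ0 hg0
  have h1 : (Finset.image₂ (fun (a : ℤ) (y : ℚ) => ((σ * (b / g) + m * a : ℤ) : ℚ) * y) A Y).card ≤
      (Finset.image₂ (fun (z : ℤ) (y : ℚ) => (z : ℚ) * y) X Y).card := by
    rw [← Finset.card_image_of_injective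
      (Finset.image₂ (fun (a : ℤ) (y : ℚ) => ((σ * (b / g) + m * a : ℤ) : ℚ) * y) A Y)
      (mul_right_injective₀ hcc)]
    have hsub : (Finset.image₂ (fun (a : ℤ) (y : ℚ) => ((σ * (b / g) + m * a : ℤ) : ℚ) * y)
        A Y).image (fun w => ((σ * g : ℤ) : ℚ) * w) ⊆
        (Finset.image₂ (fun (z : ℤ) (y : ℚ) => (z : ℚ) * y) X Y).image
          fun w => (D : ℚ) * w := by
      intro w hw
      obtain ⟨v, hv, rfl⟩ := Finset.mem_image.1 hw
      obtain ⟨a, ha, y, hy, rfl⟩ := Finset.mem_image₂.1 hv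
      obtain ⟨z, hz, he⟩ := hA4 a ha
      refine Finset.mem_image.2 ⟨(z : ℚ) * y, Finset.mem_image₂.2 ⟨z, hz, y, hy, rfl⟩, ?_⟩
      have he' : ((σ * g : ℤ) : ℚ) * ((σ * (b / g) + m * a : ℤ) : ℚ) = (D : ℚ) * z := by
        exact_mod_cast he
      rw [← mul_assoc, ← mul_assoc, he']
    exact (Finset.card_le_card hsub).trans Finset.card_image_le
  have h2 : (prodset fun _ : Fin N => A).card ≤ (prods N X).card :=
    prods_mul_le' N (mul_ne_zero hσ0 hg0) A X (d := 1) hA3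
  have h1' : ((Finset.image₂ (fun (a : ℤ) (y : ℚ) => ((σ * (b / g) + m * a : ℤ) : ℚ) * y)
      A Y).card : ℝ) ≤
      ((Finset.image₂ (fun (z : ℤ) (y : ℚ) => (z : ℚ) * y) X Y).card : ℝ) := by exact_mod_cast h1
  have h2' : (((prodset fun _ : Fin N => A).card : ℝ)) ^ β ≤ ((prods N X).card : ℝ) ^ β :=
    Real.rpow_le_rpow (by positivity) (by exact_mod_cast h2) hβ
  exact mul_le_mul h1' h2' (by positivity) (by positivity)

end

/-- **Two factors.** (The argument of Elekes with the theorem of Szemerédi and Trotter.) -/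
theorem two_factorsb {m b D : ℤ} (hm : m ≠ 0) (hb : b ≠ 0) (X B : Finset ℤ) (hBX : B ⊆ X)
    (hB0 : ∀ y ∈ B, y ≠ 0) (h0 : ∀ y ∈ B, m * y + b ≠ 0)
    (hf : ∀ y ∈ B, ∃ z ∈ X, m * y + b = D * z) :
    B.card ^ 5 ≤ 512 * (prods 2 X).card ^ 4 := by
  classical
  rcases Nat.lt_or_ge B.card 2 with h2 | h2
  · rcases B.eq_empty_or_nonempty with he | hne
    · rw [he]; simp
    · have h1 : B.card ^ 5 ≤ 1 := by
        have : B.card ≤ 1 := by omega
        simpa using Nat.pow_le_pow_left this 5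
      have h3 : 1 ≤ (prods 2 X).card ^ 4 := Nat.one_le_pow _ _
        (prods_nonempty 2 (hne.mono hBX)).card_pos
      omega
  have hmem2 : ∀ a ∈ X, ∀ b ∈ X, a * b ∈ prods 2 X := by
    intro a ha b hb
    refine mem_prods.2 ⟨![a, b], ?_, by simp⟩
    intro i
    fin_cases i
    · simpa using ha
    · simpa using hb
  set P : Finset ℝ := (prods 2 X).image fun z : ℤ => (z : ℝ) with hP
  set Q : Finset ℝ := (prods 2 X).image fun z : ℤ => ((D : ℝ) ^ 2) * z with hQ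
  set L : Finset (ℝ × ℝ) := (B ×ˢ B).image fun w : ℤ × ℤ =>
    (((m : ℝ) * ((m : ℝ) * (w.2 : ℝ) + b) / (w.1 : ℝ), (b : ℝ) * ((m : ℝ) * (w.2 : ℝ) + b)) :
      ℝ × ℝ) with hL
  have hPc : P.card ≤ (prods 2 X).card := Finset.card_image_le
  have hQc : Q.card ≤ (prods 2 X).card := Finset.card_image_le
  have hm0 : (m : ℝ) ≠ 0 := by exact_mod_cast hm
  have hb0' : (b : ℝ) ≠ 0 := by exact_mod_cast hb
  have h30 : ∀ y ∈ B, ((m : ℝ) * (y : ℝ) + b) ≠ 0 := by
    intro y hy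
    exact_mod_cast h0 y hy
  have hLc : L.card = B.card ^ 2 := by
    rw [hL, Finset.card_image_of_injOn, Finset.card_product, pow_two]
    rintro ⟨u, c⟩ hq ⟨u', c'⟩ hq' h
    simp only [Finset.coe_product, Set.mem_prod, Finset.mem_coe] at hq hq'
    simp only [Prod.mk.injEq] at h
    obtain ⟨e1, e2⟩ := h
    have hc : (c : ℝ) = c' := by
      have h1 := mul_left_cancel₀ hb0' e2
      have h2 : (m : ℝ) * c = m * c' := by linarith
      exact mul_left_cancel₀ hm0 h2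
    have hc' : c = c' := by exact_mod_cast hc
    subst hc'
    have hu : (u : ℝ) ≠ 0 := by exact_mod_cast hB0 u hq.1
    have hu' : (u' : ℝ) ≠ 0 := by exact_mod_cast hB0 u' hq'.1
    rw [div_eq_div_iff hu hu'] at e1
    have h3 : ((m : ℝ) * ((m : ℝ) * (c : ℝ) + b)) ≠ 0 := mul_ne_zero hm0 (h30 c hq.2)
    have := mul_left_cancel₀ h3 e1
    have : u' = u := by exact_mod_cast this
    rw [this]
  have hmain := Pool.Agent.W975.SP.main' P Q L B.card h2 (by
    intro l hl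
    obtain ⟨⟨u, c⟩, hq, rfl⟩ := Finset.mem_image.1 hl
    rw [Finset.mem_product] at hq
    obtain ⟨hu, hc⟩ := hq
    simp only at hu hc ⊢
    have hu0 : (u : ℝ) ≠ 0 := by exact_mod_cast hB0 u hu
    refine ⟨div_ne_zero (mul_ne_zero hm0 (h30 c hc)) hu0, ?_⟩
    apply Finset.card_le_card_of_injOn (fun a : ℤ => (a : ℝ) * u)
    · intro a ha
      have ha' : a ∈ B := ha
      simp only [Finset.coe_filter, Set.mem_setOf_eq]
      refine ⟨?_, ?_⟩
      · rw [hP]
        exact Finset.mem_image.2 ⟨a * u, hmem2 a (hBX ha') u (hBX hu), by push_cast; ring⟩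
      · obtain ⟨z, hz, hz'⟩ := hf a ha'
        obtain ⟨w, hw, hw'⟩ := hf c hc
        rw [hQ]
        refine Finset.mem_image.2 ⟨z * w, hmem2 z hz w hw, ?_⟩
        have e1 : ((m : ℝ) * (a : ℝ) + b) = D * z := by exact_mod_cast hz'
        have e2 : ((m : ℝ) * (c : ℝ) + b) = D * w := by exact_mod_cast hw'
        have e3 : (m : ℝ) * ((m : ℝ) * (c : ℝ) + b) / u * (a * u) +
            (b : ℝ) * ((m : ℝ) * (c : ℝ) + b) =
            ((m : ℝ) * (a : ℝ) + b) * ((m : ℝ) * (c : ℝ) + b) := by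
          field_simp
        rw [e3, e1, e2]
        push_cast
        ring
    · intro a _ a' _ h
      simp only at h
      have := mul_right_cancel₀ hu0 h
      exact_mod_cast this)
  rw [hLc] at hmain
  have h5 : P.card ^ 2 * Q.card ^ 2 ≤ (prods 2 X).card ^ 2 * (prods 2 X).card ^ 2 :=
    Nat.mul_le_mul (Nat.pow_le_pow_left hPc 2) (Nat.pow_le_pow_left hQc 2)
  calc B.card ^ 5 = B.card ^ 2 * B.card ^ 3 := by ring
    _ ≤ 512 * P.card ^ 2 * Q.card ^ 2 := hmain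
    _ = 512 * (P.card ^ 2 * Q.card ^ 2) := by ring
    _ ≤ 512 * ((prods 2 X).card ^ 2 * (prods 2 X).card ^ 2) := Nat.mul_le_mul_left _ h5
    _ = _ := by ring

/-- the product sets of `X` are large in terms of `s` -/
def Large (X : Finset ℤ) (s : ℝ) : Prop :=
  (∀ N : ℕ, 2 ≤ N → s ^ (Real.log N / (Real.log (Real.log N) + 7 / 5)) ≤
    ((prods N X).card : ℝ)) ∧
  (s / 4) ^ (5 / 4 : ℝ) ≤ ((prods 2 X).card : ℝ) ∧
  ∀ Y : Finset ℚ, Y.Nonempty → (0 : ℚ) ∉ Y → ∀ (N : ℕ) (t β : ℝ), 2 ≤ N → 2 ≤ t → 0 ≤ β →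
    1 / (2 ^ (1 / t) - 1) ≤ ((N : ℝ) - (N - 1) * (2 ^ (1 / t) - 1)) ^ β →
    s ^ (1 + β) * (Y.card : ℝ) ^ (1 - 1 / t) ≤
      ((Finset.image₂ (fun (z : ℤ) (y : ℚ) => (z : ℚ) * y) X Y).card : ℝ) *
        ((prods N X).card : ℝ) ^ β

/-- **All three statements.** -/
theorem large_of {m b D : ℤ} (hm : 0 < m) (hb : b ≠ 0) (σ : ℤ) (hσ : σ = 1 ∨ σ = -1) (g : ℤ)
    (X B : Finset ℤ) (hB : B.Nonempty) (hBX : B ⊆ X) (hs : ∀ y ∈ B, 0 < σ * y)
    (hg : ∀ y ∈ B, (Int.gcd y b : ℤ) = g) (h0 : ∀ y ∈ B, m * y + b ≠ 0)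
    (hf : ∀ y ∈ B, ∃ z ∈ X, m * y + b = D * z) (s : ℝ) (hs0 : 0 ≤ s) (hle : s ≤ B.card) :
    Large X s := by
  have hB0 : ∀ y ∈ B, y ≠ 0 := by
    rintro y hy rfl
    have := hs 0 hy
    simp at this
  refine ⟨?_, ?_, ?_⟩
  · intro N hN
    have hN2 : (2:ℝ) ≤ N := by exact_mod_cast hN
    have hL1 := Real.log_two_gt_d9
    have hx0 : Real.log 2 ≤ Real.log N := Real.log_le_log (by norm_num) hN2
    have hDp : 0 < Real.log (Real.log N) + 7 / 5 := den_pos (by linarith)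
    have he : 0 ≤ Real.log N / (Real.log (Real.log N) + 7 / 5) :=
      div_nonneg (by linarith) hDp.le
    exact (Real.rpow_le_rpow hs0 hle he).trans (growthb hm hb σ hσ g X B hB hBX hs hg h0 hf hN)
  · have h3 := two_factorsb hm.ne' hb X B hBX hB0 h0 hf
    have h3' : (B.card : ℝ) ^ 5 ≤ 512 * ((prods 2 X).card : ℝ) ^ 4 := by exact_mod_cast h3
    have h4 : (s / 4) ^ 5 ≤ ((prods 2 X).card : ℝ) ^ 4 := by
      have h6 : s ^ 5 ≤ (B.card : ℝ) ^ 5 := pow_le_pow_left₀ hs0 hle 5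
      rw [div_pow]
      rw [div_le_iff₀ (by norm_num)]
      have h7 : (0:ℝ) ≤ ((prods 2 X).card : ℝ) ^ 4 := by positivity
      calc s ^ 5 ≤ 512 * ((prods 2 X).card : ℝ) ^ 4 := h6.trans h3'
        _ ≤ ((prods 2 X).card : ℝ) ^ 4 * 4 ^ 5 := by nlinarith
    have hb : (0:ℝ) ≤ s / 4 := by positivity
    have hc : (0:ℝ) ≤ ((prods 2 X).card : ℝ) := by positivity
    generalize s / 4 = w at h4 hb ⊢
    calc w ^ (5 / 4 : ℝ) = (w ^ 5) ^ (1 / 4 : ℝ) := by
          rw [← Real.rpow_natCast, ← Real.rpow_mul hb]; norm_num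
      _ ≤ (((prods 2 X).card : ℝ) ^ 4) ^ (1 / 4 : ℝ) :=
          Real.rpow_le_rpow (by positivity) h4 (by norm_num)
      _ = ((prods 2 X).card : ℝ) := by
          rw [← Real.rpow_natCast, ← Real.rpow_mul hc]; norm_num
  · intro Y hY hY0 N t β hN ht hβ hcond
    have ht0 : 0 < t := by linarith
    have h1t : 1 / t ≤ 1 / 2 := one_div_le_one_div_of_le (by norm_num) ht
    have h1t0 : 0 < 1 / t := by positivity
    have hc : 0 < (2:ℝ) ^ (1 / t) - 1 := by
      have := Real.one_lt_rpow (show (1:ℝ) < 2 by norm_num) h1t0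
      linarith
    have h3 := expandb hm hb σ hσ g X B hB hBX hs hg h0 hf hN (θ := 1 - 1 / t)
      (c := 2 ^ (1 / t) - 1) (β := β) (by linarith) (by linarith) hc (by rw [sub_sub_cancel]) hβ
      hcond Y hY hY0
    refine le_trans ?_ h3
    apply mul_le_mul_of_nonneg_right _ (by positivity)
    exact Real.rpow_le_rpow hs0 hle (by linarith)

end Run7.h603.Q
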