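import Pool.Agent.Run7.h603.Dl4

set_option autoImplicit false

/-!
# Sets of integers and several affine maps: product sets
-/

namespace Run7.h603.Q

open Finset Run7.h603

/-- **Several affine maps.** Every element `y` of `S` is mapped into `X` by the map number `c y`, and
the maps `y ↦ (m y + b) / D` have `m, b ≠ 0`. -/
theorem several {ι : Type*} [DecidableEq ι] (I : Finset ι) (m b D : ι → ℤ)
    (hm : ∀ i ∈ I, m i ≠ 0) (hb : ∀ i ∈ I, b i ≠ 0) (X S : Finset ℤ) (c : ℤ → ι)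
    (hS : S.Nonempty) (hSX : S ⊆ X) (hc : ∀ y ∈ S, c y ∈ I) (hy0 : ∀ y ∈ S, y ≠ 0)
    (h0 : ∀ y ∈ S, m (c y) * y + b (c y) ≠ 0)
    (hf : ∀ y ∈ S, ∃ z ∈ X, m (c y) * y + b (c y) = D (c y) * z) (τ : ℕ)
    (hτ : ∀ i ∈ I, (Nat.divisors (b i).natAbs).card ≤ τ) (s : ℝ) (hs0 : 0 ≤ s)
    (hs : s * (2 * I.card * τ) ≤ S.card) : Large X s := by
  classical
  obtain ⟨y1, hy1⟩ := hS
  -- the classes
  set f : ℤ → ι × ℤ × ℕ := fun y => (c y, (if 0 < y then 1 else -1), Int.gcd y (b (c y))) with hfdef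
  set t : Finset (ι × ℤ × ℕ) := I.biUnion fun i =>
    (({1, -1} : Finset ℤ) ×ˢ Nat.divisors (b i).natAbs).image fun w => (i, w.1, w.2) with ht
  have htc : t.card ≤ 2 * I.card * τ := by
    refine Finset.card_biUnion_le.trans ?_
    calc ∑ i ∈ I, ((({1, -1} : Finset ℤ) ×ˢ Nat.divisors (b i).natAbs).image
          fun w => (i, w.1, w.2)).card ≤ ∑ _i ∈ I, 2 * τ := by
          refine Finset.sum_le_sum fun i hi => Finset.card_image_le.trans ?_
          rw [Finset.card_product]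
          exact Nat.mul_le_mul (by simp) (hτ i hi)
      _ = 2 * I.card * τ := by rw [Finset.sum_const, smul_eq_mul]; ring
  have hmaps : ∀ y ∈ S, f y ∈ t := by
    intro y hy
    rw [ht, Finset.mem_biUnion]
    refine ⟨c y, hc y hy, Finset.mem_image.2 ⟨((if 0 < y then 1 else -1), Int.gcd y (b (c y))), ?_, rfl⟩⟩
    rw [Finset.mem_product]
    constructor
    · split_ifs <;> simp
    · simp only [Nat.mem_divisors]
      refine ⟨?_, ?_⟩
      · have := Int.gcd_dvd_right y (b (c y))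
        exact Int.natCast_dvd.1 this
      · have := hb _ (hc y hy)
        omega
  have htne : t.Nonempty := ⟨f y1, hmaps y1 hy1⟩
  obtain ⟨w, hw, hcard⟩ := Finset.exists_le_card_fiber_of_nsmul_le_card_of_maps_to (b := s) hmaps htne
    (by
      rw [nsmul_eq_mul]
      refine le_trans ?_ hs
      rw [mul_comm]
      apply mul_le_mul_of_nonneg_left _ hs0
      exact_mod_cast htc)
  -- a nonempty fiber
  obtain ⟨v, B, hB, hBc, hfib⟩ : ∃ v, ∃ B : Finset ℤ, B.Nonempty ∧ s ≤ B.card ∧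
      B = S.filter fun y => f y = v := by
    rcases Finset.eq_empty_or_nonempty (S.filter fun y => f y = w) with he | hne
    · rw [he] at hcard
      have hs00 : s ≤ 0 := by simpa using hcard
      exact ⟨f y1, S.filter fun y => f y = f y1, ⟨y1, Finset.mem_filter.2 ⟨hy1, rfl⟩⟩,
        hs00.trans (by positivity), rfl⟩
    · exact ⟨w, _, hne, hcard, rfl⟩
  obtain ⟨i, σ, g⟩ := v
  have hmem : ∀ y ∈ B, y ∈ S ∧ c y = i ∧ (if 0 < y then (1 : ℤ) else -1) = σ ∧
      Int.gcd y (b (c y)) = g := by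
    intro y hy
    rw [hfib] at hy
    obtain ⟨h1, h2⟩ := Finset.mem_filter.1 hy
    simp only [hfdef, Prod.mk.injEq] at h2
    exact ⟨h1, h2.1, h2.2.1, h2.2.2⟩
  obtain ⟨y2, hy2⟩ := hB
  have hi : i ∈ I := by
    obtain ⟨h1, h2, _⟩ := hmem y2 hy2
    rw [← h2]
    exact hc _ h1
  have hσ : σ = 1 ∨ σ = -1 := by
    obtain ⟨_, _, h3, _⟩ := hmem y2 hy2
    rw [← h3]
    split_ifs
    · exact Or.inl rfl
    · exact Or.inr rfl
  have hsg : ∀ y ∈ B, 0 < σ * y := by
    intro y hy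
    obtain ⟨h1, _, h3, _⟩ := hmem y hy
    have := hy0 y h1
    rw [← h3]
    split_ifs with h
    · omega
    · omega
  have hBX : B ⊆ X := fun y hy => hSX (hmem y hy).1
  have hgB : ∀ y ∈ B, (Int.gcd y (b i) : ℤ) = g := by
    intro y hy
    obtain ⟨_, h2, _, h4⟩ := hmem y hy
    rw [← h2]
    exact_mod_cast h4
  have h0B : ∀ y ∈ B, m i * y + b i ≠ 0 := by
    intro y hy
    obtain ⟨h1, h2, _⟩ := hmem y hy
    rw [← h2]
    exact h0 y h1
  have hfB : ∀ y ∈ B, ∃ z ∈ X, m i * y + b i = D i * z := by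
    intro y hy
    obtain ⟨h1, h2, _⟩ := hmem y hy
    rw [← h2]
    exact hf y h1
  rcases lt_or_gt_of_ne (hm i hi) with hneg | hpos
  · refine large_of (m := -(m i)) (b := -(b i)) (D := -(D i)) (by linarith)
      (neg_ne_zero.2 (hb i hi)) σ hσ g X B ⟨y2, hy2⟩ hBX hsg ?_ ?_ ?_ s hs0 hBc
    · intro y hy
      rw [Int.gcd_neg]
      exact hgB y hy
    · intro y hy h
      apply h0B y hy
      linarith
    · intro y hy
      obtain ⟨z, hz, he⟩ := hfB y hy
      exact ⟨z, hz, by linarith⟩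
  · exact large_of hpos (hb i hi) σ hσ g X B ⟨y2, hy2⟩ hBX hsg hgB h0B hfB s hs0 hBc

end Run7.h603.Q
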