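import Pool.Agent.Run7.h603.Dl6

set_option autoImplicit false

/-!
# Accelerated maps `H y = (m y + b) / d ^ a(y)`: product sets of trajectories and cycles
-/

namespace Run7.h603.AC

open Finset Run7.h603 Run7.h603.Q Run7.h603.GC

lemma prods_mono (N : ℕ) {X X' : Finset ℤ} (h : X' ⊆ X) : (prods N X').card ≤ (prods N X).card := by
  classical
  apply Finset.card_le_card
  unfold prods
  apply Finset.image_subset_image
  exact Fintype.piFinset_subset _ _ fun _ => h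

lemma large_mono {X X' : Finset ℤ} {s : ℝ} (h : X' ⊆ X) (hs0 : 0 ≤ s) (hL : Large X' s) :
    Large X s := by
  classical
  obtain ⟨h1, h2, h3⟩ := hL
  refine ⟨fun N hN => (h1 N hN).trans (by exact_mod_cast prods_mono N h),
    h2.trans (by exact_mod_cast prods_mono 2 h), ?_⟩
  intro Y hY hY0 N t β hN ht hβ hc
  refine (h3 Y hY hY0 N t β hN ht hβ hc).trans ?_
  apply mul_le_mul
  · have : (Finset.image₂ (fun (z : ℤ) (y : ℚ) => (z : ℚ) * y) X' Y).card ≤
        (Finset.image₂ (fun (z : ℤ) (y : ℚ) => (z : ℚ) * y) X Y).card :=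
      Finset.card_le_card (Finset.image₂_subset_right h)
    exact_mod_cast this
  · apply Real.rpow_le_rpow (by positivity) _ hβ
    exact_mod_cast prods_mono N h
  · positivity
  · positivity

/-- the step at `y` -/
def Step {κ : Type*} (d : ℕ) (m : ℤ) (C : Finset κ) (b : κ → ℤ) (H : ℤ → ℤ) (a : ℤ → ℕ) (c : ℤ → κ)
    (y : ℤ) : Prop :=
  y ≠ 0 ∧ H y ≠ 0 ∧ c y ∈ C ∧ 1 ≤ a y ∧ m * y + b (c y) = (d : ℤ) ^ a y * H y

section
variable {κ : Type*} {d : ℕ} (hd : 2 ≤ d) {m : ℤ} (hm : m ≠ 0) {C : Finset κ}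
  (hC : C.Nonempty) {b : κ → ℤ} (hb : ∀ i ∈ C, b i ≠ 0) {τ : ℕ} (hτ1 : 1 ≤ τ)
  (hτ : ∀ i ∈ C, (Nat.divisors (b i).natAbs).card ≤ τ) {H : ℤ → ℤ} {a : ℤ → ℕ} {c : ℤ → κ}

include hd in
lemma sum_le (J : Finset ℤ) (hJ : ∀ y ∈ J, Step d m C b H a c y) (A : ℕ)
    (hprod : ∏ y ∈ J, |y| ≤ ∏ y ∈ J, |H y|)
    (hA : ∏ y ∈ J, |m * y + b (c y)| ≤ (d : ℤ) ^ (A * J.card) * ∏ y ∈ J, |y|) :
    ∑ y ∈ J, a y ≤ A * J.card := by
  have h1 : ∏ y ∈ J, |m * y + b (c y)| = (d : ℤ) ^ (∑ y ∈ J, a y) * ∏ y ∈ J, |H y| := by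
    rw [← Finset.prod_pow_eq_pow_sum, ← Finset.prod_mul_distrib]
    refine Finset.prod_congr rfl fun y hy => ?_
    rw [(hJ y hy).2.2.2.2, abs_mul, abs_pow]
    simp
  have hpos : 0 < ∏ y ∈ J, |H y| := Finset.prod_pos fun y hy => abs_pos.2 (hJ y hy).2.1
  have h2 : (d : ℤ) ^ (∑ y ∈ J, a y) * ∏ y ∈ J, |H y| ≤
      (d : ℤ) ^ (A * J.card) * ∏ y ∈ J, |H y| := by
    rw [← h1]
    exact hA.trans (mul_le_mul_of_nonneg_left hprod (by positivity))
  have h3 := le_of_mul_le_mul_right h2 hpos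
  exact (pow_le_pow_iff_right₀ (by exact_mod_cast (by omega : 1 < d))).1 h3

include hd hm hC hb hτ1 hτ in
theorem acc (J X : Finset ℤ) (hJ : ∀ y ∈ J, Step d m C b H a c y) (A : ℕ) (hA1 : 1 ≤ A)
    (hA : ∑ y ∈ J, a y ≤ A * J.card) (g : ℕ)
    (hg : (J.filter fun y => ¬ (y ∈ X ∧ H y ∈ X)).card ≤ g) (s : ℝ) (hs0 : 0 ≤ s)
    (hs : s * (8 * C.card * A * τ) + 2 * g ≤ J.card) : Large X s := by
  classical
  rcases hs0.eq_or_lt with h | hspos
  · rw [← h]; exact large_zero X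
  have hdz : (d : ℤ) ≠ 0 := by omega
  set S := J.filter fun y => (y ∈ X ∧ H y ∈ X) ∧ a y ≤ 2 * A with hS
  set Bg := J.filter fun y => ¬ a y ≤ 2 * A with hBg
  have hbig : 2 * Bg.card ≤ J.card := by
    have h1 : ∑ y ∈ J, (1 + if ¬ a y ≤ 2 * A then 2 * A else 0) ≤ ∑ y ∈ J, a y := by
      refine Finset.sum_le_sum fun y hy => ?_
      have h1 := (hJ y hy).2.2.2.1
      split_ifs with h <;> omega
    rw [Finset.sum_add_distrib, Finset.sum_const, smul_eq_mul, mul_one, ← Finset.sum_filter,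
      Finset.sum_const, smul_eq_mul, ← hBg] at h1
    have h2 := h1.trans hA
    nlinarith
  have hcard : J.card ≤ S.card + g + Bg.card := by
    have hsub : J ⊆ (S ∪ J.filter fun y => ¬ (y ∈ X ∧ H y ∈ X)) ∪ Bg := by
      intro y hy
      by_cases h1 : a y ≤ 2 * A
      · by_cases h2 : y ∈ X ∧ H y ∈ X
        · exact Finset.mem_union_left _ (Finset.mem_union_left _ (Finset.mem_filter.2 ⟨hy, h2, h1⟩))
        · exact Finset.mem_union_left _ (Finset.mem_union_right _ (Finset.mem_filter.2 ⟨hy, h2⟩))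
      · exact Finset.mem_union_right _ (Finset.mem_filter.2 ⟨hy, h1⟩)
    have h1 := Finset.card_le_card hsub
    have h2 := Finset.card_union_le (S ∪ J.filter fun y => ¬ (y ∈ X ∧ H y ∈ X)) Bg
    have h3 := Finset.card_union_le S (J.filter fun y => ¬ (y ∈ X ∧ H y ∈ X))
    omega
  have hSc : s * (2 * ((C ×ˢ Icc 1 (2 * A)).card : ℕ) * τ) ≤ S.card := by
    rw [Finset.card_product, Nat.card_Icc, Nat.add_sub_cancel]
    have h1 : (J.card : ℝ) ≤ 2 * S.card + 2 * g := by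
      exact_mod_cast (by omega : J.card ≤ 2 * S.card + 2 * g)
    push_cast
    linarith
  have hSne : S.Nonempty := by
    rw [Finset.nonempty_iff_ne_empty]
    intro he
    rw [he, Finset.card_empty, Nat.cast_zero, Finset.card_product, Nat.card_Icc,
      Nat.add_sub_cancel] at hSc
    have h1 : (0 : ℝ) < C.card := by exact_mod_cast hC.card_pos
    have h2 : (0 : ℝ) < A := by exact_mod_cast hA1
    have h3 : (0 : ℝ) < τ := by exact_mod_cast hτ1
    have : 0 < s * (2 * ((C.card * (2 * A) : ℕ) : ℝ) * τ) := by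
      push_cast
      positivity
    linarith
  have hmem : ∀ y ∈ S, y ∈ J ∧ (y ∈ X ∧ H y ∈ X) ∧ a y ≤ 2 * A := fun y hy => Finset.mem_filter.1 hy
  refine several (C ×ˢ Icc 1 (2 * A)) (fun _ => m) (fun i => b i.1) (fun i => (d : ℤ) ^ i.2)
    (fun _ _ => hm) (fun i hi => hb _ (Finset.mem_product.1 hi).1) X S (fun y => (c y, a y)) hSne
    (fun y hy => (hmem y hy).2.1.1) (fun y hy => ?_) (fun y hy => (hJ y (hmem y hy).1).1)
    (fun y hy => ?_) (fun y hy => ⟨H y, (hmem y hy).2.1.2, (hJ y (hmem y hy).1).2.2.2.2⟩) τ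
    (fun i hi => hτ _ (Finset.mem_product.1 hi).1) s hs0 hSc
  · have h1 := hJ y (hmem y hy).1
    exact Finset.mem_product.2 ⟨h1.2.2.1, Finset.mem_Icc.2 ⟨h1.2.2.2.1, (hmem y hy).2.2⟩⟩
  · have h1 := hJ y (hmem y hy).1
    show m * y + b (c y) ≠ 0
    rw [h1.2.2.2.2]
    exact mul_ne_zero (pow_ne_zero _ hdz) h1.2.1

include hd hm hC hb hτ1 hτ in
/-- **Trajectories.** -/
theorem traj (x : ℤ) (n : ℕ) (hinj : Set.InjOn (fun k => H^[k] x) (Set.Iic n))
    (hst : ∀ k < n, Step d m C b H a c (H^[k] x)) (hup : |x| ≤ |H^[n] x|) (A : ℕ) (hA1 : 1 ≤ A)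
    (hA : ∀ k < n, |m * H^[k] x + b (c (H^[k] x))| ≤ (d : ℤ) ^ A * |H^[k] x|) (s : ℝ) (hs0 : 0 ≤ s)
    (hs : s * (8 * C.card * A * τ) ≤ n) :
    Large ((range (n + 1)).image fun k => H^[k] x) s := by
  classical
  rcases Nat.eq_zero_or_pos n with rfl | hn
  · have h1 : (0 : ℝ) < C.card := by exact_mod_cast hC.card_pos
    have h2 : (0 : ℝ) < A := by exact_mod_cast hA1
    have h3 : (0 : ℝ) < τ := by exact_mod_cast hτ1
    rcases hs0.eq_or_lt with h | h
    · rw [← h]; exact large_zero _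
    · exfalso
      have : 0 < s * (8 * C.card * A * τ) := by positivity
      rw [Nat.cast_zero] at hs
      linarith
  have hinj' : ∀ k ∈ range n, ∀ l ∈ range n, H^[k] x = H^[l] x → k = l := by
    intro k hk l hl h
    have hk' := Finset.mem_range.1 hk
    have hl' := Finset.mem_range.1 hl
    exact hinj (show k ≤ n by omega) (show l ≤ n by omega) h
  set J := (range n).image fun k => H^[k] x with hJ
  have hJc : J.card = n := by
    rw [hJ, Finset.card_image_of_injOn (fun k hk l hl h => hinj' k hk l hl h), Finset.card_range]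
  have hJs : ∀ y ∈ J, Step d m C b H a c y := by
    intro y hy
    obtain ⟨k, hk, rfl⟩ := Finset.mem_image.1 hy
    exact hst k (Finset.mem_range.1 hk)
  have hx0 : 0 < |x| := abs_pos.2 (hst 0 hn).1
  have hprod : ∏ y ∈ J, |y| ≤ ∏ y ∈ J, |H y| := by
    rw [hJ, Finset.prod_image hinj', Finset.prod_image hinj']
    have e1 : ∀ k, H (H^[k] x) = H^[k + 1] x := fun k => by rw [Function.iterate_succ_apply']
    simp only [e1]
    have h1 : (∏ k ∈ range n, |H^[k] x|) * |H^[n] x| =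
        (∏ k ∈ range n, |H^[k + 1] x|) * |x| := by
      rw [← Finset.prod_range_succ (fun k => |H^[k] x|) n,
        Finset.prod_range_succ' (fun k => |H^[k] x|) n]
      rfl
    have h2 : (∏ k ∈ range n, |H^[k] x|) * |x| ≤ (∏ k ∈ range n, |H^[k + 1] x|) * |x| := by
      rw [← h1]
      exact mul_le_mul_of_nonneg_left hup (by positivity)
    exact le_of_mul_le_mul_right h2 hx0
  have hAp : ∏ y ∈ J, |m * y + b (c y)| ≤ (d : ℤ) ^ (A * J.card) * ∏ y ∈ J, |y| := by
    rw [pow_mul, ← Finset.prod_const, ← Finset.prod_mul_distrib]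
    refine Finset.prod_le_prod (fun y _ => by positivity) fun y hy => ?_
    obtain ⟨k, hk, rfl⟩ := Finset.mem_image.1 hy
    exact hA k (Finset.mem_range.1 hk)
  have hsum := sum_le hd J hJs A hprod hAp
  refine acc hd hm hC hb hτ1 hτ J _ hJs A hA1 hsum 0 ?_ s hs0 ?_
  · rw [Nat.le_zero, Finset.card_eq_zero, Finset.filter_eq_empty_iff]
    intro y hy
    rw [not_not]
    obtain ⟨k, hk, rfl⟩ := Finset.mem_image.1 hy
    have hk' := Finset.mem_range.1 hk
    refine ⟨Finset.mem_image.2 ⟨k, Finset.mem_range.2 (by omega), rfl⟩,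
      Finset.mem_image.2 ⟨k + 1, Finset.mem_range.2 (by omega), ?_⟩⟩
    rw [Function.iterate_succ_apply']
  · rw [hJc]
    push_cast
    linarith

include hd hm hC hb hτ1 hτ in
/-- **Unions of cycles.** -/
theorem cyc (P X : Finset ℤ) (hP : P.image H = P) (hst : ∀ y ∈ P, Step d m C b H a c y)
    (hX : X ⊆ P) (A : ℕ) (hA1 : 1 ≤ A)
    (hA : ∏ y ∈ P, |m * y + b (c y)| ≤ (d : ℤ) ^ (A * P.card) * ∏ y ∈ P, |y|) (s : ℝ) (hs0 : 0 ≤ s)
    (hs : s * (8 * C.card * A * τ) + 4 * (P \ X).card ≤ P.card) : Large X s := by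
  classical
  have hinj : Set.InjOn H (P : Set ℤ) := by
    apply Finset.card_image_iff.1
    rw [hP]
  have hmaps : ∀ y ∈ P, H y ∈ P := fun y hy => by
    have := Finset.mem_image_of_mem H hy
    rwa [hP] at this
  have hprod : ∏ y ∈ P, |H y| = ∏ y ∈ P, |y| := by
    conv_rhs => rw [← hP]
    rw [Finset.prod_image (fun a ha b hb h => hinj ha hb h)]
  have hsum := sum_le hd P hst A hprod.ge hA
  refine acc hd hm hC hb hτ1 hτ P X hst A hA1 hsum (2 * (P \ X).card) ?_ s hs0 (by push_cast; linarith)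
  have hsub : (P.filter fun y => ¬ (y ∈ X ∧ H y ∈ X)) ⊆
      (P \ X) ∪ P.filter fun y => H y ∈ P \ X := by
    intro y hy
    obtain ⟨hyP, hy2⟩ := Finset.mem_filter.1 hy
    by_cases h1 : y ∈ X
    · refine Finset.mem_union_right _ (Finset.mem_filter.2 ⟨hyP, Finset.mem_sdiff.2
        ⟨hmaps y hyP, fun h => hy2 ⟨h1, h⟩⟩⟩)
    · exact Finset.mem_union_left _ (Finset.mem_sdiff.2 ⟨hyP, h1⟩)
  have hsmall : (P.filter fun y => H y ∈ P \ X).card ≤ (P \ X).card := by
    apply Finset.card_le_card_of_injOn H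
    · intro y hy
      exact (Finset.mem_filter.1 hy).2
    · intro y hy z hz he
      exact hinj (Finset.mem_filter.1 hy).1 (Finset.mem_filter.1 hz).1 he
  have h1 := Finset.card_le_card hsub
  have h2 := Finset.card_union_le (P \ X) (P.filter fun y => H y ∈ P \ X)
  omega

/-- `|m y + b| ≤ d ^ A |y|` if `|m| < d ^ A` and `|b| ≤ |y|` -/
lemma big_bound {d A : ℕ} {m b y : ℤ} (hA : |m| < (d : ℤ) ^ A) (hb : |b| ≤ |y|) :
    |m * y + b| ≤ (d : ℤ) ^ A * |y| := by
  calc |m * y + b| ≤ |m * y| + |b| := abs_add_le _ _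
    _ = |m| * |y| + |b| := by rw [abs_mul]
    _ ≤ (|m| + 1) * |y| := by linarith
    _ ≤ (d : ℤ) ^ A * |y| := mul_le_mul_of_nonneg_right (by omega) (by positivity)

lemma eventually_big {f : ℕ → ℤ} (hf : Function.Injective f) (R : ℤ) :
    ∃ n₁ : ℕ, ∀ n ≥ n₁, R ≤ |f n| := by
  have hfin : {k : ℕ | |f k| < R}.Finite := by
    have h1 : (Set.Ioo (-R) R).Finite := Set.finite_Ioo _ _
    refine (h1.preimage (hf.injOn (s := f ⁻¹' (Set.Ioo (-R) R)))).subset ?_
    intro k hk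
    exact abs_lt.1 hk
  obtain ⟨B, hB⟩ := hfin.bddAbove
  refine ⟨B + 1, fun n hn => ?_⟩
  by_contra hcon
  have := hB (show n ∈ {k : ℕ | |f k| < R} from not_le.1 hcon)
  omega

include hd hm hC hb hτ1 hτ in
/-- **Divergent trajectories.** -/
theorem divergent (x : ℤ) (hinj : Function.Injective fun k => H^[k] x)
    (hst : ∀ k, Step d m C b H a c (H^[k] x)) (A : ℕ) (hA1 : 1 ≤ A) (hA : |m| < (d : ℤ) ^ A) :
    ∃ n₀ : ℕ, ∀ n ≥ n₀,
      Large ((range n).image fun k => H^[k] x) ((n : ℝ) / (16 * C.card * A * τ)) := by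
  classical
  have hC0 : (0 : ℝ) < C.card := by exact_mod_cast hC.card_pos
  have hA0 : (0 : ℝ) < A := by exact_mod_cast hA1
  have ht0 : (0 : ℝ) < τ := by exact_mod_cast hτ1
  obtain ⟨j, hj⟩ := eventually_big hinj (∑ i ∈ C, |b i|)
  obtain ⟨n₁, hn₁⟩ := eventually_big hinj |H^[j] x|
  refine ⟨n₁ + 2 * j + 2, fun n hn => ?_⟩
  obtain ⟨q, rfl⟩ : ∃ q, n = j + (q + 1) := ⟨n - j - 1, by omega⟩
  have hit : ∀ k, H^[k] (H^[j] x) = H^[k + j] x := fun k => by
    rw [Function.iterate_add_apply]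
  have h1 := traj hd hm hC hb hτ1 hτ (H := H) (a := a) (c := c) (H^[j] x) q
    (fun k _ l _ h => by
      have h' : H^[k + j] x = H^[l + j] x := by
        rw [← hit, ← hit]; exact h
      have := hinj h'
      omega)
    (fun k _ => by rw [hit]; exact hst _)
    (by rw [hit]; exact hn₁ _ (by omega)) A hA1
    (fun k _ => by
      rw [hit]
      apply big_bound hA
      refine le_trans ?_ (hj (k + j) (by omega))
      exact Finset.single_le_sum (f := fun i => |b i|) (fun i _ => abs_nonneg _) (hst (k + j)).2.2.1)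
    (((j + (q + 1) : ℕ) : ℝ) / (16 * C.card * A * τ)) (by positivity) (by
      have e1 : ((j + (q + 1) : ℕ) : ℝ) / (16 * C.card * A * τ) * (8 * C.card * A * τ) =
          ((j + (q + 1) : ℕ) : ℝ) / 2 := by
        field_simp
        ring
      rw [e1]
      have : (j : ℝ) + 1 ≤ q := by exact_mod_cast (by omega : j + 1 ≤ q)
      push_cast
      linarith)
  refine large_mono ?_ (by positivity) h1
  intro y hy
  obtain ⟨k, hk, rfl⟩ := Finset.mem_image.1 hy
  have hk' := Finset.mem_range.1 hk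
  refine Finset.mem_image.2 ⟨k + j, Finset.mem_range.2 (by omega), ?_⟩
  rw [hit]

end

end Run7.h603.AC
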