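import Pool.Agent.Run7.h603.LProd

/-!
# Heights of meets, and Lipschitz maps
-/

set_option autoImplicit false

open Set

namespace Run7.h603

/-- every Aronszajn tree has an uncountable antichain whose meets all have even height or all have
odd height -/
def EOL : Prop := ∀ (T : Type) [PartialOrder T] (lev : T → Om), IsAron lev →
  ∃ A : Set T, ¬ A.Countable ∧ IsAntichain (· ≤ ·) A ∧
    ((∀ x ∈ A, ∀ y ∈ A, x ≠ y → ∃ m, (2 : Ordinal.{0}) ∣ ordOf (lev m) ∧ IsGLB {x, y} m) ∨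
      (∀ x ∈ A, ∀ y ∈ A, x ≠ y → ∃ m, ¬ (2 : Ordinal.{0}) ∣ ordOf (lev m) ∧ IsGLB {x, y} m))

section

variable {T : Type} [PartialOrder T] {lev : T → Om}

/-- transfer of an antichain of a retimed tree -/
theorem RT.antichain {φ : T → Om} {A : Set (RT φ)} (hA : IsAntichain (· ≤ ·) A) :
    InjOn RT.nd A ∧ IsAntichain (· ≤ ·) (RT.nd '' A) := by
  constructor
  · intro p hp q hq he
    by_contra hne
    rcases RT.comp_of_nd (p := p) (q := q) he.le with h1 | h1
    · exact hA hp hq hne h1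
    · exact hA hq hp (Ne.symm hne) h1
  · rintro _ ⟨p, hp, rfl⟩ _ ⟨q, hq, rfl⟩ hne hle
    have hne' : p ≠ q := fun e => hne (congrArg _ e)
    rcases RT.comp_of_nd hle with h1 | h1
    · exact hA hp hq hne' h1
    · exact hA hq hp (Ne.symm hne') h1

end

theorem catL_of_EOL (h : EOL) : CATL := by
  intro T _ lev hl K
  have hφ := isTiming_tmg hl.toIsLev K
  obtain ⟨A, hA, hanti, hhom⟩ := h (RT (tmg lev K)) RT.tm (RT.isAron hl hφ)
  obtain ⟨hinj, hanti'⟩ := RT.antichain hanti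
  refine ⟨RT.nd '' A, fun hc => hA (countable_of_injective_of_countable_image hinj hc), hanti', ?_⟩
  have key : ∀ p ∈ A, ∀ q ∈ A, p ≠ q → ∃ r, IsGLB {p.nd, q.nd} r ∧ ∃ m : RT (tmg lev K),
      IsGLB {p, q} m ∧ Order.succ m.tm = tmg lev K r := by
    intro p hp q hq hpq
    obtain ⟨r, hr⟩ := hl.exists_meet p.nd q.nd
    obtain ⟨m, hm1, -, hm3⟩ := RT.exists_glb hφ (hanti hp hq hpq) (hanti hq hp (Ne.symm hpq)) hr
    exact ⟨r, hr, m, hm1, hm3⟩
  rcases hhom with hhom | hhom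
  · left
    rintro _ ⟨p, hp, rfl⟩ _ ⟨q, hq, rfl⟩ hne
    have hpq : p ≠ q := fun e => hne (congrArg _ e)
    obtain ⟨r, hr, m, hm, hmt⟩ := key p hp q hq hpq
    obtain ⟨m', hm', hm2⟩ := hhom p hp q hq hpq
    have : m = m' := hm.unique hm2
    subst this
    refine ⟨r, ?_, hr⟩
    by_contra hrK
    rw [tmg_neg hrK] at hmt
    have h1 := Order.succ_injective hmt
    rw [h1] at hm'
    exact not_even_succ_dbl _ hm'
  · right
    rintro _ ⟨p, hp, rfl⟩ _ ⟨q, hq, rfl⟩ hne
    have hpq : p ≠ q := fun e => hne (congrArg _ e)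
    obtain ⟨r, hr, m, hm, hmt⟩ := key p hp q hq hpq
    obtain ⟨m', hm', hm2⟩ := hhom p hp q hq hpq
    have : m = m' := hm.unique hm2
    subst this
    refine ⟨r, ?_, hr⟩
    intro hrK
    rw [tmg_pos hrK] at hmt
    have h1 := Order.succ_injective hmt
    rw [h1] at hm'
    exact hm' (even_dbl _)

theorem EOL_of_catL (h : CATL) : EOL := by
  intro T _ lev hl
  exact h T lev hl {m | (2 : Ordinal.{0}) ∣ ordOf (lev m)}

/-- the Lipschitz dichotomy -/
def LDL : Prop := ∀ (T₀ T₁ : Type) [PartialOrder T₀] [PartialOrder T₁] (lev₀ : T₀ → Om)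
  (lev₁ : T₁ → Om), IsAron lev₀ → IsAron lev₁ → ∀ (D : Set T₀) (f : T₀ → T₁), ¬ D.Countable →
    (∀ x ∈ D, lev₁ (f x) = lev₀ x) → ∃ E ⊆ D, ¬ E.Countable ∧
      ((∀ x ∈ E, ∀ y ∈ E, ∃ m m', IsGLB {x, y} m ∧ IsGLB {f x, f y} m' ∧ lev₀ m ≤ lev₁ m') ∨
        (∀ x ∈ E, ∀ y ∈ E, ∃ m m', IsGLB {x, y} m ∧ IsGLB {f x, f y} m' ∧ lev₁ m' ≤ lev₀ m))

section

variable {T : Type} [PartialOrder T] {lev : T → Om}

theorem emb_le (hl : IsLev lev) (K : Set T) {s t : T} (h : s ≤ t) : emb hl K s ≤ emb hl K t :=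
  RT.le_def.2 ⟨h, dbl_le_dbl (hl.mono_le h)⟩

theorem emb_nd (hl : IsLev lev) (K : Set T) (t : T) : (emb hl K t).nd = t := rfl

theorem emb_tm (hl : IsLev lev) (K : Set T) (t : T) : (emb hl K t).tm = dbl (lev t) := rfl

theorem isGLB_left {S : Type} [PartialOrder S] {x y : S} (h : x ≤ y) : IsGLB {x, y} x := by
  constructor
  · rintro z (rfl | rfl)
    · exact le_rfl
    · exact h
  · intro z hz
    exact hz (by simp)

theorem isGLB_right {S : Type} [PartialOrder S] {x y : S} (h : y ≤ x) : IsGLB {x, y} y := by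
  constructor
  · rintro z (rfl | rfl)
    · exact h
    · exact le_rfl
  · intro z hz
    exact hz (by simp)

/-- meets of the nodes `emb` -/
theorem exists_glb_emb (hl : IsLev lev) (K : Set T) {s t r : T} (hr : IsGLB {s, t} r) :
    ∃ m : RT (tmg lev K), IsGLB {emb hl K s, emb hl K t} m ∧
      (((s ≤ t ∨ t ≤ s) ∧ m.tm = dbl (lev r)) ∨
        (¬ s ≤ t ∧ ¬ t ≤ s ∧ Order.succ m.tm = tmg lev K r)) := by
  by_cases h1 : s ≤ t
  · have h2 : s = r := (isGLB_left h1).unique hr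
    subst h2
    exact ⟨emb hl K s, isGLB_left (emb_le hl K h1), Or.inl ⟨Or.inl h1, rfl⟩⟩
  by_cases h2 : t ≤ s
  · have h3 : t = r := (isGLB_right h2).unique hr
    subst h3
    exact ⟨emb hl K t, isGLB_right (emb_le hl K h2), Or.inl ⟨Or.inr h2, rfl⟩⟩
  obtain ⟨m, hm1, -, hm3⟩ := RT.exists_glb (isTiming_tmg hl K) (p := emb hl K s)
    (q := emb hl K t) (fun hc => h1 hc.1) (fun hc => h2 hc.1) hr
  exact ⟨m, hm1, Or.inr ⟨h1, h2, hm3⟩⟩

end

theorem LDL_of_catL (hC : CATL) : LDL := by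
  intro T₀ T₁ _ _ lev₀ lev₁ h₀ h₁ D f hD hf
  have hR0 := RT.isAron h₀ (isTiming_tmg h₀.toIsLev univ)
  have hR1 := RT.isAron h₁ (isTiming_tmg h₁.toIsLev (∅ : Set T₁))
  have hLP := LP.isAron hR0 hR1.toIsOmTree
  -- the nodes of the product
  let g : D → LP (RT.tm : RT (tmg lev₀ (univ : Set T₀)) → Om)
      (RT.tm : RT (tmg lev₁ (∅ : Set T₁)) → Om) := fun x =>
    ⟨emb h₀.toIsLev univ x.1, emb h₁.toIsLev ∅ (f x.1), by
      rw [emb_tm, emb_tm, hf x.1 x.2]⟩
  have hginj : Function.Injective g := by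
    intro x y hxy
    have := congrArg (fun p => (LP.x p).nd) hxy
    exact Subtype.ext this
  have hP : ¬ (range g).Countable := by
    intro hc
    apply hD
    rw [← image_univ] at hc
    have h2 := countable_of_injective_of_countable_image hginj.injOn hc
    have h3 : D = Subtype.val '' (univ : Set D) := by simp
    rw [h3]
    exact h2.image _
  obtain ⟨A, hAP, hA, hanti, hhom⟩ := hC.rel hLP hP {p | ∃ b, p.lv = dbl b}
  refine ⟨Subtype.val '' (g ⁻¹' A), ?_, ?_, ?_⟩
  · rintro _ ⟨x, -, rfl⟩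
    exact x.2
  · intro hc
    apply hA
    have h2 := countable_of_injective_of_countable_image Subtype.val_injective.injOn hc
    refine (h2.image g).mono ?_
    intro p hp
    obtain ⟨x, rfl⟩ := hAP hp
    exact ⟨x, hp, rfl⟩
  · -- the levels of the meets
    have key : ∀ x y : D, ∃ m₀ m₁, IsGLB {x.1, y.1} m₀ ∧ IsGLB {f x.1, f y.1} m₁ ∧
        ∃ m, IsGLB {g x, g y} m ∧ (lev₁ m₁ < lev₀ m₀ → ¬ ∃ b, LP.lv m = dbl b) ∧
          (lev₀ m₀ < lev₁ m₁ → ∃ b, LP.lv m = dbl b) := by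
      intro x y
      obtain ⟨m₀, hm₀⟩ := h₀.exists_meet x.1 y.1
      obtain ⟨m₁, hm₁⟩ := h₁.exists_meet (f x.1) (f y.1)
      obtain ⟨r₀, hr₀, hr₀'⟩ := exists_glb_emb h₀.toIsLev (univ : Set T₀) hm₀
      obtain ⟨r₁, hr₁, hr₁'⟩ := exists_glb_emb h₁.toIsLev (∅ : Set T₁) hm₁
      have htm0 : r₀.tm = dbl (lev₀ m₀) := by
        rcases hr₀' with ⟨-, h1⟩ | ⟨-, -, h1⟩
        · exact h1
        · rw [tmg_pos (mem_univ _)] at h1
          exact Order.succ_injective h1
      obtain ⟨m, hm, hmlv⟩ := LP.exists_glb hR0.toIsLev hR1.toIsLev (p := g x) (q := g y) hr₀ hr₁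
      refine ⟨m₀, m₁, hm₀, hm₁, m, hm, ?_, ?_⟩
      · rintro hlt ⟨b, hb⟩
        have hinc : ¬ f x.1 ≤ f y.1 ∧ ¬ f y.1 ≤ f x.1 := by
          constructor
          · intro hc
            have h2 : f x.1 = m₁ := (isGLB_left hc).unique hm₁
            rw [← h2, hf x.1 x.2] at hlt
            exact absurd (h₀.mono_le (hm₀.1 (show x.1 ∈ ({x.1, y.1} : Set T₀) by simp)))
              (not_le.2 hlt)
          · intro hc
            have h2 : f y.1 = m₁ := (isGLB_right hc).unique hm₁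
            rw [← h2, hf y.1 y.2] at hlt
            exact absurd (h₀.mono_le (hm₀.1 (show y.1 ∈ ({x.1, y.1} : Set T₀) by simp)))
              (not_le.2 hlt)
        have htm1 : r₁.tm = Order.succ (dbl (lev₁ m₁)) := by
          rcases hr₁' with ⟨h1, -⟩ | ⟨-, -, h1⟩
          · exact absurd h1 (not_or.2 hinc)
          · rw [tmg_neg (notMem_empty _)] at h1
            exact Order.succ_injective h1
        have hmin : min r₀.tm r₁.tm = r₁.tm := by
          refine min_eq_right ?_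
          rw [htm0, htm1]
          refine (Order.le_succ _).trans ?_
          rw [← dbl_succ]
          exact dbl_le_dbl (Order.succ_le_of_lt hlt)
        rw [hmin, htm1] at hmlv
        exact succ_dbl_ne _ _ (hmlv.symm.trans hb)
      · intro hlt
        have hmin : min r₀.tm r₁.tm = r₀.tm := by
          refine min_eq_left ?_
          rw [htm0]
          have h2 : dbl (lev₁ m₁) ≤ r₁.tm := by
            rcases hr₁' with ⟨-, h1⟩ | ⟨-, -, h1⟩
            · exact h1.ge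
            · rw [tmg_neg (notMem_empty _)] at h1
              rw [Order.succ_injective h1]
              exact Order.le_succ _
          exact (dbl_lt_dbl hlt).le.trans h2
        rw [hmin, htm0] at hmlv
        exact ⟨_, hmlv⟩
    rcases hhom with hhom | hhom
    · left
      rintro _ ⟨x, hx, rfl⟩ _ ⟨y, hy, rfl⟩
      obtain ⟨m₀, m₁, hm₀, hm₁, m, hm, h1, -⟩ := key x y
      refine ⟨m₀, m₁, hm₀, hm₁, ?_⟩
      by_cases hxy : x = y
      · subst hxy
        have h2 : x.1 = m₀ := (isGLB_left le_rfl).unique hm₀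
        have h3 : f x.1 = m₁ := (isGLB_left le_rfl).unique hm₁
        rw [← h2, ← h3, hf x.1 x.2]
      · obtain ⟨m', hm'1, hm'2⟩ := hhom (g x) hx (g y) hy (fun e => hxy (hginj e))
        have : m = m' := hm.unique hm'2
        subst this
        by_contra hc
        exact h1 (not_le.1 hc) hm'1
    · right
      rintro _ ⟨x, hx, rfl⟩ _ ⟨y, hy, rfl⟩
      obtain ⟨m₀, m₁, hm₀, hm₁, m, hm, -, h1⟩ := key x y
      refine ⟨m₀, m₁, hm₀, hm₁, ?_⟩
      by_cases hxy : x = y
      · subst hxy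
        have h2 : x.1 = m₀ := (isGLB_left le_rfl).unique hm₀
        have h3 : f x.1 = m₁ := (isGLB_left le_rfl).unique hm₁
        rw [← h2, ← h3, hf x.1 x.2]
      · obtain ⟨m', hm'1, hm'2⟩ := hhom (g x) hx (g y) hy (fun e => hxy (hginj e))
        have : m = m' := hm.unique hm'2
        subst this
        by_contra hc
        exact hm'1 (h1 (not_le.1 hc))

end Run7.h603
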