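import Pool.Agent.Run7.h603.Sh2

set_option autoImplicit false

/-!
# Product sets of the terms of `u + v = w`

For a finite set of pairs `(u, w)` of coprime positive integers, `w ≠ σ u`, the `N`-fold product
sets of the `u`, of the `w` and of the `w - σ u` cannot all be small.
-/

namespace Run7.h603.Fp

open Finset Pool.Agent.N811.IS
open scoped Pointwise

/-- the rational unit of a nonzero integer -/
noncomputable def uq (n : ℤ) : ℚˣ := if h : (n : ℚ) = 0 then 1 else Units.mk0 (n : ℚ) h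

lemma uq_val {n : ℤ} (h : n ≠ 0) : (uq n : ℚ) = n := by
  unfold uq
  rw [dif_neg (by exact_mod_cast h)]
  rfl

/-- the pairs considered -/
def Good (σ : ℤ) (f : Fin 2 → ℤ) : Prop := IsCoprime (f 0) (f 1) ∧ f 1 - σ * f 0 ≠ 0

/-- quotient of the second entry -/
noncomputable def g1 (σ : ℤ) (f : Fin 2 → ℤ) : ℚˣ := uq (f 1 - σ * f 0) / uq (f 1)

/-- quotient of the first entry -/
noncomputable def g2 (σ : ℤ) (f : Fin 2 → ℤ) : ℚˣ := uq (-σ * (f 1 - σ * f 0)) / uq (f 0)

lemma g1_val {σ : ℤ} {f : Fin 2 → ℤ} (h : Good σ f) (h1 : 0 < f 1) :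
    (g1 σ f : ℚ) = ((f 1 - σ * f 0 : ℤ) : ℚ) / (f 1 : ℚ) := by
  unfold g1
  rw [Units.val_div_eq_div_val, uq_val h.2, uq_val (ne_of_gt h1)]

lemma g2_val {σ : ℤ} (hσ : σ = 1 ∨ σ = -1) {f : Fin 2 → ℤ} (h : Good σ f) (h0 : 0 < f 0) :
    (g2 σ f : ℚ) = ((-σ * (f 1 - σ * f 0) : ℤ) : ℚ) / (f 0 : ℚ) := by
  unfold g2
  have h3 : -σ * (f 1 - σ * f 0) ≠ 0 := by
    apply mul_ne_zero _ h.2
    rcases hσ with rfl | rfl <;> norm_num
  rw [Units.val_div_eq_div_val, uq_val h3, uq_val (ne_of_gt h0)]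

lemma g1_mem {σ : ℤ} (hσ : σ = 1 ∨ σ = -1) {f : Fin 2 → ℤ} (h : Good σ f) (h0 : 0 < f 0)
    (h1 : 0 < f 1) (p : ℤ) (hp : Prime p) (j : ℕ) :
    g1 σ f ∈ Kp p hp j ↔ p ^ (j + 1) ∣ f 0 := by
  have hw : (f 1 : ℚ) ≠ 0 := by exact_mod_cast ne_of_gt h1
  constructor
  · rintro ⟨a, b, hb, hd, e⟩
    rw [g1_val h h1, div_mul_eq_mul_div, div_eq_iff hw] at e
    have e' : (f 1 - σ * f 0) * b = a * f 1 := by exact_mod_cast e
    obtain ⟨t, ht⟩ := hd
    have ha : a = b + p ^ (j + 1) * t := by linarith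
    rw [ha] at e'
    have e2 : σ * f 0 * b = p ^ (j + 1) * (-(t * f 1)) := by linear_combination -e'
    have e3 : p ^ (j + 1) ∣ f 0 * b := by
      rcases hσ with rfl | rfl
      · exact ⟨-(t * f 1), by linear_combination e2⟩
      · exact ⟨t * f 1, by linear_combination -e2⟩
    exact hp.pow_dvd_of_dvd_mul_right _ hb e3
  · intro hd
    have hpu : ¬ p ∣ f 1 := by
      intro hq
      have h2 : p ∣ f 0 := (dvd_pow_self p (Nat.succ_ne_zero j)).trans hd
      exact hp.not_unit (h.1.isUnit_of_dvd' h2 hq)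
    refine ⟨f 1 - σ * f 0, f 1, hpu, ?_, ?_⟩
    · have : f 1 - σ * f 0 - f 1 = -σ * f 0 := by ring
      rw [this]
      exact Dvd.dvd.mul_left hd _
    · rw [g1_val h h1, div_mul_cancel₀ _ hw]

lemma g2_mem {σ : ℤ} (hσ : σ = 1 ∨ σ = -1) {f : Fin 2 → ℤ} (h : Good σ f) (h0 : 0 < f 0)
    (h1 : 0 < f 1) (p : ℤ) (hp : Prime p) (j : ℕ) :
    g2 σ f ∈ Kp p hp j ↔ p ^ (j + 1) ∣ f 1 := by
  have hu : (f 0 : ℚ) ≠ 0 := by exact_mod_cast ne_of_gt h0
  have hσ2 : σ * σ = 1 := by rcases hσ with rfl | rfl <;> norm_num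
  constructor
  · rintro ⟨a, b, hb, hd, e⟩
    rw [g2_val hσ h h0, div_mul_eq_mul_div, div_eq_iff hu] at e
    have e' : (-σ * (f 1 - σ * f 0)) * b = a * f 0 := by exact_mod_cast e
    obtain ⟨t, ht⟩ := hd
    have ha : a = b + p ^ (j + 1) * t := by linarith
    rw [ha] at e'
    have e2 : σ * f 1 * b = p ^ (j + 1) * (-(t * f 0)) := by
      linear_combination -e' + f 0 * b * hσ2
    have e3 : p ^ (j + 1) ∣ f 1 * b := by
      rcases hσ with rfl | rfl
      · exact ⟨-(t * f 0), by linear_combination e2⟩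
      · exact ⟨t * f 0, by linear_combination -e2⟩
    exact hp.pow_dvd_of_dvd_mul_right _ hb e3
  · intro hd
    have hpu : ¬ p ∣ f 0 := by
      intro hq
      have h2 : p ∣ f 1 := (dvd_pow_self p (Nat.succ_ne_zero j)).trans hd
      exact hp.not_unit (h.1.isUnit_of_dvd' hq h2)
    refine ⟨-σ * (f 1 - σ * f 0), f 0, hpu, ?_, ?_⟩
    · have : -σ * (f 1 - σ * f 0) - f 0 = -σ * f 1 := by linear_combination f 0 * hσ2
      rw [this]
      exact Dvd.dvd.mul_left hd _
    · rw [g2_val hσ h h0, div_mul_cancel₀ _ hu]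

/-- the group -/
abbrev GG := (Additive ℚˣ × Additive ℚˣ) × (Fin 2 → ℤ)

open Classical in
/-- the map -/
noncomputable def phi (σ : ℤ) (f : Fin 2 → ℤ) : GG :=
  if Good σ f then ((Additive.ofMul (g1 σ f), Additive.ofMul (g2 σ f)), 0) else ((0, 0), f)

/-- the subgroups of the first two factors -/
def K1 (i : Fin 2) (p : ℤ) (hp : Prime p) (j : ℕ) : AddSubgroup (Additive ℚˣ × Additive ℚˣ) :=
  if i = 0 then (Subgroup.toAddSubgroup (Kp p hp j)).prod ⊤
  else (⊤ : AddSubgroup (Additive ℚˣ)).prod (Subgroup.toAddSubgroup (Kp p hp j))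

/-- the map of rings with valuations -/
noncomputable def Fph (σ : ℤ) (hσ : σ = 1 ∨ σ = -1) : VMap (vrIntPi 2) GG where
  φ := phi σ
  K i j := match j with
    | 0 => ⊤
    | j + 1 => (K1 i.1 i.2.1 i.2.2 j).prod ((vrIntPi 2).H i (j + 1))
  mem_K i j f hf := by
    have hf' : ∀ k, 0 < f k := hf
    have h0 := hf' 0
    have h1 := hf' 1
    have hH := (vrIntPi 2).mem_H i (j + 1) f hf
    show phi σ f ∈ (K1 i.1 i.2.1 i.2.2 j).prod ((vrIntPi 2).H i (j + 1)) ↔ _
    unfold phi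
    by_cases hg : Good σ f
    · rw [if_pos hg, AddSubgroup.mem_prod]
      have hv : (vrIntPi 2).v i f = multiplicity i.2.1 (f i.1) := rfl
      rw [hv]
      have hfm : FiniteMultiplicity i.2.1 (f i.1) :=
        FiniteMultiplicity.of_prime_left i.2.2 (ne_of_gt (hf' i.1))
      rw [← hfm.pow_dvd_iff_le_multiplicity]
      have hz : (0 : Fin 2 → ℤ) ∈ (vrIntPi 2).H i (j + 1) := AddSubgroup.zero_mem _
      unfold K1
      by_cases hi : i.1 = 0
      · rw [if_pos hi, hi]
        constructor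
        · rintro ⟨h, -⟩
          exact (g1_mem hσ hg h0 h1 _ i.2.2 j).1 (AddSubgroup.mem_prod.1 h).1
        · intro h
          exact ⟨AddSubgroup.mem_prod.2 ⟨(g1_mem hσ hg h0 h1 _ i.2.2 j).2 h,
            AddSubgroup.mem_top _⟩, hz⟩
      · have hi1 : i.1 = 1 := by
          have := i.1.2
          apply Fin.ext
          have h2 : (i.1 : ℕ) ≠ 0 := fun h => hi (Fin.ext h)
          show (i.1 : ℕ) = 1
          omega
        rw [if_neg hi, hi1]
        constructor
        · rintro ⟨h, -⟩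
          exact (g2_mem hσ hg h0 h1 _ i.2.2 j).1 (AddSubgroup.mem_prod.1 h).2
        · intro h
          exact ⟨AddSubgroup.mem_prod.2 ⟨AddSubgroup.mem_top _,
            (g2_mem hσ hg h0 h1 _ i.2.2 j).2 h⟩, hz⟩
    · rw [if_neg hg, AddSubgroup.mem_prod]
      constructor
      · rintro ⟨-, h⟩
        exact hH.1 h
      · intro h
        exact ⟨AddSubgroup.zero_mem _, hH.2 h⟩

lemma phi_inj (σ : ℤ) (hσ : σ = 1 ∨ σ = -1) : Set.InjOn (phi σ) (vrIntPi 2).S := by
  intro f hf g hg h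
  have hf' : ∀ k, 0 < f k := hf
  have hg' : ∀ k, 0 < g k := hg
  unfold phi at h
  by_cases h1 : Good σ f
  · by_cases h2 : Good σ g
    · rw [if_pos h1, if_pos h2] at h
      have e1 : g1 σ f = g1 σ g := by
        have := congrArg (fun x : GG => x.1.1) h
        exact Additive.ofMul.injective this
      have e2 : (g1 σ f : ℚ) = g1 σ g := by rw [e1]
      rw [g1_val h1 (hf' 1), g1_val h2 (hg' 1)] at e2
      have hw : (f 1 : ℚ) ≠ 0 := by exact_mod_cast ne_of_gt (hf' 1)
      have hw' : (g 1 : ℚ) ≠ 0 := by exact_mod_cast ne_of_gt (hg' 1)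
      rw [div_eq_div_iff hw hw'] at e2
      have e3 : (f 1 - σ * f 0) * g 1 = (g 1 - σ * g 0) * f 1 := by exact_mod_cast e2
      have e4 : f 0 * g 1 = g 0 * f 1 := by
        rcases hσ with rfl | rfl
        · linear_combination -e3
        · linear_combination e3
      have d1 : f 0 ∣ g 0 := by
        have : f 0 ∣ g 0 * f 1 := ⟨g 1, by linarith⟩
        exact h1.1.dvd_of_dvd_mul_right this
      have d2 : g 0 ∣ f 0 := by
        have : g 0 ∣ f 0 * g 1 := ⟨f 1, by linarith⟩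
        exact h2.1.dvd_of_dvd_mul_right this
      have e0 : f 0 = g 0 := Int.dvd_antisymm (hf' 0).le (hg' 0).le d1 d2
      have e1' : f 1 = g 1 := by
        rw [e0] at e4
        exact (mul_left_cancel₀ (ne_of_gt (hg' 0)) e4).symm
      funext k
      fin_cases k
      · exact e0
      · exact e1'
    · exfalso
      rw [if_pos h1, if_neg h2] at h
      have := congrArg (fun x : GG => x.2 0) h
      have h3 : (0 : ℤ) = g 0 := this
      have := hg' 0
      omega
  · by_cases h2 : Good σ g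
    · exfalso
      rw [if_neg h1, if_pos h2] at h
      have := congrArg (fun x : GG => x.2 0) h
      have h3 : f 0 = (0 : ℤ) := this
      have := hf' 0
      omega
    · rw [if_neg h1, if_neg h2] at h
      exact congrArg (fun x : GG => x.2) h

end Run7.h603.Fp
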