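import Pool.Agent.Run7.h603.Fp1

set_option autoImplicit false

/-!
# Product sets of the terms of `X + Y = Z`

For a finite set of triples of coprime nonzero integers with `X + Y = Z` the `N`-fold product sets
of the absolute values of the terms cannot all be small.
-/

namespace Run7.h603.Fp

open Finset Pool.Agent.N811.IS
open scoped Pointwise

/-- the exponent -/
noncomputable def ex (N : ℕ) : ℝ := Real.log N / (Real.log (Real.log N) + 7 / 5)

/-- products of `N` elements -/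
def pr (N : ℕ) (X : Finset ℕ) : Finset ℕ :=
  (Fintype.piFinset fun _ : Fin N => X).image fun f => ∏ i, f i

lemma mem_pr {N : ℕ} {X : Finset ℕ} {f : Fin N → ℕ} (h : ∀ i, f i ∈ X) : ∏ i, f i ∈ pr N X :=
  Finset.mem_image.2 ⟨f, Fintype.mem_piFinset.2 h, rfl⟩

lemma pr_mono {N : ℕ} {X Y : Finset ℕ} (h : X ⊆ Y) : pr N X ⊆ pr N Y := by
  intro z hz
  obtain ⟨f, hf, rfl⟩ := Finset.mem_image.1 hz
  exact mem_pr fun i => h (Fintype.mem_piFinset.1 hf i)

lemma pr_nonempty {N : ℕ} {X : Finset ℕ} (h : X.Nonempty) : (pr N X).Nonempty := by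
  obtain ⟨x, hx⟩ := h
  exact ⟨_, mem_pr (f := fun _ : Fin N => x) fun _ => hx⟩

lemma uq_mul {a b : ℤ} (ha : a ≠ 0) (hb : b ≠ 0) : uq (a * b) = uq a * uq b := by
  apply Units.ext
  rw [Units.val_mul, uq_val ha, uq_val hb, uq_val (mul_ne_zero ha hb)]
  push_cast; ring

lemma uq_prod {N : ℕ} (f : Fin N → ℤ) (h : ∀ i, f i ≠ 0) : uq (∏ i, f i) = ∏ i, uq (f i) := by
  apply Units.ext
  rw [uq_val (Finset.prod_ne_zero_iff.2 fun i _ => h i), Units.coe_prod]
  push_cast
  exact Finset.prod_congr rfl fun i _ => (uq_val (h i)).symm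

/-- the map which gives the elements of the sumset in the group -/
noncomputable def psi (σ : ℤ) (N : ℕ) (t : ℤ × ℕ × ℕ × ℕ) : GG :=
  ((Additive.ofMul (uq (t.1 * t.2.1) / uq t.2.2.2),
    Additive.ofMul (uq ((-σ) ^ N * (t.1 * t.2.1)) / uq t.2.2.1)), 0)

lemma ksum_le (σ : ℤ) (hσ : σ = 1 ∨ σ = -1) (N : ℕ) (A : Finset (Fin 2 → ℤ))
    (hpos : ∀ f ∈ A, ∀ k, 0 < f k) (hg : ∀ f ∈ A, Good σ f) (U V W : Finset ℕ)
    (hU : ∀ f ∈ A, (f 0).natAbs ∈ U) (hV : ∀ f ∈ A, (f 1 - σ * f 0).natAbs ∈ V)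
    (hW : ∀ f ∈ A, (f 1).natAbs ∈ W) :
    (ksum N (A.image (phi σ))).card ≤ 2 * (pr N U).card * (pr N V).card * (pr N W).card := by
  classical
  have hsub : ksum N (A.image (phi σ)) ⊆
      (({1, -1} : Finset ℤ) ×ˢ (pr N V) ×ˢ (pr N U) ×ˢ (pr N W)).image (psi σ N) := by
    intro z hz
    unfold ksum at hz
    obtain ⟨q, hq, rfl⟩ := Finset.mem_image.1 hz
    rw [Fintype.mem_piFinset] at hq
    have hch : ∀ i, ∃ a ∈ A, phi σ a = q i := fun i => Finset.mem_image.1 (hq i)
    choose a ha haq using hch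
    have hY : ∀ i, a i 1 - σ * a i 0 ≠ 0 := fun i => (hg _ (ha i)).2
    have hYp : ∏ i, (a i 1 - σ * a i 0) ≠ 0 := Finset.prod_ne_zero_iff.2 fun i _ => hY i
    have hσ0 : -σ ≠ 0 := by rcases hσ with rfl | rfl <;> norm_num
    have hsgn : ∃ s ∈ ({1, -1} : Finset ℤ),
        ∏ i, (a i 1 - σ * a i 0) = s * ((∏ i, (a i 1 - σ * a i 0).natAbs : ℕ) : ℤ) := by
      have e : ((∏ i, (a i 1 - σ * a i 0).natAbs : ℕ) : ℤ) = |∏ i, (a i 1 - σ * a i 0)| := by
        rw [Finset.abs_prod]
        push_cast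
        rfl
      rw [e]
      rcases abs_choice (∏ i, (a i 1 - σ * a i 0)) with h | h
      · exact ⟨1, by simp, by rw [h]; ring⟩
      · exact ⟨-1, by simp, by rw [h]; ring⟩
    obtain ⟨s, hs, hse⟩ := hsgn
    have hU' : ((∏ i, (a i 0).natAbs : ℕ) : ℤ) = ∏ i, a i 0 := by
      push_cast
      exact Finset.prod_congr rfl fun i _ => abs_of_pos (hpos _ (ha i) 0)
    have hW' : ((∏ i, (a i 1).natAbs : ℕ) : ℤ) = ∏ i, a i 1 := by
      push_cast
      exact Finset.prod_congr rfl fun i _ => abs_of_pos (hpos _ (ha i) 1)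
    rw [Finset.mem_image]
    refine ⟨(s, ∏ i, (a i 1 - σ * a i 0).natAbs, ∏ i, (a i 0).natAbs, ∏ i, (a i 1).natAbs), ?_, ?_⟩
    · simp only [Finset.mem_product]
      exact ⟨hs, mem_pr fun i => hV _ (ha i), mem_pr fun i => hU _ (ha i),
        mem_pr fun i => hW _ (ha i)⟩
    · have hq' : ∀ i, q i = ((Additive.ofMul (g1 σ (a i)), Additive.ofMul (g2 σ (a i))), 0) := by
        intro i
        rw [← haq i]
        unfold phi
        rw [if_pos (hg _ (ha i))]
      unfold psi
      simp only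
      rw [← hse, hU', hW', Finset.sum_congr rfl fun i _ => hq' i]
      refine Prod.ext (Prod.ext ?_ ?_) ?_
      · rw [Prod.fst_sum, Prod.fst_sum]
        simp only
        rw [← ofMul_prod]
        congr 1
        unfold g1
        rw [Finset.prod_div_distrib, uq_prod _ hY,
          uq_prod _ fun i => ne_of_gt (hpos _ (ha i) 1)]
      · rw [Prod.fst_sum, Prod.snd_sum]
        simp only
        rw [← ofMul_prod]
        congr 1
        unfold g2
        rw [Finset.prod_div_distrib, uq_prod _ fun i => ne_of_gt (hpos _ (ha i) 0),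
          uq_mul (pow_ne_zero _ hσ0) hYp, uq_prod _ hY,
          Finset.prod_congr rfl fun i _ => uq_mul hσ0 (hY i), Finset.prod_mul_distrib]
        congr 2
        rw [Finset.prod_const, Finset.card_univ, Fintype.card_fin]
        have := uq_prod (N := N) (fun _ => -σ) fun _ => hσ0
        rw [Finset.prod_const, Finset.prod_const, Finset.card_univ, Fintype.card_fin] at this
        exact this
      · rw [Prod.snd_sum]
        simp
  calc (ksum N (A.image (phi σ))).card
      ≤ ((({1, -1} : Finset ℤ) ×ˢ (pr N V) ×ˢ (pr N U) ×ˢ (pr N W)).image (psi σ N)).card :=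
        Finset.card_le_card hsub
    _ ≤ (({1, -1} : Finset ℤ) ×ˢ (pr N V) ×ˢ (pr N U) ×ˢ (pr N W)).card := Finset.card_image_le
    _ = 2 * (pr N U).card * (pr N V).card * (pr N W).card := by
        rw [Finset.card_product, Finset.card_product, Finset.card_product]
        have : ({1, -1} : Finset ℤ).card = 2 := by decide
        rw [this]; ring

lemma prodset_le (N : ℕ) (A : Finset (Fin 2 → ℤ))
    (hpos : ∀ f ∈ A, ∀ k, 0 < f k) (U W : Finset ℕ)
    (hU : ∀ f ∈ A, (f 0).natAbs ∈ U) (hW : ∀ f ∈ A, (f 1).natAbs ∈ W) :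
    (prodset fun _ : Fin N => A).card ≤ (pr N U).card * (pr N W).card := by
  classical
  rw [← Finset.card_product]
  have key : ∀ x ∈ (prodset fun _ : Fin N => A), (∀ k, 0 < x k) ∧
      (x 0).natAbs ∈ pr N U ∧ (x 1).natAbs ∈ pr N W := by
    intro x hx
    obtain ⟨f, hf, rfl⟩ := (mem_prodset _ _).1 hx
    refine ⟨fun k => ?_, ?_, ?_⟩
    · rw [Finset.prod_apply]
      exact Finset.prod_pos fun i _ => hpos _ (hf i) k
    · rw [Finset.prod_apply, ← Int.natAbsHom_apply, map_prod]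
      exact mem_pr fun i => hU _ (hf i)
    · rw [Finset.prod_apply, ← Int.natAbsHom_apply, map_prod]
      exact mem_pr fun i => hW _ (hf i)
  apply Finset.card_le_card_of_injOn (fun x => ((x 0).natAbs, (x 1).natAbs))
  · intro x hx
    obtain ⟨-, h1, h2⟩ := key x hx
    exact Finset.mem_coe.2 (Finset.mem_product.2 ⟨h1, h2⟩)
  · intro x hx y hy h
    obtain ⟨hx1, -⟩ := key x hx
    obtain ⟨hy1, -⟩ := key y hy
    simp only [Prod.mk.injEq] at h
    funext k
    have h0 := hx1 0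
    have h1 := hx1 1
    have h2 := hy1 0
    have h3 := hy1 1
    fin_cases k
    · show x 0 = y 0
      omega
    · show x 1 = y 1
      omega

/-- pairs -/
theorem pairs_low (σ : ℤ) (hσ : σ = 1 ∨ σ = -1) {N : ℕ} (hN : 2 ≤ N) (A : Finset (Fin 2 → ℤ))
    (hA : A.Nonempty) (hpos : ∀ f ∈ A, ∀ k, 0 < f k) (hg : ∀ f ∈ A, Good σ f)
    (U V W : Finset ℕ) (hU : ∀ f ∈ A, (f 0).natAbs ∈ U)
    (hV : ∀ f ∈ A, (f 1 - σ * f 0).natAbs ∈ V) (hW : ∀ f ∈ A, (f 1).natAbs ∈ W) :
    (A.card : ℝ) ^ ex N ≤ 2 * (pr N U).card * (pr N V).card * (pr N W).card := by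
  classical
  have h := low (Fph σ hσ) (phi_inj σ hσ) hN A hA fun a ha => hpos a ha
  refine h.trans (max_le ?_ ?_)
  · have := ksum_le σ hσ N A hpos hg U V W hU hV hW
    exact_mod_cast this
  · have h1 := prodset_le N A hpos U W hU hW
    obtain ⟨f, hf⟩ := hA
    have h2 : 1 ≤ (pr N V).card := (pr_nonempty ⟨_, hV f hf⟩).card_pos
    have h3 : (pr N U).card * (pr N W).card ≤
        2 * (pr N U).card * (pr N V).card * (pr N W).card := by
      have : 2 * (pr N U).card * (pr N V).card * (pr N W).card =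
        ((pr N U).card * (pr N W).card) * (2 * (pr N V).card) := by ring
      rw [this]
      exact Nat.le_mul_of_pos_right _ (by omega)
    exact_mod_cast h1.trans h3

end Run7.h603.Fp
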