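import Pool.Agent.Run7.h603.Fp2

set_option autoImplicit false

/-!
# Product sets of the terms of `X + Y = Z`: all signs, coefficients composed of few primes
-/

namespace Run7.h603.Fp

open Finset Pool.Agent.N811.IS
open scoped Pointwise

lemma ex_nonneg {N : ℕ} (hN : 2 ≤ N) : 0 ≤ ex N := by
  have hN2 : (2:ℝ) ≤ N := by exact_mod_cast hN
  have hL := Real.log_two_gt_d9
  have hx0 : Real.log 2 ≤ Real.log N := Real.log_le_log (by norm_num) hN2
  have hD : 0 < Real.log (Real.log N) + 7 / 5 := den_pos (by linarith)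
  unfold ex
  exact div_nonneg (by linarith) hD.le

/-- the sign -/
def sg (b : Bool) : ℤ := if b then 1 else -1

lemma sg_or (b : Bool) : sg b = 1 ∨ sg b = -1 := by cases b <;> simp [sg]

lemma sg_abs {z : ℤ} (hz : z ≠ 0) : z = sg (decide (0 < z)) * |z| := by
  unfold sg
  rcases lt_or_gt_of_ne hz with h | h
  · rw [abs_of_neg h]
    simp [not_lt.2 h.le]
  · rw [abs_of_pos h]
    simp [h]

/-- **Triples.** -/
theorem terms_low {N : ℕ} (hN : 2 ≤ N) (T : Finset (ℤ × ℤ × ℤ)) (hT : T.Nonempty)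
    (h : ∀ t ∈ T, t.1 + t.2.1 = t.2.2 ∧ t.1 ≠ 0 ∧ t.2.1 ≠ 0 ∧ t.2.2 ≠ 0 ∧ IsCoprime t.1 t.2.1)
    (U V W : Finset ℕ) (hU : ∀ t ∈ T, t.1.natAbs ∈ U) (hV : ∀ t ∈ T, t.2.1.natAbs ∈ V)
    (hW : ∀ t ∈ T, t.2.2.natAbs ∈ W) :
    ((T.card : ℝ) / 4) ^ ex N ≤ 2 * (pr N U).card * (pr N V).card * (pr N W).card := by
  classical
  set cls : ℤ × ℤ × ℤ → Bool × Bool := fun t => (decide (0 < t.1), decide (0 < t.2.2)) with hcls
  obtain ⟨b, -, hb⟩ := Finset.exists_max_image (Finset.univ : Finset (Bool × Bool))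
    (fun b => (T.filter fun t => cls t = b).card) ⟨(true, true), Finset.mem_univ _⟩
  have hsum : T.card = ∑ b : Bool × Bool, (T.filter fun t => cls t = b).card :=
    Finset.card_eq_sum_card_fiberwise fun t _ => Finset.mem_coe.2 (Finset.mem_univ _)
  have h4 : T.card ≤ 4 * (T.filter fun t => cls t = b).card := by
    rw [hsum]
    calc ∑ b : Bool × Bool, (T.filter fun t => cls t = b).card
        ≤ ∑ _b : Bool × Bool, (T.filter fun t => cls t = b).card :=
          Finset.sum_le_sum fun c _ => hb c (Finset.mem_univ c)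
      _ = _ := by
          rw [Finset.sum_const]
          simp
  set T' := T.filter fun t => cls t = b with hT'
  have hsub : ∀ t ∈ T', t ∈ T := fun t ht => (Finset.mem_filter.1 ht).1
  have hT'n : T'.Nonempty := by
    rw [← Finset.card_pos]
    have := hT.card_pos
    omega
  set σ : ℤ := sg b.1 * sg b.2 with hσ
  have hσ1 : σ = 1 ∨ σ = -1 := by
    rcases sg_or b.1 with h1 | h1 <;> rcases sg_or b.2 with h2 | h2 <;> rw [hσ, h1, h2] <;> simp
  have hform : ∀ t ∈ T', t.1 = sg b.1 * |t.1| ∧ t.2.2 = sg b.2 * |t.2.2| := by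
    intro t ht
    obtain ⟨h1, h2⟩ := Finset.mem_filter.1 ht
    obtain ⟨-, hx, -, hz, -⟩ := h t h1
    have e1 : b.1 = decide (0 < t.1) := by rw [← h2]
    have e2 : b.2 = decide (0 < t.2.2) := by rw [← h2]
    exact ⟨by rw [e1]; exact sg_abs hx, by rw [e2]; exact sg_abs hz⟩
  have hsq : ∀ c : Bool, sg c * sg c = 1 := by
    intro c
    rcases sg_or c with h1 | h1 <;> rw [h1] <;> norm_num
  have hY : ∀ t ∈ T', |t.2.2| - σ * |t.1| = sg b.2 * t.2.1 := by
    intro t ht
    obtain ⟨e1, e2⟩ := hform t ht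
    have e3 : t.2.1 = t.2.2 - t.1 := by linarith [(h t (hsub t ht)).1]
    have e4 : |t.2.2| = sg b.2 * t.2.2 := by
      calc |t.2.2| = (sg b.2 * sg b.2) * |t.2.2| := by rw [hsq, one_mul]
        _ = sg b.2 * (sg b.2 * |t.2.2|) := by ring
        _ = _ := by rw [← e2]
    have e5 : σ * |t.1| = sg b.2 * t.1 := by
      rw [hσ]
      calc sg b.1 * sg b.2 * |t.1| = sg b.2 * (sg b.1 * |t.1|) := by ring
        _ = _ := by rw [← e1]
    rw [e4, e5, e3]; ring
  set F : ℤ × ℤ × ℤ → (Fin 2 → ℤ) := fun t => ![|t.1|, |t.2.2|] with hF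
  have hinj : Set.InjOn F T' := by
    intro t ht u hu htu
    obtain ⟨e1, e2⟩ := hform t ht
    obtain ⟨f1, f2⟩ := hform u hu
    have g1 : |t.1| = |u.1| := congrFun htu 0
    have g2 : |t.2.2| = |u.2.2| := congrFun htu 1
    have k1 : t.1 = u.1 := by rw [e1, f1, g1]
    have k2 : t.2.2 = u.2.2 := by rw [e2, f2, g2]
    have k3 : t.2.1 = u.2.1 := by
      have := (h t (hsub t ht)).1
      have := (h u (hsub u hu)).1
      linarith
    exact Prod.ext k1 (Prod.ext k3 k2)
  have hcard : (T'.image F).card = T'.card := Finset.card_image_of_injOn hinj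
  have hmain := pairs_low σ hσ1 hN (T'.image F) (hT'n.image F)
    (fun f hf k => by
      obtain ⟨t, ht, rfl⟩ := Finset.mem_image.1 hf
      obtain ⟨-, hx, -, hz, -⟩ := h t (hsub t ht)
      fin_cases k
      · show 0 < |t.1|
        exact abs_pos.2 hx
      · show 0 < |t.2.2|
        exact abs_pos.2 hz)
    (fun f hf => by
      obtain ⟨t, ht, rfl⟩ := Finset.mem_image.1 hf
      obtain ⟨he, hx, hy, hz, hc⟩ := h t (hsub t ht)
      refine ⟨?_, ?_⟩
      · show IsCoprime |t.1| |t.2.2|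
        have h2 : IsCoprime t.1 t.2.2 := by
          have := hc.add_mul_left_right 1
          rwa [mul_one, add_comm, he] at this
        rw [Int.isCoprime_iff_gcd_eq_one] at h2 ⊢
        show Nat.gcd (|t.1|).natAbs (|t.2.2|).natAbs = 1
        rw [Int.natAbs_abs, Int.natAbs_abs]
        exact h2
      · show |t.2.2| - σ * |t.1| ≠ 0
        rw [hY t ht]
        refine mul_ne_zero ?_ hy
        rcases sg_or b.2 with h1 | h1 <;> rw [h1] <;> norm_num)
    U V W
    (fun f hf => by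
      obtain ⟨t, ht, rfl⟩ := Finset.mem_image.1 hf
      show (|t.1|).natAbs ∈ U
      rw [Int.natAbs_abs]
      exact hU t (hsub t ht))
    (fun f hf => by
      obtain ⟨t, ht, rfl⟩ := Finset.mem_image.1 hf
      show (|t.2.2| - σ * |t.1|).natAbs ∈ V
      rw [hY t ht, Int.natAbs_mul]
      have : (sg b.2).natAbs = 1 := by rcases sg_or b.2 with h1 | h1 <;> rw [h1] <;> rfl
      rw [this, one_mul]
      exact hV t (hsub t ht))
    (fun f hf => by
      obtain ⟨t, ht, rfl⟩ := Finset.mem_image.1 hf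
      show (|t.2.2|).natAbs ∈ W
      rw [Int.natAbs_abs]
      exact hW t (hsub t ht))
  rw [hcard] at hmain
  refine le_trans (Real.rpow_le_rpow (by positivity) ?_ (ex_nonneg hN)) hmain
  have : (T.card : ℝ) ≤ 4 * T'.card := by exact_mod_cast h4
  linarith

/-- the numbers composed of the elements of `S` with exponents at most `h` -/
def cs (S : Finset ℕ) (h : ℕ) : Finset ℕ :=
  (Fintype.piFinset fun _ : S => Finset.range (h + 1)).image fun e => ∏ l : S, (l : ℕ) ^ e l

lemma card_cs (S : Finset ℕ) (h : ℕ) : (cs S h).card ≤ (h + 1) ^ S.card := by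
  unfold cs
  refine Finset.card_image_le.trans ?_
  rw [Fintype.card_piFinset]
  simp

lemma prod_cs {S : Finset ℕ} {h N : ℕ} {f : Fin N → ℕ} (hf : ∀ i, f i ∈ cs S h) :
    ∏ i, f i ∈ cs S (N * h) := by
  unfold cs at hf ⊢
  have hch : ∀ i, ∃ e ∈ Fintype.piFinset (fun _ : S => Finset.range (h + 1)),
      ∏ l : S, (l : ℕ) ^ e l = f i := fun i => Finset.mem_image.1 (hf i)
  choose e he hef using hch
  rw [Finset.mem_image]
  refine ⟨fun l => ∑ i, e i l, ?_, ?_⟩
  · rw [Fintype.mem_piFinset]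
    intro l
    rw [Finset.mem_range]
    have : ∑ i, e i l ≤ ∑ _i : Fin N, h := Finset.sum_le_sum fun i _ => by
      have := Fintype.mem_piFinset.1 (he i) l
      rw [Finset.mem_range] at this
      omega
    rw [Finset.sum_const, Finset.card_univ, Fintype.card_fin, smul_eq_mul] at this
    omega
  · rw [Finset.prod_congr rfl fun l _ => (Finset.prod_pow_eq_pow_sum _ _ _).symm,
      Finset.prod_comm]
    exact Finset.prod_congr rfl fun i _ => hef i

/-- the products of a number composed of `S` and a power of an element of `B` -/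
def tm (S : Finset ℕ) (h : ℕ) (B : Finset ℕ) (p : ℕ) : Finset ℕ :=
  (cs S h ×ˢ B).image fun x => x.1 * x.2 ^ p

lemma mem_tm {S : Finset ℕ} {h : ℕ} {B : Finset ℕ} {p m x : ℕ} (hm : m ∈ cs S h) (hx : x ∈ B) :
    m * x ^ p ∈ tm S h B p :=
  Finset.mem_image.2 ⟨(m, x), Finset.mem_product.2 ⟨hm, hx⟩, rfl⟩

lemma pr_tm (S : Finset ℕ) (h : ℕ) (B : Finset ℕ) (p N : ℕ) :
    pr N (tm S h B p) ⊆ tm S (N * h) (pr N B) p := by
  intro z hz
  obtain ⟨f, hf, rfl⟩ := Finset.mem_image.1 hz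
  rw [Fintype.mem_piFinset] at hf
  have hch : ∀ i, ∃ x ∈ cs S h ×ˢ B, x.1 * x.2 ^ p = f i := fun i => Finset.mem_image.1 (hf i)
  choose x hx hxf using hch
  have e : ∏ i, f i = (∏ i, (x i).1) * (∏ i, (x i).2) ^ p := by
    rw [← Finset.prod_pow, ← Finset.prod_mul_distrib]
    exact Finset.prod_congr rfl fun i _ => (hxf i).symm
  rw [e]
  exact mem_tm (prod_cs fun i => (Finset.mem_product.1 (hx i)).1)
    (mem_pr fun i => (Finset.mem_product.1 (hx i)).2)

lemma card_pr_tm (S : Finset ℕ) (h : ℕ) (B : Finset ℕ) (p N : ℕ) :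
    (pr N (tm S h B p)).card ≤ (N * h + 1) ^ S.card * (pr N B).card := by
  refine (Finset.card_le_card (pr_tm S h B p N)).trans ?_
  unfold tm
  refine Finset.card_image_le.trans ?_
  rw [Finset.card_product]
  exact Nat.mul_le_mul_right _ (card_cs S _)

lemma cs_ne {S : Finset ℕ} (hS : ∀ l ∈ S, l ≠ 0) {h m : ℕ} (hm : m ∈ cs S h) : m ≠ 0 := by
  unfold cs at hm
  obtain ⟨e, -, rfl⟩ := Finset.mem_image.1 hm
  exact Finset.prod_ne_zero_iff.2 fun l _ => pow_ne_zero _ (hS l l.2)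

/-- Coprime triples `X + Y = Z`, the absolute values of the terms are products of numbers composed
of `S` and of powers of elements of `B` with given exponents. -/
def Sol (S : Finset ℕ) (h : ℕ) (B : Finset ℕ) (p q r : ℕ) (t : ℤ × ℤ × ℤ) : Prop :=
  t.1.natAbs ∈ tm S h B p ∧ t.2.1.natAbs ∈ tm S h B q ∧ t.2.2.natAbs ∈ tm S h B r ∧
    t.1 + t.2.1 = t.2.2 ∧ IsCoprime t.1 t.2.1

lemma tm_ne {S : Finset ℕ} (hS : ∀ l ∈ S, l ≠ 0) {h : ℕ} {B : Finset ℕ} (hB : 0 ∉ B) {p : ℕ}
    {n : ℕ} (hn : n ∈ tm S h B p) : n ≠ 0 := by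
  obtain ⟨x, hx, rfl⟩ := Finset.mem_image.1 hn
  obtain ⟨h1, h2⟩ := Finset.mem_product.1 hx
  exact mul_ne_zero (cs_ne hS h1) (pow_ne_zero _ fun h0 => hB (h0 ▸ h2))

/-- **Few products, few solutions**, for given exponents. -/
theorem sol_low {N : ℕ} (hN : 2 ≤ N) (S : Finset ℕ) (hS : ∀ l ∈ S, l ≠ 0) (h : ℕ) (B : Finset ℕ)
    (hB : 0 ∉ B) (p q r : ℕ) (T : Finset (ℤ × ℤ × ℤ)) (hT : T.Nonempty)
    (hs : ∀ t ∈ T, Sol S h B p q r t) :
    ((T.card : ℝ) / 4) ^ ex N ≤ 2 * (((N * h + 1 : ℕ) : ℝ) ^ S.card * (pr N B).card) ^ 3 := by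
  have h1 := terms_low hN T hT (fun t ht => by
      obtain ⟨hx, hy, hz, he, hg⟩ := hs t ht
      exact ⟨he, Int.natAbs_ne_zero.1 (tm_ne hS hB hx), Int.natAbs_ne_zero.1 (tm_ne hS hB hy),
        Int.natAbs_ne_zero.1 (tm_ne hS hB hz), hg⟩)
    (tm S h B p) (tm S h B q) (tm S h B r)
    (fun t ht => (hs t ht).1) (fun t ht => (hs t ht).2.1) (fun t ht => (hs t ht).2.2.1)
  refine h1.trans ?_
  have k : ∀ p, ((pr N (tm S h B p)).card : ℝ) ≤ ((N * h + 1 : ℕ) : ℝ) ^ S.card * (pr N B).card := by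
    intro p
    exact_mod_cast card_pr_tm S h B p N
  have k0 : (0 : ℝ) ≤ ((N * h + 1 : ℕ) : ℝ) ^ S.card * (pr N B).card := by positivity
  calc 2 * ((pr N (tm S h B p)).card : ℝ) * (pr N (tm S h B q)).card * (pr N (tm S h B r)).card
      ≤ 2 * (((N * h + 1 : ℕ) : ℝ) ^ S.card * (pr N B).card) *
        (((N * h + 1 : ℕ) : ℝ) ^ S.card * (pr N B).card) *
        (((N * h + 1 : ℕ) : ℝ) ^ S.card * (pr N B).card) := by
        gcongr
        · exact k p
        · exact k q
        · exact k r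
    _ = _ := by ring

/-- a number composed of primes of `S` -/
lemma mem_cs {S : Finset ℕ} {n X : ℕ} (hn : n ≠ 0) (hS : ∀ l : ℕ, l.Prime → l ∣ n → l ∈ S)
    (hX : n ≤ X) : n ∈ cs S (Nat.log 2 X) := by
  unfold cs
  rw [Finset.mem_image]
  refine ⟨fun l => n.factorization l, ?_, ?_⟩
  · rw [Fintype.mem_piFinset]
    intro l
    rw [Finset.mem_range]
    rcases eq_or_ne (n.factorization l) 0 with h0 | h0
    · rw [h0]; omega
    · have hl : (l : ℕ).Prime := by
        by_contra hc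
        exact h0 (Nat.factorization_eq_zero_of_not_prime _ hc)
      have h1 : (l : ℕ) ^ n.factorization l ≤ n := Nat.ordProj_le _ hn
      have h2 : 2 ^ n.factorization l ≤ X :=
        (Nat.pow_le_pow_left hl.two_le _).trans (h1.trans hX)
      have := Nat.le_log_of_pow_le (by norm_num) h2
      omega
  · have h1 : n.factorization.prod (fun l e => l ^ e) = n := Nat.prod_factorization_pow_eq_self hn
    have h2 : ∏ l ∈ S, l ^ n.factorization l = n := by
      rw [← Finsupp.prod_of_support_subset n.factorization (s := S) ?_ (fun l e => l ^ e) ?_]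
      · exact h1
      · intro l hl
        rw [Nat.support_factorization, Nat.mem_primeFactors] at hl
        exact hS l hl.1 hl.2.1
      · intro i _
        exact pow_zero i
    rw [Finset.univ_eq_attach, Finset.prod_attach S fun l => l ^ n.factorization l]
    exact h2

/-- powers at most `X` have a small exponent -/
lemma pow_small {b p X : ℕ} (hb : b ≠ 0) (h : b ^ p ≤ X) :
    ∃ p' ∈ Finset.range (Nat.log 2 X + 1), b ^ p = b ^ p' := by
  rcases Nat.lt_or_ge b 2 with h2 | h2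
  · have h1 : b = 1 := by omega
    exact ⟨0, by simp, by rw [h1]; simp⟩
  · refine ⟨p, ?_, rfl⟩
    rw [Finset.mem_range]
    have := Nat.le_log_of_pow_le (by norm_num) ((Nat.pow_le_pow_left h2 p).trans h)
    omega

end Run7.h603.Fp
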