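import Pool.Agent.Run7.h603.Fp3

set_option autoImplicit false

/-!
# Few products, few solutions: sets with small multiplicative doubling, all exponents
-/

namespace Run7.h603.Fp

open Finset
open scoped Pointwise NNRat

/-- natural numbers in the group -/
noncomputable def un (n : ℕ) : ℚˣ := uq (n : ℤ)

lemma un_val {n : ℕ} (h : n ≠ 0) : (un n : ℚ) = n := by
  unfold un
  rw [uq_val (by exact_mod_cast h)]
  push_cast; rfl

lemma un_inj {m n : ℕ} (hm : m ≠ 0) (hn : n ≠ 0) (h : un m = un n) : m = n := by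
  have := congrArg (fun u : ℚˣ => (u : ℚ)) h
  simp only [un_val hm, un_val hn] at this
  exact_mod_cast this

lemma un_prod {N : ℕ} (f : Fin N → ℕ) (h : ∀ i, f i ≠ 0) : un (∏ i, f i) = ∏ i, un (f i) := by
  unfold un
  rw [← uq_prod _ fun i => by exact_mod_cast h i]
  congr 1
  push_cast; rfl

lemma pr_ne {N : ℕ} {B : Finset ℕ} (hB : 0 ∉ B) {z : ℕ} (hz : z ∈ pr N B) : z ≠ 0 := by
  obtain ⟨f, hf, rfl⟩ := Finset.mem_image.1 hz
  rw [Fintype.mem_piFinset] at hf
  exact Finset.prod_ne_zero_iff.2 fun i _ h => hB (h ▸ hf i)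

/-- Plünnecke's inequality -/
theorem pr_growth (B : Finset ℕ) (hB : 0 ∉ B) (hBn : B.Nonempty) (K : ℝ)
    (hK : ((pr 2 B).card : ℝ) ≤ K * B.card) (N : ℕ) :
    ((pr N B).card : ℝ) ≤ K ^ N * B.card := by
  classical
  set B' : Finset ℚˣ := B.image un with hB'
  have hne : ∀ b ∈ B, b ≠ 0 := fun b hb h => hB (h ▸ hb)
  have hcB : B'.card = B.card := Finset.card_image_of_injOn fun a ha b hb h =>
    un_inj (hne a ha) (hne b hb) h
  have hB'n : B'.Nonempty := hBn.image _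
  have h1 := Finset.pluennecke_ruzsa_inequality_pow_mul hB'n B' N
  have h2 : (pr N B).card ≤ (B' ^ N).card := by
    apply Finset.card_le_card_of_injOn un
    · intro z hz
      obtain ⟨f, hf, rfl⟩ := Finset.mem_image.1 (Finset.mem_coe.1 hz)
      rw [Fintype.mem_piFinset] at hf
      rw [Finset.mem_coe, un_prod f fun i => hne _ (hf i), Finset.mem_pow]
      exact ⟨fun i => ⟨un (f i), Finset.mem_image_of_mem _ (hf i)⟩, by rw [List.prod_ofFn]⟩
    · intro a ha b hb h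
      exact un_inj (pr_ne hB (Finset.mem_coe.1 ha)) (pr_ne hB (Finset.mem_coe.1 hb)) h
  have h3 : (B' * B').card ≤ (pr 2 B).card := by
    refine (Finset.card_le_card ?_).trans (Finset.card_image_le (s := pr 2 B) (f := un))
    intro z hz
    obtain ⟨x, hx, y, hy, rfl⟩ := Finset.mem_mul.1 hz
    obtain ⟨a, ha, rfl⟩ := Finset.mem_image.1 hx
    obtain ⟨b, hb, rfl⟩ := Finset.mem_image.1 hy
    refine Finset.mem_image.2 ⟨∏ i : Fin 2, ![a, b] i, mem_pr fun i => ?_, ?_⟩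
    · fin_cases i
      · exact ha
      · exact hb
    · rw [un_prod _ fun i => ?_]
      · simp [Fin.prod_univ_two]
      · fin_cases i
        · exact hne a ha
        · exact hne b hb
  have h4 : ((B' ^ N).card : ℝ) ≤ (((B' * B').card : ℝ) / B'.card) ^ N * B'.card := by
    have := (NNRat.cast_le (K := ℝ)).2 h1
    push_cast at this
    exact this
  have hpos : (0 : ℝ) < B'.card := by exact_mod_cast hB'n.card_pos
  have h5 : ((B' * B').card : ℝ) / B'.card ≤ K := by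
    rw [div_le_iff₀ hpos, hcB]
    exact le_trans (by exact_mod_cast h3) hK
  calc ((pr N B).card : ℝ) ≤ (B' ^ N).card := by exact_mod_cast h2
    _ ≤ _ := h4
    _ ≤ K ^ N * B'.card := by
        apply mul_le_mul_of_nonneg_right _ hpos.le
        exact pow_le_pow_left₀ (by positivity) h5 N
    _ = _ := by rw [hcB]

/-- the exponent tends to infinity -/
theorem ex_large (c : ℝ) : ∃ N : ℕ, 2 ≤ N ∧ c ≤ ex N := by
  obtain ⟨N, hN⟩ := exists_nat_ge (Real.exp ((17 / 5 * c) ^ 2 + 1))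
  have h1 : (1 : ℝ) ≤ (17 / 5 * c) ^ 2 + 1 := by nlinarith [sq_nonneg (17 / 5 * c)]
  have h2 : (2 : ℝ) ≤ Real.exp ((17 / 5 * c) ^ 2 + 1) := by
    have := Real.add_one_le_exp ((17 / 5 * c) ^ 2 + 1)
    linarith
  have hN2 : (2 : ℝ) ≤ N := h2.trans hN
  refine ⟨N, by exact_mod_cast hN2, ?_⟩
  have hx : (17 / 5 * c) ^ 2 + 1 ≤ Real.log N := by
    rw [Real.le_log_iff_exp_le (by linarith)]
    exact hN
  set x := Real.log N with hxd
  have hx1 : 1 ≤ x := h1.trans hx
  have hs1 : 1 ≤ √x := by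
    rw [Real.one_le_sqrt]
    exact hx1
  have hsq : √x * √x = x := Real.mul_self_sqrt (by linarith)
  have hlog : Real.log x ≤ 2 * √x := by
    have h3 : Real.log x = 2 * Real.log (√x) := by
      rw [Real.log_sqrt (by linarith)]; ring
    have h4 := Real.log_le_sub_one_of_pos (show 0 < √x by linarith)
    rw [h3]; linarith
  have hlog0 : 0 ≤ Real.log x := Real.log_nonneg hx1
  have hc : 17 / 5 * c ≤ √x := by
    apply Real.le_sqrt_of_sq_le
    linarith
  unfold ex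
  rw [← hxd, le_div_iff₀ (by linarith)]
  rcases le_or_gt c 0 with h0 | h0
  · have : c * (Real.log x + 7 / 5) ≤ 0 := mul_nonpos_of_nonpos_of_nonneg h0 (by linarith)
    linarith
  · calc c * (Real.log x + 7 / 5) ≤ c * (2 * √x + 7 / 5 * √x) := by
          apply mul_le_mul_of_nonneg_left _ h0.le
          nlinarith
      _ = (17 / 5 * c) * √x := by ring
      _ ≤ √x * √x := mul_le_mul_of_nonneg_right hc (by linarith)
      _ = x := hsq

/-- **Few products, few solutions**, given exponents. -/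
theorem few (δ : ℝ) (hδ : 0 < δ) : ∃ C : ℝ, 1 ≤ C ∧ ∀ (S : Finset ℕ), (∀ l ∈ S, l ≠ 0) →
    ∀ (h : ℕ) (B : Finset ℕ), 0 ∉ B → ∀ (p q r : ℕ) (K : ℝ), 1 ≤ K →
    ((pr 2 B).card : ℝ) ≤ K * B.card → ∀ T : Finset (ℤ × ℤ × ℤ), (∀ t ∈ T, Sol S h B p q r t) →
    (T.card : ℝ) ≤ C ^ (S.card + 1) * ((h : ℝ) + 1) ^ (δ * S.card) * K ^ C * (B.card : ℝ) ^ δ := by
  obtain ⟨N, hN, hex⟩ := ex_large (max (3 / δ) 1)
  have he1 : 1 ≤ ex N := (le_max_right _ _).trans hex
  have he3 : 3 / δ ≤ ex N := (le_max_left _ _).trans hex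
  have he0 : 0 < ex N := by linarith
  have hN0 : (2 : ℝ) ≤ N := by exact_mod_cast hN
  refine ⟨max 8 (max ((N : ℝ) ^ δ) (N * δ)), le_trans (by norm_num) (le_max_left _ _), ?_⟩
  intro S hS h B hB p q r K hK1 hK T hT
  set C : ℝ := max 8 (max ((N : ℝ) ^ δ) (N * δ)) with hC
  have hC8 : 8 ≤ C := le_max_left _ _
  have hCN : (N : ℝ) ^ δ ≤ C := (le_max_left _ _).trans (le_max_right _ _)
  have hCδ : N * δ ≤ C := (le_max_right _ _).trans (le_max_right _ _)
  have hh1 : (1 : ℝ) ≤ (h : ℝ) + 1 := by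
    have : (0 : ℝ) ≤ h := Nat.cast_nonneg h
    linarith
  rcases T.eq_empty_or_nonempty with hTe | hTn
  · rw [hTe, Finset.card_empty, Nat.cast_zero]
    positivity
  have hBn : B.Nonempty := by
    obtain ⟨t, ht⟩ := hTn
    obtain ⟨hx, -⟩ := hT t ht
    obtain ⟨x, hx, -⟩ := Finset.mem_image.1 hx
    exact ⟨_, (Finset.mem_product.1 hx).2⟩
  have hB1 : (1 : ℝ) ≤ B.card := by exact_mod_cast hBn.card_pos
  have h1 := sol_low hN S hS h B hB p q r T hTn hT
  have h2 := pr_growth B hB hBn K hK N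
  set P : ℝ := ((N : ℝ) * ((h : ℝ) + 1)) ^ S.card * (K ^ N * B.card) with hP
  have hNh : (1 : ℝ) ≤ (N : ℝ) * ((h : ℝ) + 1) := by nlinarith
  have hK0 : (1 : ℝ) ≤ K ^ N := one_le_pow₀ hK1
  have hP1 : 1 ≤ P := by
    have a1 : (1 : ℝ) ≤ ((N : ℝ) * ((h : ℝ) + 1)) ^ S.card := one_le_pow₀ hNh
    have a2 : (1 : ℝ) ≤ K ^ N * B.card := by nlinarith
    rw [hP]; nlinarith
  have h3 : ((N * h + 1 : ℕ) : ℝ) ^ S.card * (pr N B).card ≤ P := by
    rw [hP]
    apply mul_le_mul _ h2 (by positivity) (by positivity)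
    apply pow_le_pow_left₀ (by positivity)
    push_cast
    nlinarith
  have h4 : ((T.card : ℝ) / 4) ^ ex N ≤ (2 * P ^ δ) ^ ex N := by
    calc ((T.card : ℝ) / 4) ^ ex N ≤ 2 * (((N * h + 1 : ℕ) : ℝ) ^ S.card * (pr N B).card) ^ 3 := h1
      _ ≤ 2 * P ^ 3 := by
          apply mul_le_mul_of_nonneg_left _ (by norm_num)
          exact pow_le_pow_left₀ (by positivity) h3 3
      _ ≤ 2 ^ ex N * P ^ (δ * ex N) := by
          apply mul_le_mul _ _ (by positivity) (by positivity)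
          · calc (2 : ℝ) = 2 ^ (1 : ℝ) := (Real.rpow_one 2).symm
              _ ≤ 2 ^ ex N := Real.rpow_le_rpow_of_exponent_le (by norm_num) he1
          · have : (3 : ℝ) ≤ δ * ex N := by
              rw [div_le_iff₀ hδ] at he3
              linarith
            calc P ^ 3 = P ^ (3 : ℝ) := by
                  rw [← Real.rpow_natCast]; norm_num
              _ ≤ _ := Real.rpow_le_rpow_of_exponent_le hP1 this
      _ = (2 * P ^ δ) ^ ex N := by
          have hP0 : 0 ≤ P := by linarith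
          have e : (2 * P ^ δ) ^ ex N = 2 ^ ex N * (P ^ δ) ^ ex N :=
            Real.mul_rpow (by norm_num) (Real.rpow_nonneg hP0 _)
          rw [e, ← Real.rpow_mul hP0]
  have h5 : (T.card : ℝ) / 4 ≤ 2 * P ^ δ :=
    (Real.rpow_le_rpow_iff (by positivity) (by positivity) he0).1 h4
  have h6 : P ^ δ ≤ C ^ S.card * ((h : ℝ) + 1) ^ (δ * S.card) * K ^ C * (B.card : ℝ) ^ δ := by
    have e1 : P ^ δ = (((N : ℝ) ^ δ) ^ S.card * ((h : ℝ) + 1) ^ (δ * S.card)) *
        (K ^ ((N : ℝ) * δ) * (B.card : ℝ) ^ δ) := by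
      rw [hP, Real.mul_rpow (by positivity) (by positivity), mul_pow,
        Real.mul_rpow (by positivity) (by positivity), Real.mul_rpow (by positivity) (by positivity)]
      congr 1
      · congr 1
        · rw [← Real.rpow_natCast, ← Real.rpow_mul (by positivity), ← Real.rpow_natCast,
            ← Real.rpow_mul (by positivity), mul_comm]
        · rw [← Real.rpow_natCast, ← Real.rpow_mul (by positivity), mul_comm]
      · congr 1
        rw [← Real.rpow_natCast, ← Real.rpow_mul (by positivity)]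
    rw [e1]
    have a1 : ((N : ℝ) ^ δ) ^ S.card ≤ C ^ S.card := pow_le_pow_left₀ (by positivity) hCN _
    have a2 : K ^ ((N : ℝ) * δ) ≤ K ^ C := Real.rpow_le_rpow_of_exponent_le hK1 hCδ
    calc (((N : ℝ) ^ δ) ^ S.card * ((h : ℝ) + 1) ^ (δ * S.card)) *
        (K ^ ((N : ℝ) * δ) * (B.card : ℝ) ^ δ)
        ≤ (C ^ S.card * ((h : ℝ) + 1) ^ (δ * S.card)) * (K ^ C * (B.card : ℝ) ^ δ) := by
          gcongr
      _ = _ := by ring
  have hC0 : (0 : ℝ) ≤ C ^ S.card := by positivity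
  calc (T.card : ℝ) ≤ 8 * P ^ δ := by linarith
    _ ≤ 8 * (C ^ S.card * ((h : ℝ) + 1) ^ (δ * S.card) * K ^ C * (B.card : ℝ) ^ δ) :=
        mul_le_mul_of_nonneg_left h6 (by norm_num)
    _ ≤ C * (C ^ S.card * ((h : ℝ) + 1) ^ (δ * S.card) * K ^ C * (B.card : ℝ) ^ δ) := by
        apply mul_le_mul_of_nonneg_right hC8
        have : (0 : ℝ) ≤ K := by linarith
        positivity
    _ = _ := by rw [pow_succ]; ring

/-- all exponents -/
theorem all_exponents (S : Finset ℕ) (X : ℕ) (B : Finset ℕ) (T : Finset (ℤ × ℤ × ℤ)) (M : ℝ)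
    (hT : ∀ t ∈ T, ∃ p ∈ Finset.range (Nat.log 2 X + 1), ∃ q ∈ Finset.range (Nat.log 2 X + 1),
      ∃ r ∈ Finset.range (Nat.log 2 X + 1), Sol S (Nat.log 2 X) B p q r t)
    (hM : ∀ (p q r : ℕ) (T' : Finset (ℤ × ℤ × ℤ)),
      (∀ t ∈ T', Sol S (Nat.log 2 X) B p q r t) → (T'.card : ℝ) ≤ M) :
    (T.card : ℝ) ≤ ((Nat.log 2 X : ℝ) + 1) ^ 3 * M := by
  classical
  set L := Nat.log 2 X with hL
  set I := Finset.range (L + 1) ×ˢ Finset.range (L + 1) ×ˢ Finset.range (L + 1) with hI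
  have hsub : T ⊆ I.biUnion fun i => T.filter fun t => Sol S L B i.1 i.2.1 i.2.2 t := by
    intro t ht
    obtain ⟨p, hp, q, hq, r, hr, hs⟩ := hT t ht
    rw [Finset.mem_biUnion]
    exact ⟨(p, q, r), Finset.mem_product.2 ⟨hp, Finset.mem_product.2 ⟨hq, hr⟩⟩,
      Finset.mem_filter.2 ⟨ht, hs⟩⟩
  have h1 : T.card ≤ ∑ i ∈ I, (T.filter fun t => Sol S L B i.1 i.2.1 i.2.2 t).card :=
    (Finset.card_le_card hsub).trans Finset.card_biUnion_le
  have h2 : (T.card : ℝ) ≤ ∑ i ∈ I, ((T.filter fun t => Sol S L B i.1 i.2.1 i.2.2 t).card : ℝ) := by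
    exact_mod_cast h1
  refine h2.trans ?_
  calc ∑ i ∈ I, ((T.filter fun t => Sol S L B i.1 i.2.1 i.2.2 t).card : ℝ) ≤ ∑ _i ∈ I, M :=
        Finset.sum_le_sum fun i _ => hM i.1 i.2.1 i.2.2 _ fun t ht => (Finset.mem_filter.1 ht).2
    _ = ((L : ℝ) + 1) ^ 3 * M := by
        rw [Finset.sum_const, hI, Finset.card_product, Finset.card_product, Finset.card_range,
          nsmul_eq_mul]
        push_cast; ring

/-- from finite subsets to the whole set -/
lemma ncard_le {α : Type} (s : Set α) (c : ℝ) (h : ∀ T : Finset α, (∀ t ∈ T, t ∈ s) →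
    (T.card : ℝ) ≤ c) : s.Finite ∧ (s.ncard : ℝ) ≤ c := by
  have hf : s.Finite := by
    by_contra hinf
    obtain ⟨n, hn⟩ := exists_nat_gt c
    obtain ⟨T, hT, hc⟩ := Set.Infinite.exists_subset_card_eq (s := s) hinf n
    have := h T fun t ht => hT (Finset.mem_coe.2 ht)
    rw [hc] at this
    linarith
  refine ⟨hf, ?_⟩
  have := h hf.toFinset fun t ht => hf.mem_toFinset.1 ht
  rwa [← Set.ncard_eq_toFinset_card s hf] at this

end Run7.h603.Fp
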