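import Pool.Agent.Run7.h603.Fp4

set_option autoImplicit false

/-!
# Componentwise products of solutions of `X + Y = Z`
-/

namespace Run7.h603.Fp

open Finset Pool.Agent.N811.IS
open scoped Pointwise

/-- componentwise products of `N` elements of a set of triples -/
def prT (N : ℕ) (T : Finset (ℤ × ℤ × ℤ)) : Finset (ℤ × ℤ × ℤ) :=
  (Fintype.piFinset fun _ : Fin N => T).image fun f => ∏ i, f i

lemma mem_prT {N : ℕ} {T : Finset (ℤ × ℤ × ℤ)} {f : Fin N → ℤ × ℤ × ℤ} (h : ∀ i, f i ∈ T) :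
    ∏ i, f i ∈ prT N T :=
  Finset.mem_image.2 ⟨f, Fintype.mem_piFinset.2 h, rfl⟩

lemma prT_mono {N : ℕ} {X Y : Finset (ℤ × ℤ × ℤ)} (h : X ⊆ Y) : prT N X ⊆ prT N Y := by
  intro z hz
  obtain ⟨f, hf, rfl⟩ := Finset.mem_image.1 hz
  exact mem_prT fun i => h (Fintype.mem_piFinset.1 hf i)

/-- the element of the group given by a triple -/
noncomputable def Psi (N : ℕ) (t : ℤ × ℤ × ℤ) : GG :=
  ((Additive.ofMul (uq t.2.1 / uq t.2.2), Additive.ofMul (uq ((-1) ^ N * t.2.1) / uq t.1)), 0)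

/-- **Solutions of `X + Y = Z` have many products.** -/
theorem triples_low {N : ℕ} (hN : 2 ≤ N) (T : Finset (ℤ × ℤ × ℤ)) (hT : T.Nonempty)
    (h : ∀ t ∈ T, t.1 + t.2.1 = t.2.2 ∧ t.1 ≠ 0 ∧ t.2.1 ≠ 0 ∧ t.2.2 ≠ 0 ∧ IsCoprime t.1 t.2.1) :
    ((T.card : ℝ) / 4) ^ ex N ≤ (prT N T).card := by
  classical
  set cls : ℤ × ℤ × ℤ → Bool × Bool := fun t => (decide (0 < t.1), decide (0 < t.2.2)) with hcls
  obtain ⟨b, -, hb⟩ := Finset.exists_max_image (Finset.univ : Finset (Bool × Bool))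
    (fun b => (T.filter fun t => cls t = b).card) ⟨(true, true), Finset.mem_univ _⟩
  have hsum : T.card = ∑ b : Bool × Bool, (T.filter fun t => cls t = b).card :=
    Finset.card_eq_sum_card_fiberwise fun t _ => Finset.mem_coe.2 (Finset.mem_univ _)
  have h4 : T.card ≤ 4 * (T.filter fun t => cls t = b).card := by
    rw [hsum]
    calc ∑ b : Bool × Bool, (T.filter fun t => cls t = b).card
        ≤ ∑ _b : Bool × Bool, (T.filter fun t => cls t = b).card :=
          Finset.sum_le_sum fun c _ => hb c (Finset.mem_univ c)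
      _ = _ := by
          rw [Finset.sum_const]
          simp
  set T' := T.filter fun t => cls t = b with hT'
  have hsub : ∀ t ∈ T', t ∈ T := fun t ht => (Finset.mem_filter.1 ht).1
  have hT'n : T'.Nonempty := by
    rw [← Finset.card_pos]
    have := hT.card_pos
    omega
  set σ : ℤ := sg b.1 * sg b.2 with hσ
  have hσ1 : σ = 1 ∨ σ = -1 := by
    rcases sg_or b.1 with h1 | h1 <;> rcases sg_or b.2 with h2 | h2 <;> rw [hσ, h1, h2] <;> simp
  have hform : ∀ t ∈ T', t.1 = sg b.1 * |t.1| ∧ t.2.2 = sg b.2 * |t.2.2| := by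
    intro t ht
    obtain ⟨h1, h2⟩ := Finset.mem_filter.1 ht
    obtain ⟨-, hx, -, hz, -⟩ := h t h1
    have e1 : b.1 = decide (0 < t.1) := by rw [← h2]
    have e2 : b.2 = decide (0 < t.2.2) := by rw [← h2]
    exact ⟨by rw [e1]; exact sg_abs hx, by rw [e2]; exact sg_abs hz⟩
  have hsq : ∀ c : Bool, sg c * sg c = 1 := by
    intro c
    rcases sg_or c with h1 | h1 <;> rw [h1] <;> norm_num
  have hs0 : ∀ c : Bool, sg c ≠ 0 := by
    intro c
    rcases sg_or c with h1 | h1 <;> rw [h1] <;> norm_num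
  have hX : ∀ t ∈ T', |t.1| = sg b.1 * t.1 := by
    intro t ht
    calc |t.1| = (sg b.1 * sg b.1) * |t.1| := by rw [hsq, one_mul]
      _ = sg b.1 * (sg b.1 * |t.1|) := by ring
      _ = _ := by rw [← (hform t ht).1]
  have hZ : ∀ t ∈ T', |t.2.2| = sg b.2 * t.2.2 := by
    intro t ht
    calc |t.2.2| = (sg b.2 * sg b.2) * |t.2.2| := by rw [hsq, one_mul]
      _ = sg b.2 * (sg b.2 * |t.2.2|) := by ring
      _ = _ := by rw [← (hform t ht).2]
  have hY : ∀ t ∈ T', |t.2.2| - σ * |t.1| = sg b.2 * t.2.1 := by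
    intro t ht
    have e3 : t.2.1 = t.2.2 - t.1 := by linarith [(h t (hsub t ht)).1]
    rw [hZ t ht, hX t ht, e3, hσ]
    linear_combination (-(sg b.2 * t.1)) * hsq b.1
  set F : ℤ × ℤ × ℤ → (Fin 2 → ℤ) := fun t => ![|t.1|, |t.2.2|] with hF
  have hinj : Set.InjOn F T' := by
    intro t ht u hu htu
    obtain ⟨e1, e2⟩ := hform t ht
    obtain ⟨f1, f2⟩ := hform u hu
    have g1 : |t.1| = |u.1| := congrFun htu 0
    have g2 : |t.2.2| = |u.2.2| := congrFun htu 1
    have k1 : t.1 = u.1 := by rw [e1, f1, g1]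
    have k2 : t.2.2 = u.2.2 := by rw [e2, f2, g2]
    have k3 : t.2.1 = u.2.1 := by
      have := (h t (hsub t ht)).1
      have := (h u (hsub u hu)).1
      linarith
    exact Prod.ext k1 (Prod.ext k3 k2)
  have hcard : (T'.image F).card = T'.card := Finset.card_image_of_injOn hinj
  have hpos : ∀ f ∈ T'.image F, ∀ k, 0 < f k := fun f hf k => by
    obtain ⟨t, ht, rfl⟩ := Finset.mem_image.1 hf
    obtain ⟨-, hx, -, hz, -⟩ := h t (hsub t ht)
    fin_cases k
    · show 0 < |t.1|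
      exact abs_pos.2 hx
    · show 0 < |t.2.2|
      exact abs_pos.2 hz
  have hgood : ∀ f ∈ T'.image F, Good σ f := fun f hf => by
    obtain ⟨t, ht, rfl⟩ := Finset.mem_image.1 hf
    obtain ⟨he, hx, hy, hz, hc⟩ := h t (hsub t ht)
    refine ⟨?_, ?_⟩
    · show IsCoprime |t.1| |t.2.2|
      have h2 : IsCoprime t.1 t.2.2 := by
        have := hc.add_mul_left_right 1
        rwa [mul_one, add_comm, he] at this
      rw [Int.isCoprime_iff_gcd_eq_one] at h2 ⊢
      show Nat.gcd (|t.1|).natAbs (|t.2.2|).natAbs = 1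
      rw [Int.natAbs_abs, Int.natAbs_abs]
      exact h2
    · show |t.2.2| - σ * |t.1| ≠ 0
      rw [hY t ht]
      exact mul_ne_zero (hs0 _) hy
  -- the image of a triple in the group
  have hphi : ∀ t ∈ T', phi σ (F t) =
      ((Additive.ofMul (uq t.2.1 / uq t.2.2), Additive.ofMul (uq (-1 * t.2.1) / uq t.1)), 0) := by
    intro t ht
    obtain ⟨he, hx, hy, hz, hc⟩ := h t (hsub t ht)
    unfold phi
    rw [if_pos (hgood _ (Finset.mem_image_of_mem F ht))]
    have e1 : g1 σ (F t) = uq t.2.1 / uq t.2.2 := by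
      show uq (|t.2.2| - σ * |t.1|) / uq |t.2.2| = _
      rw [hY t ht, hZ t ht, uq_mul (hs0 _) hy, uq_mul (hs0 _) hz, mul_div_mul_left_eq_div]
    have e2 : g2 σ (F t) = uq (-1 * t.2.1) / uq t.1 := by
      show uq (-σ * (|t.2.2| - σ * |t.1|)) / uq |t.1| = _
      rw [hY t ht, hX t ht]
      have : -σ * (sg b.2 * t.2.1) = sg b.1 * (-1 * t.2.1) := by
        rw [hσ]
        linear_combination (-(sg b.1 * t.2.1)) * hsq b.2
      rw [this, uq_mul (hs0 _) (mul_ne_zero (by norm_num) hy), uq_mul (hs0 _) hx,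
        mul_div_mul_left_eq_div]
    rw [e1, e2]
  have hlow := low (Fph σ hσ1) (phi_inj σ hσ1) hN (T'.image F) (hT'n.image F)
    fun a ha => hpos a ha
  have hA : (ksum N ((T'.image F).image (phi σ))).card ≤ (prT N T').card := by
    refine (Finset.card_le_card ?_).trans (Finset.card_image_le (s := prT N T') (f := Psi N))
    intro z hz
    unfold ksum at hz
    obtain ⟨q, hq, rfl⟩ := Finset.mem_image.1 hz
    rw [Fintype.mem_piFinset] at hq
    have hch : ∀ i, ∃ t ∈ T', phi σ (F t) = q i := by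
      intro i
      obtain ⟨a, ha, hai⟩ := Finset.mem_image.1 (hq i)
      obtain ⟨t, ht, rfl⟩ := Finset.mem_image.1 ha
      exact ⟨t, ht, hai⟩
    choose t ht htq using hch
    have hne1 : ∀ i, (t i).1 ≠ 0 := fun i => (h _ (hsub _ (ht i))).2.1
    have hne2 : ∀ i, (t i).2.1 ≠ 0 := fun i => (h _ (hsub _ (ht i))).2.2.1
    have hne3 : ∀ i, (t i).2.2 ≠ 0 := fun i => (h _ (hsub _ (ht i))).2.2.2.1
    refine Finset.mem_image.2 ⟨∏ i, t i, mem_prT ht, ?_⟩
    have hq' : ∀ i, q i = ((Additive.ofMul (uq (t i).2.1 / uq (t i).2.2),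
        Additive.ofMul (uq (-1 * (t i).2.1) / uq (t i).1)), 0) := fun i => by
      rw [← htq i, hphi _ (ht i)]
    unfold Psi
    rw [Finset.sum_congr rfl fun i _ => hq' i]
    have f1 : (∏ i, t i).1 = ∏ i, (t i).1 := Prod.fst_prod
    have f2 : (∏ i, t i).2.1 = ∏ i, (t i).2.1 := by rw [Prod.snd_prod, Prod.fst_prod]
    have f3 : (∏ i, t i).2.2 = ∏ i, (t i).2.2 := by rw [Prod.snd_prod, Prod.snd_prod]
    rw [f1, f2, f3]
    have hYp : ∏ i, (t i).2.1 ≠ 0 := Finset.prod_ne_zero_iff.2 fun i _ => hne2 i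
    refine Prod.ext (Prod.ext ?_ ?_) ?_
    · rw [Prod.fst_sum, Prod.fst_sum]
      simp only
      rw [← ofMul_prod]
      congr 1
      rw [Finset.prod_div_distrib, uq_prod _ hne2, uq_prod _ hne3]
    · rw [Prod.fst_sum, Prod.snd_sum]
      simp only
      rw [← ofMul_prod]
      congr 1
      rw [Finset.prod_div_distrib, uq_prod _ hne1,
        uq_mul (pow_ne_zero _ (by norm_num)) hYp, uq_prod _ hne2,
        Finset.prod_congr rfl fun i _ => uq_mul (show (-1 : ℤ) ≠ 0 by norm_num) (hne2 i),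
        Finset.prod_mul_distrib]
      congr 2
      rw [Finset.prod_const, Finset.card_univ, Fintype.card_fin]
      have := uq_prod (N := N) (fun _ => (-1 : ℤ)) fun _ => by norm_num
      rw [Finset.prod_const, Finset.prod_const, Finset.card_univ, Fintype.card_fin] at this
      exact this
    · rw [Prod.snd_sum]
      simp
  have hB : (prodset fun _ : Fin N => T'.image F).card ≤ (prT N T').card := by
    refine (Finset.card_le_card ?_).trans (Finset.card_image_le (s := prT N T') (f := F))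
    intro z hz
    obtain ⟨g, hg, rfl⟩ := (mem_prodset _ _).1 hz
    have hch : ∀ i, ∃ t ∈ T', F t = g i := fun i => Finset.mem_image.1 (hg i)
    choose t ht htg using hch
    refine Finset.mem_image.2 ⟨∏ i, t i, mem_prT ht, ?_⟩
    funext k
    rw [Finset.prod_apply]
    have f1 : (∏ i, t i).1 = ∏ i, (t i).1 := Prod.fst_prod
    have f3 : (∏ i, t i).2.2 = ∏ i, (t i).2.2 := by rw [Prod.snd_prod, Prod.snd_prod]
    fin_cases k
    · show |(∏ i, t i).1| = ∏ i, g i 0
      rw [f1, Finset.abs_prod]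
      exact Finset.prod_congr rfl fun i _ => by rw [← htg i]; rfl
    · show |(∏ i, t i).2.2| = ∏ i, g i 1
      rw [f3, Finset.abs_prod]
      exact Finset.prod_congr rfl fun i _ => by rw [← htg i]; rfl
  have hmono : (prT N T').card ≤ (prT N T).card :=
    Finset.card_le_card (prT_mono (Finset.filter_subset _ _))
  rw [hcard] at hlow
  have hstep : (T'.card : ℝ) ^ ex N ≤ (prT N T).card := by
    refine hlow.trans (max_le ?_ ?_)
    · exact_mod_cast hA.trans hmono
    · exact_mod_cast hB.trans hmono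
  refine le_trans (Real.rpow_le_rpow (by positivity) ?_ (ex_nonneg hN)) hstep
  have : (T.card : ℝ) ≤ 4 * T'.card := by exact_mod_cast h4
  linarith

end Run7.h603.Fp
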