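import Pool.Agent.Run7.h603.Walk
import Pool.Agent.Y128.WD.DS

/-!
# The coloring axiom for trees and the weak diamond
-/

set_option autoImplicit false

open Set

namespace Run7.h603

/-- `g` is constant on a tail of `E ∩ δ` -/
def EvConst {F : Type} (E : Set Om) (δ : Om) (g : Om → F) : Prop :=
  ∃ ξ < δ, ∃ x : F, ∀ α ∈ E, ξ < α → α < δ → g α = x

theorem EvConst.map2 {F G H : Type} {E : Set Om} {δ : Om} {g : Om → F} {g' : Om → G}
    (h : EvConst E δ g) (h' : EvConst E δ g') (f : F → G → H) :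
    EvConst E δ (fun α => f (g α) (g' α)) := by
  obtain ⟨ξ, h1, x, h2⟩ := h
  obtain ⟨ξ', h1', x', h2'⟩ := h'
  refine ⟨max ξ ξ', max_lt h1 h1', f x x', fun α hα h3 h4 => ?_⟩
  show f (g α) (g' α) = _
  rw [h2 α hα ((le_max_left _ _).trans_lt h3) h4, h2' α hα ((le_max_right _ _).trans_lt h3) h4]

theorem EvConst.congr {F : Type} {E : Set Om} {δ : Om} {g g' : Om → F}
    (h : EvConst E δ g) (h' : ∃ ξ < δ, ∀ α ∈ E, ξ < α → α < δ → g α = g' α) :
    EvConst E δ g' := by
  obtain ⟨ξ, h1, x, h2⟩ := h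
  obtain ⟨ξ', h1', h2'⟩ := h'
  refine ⟨max ξ ξ', max_lt h1 h1', x, fun α hα h3 h4 => ?_⟩
  rw [← h2' α hα ((le_max_right _ _).trans_lt h3) h4]
  exact h2 α hα ((le_max_left _ _).trans_lt h3) h4

theorem EvConst.const {F : Type} {E : Set Om} {δ : Om} (hδ : Order.IsSuccLimit δ) (x : F) :
    EvConst E δ (fun _ => x) :=
  ⟨⊥, bot_lt_iff_ne_bot.2 hδ.ne_bot, x, fun _ _ _ _ => rfl⟩

/-! ### The weak diamond on `Om` -/

theorem mk_Om : Cardinal.mk Om = Cardinal.aleph 1 := by
  show Cardinal.mk (Ordinal.omega.{0} 1).ToType = _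
  rw [Cardinal.mk_toType]
  exact Ordinal.card_omega 1

theorem weakDiamond_Om (hwd : (2 : Cardinal.{0}) ^ Cardinal.aleph0.{0} <
    2 ^ Cardinal.aleph.{0} 1) {V : Type} (v : V ↪ (ℕ → Bool)) (F : Om → (Om → V) → Bool)
    (hF : ∀ (δ : Om) (h h' : Om → V), (∀ x, x < δ → h x = h' x) → F δ h = F δ h') :
    ∃ g : Om → Bool, ∀ (h : Om → V) (E : Set Om), IsClub E → ∃ δ ∈ E, F δ h ≠ g δ := by
  have hcof : Cardinal.aleph0 < Order.cof Om := by
    rw [Om.cof_eq]
    exact Cardinal.aleph0_lt_aleph_one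
  have he : ∀ δ : Om, Nonempty ({β : Om // β < δ} ↪ ℕ) := fun δ => by
    have : Countable {β : Om // β < δ} := Om.countable_Iio δ
    exact ⟨⟨_, (exists_injective_nat {β : Om // β < δ}).choose_spec⟩⟩
  have ha : Nonempty (Om ↪ (ℕ → Bool)) := by
    rw [← Cardinal.le_def, mk_Om]
    have : Cardinal.mk (ℕ → Bool) = 2 ^ Cardinal.aleph0.{0} := by simp
    rw [this]
    have h1 : Cardinal.aleph 1 = Order.succ Cardinal.aleph0 := by rw [← Cardinal.succ_aleph0]
    rw [h1]
    exact Order.succ_le_of_lt (Cardinal.cantor _)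
  obtain ⟨a⟩ := ha
  refine Pool.Agent.Y128.WD.weak_diamond (K := ℕ) hcof
    (fun f hf => IsClub.iInter_of_countable Om.cof_ne hf) (fun δ => (he δ).some) a v ?_ F hF
  refine ⟨fun f => ?_⟩
  have h1 := Cardinal.mk_le_of_injective f.injective
  have h2 : Cardinal.mk (Om → Bool) = 2 ^ Cardinal.aleph.{0} 1 := by
    rw [Cardinal.mk_pi, Cardinal.prod_const', mk_Om]
    simp
  have h3 : Cardinal.mk (ℕ → Bool) = 2 ^ Cardinal.aleph0.{0} := by simp
  rw [h2, h3] at h1
  exact absurd hwd (not_lt.2 h1)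

variable {A : Type} [AddCommGroup A]

/-- the weights attached to a function `f` and a family `c` -/
noncomputable def wt (c : Om → Om → A) (f : Om → Bool) (γ α : Om) : A :=
  if f γ = true then c γ α else 0

omit [AddCommGroup A] in
theorem exists_code [Countable A] : Nonempty ((Bool × Bool × (ℕ → A)) ↪ (ℕ → Bool)) := by
  obtain ⟨ι, hι⟩ := exists_injective_nat A
  let F : Bool × Bool × (ℕ → A) → ℕ → Bool := fun v n =>
    match n with
    | 0 => v.1
    | 1 => v.2.1
    | n + 2 => decide (ι (v.2.2 n.unpair.1) = n.unpair.2)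
  refine ⟨⟨F, fun u v huv => ?_⟩⟩
  have h0 : u.1 = v.1 := congrFun huv 0
  have h1 : u.2.1 = v.2.1 := congrFun huv 1
  have h2 : u.2.2 = v.2.2 := by
    funext i
    have h3 := congrFun huv (Nat.pair i (ι (u.2.2 i)) + 2)
    have h4 : decide (ι (u.2.2 (Nat.unpair (Nat.pair i (ι (u.2.2 i)))).1) =
        (Nat.unpair (Nat.pair i (ι (u.2.2 i)))).2) =
      decide (ι (v.2.2 (Nat.unpair (Nat.pair i (ι (u.2.2 i)))).1) =
        (Nat.unpair (Nat.pair i (ι (u.2.2 i)))).2) := h3
    rw [Nat.unpair_pair] at h4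
    simp only [decide_true] at h4
    exact hι (of_decide_eq_true h4.symm).symm
  exact Prod.ext h0 (Prod.ext h1 h2)

/-- the main theorem on `Om`, for a sequence of families with values in a finite group -/
theorem CATL.guess_seq (hC : CATL) (hwd : (2 : Cardinal.{0}) ^ Cardinal.aleph0.{0} <
    2 ^ Cardinal.aleph.{0} 1) [Finite A] (c : ℕ → Om → Om → A)
    (hc : ∀ n δ, ∀ β < δ, ContOn β (c n δ)) :
    ∃ E : Set Om, IsClub E ∧
      IsStationary {δ | δ ∈ Om.limPts E ∧ ∀ n, EvConst E δ (c n δ)} := by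
  classical
  obtain ⟨nx, hn⟩ := exists_step
  -- the weak diamond
  let P : Om → (Om → Bool × Bool × (ℕ → A)) → Prop := fun δ h => ∀ n,
    EvConst {α | (h α).2.1 = true} δ
      (fun α => (h α).2.2 n + walk nx (wt (c n) (fun β => (h β).1)) α (nx δ α))
  obtain ⟨v⟩ := exists_code (A := A)
  obtain ⟨g, hg⟩ := weakDiamond_Om hwd v (fun δ h => decide (P δ h)) (by
    intro δ h h' hh
    have hiff : P δ h ↔ P δ h' := by
      have aux : ∀ h h' : Om → Bool × Bool × (ℕ → A), (∀ x, x < δ → h x = h' x) → P δ h →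
          P δ h' := by
        intro h h' hh hP n
        obtain ⟨ξ, h1, x, h2⟩ := hP n
        refine ⟨ξ, h1, x, fun α hα hξα hαδ => ?_⟩
        have hα' : α ∈ {α | (h α).2.1 = true} := by
          show (h α).2.1 = true
          rw [hh α hαδ]
          exact hα
        have h3 := h2 α hα' hξα hαδ
        simp only at h3 ⊢
        rw [← hh α hαδ, ← h3]
        congr 1
        refine (walk_congr hn (δ := δ) (fun γ hγ β _ => ?_) α (nx δ α) (hn.lt hαδ)).symm
        show (if (h γ).1 = true then c n γ β else 0) = if (h' γ).1 = true then c n γ β else 0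
        rw [hh γ hγ]
      exact ⟨aux h h' hh, aux h' h fun x hx => (hh x hx).symm⟩
    exact decide_eq_decide.2 hiff)
  -- the cocycles
  let f : Om → Bool := fun δ => !(g δ)
  have hw : ∀ n γ, ∀ β < γ, ContOn β (wt (c n) f γ) := by
    intro n γ β hβ
    unfold wt
    by_cases hf : f γ = true
    · simp only [hf, if_true]
      exact hc n γ β hβ
    · rw [Bool.not_eq_true] at hf
      simp only [hf]
      exact contOn_const 0
  have hcoc : ∀ n, ∃ E : Set Om, IsClub E ∧ ∃ κ : Om → A, ∀ δ ∈ E, Order.IsSuccLimit δ →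
      ∃ ξ < δ, ∀ α ∈ E, ξ < α → α < δ → walk nx (wt (c n) f) α δ = κ δ - κ α := fun n =>
    hC.cocycle_om (a := fun α γ => walk nx (wt (c n) f) α γ)
      (fun t => walk_self _ t) (walk_cont hn (hw n))
  choose E' hE' κ hκ' using hcoc
  let E : Set Om := ⋂ n, E' n
  have hE : IsClub E := IsClub.iInter_of_countable Om.cof_ne hE'
  have hEn : ∀ n, E ⊆ E' n := fun n => iInter_subset E' n
  refine ⟨E, hE, fun D hD => ?_⟩
  let h : Om → Bool × Bool × (ℕ → A) := fun α => (f α, decide (α ∈ E), fun n => κ n α)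
  obtain ⟨δ, hδ, hne⟩ := hg h (D ∩ Om.limPts E) (hD.inter Om.cof_ne (Om.isClub_limPts hE))
  refine ⟨δ, ⟨hδ.2, ?_⟩, hδ.1⟩
  have hlim : Order.IsSuccLimit δ := hδ.2.1
  have hκ : ∀ n, ∃ ξ < δ, ∀ α ∈ E, ξ < α → α < δ → walk nx (wt (c n) f) α δ = κ n δ - κ n α := by
    intro n
    obtain ⟨ξ, h1, h2⟩ := hκ' n δ (hEn n (Om.limPts_subset hE hδ.2)) hlim
    exact ⟨ξ, h1, fun α hα => h2 α (hEn n hα)⟩
  have hEset : {α | (h α).2.1 = true} = E := by
    ext α
    show decide (α ∈ E) = true ↔ α ∈ E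
    simp
  have hPdef : P δ h ↔ ∀ n, EvConst E δ (fun α => κ n α + walk nx (wt (c n) f) α (nx δ α)) := by
    show (∀ n, EvConst {α | (h α).2.1 = true} δ _) ↔ _
    rw [hEset]
  have hwalk : ∀ n, ∀ α < δ, walk nx (wt (c n) f) α δ =
      wt (c n) f δ α + walk nx (wt (c n) f) α (nx δ α) :=
    fun n α hα => walk_lt hn _ hα
  -- the sums are constant
  have hsum : ∀ n, EvConst E δ
      (fun α => wt (c n) f δ α + (κ n α + walk nx (wt (c n) f) α (nx δ α))) := by
    intro n
    obtain ⟨ξ, h1, h2⟩ := hκ n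
    refine ⟨ξ, h1, κ n δ, fun α hα h3 h4 => ?_⟩
    have h5 := h2 α hα h3 h4
    rw [hwalk n α h4] at h5
    show wt (c n) f δ α + (κ n α + walk nx (wt (c n) f) α (nx δ α)) = κ n δ
    rw [add_left_comm, h5]
    abel
  cases hfd : f δ with
  | false =>
    exfalso
    have hw0 : ∀ n α, wt (c n) f δ α = 0 := by
      intro n α
      unfold wt
      rw [hfd]
      simp
    have hP : P δ h := by
      rw [hPdef]
      intro n
      refine (hsum n).congr ⟨⊥, bot_lt_iff_ne_bot.2 hlim.ne_bot, fun α _ _ _ => ?_⟩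
      rw [hw0, zero_add]
    have hgd : g δ = true := by
      have : (!(g δ)) = false := hfd
      simpa using this
    apply hne
    rw [hgd]
    exact decide_eq_true hP
  | true =>
    have hgd : g δ = false := by
      have : (!(g δ)) = true := hfd
      simpa using this
    have hP : P δ h := by
      by_contra hP
      apply hne
      rw [hgd]
      exact decide_eq_false hP
    rw [hPdef] at hP
    intro n
    refine ((hsum n).map2 (hP n) (fun x y => x - y)).congr
      ⟨⊥, bot_lt_iff_ne_bot.2 hlim.ne_bot, fun α _ _ _ => ?_⟩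
    have : wt (c n) f δ α = c n δ α := by
      unfold wt
      rw [hfd]
      simp
    rw [← this]
    abel

/-- version for clopen sets -/
theorem CATL.clopen (hC : CATL) (hwd : (2 : Cardinal.{0}) ^ Cardinal.aleph0.{0} <
    2 ^ Cardinal.aleph.{0} 1) (X : Om → ℕ → Set Om)
    (hX : ∀ δ n, ∀ β < δ, Order.IsSuccLimit β →
      ∃ ξ < β, ∀ α, ξ < α → α < β → (α ∈ X δ n ↔ β ∈ X δ n)) :
    ∃ E : Set Om, IsClub E ∧ IsStationary {δ | δ ∈ Om.limPts E ∧ ∀ n, ∃ ξ < δ,
      (∀ α ∈ E, ξ < α → α < δ → α ∈ X δ n) ∨ (∀ α ∈ E, ξ < α → α < δ → α ∉ X δ n)} := by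
  classical
  obtain ⟨E, hE, hst⟩ := hC.guess_seq hwd (A := ZMod 2)
    (fun n δ α => if α ∈ X δ n then 1 else 0) (by
      intro n δ β hβ β' hβ' hl
      obtain ⟨ξ, h1, h2⟩ := hX δ n β' (hβ'.trans_lt hβ) hl
      refine ⟨ξ, h1, fun α h3 h4 => ?_⟩
      simp only [h2 α h3 h4])
  refine ⟨E, hE, hst.mono ?_⟩
  rintro δ ⟨hδ, h⟩
  refine ⟨hδ, fun n => ?_⟩
  obtain ⟨ξ, h1, x, h2⟩ := h n
  refine ⟨ξ, h1, ?_⟩
  by_cases hx : x = 1
  · left
    intro α hα h3 h4
    have h5 := h2 α hα h3 h4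
    by_contra hc
    simp only [hc, if_false] at h5
    rw [hx] at h5
    exact absurd h5 (by decide)
  · right
    intro α hα h3 h4 hc
    have h5 := h2 α hα h3 h4
    simp only [hc, if_true] at h5
    exact hx h5.symm

end Run7.h603
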