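import Pool.Agent.Run7.h603.EO

/-!
# The Lipschitz dichotomy implies the coloring axiom for trees
-/

set_option autoImplicit false

open Set

namespace Run7.h603

variable {T : Type} [PartialOrder T] {lev : T → Om}

theorem LDL.step (hLD : LDL) (h : IsAron lev) {P : Set T} (hP : ¬ P.Countable) (K : Set T) :
    ∃ A ⊆ P, ¬ A.Countable ∧
      ((∀ x ∈ A, ∀ y ∈ A, ¬ x ≤ y → ¬ y ≤ x → ∀ r, IsGLB {x, y} r → r ∈ K) ∨
        (∀ x ∈ A, ∀ y ∈ A, ¬ x ≤ y → ¬ y ≤ x → ∀ r, IsGLB {x, y} r → r ∉ K)) := by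
  have hR0 := RT.isAron h (isTiming_tmg h.toIsLev K)
  have hR1 := RT.isAron h (isTiming_tmg h.toIsLev Kᶜ)
  have hinj : Function.Injective (emb h.toIsLev K) := fun s t hst => congrArg RT.nd hst
  obtain ⟨E, hED, hE, hhom⟩ := hLD (RT (tmg lev K)) (RT (tmg lev Kᶜ)) RT.tm RT.tm hR0 hR1
    (emb h.toIsLev K '' P) (fun p => emb h.toIsLev Kᶜ p.nd)
    (fun hc => hP (countable_of_injective_of_countable_image hinj.injOn hc))
    (by
      rintro _ ⟨t, -, rfl⟩
      rfl)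
  refine ⟨emb h.toIsLev K ⁻¹' E, ?_, ?_, ?_⟩
  · intro t ht
    obtain ⟨s, hs, h1⟩ := hED ht
    rw [← hinj h1]
    exact hs
  · intro hc
    refine hE ((hc.image (emb h.toIsLev K)).mono ?_)
    intro p hp
    obtain ⟨t, -, rfl⟩ := hED hp
    exact ⟨t, hp, rfl⟩
  · rcases hhom with hhom | hhom
    · left
      intro x hx y hy hxy hyx r hr
      obtain ⟨m, m', hm, hm', hle⟩ := hhom _ hx _ hy
      obtain ⟨μ, hμ, hμ'⟩ := exists_glb_emb h.toIsLev K hr
      obtain ⟨ν, hν, hν'⟩ := exists_glb_emb h.toIsLev Kᶜ hr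
      have e1 : m = μ := hm.unique hμ
      have e2 : m' = ν := hm'.unique hν
      subst e1
      subst e2
      by_contra hrK
      rcases hμ' with ⟨h1, -⟩ | ⟨-, -, h1⟩
      · exact h1.elim hxy hyx
      rcases hν' with ⟨h2, -⟩ | ⟨-, -, h2⟩
      · exact h2.elim hxy hyx
      rw [tmg_neg hrK] at h1
      rw [tmg_pos (show r ∈ Kᶜ from hrK)] at h2
      rw [Order.succ_injective h1, Order.succ_injective h2] at hle
      exact absurd hle (not_le.2 (Order.lt_succ _))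
    · right
      intro x hx y hy hxy hyx r hr
      obtain ⟨m, m', hm, hm', hle⟩ := hhom _ hx _ hy
      obtain ⟨μ, hμ, hμ'⟩ := exists_glb_emb h.toIsLev K hr
      obtain ⟨ν, hν, hν'⟩ := exists_glb_emb h.toIsLev Kᶜ hr
      have e1 : m = μ := hm.unique hμ
      have e2 : m' = ν := hm'.unique hν
      subst e1
      subst e2
      intro hrK
      rcases hμ' with ⟨h1, -⟩ | ⟨-, -, h1⟩
      · exact h1.elim hxy hyx
      rcases hν' with ⟨h2, -⟩ | ⟨-, -, h2⟩
      · exact h2.elim hxy hyx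
      rw [tmg_pos hrK] at h1
      rw [tmg_neg (show r ∉ Kᶜ from fun hc => hc hrK)] at h2
      rw [Order.succ_injective h1, Order.succ_injective h2] at hle
      exact absurd hle (not_le.2 (Order.lt_succ _))

/-- the splitting nodes -/
def Spl (T : Type) [PartialOrder T] : Set T :=
  {r | ∃ x y : T, ¬ x ≤ y ∧ ¬ y ≤ x ∧ IsGLB {x, y} r}

/-- splitting nodes of alternating parity -/
noncomputable def altFn (lev : T → Om) : T → Prop :=
  WellFounded.fix (InvImage.wf lev (wellFounded_lt (α := Om))) fun r rec =>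
    ∃ q, ∃ hq : InvImage (· < ·) lev q r, q < r ∧ q ∈ Spl T ∧ (∀ q', q < q' → q' < r → q' ∉ Spl T) ∧
      ¬ rec q hq

theorem altFn_iff (h : IsLev lev) (r : T) : altFn lev r ↔ ∃ q, q < r ∧ q ∈ Spl T ∧
    (∀ q', q < q' → q' < r → q' ∉ Spl T) ∧ ¬ altFn lev q := by
  unfold altFn
  rw [WellFounded.fix_eq]
  constructor
  · rintro ⟨q, _, h1, h2, h3, h4⟩
    exact ⟨q, h1, h2, h3, h4⟩
  · rintro ⟨q, h1, h2, h3, h4⟩
    exact ⟨q, h.mono h1, h1, h2, h3, h4⟩

/-- if every node has incomparable extensions then there are splitting nodes of both kinds above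
every node -/
theorem exists_alt (h : IsLev lev) (hsp : ∀ s : T, ∃ r ∈ Spl T, s < r) (s : T) :
    (∃ r ∈ Spl T, s ≤ r ∧ altFn lev r) ∧ (∃ r ∈ Spl T, s ≤ r ∧ ¬ altFn lev r) := by
  obtain ⟨r1, hr1, hs1⟩ := hsp s
  have hne : {a : Om | ∃ r ∈ Spl T, r1 < r ∧ lev r = a}.Nonempty := by
    obtain ⟨r, hr, h1⟩ := hsp r1
    exact ⟨lev r, r, hr, h1, rfl⟩
  obtain ⟨a, ⟨r2, hr2, h12, h2a⟩, hmin⟩ : ∃ a ∈ {a : Om | ∃ r ∈ Spl T, r1 < r ∧ lev r = a},
      ∀ b < a, b ∉ {a : Om | ∃ r ∈ Spl T, r1 < r ∧ lev r = a} :=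
    ⟨WellFounded.min wellFounded_lt _ hne, WellFounded.min_mem wellFounded_lt _ hne,
      fun b hb hb2 => WellFounded.not_lt_min wellFounded_lt _ hb2 hb⟩
  have hbetw : ∀ q', r1 < q' → q' < r2 → q' ∉ Spl T := by
    intro q' h3 h4 h5
    refine hmin (lev q') ?_ ⟨q', h5, h3, rfl⟩
    rw [← h2a]
    exact h.mono h4
  have key : altFn lev r2 ↔ ¬ altFn lev r1 := by
    rw [altFn_iff h r2]
    constructor
    · rintro ⟨q, h3, h4, h5, h6⟩
      have : q = r1 := by
        rcases h.comp h3.le h12.le with h7 | h7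
        · rcases h7.lt_or_eq with h8 | h8
          · exact absurd hr1 (h5 r1 h8 h12)
          · exact h8
        · rcases h7.lt_or_eq with h8 | h8
          · exact absurd h4 (hbetw q h8 h3)
          · exact h8.symm
      rw [← this]
      exact h6
    · intro h3
      exact ⟨r1, h12, hr1, hbetw, h3⟩
  by_cases h3 : altFn lev r1
  · exact ⟨⟨r1, hr1, hs1.le, h3⟩, ⟨r2, hr2, (hs1.trans h12).le, fun hc => key.1 hc h3⟩⟩
  · exact ⟨⟨r2, hr2, (hs1.trans h12).le, key.2 h3⟩, ⟨r1, hr1, hs1.le, h3⟩⟩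

/-- a tree without uncountable antichain whose cones are all uncountable does not satisfy the
conclusion of `LDL.step` -/
theorem LDL.not_suslin (hLD : LDL) (h : IsAron lev)
    (hcone : ∀ t : T, ∀ a, lev t ≤ a → ∃ s, t ≤ s ∧ lev s = a)
    (hanti : ∀ A : Set T, IsAntichain (· ≤ ·) A → A.Countable) : False := by
  have hsp : ∀ s : T, ∃ r ∈ Spl T, s < r := by
    intro s
    obtain ⟨s', hss', hs'⟩ := hcone s (Order.succ (lev s)) (Order.le_succ _)
    have hlt : s < s' := by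
      refine lt_of_le_of_ne hss' ?_
      rintro rfl
      exact absurd hs'.symm (Order.lt_succ (lev s)).ne'
    have hnc : ¬ {t | s' ≤ t}.Countable := by
      intro hc
      refine Om.not_countable_of_unbounded (s := lev '' {t | s' ≤ t}) ?_ (hc.image _)
      intro b
      obtain ⟨t, ht, h1⟩ := hcone s' (max (lev s') (Order.succ b)) (le_max_left _ _)
      refine ⟨lev t, ⟨t, ht, rfl⟩, ?_⟩
      rw [h1]
      exact (Order.lt_succ b).trans_le (le_max_right _ _)
    have hnch : ¬ IsChain (· ≤ ·) {t | s' ≤ t} := fun hc => hnc (h.chain _ hc)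
    obtain ⟨x, hx, y, hy, hxy, hyx⟩ : ∃ x ∈ {t | s' ≤ t}, ∃ y ∈ {t | s' ≤ t},
        ¬ x ≤ y ∧ ¬ y ≤ x := by
      by_contra hcon
      push Not at hcon
      apply hnch
      intro x hx y hy _
      by_cases h1 : x ≤ y
      · exact Or.inl h1
      · exact Or.inr (hcon x hx y hy h1)
    obtain ⟨r, hr⟩ := h.exists_meet x y
    refine ⟨r, ⟨x, y, hxy, hyx, hr⟩, hlt.trans_le (hr.2 ?_)⟩
    rintro z (rfl | rfl)
    · exact hx
    · exact hy
  have huniv : ¬ (univ : Set T).Countable := by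
    intro hc
    refine Om.not_countable_univ ((hc.image lev).mono ?_)
    intro β _
    obtain ⟨t, ht⟩ := h.ne β
    exact ⟨t, trivial, ht⟩
  obtain ⟨A, -, hA, hhom⟩ := hLD.step h huniv {r | altFn lev r}
  -- `A` is dense in a cone
  obtain ⟨s, hs⟩ : ∃ s : T, ∀ t, s ≤ t → ∃ a ∈ A, t ≤ a := by
    by_contra hcon
    push Not at hcon
    let B : Set T := {t | ∀ a ∈ A, ¬ t ≤ a}
    let M : Set T := {t | t ∈ B ∧ ∀ r < t, r ∉ B}
    have hM : IsAntichain (· ≤ ·) M := by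
      intro x hx y hy hxy hle
      exact hy.2 x (lt_of_le_of_ne hle hxy) hx.1
    obtain ⟨α, hα⟩ := Om.exists_gt_of_countable ((hanti M hM).image lev)
    obtain ⟨a, ha, h1⟩ := h.exists_lev_gt hA α
    obtain ⟨t, hat, ht⟩ := hcon a
    have hne : {b : Om | b ≤ lev t ∧ res lev t b ∈ B}.Nonempty :=
      ⟨lev t, le_rfl, by
        show res lev t (lev t) ∈ B
        rw [h.res_self]
        exact ht⟩
    obtain ⟨b, ⟨hb1, hb2⟩, hmin⟩ : ∃ b ∈ {b : Om | b ≤ lev t ∧ res lev t b ∈ B}, ∀ c < b,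
        c ∉ {b : Om | b ≤ lev t ∧ res lev t b ∈ B} :=
      ⟨WellFounded.min wellFounded_lt _ hne, WellFounded.min_mem wellFounded_lt _ hne,
        fun c hc hc2 => WellFounded.not_lt_min wellFounded_lt _ hc2 hc⟩
    have hmM : res lev t b ∈ M := by
      refine ⟨hb2, fun r hr hrB => ?_⟩
      have h2 : lev r < b := by
        have := h.mono hr
        rwa [h.lev_res hb1] at this
      refine hmin (lev r) h2 ⟨h2.le.trans hb1, ?_⟩
      show res lev t (lev r) ∈ B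
      rw [h.res_eq (hr.le.trans (h.res_le hb1))]
      exact hrB
    have h2 : b < α := by
      have := hα _ ⟨_, hmM, rfl⟩
      rwa [h.lev_res hb1] at this
    have h3 : res lev t b ≤ a := by
      refine h.le_of_lev_le (h.res_le hb1) hat ?_
      rw [h.lev_res hb1]
      exact (h2.trans h1).le
    exact hb2 a ha h3
  obtain ⟨⟨r1, ⟨x1, y1, h1, h2, h3⟩, h4, h5⟩, ⟨r2, ⟨x2, y2, g1, g2, g3⟩, g4, g5⟩⟩ :=
    exists_alt h.toIsLev hsp s
  have hext : ∀ x y r : T, ¬ x ≤ y → ¬ y ≤ x → IsGLB {x, y} r → s ≤ r →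
      ∃ a ∈ A, ∃ b ∈ A, ¬ a ≤ b ∧ ¬ b ≤ a ∧ IsGLB {a, b} r := by
    intro x y r hxy hyx hr hsr
    obtain ⟨a, ha, hxa⟩ := hs x (hsr.trans (hr.1 (by simp)))
    obtain ⟨b, hb, hyb⟩ := hs y (hsr.trans (hr.1 (by simp)))
    refine ⟨a, ha, b, hb, fun hc => ?_, fun hc => ?_, h.isGLB_ext hxa hyb hxy hyx hr⟩
    · exact (h.comp (hxa.trans hc) hyb).elim hxy hyx
    · exact (h.comp hxa (hyb.trans hc)).elim hxy hyx
  obtain ⟨a1, ha1, b1, hb1, e1, e2, e3⟩ := hext x1 y1 r1 h1 h2 h3 h4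
  obtain ⟨a2, ha2, b2, hb2, f1, f2, f3⟩ := hext x2 y2 r2 g1 g2 g3 g4
  rcases hhom with hhom | hhom
  · exact g5 (hhom a2 ha2 b2 hb2 f1 f2 r2 f3)
  · exact hhom a1 ha1 b1 hb1 e1 e2 r1 e3 h5

theorem LDL.exists_antichain (hLD : LDL) (h : IsAron lev) {P : Set T} (hP : ¬ P.Countable) :
    ∃ A ⊆ P, ¬ A.Countable ∧ IsAntichain (· ≤ ·) A := by
  by_contra hcon
  push Not at hcon
  have hlow := big_lower P
  have hS := h.sub hlow (fun a => h.big_level hP a)
  refine hLD.not_suslin hS ?_ ?_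
  · intro t a ha
    obtain ⟨s, hs, h1, h2⟩ := h.big_above t.2 ha
    exact ⟨⟨s, hs⟩, h1, h2⟩
  · intro A0 hA0
    by_contra hA0c
    have hp : ∀ t : big P, ∃ p ∈ P, t.1 ≤ p := fun t => big_exists t.2
    choose p hp1 hp2 using hp
    have hincomp : ∀ a ∈ A0, ∀ a' ∈ A0, a ≠ a' → ¬ a.1 ≤ a'.1 := fun a ha a' ha' hne hle =>
      hA0 ha ha' hne hle
    have hinj : InjOn p A0 := by
      intro a ha a' ha' he
      by_contra hne
      have h1 : a'.1 ≤ p a := by rw [he]; exact hp2 a'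
      rcases h.comp (hp2 a) h1 with h2 | h2
      · exact hincomp a ha a' ha' hne h2
      · exact hincomp a' ha' a ha (Ne.symm hne) h2
    refine hcon (p '' A0) ?_ ?_ ?_
    · rintro _ ⟨a, -, rfl⟩
      exact hp1 a
    · intro hc
      exact hA0c (countable_of_injective_of_countable_image hinj hc)
    · rintro _ ⟨a, ha, rfl⟩ _ ⟨a', ha', rfl⟩ hne hle
      have hne' : a ≠ a' := fun e => hne (congrArg p e)
      rcases h.comp ((hp2 a).trans hle) (hp2 a') with h2 | h2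
      · exact hincomp a ha a' ha' hne' h2
      · exact hincomp a' ha' a ha (Ne.symm hne') h2

theorem catL_of_LDL (hLD : LDL) : CATL := by
  intro T _ lev h K
  have huniv : ¬ (univ : Set T).Countable := by
    intro hc
    refine Om.not_countable_univ ((hc.image lev).mono ?_)
    intro β _
    obtain ⟨t, ht⟩ := h.ne β
    exact ⟨t, trivial, ht⟩
  obtain ⟨P, -, hP, hhom⟩ := hLD.step h huniv K
  obtain ⟨A, hAP, hA, hanti⟩ := hLD.exists_antichain h hP
  refine ⟨A, hA, hanti, ?_⟩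
  rcases hhom with hhom | hhom
  · left
    intro x hx y hy hxy
    obtain ⟨r, hr⟩ := h.exists_meet x y
    exact ⟨r, hhom x (hAP hx) y (hAP hy) (hanti hx hy hxy) (hanti hy hx (Ne.symm hxy)) r hr, hr⟩
  · right
    intro x hx y hy hxy
    obtain ⟨r, hr⟩ := h.exists_meet x y
    exact ⟨r, hhom x (hAP hx) y (hAP hy) (hanti hx hy hxy) (hanti hy hx (Ne.symm hxy)) r hr, hr⟩

end Run7.h603
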