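import Pool.Agent.Run7.h603.Dbl

/-!
# Level products of trees
-/

set_option autoImplicit false

open Set

namespace Run7.h603

variable {T₀ T₁ : Type} [PartialOrder T₀] [PartialOrder T₁]

/-- the pairs of nodes of the same level -/
structure LP (lev₀ : T₀ → Om) (lev₁ : T₁ → Om) : Type where
  x : T₀
  y : T₁
  hxy : lev₀ x = lev₁ y

namespace LP

variable {lev₀ : T₀ → Om} {lev₁ : T₁ → Om}

omit [PartialOrder T₀] [PartialOrder T₁] in
theorem ext' {p q : LP lev₀ lev₁} (h1 : p.x = q.x) (h2 : p.y = q.y) : p = q := by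
  cases p
  cases q
  simp only at h1 h2
  subst h1
  subst h2
  rfl

instance : PartialOrder (LP lev₀ lev₁) where
  le p q := p.x ≤ q.x ∧ p.y ≤ q.y
  le_refl _ := ⟨le_rfl, le_rfl⟩
  le_trans _ _ _ h1 h2 := ⟨h1.1.trans h2.1, h1.2.trans h2.2⟩
  le_antisymm _ _ h1 h2 := ext' (le_antisymm h1.1 h2.1) (le_antisymm h1.2 h2.2)

theorem le_def {p q : LP lev₀ lev₁} : p ≤ q ↔ p.x ≤ q.x ∧ p.y ≤ q.y := Iff.rfl

/-- the level -/
def lv (p : LP lev₀ lev₁) : Om := lev₀ p.x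

omit [PartialOrder T₀] [PartialOrder T₁] in
theorem lv_eq (p : LP lev₀ lev₁) : p.lv = lev₁ p.y := p.hxy

variable (h₀ : IsLev lev₀) (h₁ : IsLev lev₁)

/-- restriction -/
noncomputable def rs (p : LP lev₀ lev₁) (a : Om) (ha : a ≤ p.lv) : LP lev₀ lev₁ :=
  ⟨res lev₀ p.x a, res lev₁ p.y a, by
    rw [h₀.lev_res ha, h₁.lev_res (by rw [← p.lv_eq]; exact ha)]⟩

theorem rs_le (p : LP lev₀ lev₁) (a : Om) (ha : a ≤ p.lv) : p.rs h₀ h₁ a ha ≤ p :=
  LP.le_def.2 ⟨h₀.res_le ha, h₁.res_le (by rw [← p.lv_eq]; exact ha)⟩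

theorem lv_rs (p : LP lev₀ lev₁) (a : Om) (ha : a ≤ p.lv) : (p.rs h₀ h₁ a ha).lv = a :=
  h₀.lev_res ha

include h₀ h₁ in
theorem isLev : IsLev (lv : LP lev₀ lev₁ → Om) where
  mono := fun {p q} hpq => by
    refine lt_of_le_of_ne (h₀.mono_le hpq.le.1) fun he => ?_
    refine hpq.ne (ext' (h₀.eq_of_le_of_lev hpq.le.1 he) (h₁.eq_of_le_of_lev hpq.le.2 ?_))
    rw [← p.lv_eq, ← q.lv_eq]
    exact he
  ex := fun {q a} ha => by
    refine ⟨q.rs h₀ h₁ a ha.le, lt_of_le_of_ne (q.rs_le h₀ h₁ a ha.le) ?_, q.lv_rs h₀ h₁ a ha.le⟩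
    intro he
    have := q.lv_rs h₀ h₁ a ha.le
    rw [he] at this
    exact ha.ne this.symm
  uniq := fun {p p' q} hp hp' he => by
    refine ext' (h₀.uniq_le hp.le.1 hp'.le.1 he) (h₁.uniq_le hp.le.2 hp'.le.2 ?_)
    rw [← p.lv_eq, ← p'.lv_eq]
    exact he

end LP

variable {lev₀ : T₀ → Om} {lev₁ : T₁ → Om}

theorem LP.isAron (h₀ : IsAron lev₀) (h₁ : IsOmTree lev₁) :
    IsAron (LP.lv : LP lev₀ lev₁ → Om) where
  toIsLev := LP.isLev h₀.toIsLev h₁.toIsLev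
  ne := fun a => by
    obtain ⟨x, hx⟩ := h₀.ne a
    obtain ⟨y, hy⟩ := h₁.ne a
    exact ⟨⟨x, y, hx.trans hy.symm⟩, hx⟩
  cnt := fun a => by
    have h1 : MapsTo (fun p : LP lev₀ lev₁ => (p.x, p.y)) {p | p.lv = a}
        ({x | lev₀ x = a} ×ˢ {y | lev₁ y = a}) := by
      intro p hp
      have hp' : p.lv = a := hp
      exact ⟨hp', by
        show lev₁ p.y = a
        rw [← p.lv_eq]
        exact hp'⟩
    refine h1.countable_of_injOn ?_ ((h₀.cnt a).prod (h₁.cnt a))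
    intro p _ q _ he
    simp only [Prod.mk.injEq] at he
    exact LP.ext' he.1 he.2
  chain := fun C hC => by
    have h1 : IsChain (· ≤ ·) (LP.x '' C) := by
      rintro _ ⟨p, hp, rfl⟩ _ ⟨q, hq, rfl⟩ hpq
      rcases hC hp hq (fun e => hpq (congrArg _ e)) with h2 | h2
      · exact Or.inl h2.1
      · exact Or.inr h2.1
    have h2 := h₀.chain _ h1
    have h3 : C ⊆ ⋃ t ∈ LP.x '' C, {p : LP lev₀ lev₁ | p.x = t} := by
      intro p hp
      simp only [mem_iUnion]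
      exact ⟨p.x, ⟨p, hp, rfl⟩, rfl⟩
    refine Countable.mono h3 (h2.biUnion fun t _ => ?_)
    have h4 : MapsTo (LP.y : LP lev₀ lev₁ → T₁) {p | p.x = t} {y | lev₁ y = lev₀ t} := by
      intro p hp
      have hp' : p.x = t := hp
      show lev₁ p.y = lev₀ t
      rw [← p.hxy, hp']
    refine h4.countable_of_injOn ?_ (h₁.cnt _)
    intro p hp q hq he
    exact LP.ext' (Eq.trans hp (Eq.symm hq)) he
  haus := fun p q hpq hl hI => by
    have hpq' : lev₁ p.y = lev₁ q.y := by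
      rw [← p.lv_eq, ← q.lv_eq]
      exact hpq
    have key : ∀ p q : LP lev₀ lev₁, Iio p = Iio q → ∀ a < p.lv,
        (res lev₀ p.x a < q.x) ∧ (res lev₁ p.y a < q.y) := by
      intro p q hI a ha
      have h1 : p.rs h₀.toIsLev h₁.toIsLev a ha.le < p := by
        refine lt_of_le_of_ne (p.rs_le _ _ a ha.le) ?_
        intro he
        have := p.lv_rs h₀.toIsLev h₁.toIsLev a ha.le
        rw [he] at this
        exact ha.ne this.symm
      have h2 : p.rs h₀.toIsLev h₁.toIsLev a ha.le ∈ Iio q := by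
        rw [← hI]
        exact h1
      have h2' : p.rs h₀.toIsLev h₁.toIsLev a ha.le < q := h2
      have h3 := (LP.isLev h₀.toIsLev h₁.toIsLev).mono h2'
      rw [p.lv_rs] at h3
      refine ⟨lt_of_le_of_ne h2'.le.1 ?_, lt_of_le_of_ne h2'.le.2 ?_⟩
      · intro he
        have h4 : res lev₀ p.x a = q.x := he
        have h5 := h₀.lev_res ha.le
        rw [h4] at h5
        exact h3.ne h5.symm
      · intro he
        have h4 : res lev₁ p.y a = q.y := he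
        have h5 := h₁.lev_res (t := p.y) (a := a) (by rw [← p.lv_eq]; exact ha.le)
        rw [h4, ← q.lv_eq] at h5
        exact h3.ne h5.symm
    refine LP.ext' ?_ ?_
    · refine h₀.haus' hpq hl fun a ha => ?_
      have h1 := (key p q hI a ha).1
      exact (h₀.res_eq' h1.le (h₀.lev_res ha.le)).symm
    · refine h₁.haus' hpq' (by rw [← p.lv_eq]; exact hl) fun a ha => ?_
      have ha' : a < p.lv := by
        rw [p.lv_eq]
        exact ha
      have h1 := (key p q hI a ha').2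
      exact (h₁.res_eq' h1.le (h₁.lev_res ha.le)).symm

/-- meets in the level product -/
theorem LP.exists_glb (h₀ : IsLev lev₀) (h₁ : IsLev lev₁) {p q : LP lev₀ lev₁} {m₀ : T₀} {m₁ : T₁}
    (hm₀ : IsGLB {p.x, q.x} m₀) (hm₁ : IsGLB {p.y, q.y} m₁) :
    ∃ m : LP lev₀ lev₁, IsGLB {p, q} m ∧ m.lv = min (lev₀ m₀) (lev₁ m₁) := by
  have ha0 : min (lev₀ m₀) (lev₁ m₁) ≤ lev₀ m₀ := min_le_left _ _
  have ha1 : min (lev₀ m₀) (lev₁ m₁) ≤ lev₁ m₁ := min_le_right _ _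
  have hpx : m₀ ≤ p.x := hm₀.1 (by simp)
  have hqx : m₀ ≤ q.x := hm₀.1 (by simp)
  have hpy : m₁ ≤ p.y := hm₁.1 (by simp)
  have hqy : m₁ ≤ q.y := hm₁.1 (by simp)
  have hr0 := h₀.res_le ha0
  have hr1 := h₁.res_le ha1
  refine ⟨⟨res lev₀ m₀ (min (lev₀ m₀) (lev₁ m₁)), res lev₁ m₁ (min (lev₀ m₀) (lev₁ m₁)), ?_⟩,
    ⟨?_, ?_⟩, h₀.lev_res ha0⟩
  · rw [h₀.lev_res ha0, h₁.lev_res ha1]
  · rintro z (rfl | rfl)
    · exact LP.le_def.2 ⟨hr0.trans hpx, hr1.trans hpy⟩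
    · exact LP.le_def.2 ⟨hr0.trans hqx, hr1.trans hqy⟩
  · intro z hz
    have hzp : z ≤ p := hz (by simp)
    have hzq : z ≤ q := hz (by simp)
    have h1 : z.x ≤ m₀ := hm₀.2 (by
      rintro w (rfl | rfl)
      · exact hzp.1
      · exact hzq.1)
    have h2 : z.y ≤ m₁ := hm₁.2 (by
      rintro w (rfl | rfl)
      · exact hzp.2
      · exact hzq.2)
    have h3 : z.lv ≤ min (lev₀ m₀) (lev₁ m₁) :=
      le_min (h₀.mono_le h1) (by rw [z.lv_eq]; exact h₁.mono_le h2)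
    exact LP.le_def.2 ⟨h₀.le_res h1 h3 ha0, h₁.le_res h2 (by rw [← z.lv_eq]; exact h3) ha1⟩

end Run7.h603
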