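import Pool.Agent.Run7.h603.EO

/-!
# Colourings by levels
-/

set_option autoImplicit false

open Set

namespace Run7.h603

theorem exists_xy {X : Set Om} (hX : ¬ X.Countable) (hX' : ¬ Xᶜ.Countable) :
    ∃ x y : Om → Om, (∀ a, x a ∈ X) ∧ (∀ a, y a ∉ X) ∧ (∀ a, a < x a ∧ a < y a) ∧
      ∀ a b, a < b → (x a < x b ∧ x a < y b) ∧ y a < x b ∧ y a < y b := by
  classical
  have step : ∀ s : Set Om, ∃ p : Om × Om, s.Countable → p.1 ∈ X ∧ p.2 ∉ X ∧
      ∀ c ∈ s, c < p.1 ∧ c < p.2 := by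
    intro s
    by_cases hs : s.Countable
    · obtain ⟨B, hB⟩ := Om.exists_gt_of_countable hs
      obtain ⟨x, hx, h1⟩ := Om.exists_gt_of_not_countable hX B
      obtain ⟨y, hy, h2⟩ := Om.exists_gt_of_not_countable hX' B
      exact ⟨(x, y), fun _ => ⟨hx, hy, fun c hc => ⟨(hB c hc).trans h1, (hB c hc).trans h2⟩⟩⟩
    · exact ⟨(⊥, ⊥), fun h => absurd h hs⟩
  choose G hG using step
  let S : (a : Om) → ((b : Om) → b < a → Om × Om) → Set Om := fun a rec =>
    insert a {c | ∃ b, ∃ h : b < a, c = (rec b h).1 ∨ c = (rec b h).2}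
  let z : Om → Om × Om := WellFounded.fix (wellFounded_lt (α := Om)) fun a rec => G (S a rec)
  have hz : ∀ a, z a = G (S a fun b _ => z b) := fun a => WellFounded.fix_eq _ _ a
  have hS : ∀ a, (S a fun b _ => z b).Countable := by
    intro a
    refine Countable.insert a ?_
    refine Countable.mono ?_ (((Om.countable_Iio a).image fun b => (z b).1).union
      ((Om.countable_Iio a).image fun b => (z b).2))
    rintro c ⟨b, h, rfl | rfl⟩
    · exact Or.inl ⟨b, h, rfl⟩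
    · exact Or.inr ⟨b, h, rfl⟩
  have hz' : ∀ a, (z a).1 ∈ X ∧ (z a).2 ∉ X ∧ ∀ c ∈ (S a fun b _ => z b), c < (z a).1 ∧
      c < (z a).2 := by
    intro a
    rw [hz a]
    exact hG _ (hS a)
  refine ⟨fun a => (z a).1, fun a => (z a).2, fun a => (hz' a).1, fun a => (hz' a).2.1,
    fun a => (hz' a).2.2 a (mem_insert a _), fun a b hab => ⟨?_, ?_⟩⟩
  · exact (hz' b).2.2 _ (Or.inr ⟨a, hab, Or.inl rfl⟩)
  · exact (hz' b).2.2 _ (Or.inr ⟨a, hab, Or.inr rfl⟩)

/-- `CAT` for the sets of all nodes whose level is in a given set `X` -/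
def LvL (X : Set Om) : Prop := ∀ (T : Type) [PartialOrder T] (lev : T → Om), IsAron lev →
  ∃ A : Set T, ¬ A.Countable ∧ IsAntichain (· ≤ ·) A ∧
    ((∀ x ∈ A, ∀ y ∈ A, x ≠ y → ∃ m, lev m ∈ X ∧ IsGLB {x, y} m) ∨
      (∀ x ∈ A, ∀ y ∈ A, x ≠ y → ∃ m, lev m ∉ X ∧ IsGLB {x, y} m))

theorem catL_of_LvL {X : Set Om} (hX : ¬ X.Countable) (hX' : ¬ Xᶜ.Countable) (h : LvL X) :
    CATL := by
  classical
  intro T _ lev hl K
  obtain ⟨x, y, hx, hy, hgt, hmono⟩ := exists_xy hX hX'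
  let φ : T → Om := fun t => if t ∈ K then Order.succ (x (lev t)) else Order.succ (y (lev t))
  have hφ1 : ∀ t ∈ K, φ t = Order.succ (x (lev t)) := fun t ht => if_pos ht
  have hφ2 : ∀ t, t ∉ K → φ t = Order.succ (y (lev t)) := fun t ht => if_neg ht
  have hφ : IsTiming lev φ := by
    refine ⟨fun {s t} hst => ?_, fun t => ?_, fun t => ?_⟩
    · have h1 := hmono _ _ (hl.mono hst)
      by_cases hs : s ∈ K <;> by_cases ht : t ∈ K
      · rw [hφ1 s hs, hφ1 t ht]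
        exact Order.succ_lt_succ h1.1.1
      · rw [hφ1 s hs, hφ2 t ht]
        exact Order.succ_lt_succ h1.1.2
      · rw [hφ2 s hs, hφ1 t ht]
        exact Order.succ_lt_succ h1.2.1
      · rw [hφ2 s hs, hφ2 t ht]
        exact Order.succ_lt_succ h1.2.2
    · by_cases ht : t ∈ K
      · exact ⟨_, hφ1 t ht⟩
      · exact ⟨_, hφ2 t ht⟩
    · by_cases ht : t ∈ K
      · rw [hφ1 t ht]
        exact (hgt _).1.trans (Order.lt_succ _)
      · rw [hφ2 t ht]
        exact (hgt _).2.trans (Order.lt_succ _)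
  obtain ⟨A, hA, hanti, hhom⟩ := h (RT φ) RT.tm (RT.isAron hl hφ)
  obtain ⟨hinj, hanti'⟩ := RT.antichain hanti
  refine ⟨RT.nd '' A, fun hc => hA (countable_of_injective_of_countable_image hinj hc), hanti', ?_⟩
  have key : ∀ p ∈ A, ∀ q ∈ A, p ≠ q → ∃ r, IsGLB {p.nd, q.nd} r ∧ ∃ m : RT φ,
      IsGLB {p, q} m ∧ Order.succ m.tm = φ r := by
    intro p hp q hq hpq
    obtain ⟨r, hr⟩ := hl.exists_meet p.nd q.nd
    obtain ⟨m, hm1, -, hm3⟩ := RT.exists_glb hφ (hanti hp hq hpq) (hanti hq hp (Ne.symm hpq)) hr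
    exact ⟨r, hr, m, hm1, hm3⟩
  rcases hhom with hhom | hhom
  · left
    rintro _ ⟨p, hp, rfl⟩ _ ⟨q, hq, rfl⟩ hne
    have hpq : p ≠ q := fun e => hne (congrArg _ e)
    obtain ⟨r, hr, m, hm, hmt⟩ := key p hp q hq hpq
    obtain ⟨m', hm', hm2⟩ := hhom p hp q hq hpq
    have : m = m' := hm.unique hm2
    subst this
    refine ⟨r, ?_, hr⟩
    by_contra hrK
    rw [hφ2 r hrK] at hmt
    rw [Order.succ_injective hmt] at hm'
    exact hy _ hm'
  · right
    rintro _ ⟨p, hp, rfl⟩ _ ⟨q, hq, rfl⟩ hne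
    have hpq : p ≠ q := fun e => hne (congrArg _ e)
    obtain ⟨r, hr, m, hm, hmt⟩ := key p hp q hq hpq
    obtain ⟨m', hm', hm2⟩ := hhom p hp q hq hpq
    have : m = m' := hm.unique hm2
    subst this
    refine ⟨r, ?_, hr⟩
    intro hrK
    rw [hφ1 r hrK] at hmt
    rw [Order.succ_injective hmt] at hm'
    exact hm' (hx _)

end Run7.h603
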