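import Mathlib

/-!
# The well-order of type `ω₁`
-/

set_option autoImplicit false

open Set

namespace Run7.h603

/-- `Om` is the canonical well-ordered set of order type `ω₁`: its elements are the countable
ordinals. -/
abbrev Om : Type := (Ordinal.omega.{0} 1).ToType

namespace Om

instance : Nonempty Om := by
  rw [Ordinal.nonempty_toType_iff]
  exact (Ordinal.omega_pos 1).ne'

noncomputable instance : OrderBot Om := WellFoundedLT.toOrderBot Om

theorem cof_eq : Order.cof Om = Cardinal.aleph 1 := by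
  rw [Ordinal.cof_toType]
  exact Cardinal.isRegular_aleph_one.cof_omega_eq

theorem cof_ne : Order.cof Om ≠ Cardinal.aleph0 := by
  rw [cof_eq]
  exact Cardinal.aleph0_lt_aleph_one.ne'

theorem countable_Iio (a : Om) : (Iio a).Countable := by
  have h : Cardinal.mk (Iio a) < Cardinal.aleph 1 := by
    have h1 := Ordinal.typein_lt_self a
    have h2 : (Ordinal.typein (α := Om) (· < ·) a).card = Cardinal.mk (Iio a) := by
      exact Ordinal.card_typein a
    rw [← h2]
    rw [← Cardinal.lt_ord, Cardinal.ord_aleph]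
    exact h1
  rw [← Cardinal.le_aleph0_iff_set_countable]
  have h3 : Cardinal.aleph 1 = Order.succ Cardinal.aleph0 := by
    rw [← Cardinal.succ_aleph0]
  rw [h3] at h
  exact Order.lt_succ_iff.1 h

theorem countable_Iic (a : Om) : (Iic a).Countable := by
  rw [← Iio_insert]
  exact (countable_Iio a).insert a

theorem exists_gt_of_countable {s : Set Om} (hs : s.Countable) : ∃ b, ∀ a ∈ s, a < b := by
  by_contra hcon
  push Not at hcon
  have h1 : IsCofinal s := fun b => by
    obtain ⟨a, ha, hba⟩ := hcon b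
    exact ⟨a, ha, hba⟩
  have h2 := Order.cof_le h1
  rw [cof_eq] at h2
  have h3 : Cardinal.mk s ≤ Cardinal.aleph0 := Cardinal.le_aleph0_iff_set_countable.2 hs
  exact absurd (h2.trans h3) (not_le.2 Cardinal.aleph0_lt_aleph_one)

instance : NoMaxOrder Om := ⟨fun a => by
  obtain ⟨b, hb⟩ := exists_gt_of_countable (countable_Iic a)
  exact ⟨b, hb a (mem_Iic.2 le_rfl)⟩⟩

theorem countable_of_bounded {s : Set Om} {b : Om} (h : ∀ a ∈ s, a ≤ b) : s.Countable :=
  (countable_Iic b).mono h

theorem exists_gt_of_not_countable {s : Set Om} (hs : ¬ s.Countable) (b : Om) : ∃ a ∈ s, b < a := by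
  by_contra hcon
  push Not at hcon
  exact hs (countable_of_bounded hcon)

theorem not_countable_of_unbounded {s : Set Om} (hs : ∀ b, ∃ a ∈ s, b < a) : ¬ s.Countable := by
  intro h
  obtain ⟨b, hb⟩ := exists_gt_of_countable h
  obtain ⟨a, ha, hba⟩ := hs b
  exact absurd (hb a ha) (not_lt.2 hba.le)

theorem not_countable_univ : ¬ (univ : Set Om).Countable :=
  not_countable_of_unbounded fun b => by
    obtain ⟨a, ha⟩ := exists_gt b
    exact ⟨a, trivial, ha⟩

/-- a bound for countably many values -/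
theorem exists_bound {ι : Type*} [Countable ι] (f : ι → Om) : ∃ b, ∀ i, f i < b := by
  obtain ⟨b, hb⟩ := exists_gt_of_countable (countable_range f)
  exact ⟨b, fun i => hb _ ⟨i, rfl⟩⟩

theorem exists_isLUB {s : Set Om} (hs : s.Countable) : ∃ b, IsLUB s b := by
  obtain ⟨b, hb⟩ := exists_gt_of_countable hs
  have hne : {c : Om | ∀ a ∈ s, a ≤ c}.Nonempty := ⟨b, fun a ha => (hb a ha).le⟩
  refine ⟨WellFounded.min wellFounded_lt _ hne, ?_, ?_⟩
  · exact WellFounded.min_mem wellFounded_lt _ hne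
  · intro c hc
    exact WellFounded.min_le wellFounded_lt hc

theorem isSuccLimit_iff' {δ : Om} : Order.IsSuccLimit δ ↔ δ ≠ ⊥ ∧ ∀ a < δ, Order.succ a < δ := by
  constructor
  · intro h
    exact ⟨h.ne_bot, fun a ha => h.succ_lt ha⟩
  · rintro ⟨h1, h2⟩
    refine ⟨fun hm => h1 (isMin_iff_eq_bot.1 hm), fun a ha => ?_⟩
    exact absurd (h2 a ha.lt) (not_lt.2 (Order.succ_le_of_lt ha.lt |>.antisymm
      (by
        by_contra hc
        rw [not_le] at hc
        have := ha.2 (Order.lt_succ a)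
        exact this (lt_of_le_of_ne (Order.succ_le_of_lt ha.lt) (fun e => absurd hc (by
          rw [e]; exact lt_irrefl _)))) |>.ge))

/-- closure points of a function -/
def clos (h : Om → Om) : Set Om := {δ | Order.IsSuccLimit δ ∧ ∀ a < δ, h a < δ}

theorem exists_lt_of_isLUB {d : Set Om} {b x : Om} (hb : IsLUB d b) (hx : x < b) : ∃ c ∈ d, x < c := by
  by_contra hcon
  push Not at hcon
  exact absurd hx (not_lt.2 (hb.2 hcon))

theorem isClub_clos (h : Om → Om) : IsClub (clos h) := by
  constructor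
  · intro d hd hne _ b hb
    have key : ∀ a < b, ∃ c ∈ d, a < c := fun a ha => exists_lt_of_isLUB hb ha
    obtain ⟨c0, hc0⟩ := hne
    refine ⟨?_, ?_⟩
    · rw [isSuccLimit_iff']
      refine ⟨?_, ?_⟩
      · rintro rfl
        exact (hd hc0).1.ne_bot (le_bot_iff.1 (hb.1 hc0))
      · intro a ha
        obtain ⟨c, hc, hac⟩ := key a ha
        exact ((hd hc).1.succ_lt hac).trans_le (hb.1 hc)
    · intro a ha
      obtain ⟨c, hc, hac⟩ := key a ha
      exact ((hd hc).2 a hac).trans_le (hb.1 hc)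
  · intro a
    -- build an increasing sequence
    have step : ∀ c : Om, ∃ d : Om, c < d ∧ ∀ x ≤ c, h x < d := by
      intro c
      obtain ⟨d, hd⟩ := exists_gt_of_countable
        (((countable_Iic c).image h).union (countable_Iic c))
      exact ⟨d, hd c (Or.inr (mem_Iic.2 le_rfl)), fun x hx => hd _ (Or.inl ⟨x, hx, rfl⟩)⟩
    choose g hg1 hg2 using step
    let s : ℕ → Om := fun n => g^[n] a
    have hs : ∀ n, s (n + 1) = g (s n) := fun n => Function.iterate_succ_apply' g n a
    obtain ⟨b, hb⟩ := exists_isLUB (countable_range s)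
    have hmem : ∀ n, s n ≤ b := fun n => hb.1 ⟨n, rfl⟩
    have hlt : ∀ n, s n < b := fun n => by
      have := hg1 (s n)
      rw [← hs n] at this
      exact this.trans_le (hmem (n + 1))
    have key : ∀ x < b, ∃ n, x < s n := by
      intro x hx
      obtain ⟨_, ⟨n, rfl⟩, h1⟩ := exists_lt_of_isLUB hb hx
      exact ⟨n, h1⟩
    refine ⟨b, ⟨?_, ?_⟩, hmem 0⟩
    · rw [isSuccLimit_iff']
      refine ⟨?_, ?_⟩
      · rintro rfl
        exact absurd (hlt 0) not_lt_bot
      · intro x hx
        obtain ⟨n, hn⟩ := key x hx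
        exact (Order.succ_le_of_lt hn).trans_lt (hlt n)
    · intro x hx
      obtain ⟨n, hn⟩ := key x hx
      have := hg2 (s n) x hn.le
      rw [← hs n] at this
      exact this.trans_le (hmem (n + 1))

theorem isClub_limits : IsClub {δ : Om | Order.IsSuccLimit δ} := by
  have h := isClub_clos (fun a => a)
  have : clos (fun a => a) = {δ : Om | Order.IsSuccLimit δ} := by
    ext δ
    simp [clos]
  rwa [this] at h

/-- limit points of a set -/
def limPts (E : Set Om) : Set Om := {δ | Order.IsSuccLimit δ ∧ ∀ a < δ, ∃ b ∈ E, a < b ∧ b < δ}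

theorem isClub_limPts {E : Set Om} (hE : IsClub E) : IsClub (limPts E) := by
  have step : ∀ a : Om, ∃ b ∈ E, a < b := by
    intro a
    obtain ⟨c, hc⟩ := exists_gt a
    obtain ⟨b, hb, hcb⟩ := hE.isCofinal c
    exact ⟨b, hb, hc.trans_le hcb⟩
  choose f hf1 hf2 using step
  constructor
  · intro d hd hne _ b hb
    have key : ∀ a < b, ∃ c ∈ d, a < c := fun a ha => exists_lt_of_isLUB hb ha
    obtain ⟨c0, hc0⟩ := hne
    refine ⟨?_, ?_⟩
    · rw [isSuccLimit_iff']
      refine ⟨?_, ?_⟩
      · rintro rfl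
        exact (hd hc0).1.ne_bot (le_bot_iff.1 (hb.1 hc0))
      · intro a ha
        obtain ⟨c, hc, hac⟩ := key a ha
        exact ((hd hc).1.succ_lt hac).trans_le (hb.1 hc)
    · intro a ha
      obtain ⟨c, hc, hac⟩ := key a ha
      obtain ⟨x, hx, h1, h2⟩ := (hd hc).2 a hac
      exact ⟨x, hx, h1, h2.trans_le (hb.1 hc)⟩
  · intro a
    obtain ⟨b, hb, hab⟩ := (isClub_clos f).isCofinal a
    exact ⟨b, ⟨hb.1, fun x hx => ⟨f x, hf1 x, hf2 x, hb.2 x hx⟩⟩, hab⟩

theorem limPts_subset {E : Set Om} (hE : IsClub E) : limPts E ⊆ E := by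
  intro δ hδ
  refine hE.isLUB_mem (t := {b | b ∈ E ∧ b < δ}) (fun b hb => hb.1) ?_ ⟨fun b hb => hb.2.le, ?_⟩
  · obtain ⟨b, hb, -, h2⟩ := hδ.2 ⊥ (bot_lt_iff_ne_bot.2 hδ.1.ne_bot)
    exact ⟨b, hb, h2⟩
  · intro c hc
    by_contra hcon
    rw [not_le] at hcon
    obtain ⟨b, hb, h1, h2⟩ := hδ.2 c hcon
    exact absurd (hc ⟨hb, h2⟩) (not_le.2 h1)

end Om

end Run7.h603
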