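import Pool.Agent.N811.IS.Low

set_option autoImplicit false

/-!
# Products of shifts: the induction over valuation classes with values in another group

The method of `Pool/Agent/N811/IS` (product sets against sumsets in a ring with valuations), with
the addition of the ring replaced by the operation of an arbitrary abelian group `G` into which the
elements are mapped (for example `a ↦ 1 + a`, with `G` the multiplicative group of the rationals).
-/

namespace Run7.h603

open Finset Pool.Agent.N811.IS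
open scoped Pointwise

universe u

/-- a map `φ` from a ring with valuations to an abelian group such that the elements of valuation
at least `j ≥ 1` are those whose image is in a subgroup -/
structure VMap {R : Type u} [CommRing R] (V : VR R) (G : Type) [AddCommGroup G] where
  /-- the map -/
  φ : R → G
  /-- the subgroups -/
  K : V.ι → ℕ → AddSubgroup G
  mem_K : ∀ i j, ∀ a ∈ V.S, φ a ∈ K i (j + 1) ↔ j + 1 ≤ V.v i a

section
variable {R : Type u} [CommRing R] [DecidableEq R] {V : VR R} {G : Type} [AddCommGroup G]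
  [DecidableEq G] (F : VMap V G)

open Pool.Agent.H384R3.SPk in
/-- the isoperimetric form of the main theorem, at the critical exponent -/
theorem main_crit {n : ℕ} (hn : 2 ≤ n) {θ c β : ℝ} (hθ : 1 / 2 ≤ θ) (hθ1 : θ < 1)
    (hc : 0 < c) (hcθ : c ≤ 2 ^ (1 - θ) - 1) (hβ : 0 < β)
    (hcβ : ((n : ℝ) - (n - 1) * c) ^ β = 1 / c)
    (A : Fin n → Finset R) (hAn : ∀ i, (A i).Nonempty) (hAp : ∀ i, ∀ a ∈ A i, a ∈ V.S) :
    ∏ i, q n β ((A i).card : ℝ) (rho θ ((A i).image F.φ)) ≤ ((prodset A).card : ℝ) := by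
  have hn1 : 1 ≤ n := by omega
  have hX2 : (2:ℝ) ^ (1 - θ) < 2 := by
    have : (2:ℝ) ^ (1 - θ) < 2 ^ (1:ℝ) :=
      Real.rpow_lt_rpow_of_exponent_lt (by norm_num) (by linarith)
    rwa [Real.rpow_one] at this
  have hc1 : c < 1 := by linarith
  refine ind V hn1 (fun A => q n β ((A.card : ℝ)) (rho θ (A.image F.φ))) ?_ ?_ ?_ A hAn hAp
  · intro A
    exact q_nonneg n β (Nat.cast_nonneg _) (rho_nonneg θ _)
  · intro p A A₀ A' j hA0 hne0 hne' hdisj hun hv0 hv'
    have hcard : (A.card : ℝ) = A₀.card + A'.card := by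
      rw [← hun, Finset.card_union_of_disjoint hdisj]; push_cast; ring
    have s0 : A₀ ⊆ A := by rw [← hun]; exact Finset.subset_union_left
    have s1 : A' ⊆ A := by rw [← hun]; exact Finset.subset_union_right
    have r0 := one_le_rho (θ := θ) hθ1.le (hne0.image F.φ)
    have r1 := one_le_rho (θ := θ) hθ1.le (hne'.image F.φ)
    have hR0 : rho θ (A₀.image F.φ) ≤ rho θ (A.image F.φ) := rho_mono θ (Finset.image_subset_image s0)
    have hstep := rho_step hθ hθ1 (F.K p (j + 1)) (Finset.image_subset_image (f := F.φ) s0)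
      (Finset.image_subset_image (f := F.φ) s1)
      (fun b hb h => by
        obtain ⟨a, ha, rfl⟩ := Finset.mem_image.1 hb
        have := (F.mem_K p j a (hA0 a (s0 ha))).1 h
        rw [hv0 a ha] at this
        omega)
      (fun b hb => by
        obtain ⟨a, ha, rfl⟩ := Finset.mem_image.1 hb
        exact (F.mem_K p j a (hA0 a (s1 ha))).2 (hv' a ha))
    have hstep' : rho θ (A'.image F.φ) + c * rho θ (A₀.image F.φ) ≤ rho θ (A.image F.φ) := by
      have : c * rho θ (A₀.image F.φ) ≤ (2 ^ (1 - θ) - 1) * rho θ (A₀.image F.φ) :=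
        mul_le_mul_of_nonneg_right hcθ (by linarith)
      linarith
    have := os taskE hn hc hc1 hβ hcβ (a₀ := (A₀.card : ℝ)) (a' := (A'.card : ℝ))
      (by exact_mod_cast hne0.card_pos) (by exact_mod_cast hne'.card_pos)
      (by linarith) (by linarith) hR0 hstep'
    rw [← hcard] at this
    exact this
  · intro a ha
    have h1 := one_le_rho (θ := θ) hθ1.le ((Finset.singleton_nonempty a).image F.φ)
    have : (({a} : Finset R).card : ℝ) ^ (1 + β) / rho θ (({a} : Finset R).image F.φ) ≤ 1 := by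
      rw [Finset.card_singleton, Nat.cast_one, Real.one_rpow, div_le_one (by linarith)]
      exact h1
    have h0 : 0 ≤ (({a} : Finset R).card : ℝ) ^ (1 + β) / rho θ (({a} : Finset R).image F.φ) :=
      div_nonneg (Real.rpow_nonneg (Nat.cast_nonneg _) _) (by linarith)
    exact Real.rpow_le_one h0 this (by positivity)

open Pool.Agent.H384R3.SPk in
/-- the isoperimetric inequality for several sets -/
theorem iso_family {n : ℕ} (hn : 2 ≤ n) {θ c β : ℝ} (hθ : 1 / 2 ≤ θ) (hθ1 : θ < 1)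
    (hc : 0 < c) (hcθ : c ≤ 2 ^ (1 - θ) - 1)
    (hcβ : 1 / c ≤ ((n : ℝ) - (n - 1) * c) ^ β)
    (A : Fin n → Finset R) (hA : ∀ i, (A i).Nonempty) (hAp : ∀ i, ∀ a ∈ A i, a ∈ V.S)
    (X : Fin n → Finset G) (hX : ∀ i, (X i).Nonempty) :
    ∏ i, (((A i).card : ℝ) ^ (1 + β) * ((X i).card : ℝ) ^ θ) ≤
      (∏ i, (((A i).image F.φ + X i).card : ℝ)) * ((prodset A).card : ℝ) ^ ((n : ℝ) * β) := by
  have hn1 : 1 ≤ n := by omega
  have hn0 : (0:ℝ) < n := by exact_mod_cast (show 0 < n by omega)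
  have hX2 : (2:ℝ) ^ (1 - θ) < 2 := by
    have : (2:ℝ) ^ (1 - θ) < 2 ^ (1:ℝ) :=
      Real.rpow_lt_rpow_of_exponent_lt (by norm_num) (by linarith)
    rwa [Real.rpow_one] at this
  have hc1 : c < 1 := by linarith
  obtain ⟨β₀, hβ₀, hle, hcrit⟩ := exists_crit hn hc hc1 hcβ
  have hm := main_crit F hn hθ hθ1 hc hcθ hβ₀ hcrit A hA hAp
  have hR : ∀ i, 1 ≤ rho θ ((A i).image F.φ) := fun i => one_le_rho hθ1.le ((hA i).image _)
  have hR0 : ∀ i, 0 < rho θ ((A i).image F.φ) := fun i => by have := hR i; linarith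
  have hcard : ∀ i, (1:ℝ) ≤ (A i).card := fun i => by exact_mod_cast (hA i).card_pos
  have hPpos : (1:ℝ) ≤ (prodset A).card := by
    have := card_le_prodset V A hA hAp ⟨0, by omega⟩
    have h2 := (hA ⟨0, by omega⟩).card_pos
    exact_mod_cast (by omega : 1 ≤ (prodset A).card)
  set P : ℝ := ((prodset A).card : ℝ) with hP
  have h2 := Real.rpow_le_rpow (Finset.prod_nonneg fun i _ => q_nonneg n β₀ (Nat.cast_nonneg _)
    (hR0 i).le) hm (show 0 ≤ (n:ℝ) * β₀ by positivity)
  rw [← Real.finsetProd_rpow _ _ (fun i _ => q_nonneg n β₀ (Nat.cast_nonneg _) (hR0 i).le)] at h2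
  have e1 : ∀ i ∈ (Finset.univ : Finset (Fin n)),
      q n β₀ ((A i).card : ℝ) (rho θ ((A i).image F.φ)) ^ ((n:ℝ) * β₀) =
        ((A i).card : ℝ) ^ (1 + β₀) / rho θ ((A i).image F.φ) := by
    intro i _
    have := hcard i
    exact q_rpow n hn1 hβ₀ (by linarith) (hR0 i)
  rw [Finset.prod_congr rfl e1, Finset.prod_div_distrib,
    div_le_iff₀ (Finset.prod_pos fun i _ => hR0 i)] at h2
  have h3 : ∏ i, ((A i).card : ℝ) ^ (β - β₀) ≤ P ^ ((n:ℝ) * (β - β₀)) := by
    calc ∏ i, ((A i).card : ℝ) ^ (β - β₀) ≤ ∏ _i : Fin n, P ^ (β - β₀) := by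
          apply Finset.prod_le_prod
          · intro i _; have := hcard i; positivity
          · intro i _
            apply Real.rpow_le_rpow (by positivity) _ (by linarith)
            rw [hP]
            exact_mod_cast card_le_prodset V A hA hAp i
      _ = _ := by
          rw [Finset.prod_const, Finset.card_univ, Fintype.card_fin, ← Real.rpow_natCast,
            ← Real.rpow_mul (by positivity), mul_comm]
  have h4 : ∏ i, ((A i).card : ℝ) ^ (1 + β) ≤ P ^ ((n:ℝ) * β) * ∏ i, rho θ ((A i).image F.φ) := by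
    have e2 : ∏ i, ((A i).card : ℝ) ^ (1 + β) =
        (∏ i, ((A i).card : ℝ) ^ (1 + β₀)) * ∏ i, ((A i).card : ℝ) ^ (β - β₀) := by
      rw [← Finset.prod_mul_distrib]
      refine Finset.prod_congr rfl fun i _ => ?_
      have := hcard i
      rw [← Real.rpow_add (by linarith)]
      congr 1; ring
    have e3 : P ^ ((n:ℝ) * β) = P ^ ((n:ℝ) * β₀) * P ^ ((n:ℝ) * (β - β₀)) := by
      rw [← Real.rpow_add (by linarith)]; congr 1; ring
    rw [e2, e3]
    calc _ ≤ (P ^ ((n:ℝ) * β₀) * ∏ i, rho θ ((A i).image F.φ)) * P ^ ((n:ℝ) * (β - β₀)) := by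
          apply mul_le_mul h2 h3
          · exact Finset.prod_nonneg fun i _ => by have := hcard i; positivity
          · have : 0 ≤ ∏ i, rho θ ((A i).image F.φ) := Finset.prod_nonneg fun i _ => (hR0 i).le
            positivity
      _ = _ := by ring
  rw [Finset.prod_mul_distrib]
  have hPn : 0 ≤ P ^ ((n:ℝ) * β) := by positivity
  calc (∏ i, ((A i).card : ℝ) ^ (1 + β)) * ∏ i, ((X i).card : ℝ) ^ θ
      ≤ (P ^ ((n:ℝ) * β) * ∏ i, rho θ ((A i).image F.φ)) * ∏ i, ((X i).card : ℝ) ^ θ :=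
        mul_le_mul_of_nonneg_right h4 (Finset.prod_nonneg fun i _ => by positivity)
    _ = P ^ ((n:ℝ) * β) * ∏ i, (rho θ ((A i).image F.φ) * ((X i).card : ℝ) ^ θ) := by
        rw [Finset.prod_mul_distrib]; ring
    _ ≤ P ^ ((n:ℝ) * β) * ∏ i, (((A i).image F.φ + X i).card : ℝ) := by
        apply mul_le_mul_of_nonneg_left _ hPn
        apply Finset.prod_le_prod
        · intro i _; have := hR0 i; positivity
        · intro i _; exact rho_mul_le θ _ (hX i)
    _ = _ := mul_comm _ _

/-- the isoperimetric inequality for one set -/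
theorem iso_one {n : ℕ} (hn : 2 ≤ n) {θ c β : ℝ} (hθ : 1 / 2 ≤ θ) (hθ1 : θ < 1)
    (hc : 0 < c) (hcθ : c ≤ 2 ^ (1 - θ) - 1)
    (hcβ : 1 / c ≤ ((n : ℝ) - (n - 1) * c) ^ β)
    (A : Finset R) (hA : A.Nonempty) (hAp : ∀ a ∈ A, a ∈ V.S) (X : Finset G) (hX : X.Nonempty) :
    (A.card : ℝ) ^ (1 + β) * (X.card : ℝ) ^ θ ≤
      ((A.image F.φ + X).card : ℝ) * ((prodset fun _ : Fin n => A).card : ℝ) ^ β := by
  have h := iso_family F hn hθ hθ1 hc hcθ hcβ (fun _ => A) (fun _ => hA) (fun _ => hAp)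
    (fun _ => X) (fun _ => hX)
  rw [Finset.prod_const, Finset.prod_const, Finset.card_univ, Fintype.card_fin] at h
  have e : ((prodset fun _ : Fin n => A).card : ℝ) ^ ((n : ℝ) * β) =
      (((prodset fun _ : Fin n => A).card : ℝ) ^ β) ^ n := by
    rw [← Real.rpow_natCast, ← Real.rpow_mul (Nat.cast_nonneg _), mul_comm]
  rw [e, ← mul_pow] at h
  exact le_of_pow_le_pow_left₀ (by omega) (by positivity) h

/-- `k`-fold sumset in the group -/
def ksum (k : ℕ) (A : Finset G) : Finset G :=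
  (Fintype.piFinset fun _ : Fin k => A).image fun f => ∑ i, f i

lemma ksum_zero (A : Finset G) : ksum 0 A = {0} := by
  unfold ksum
  ext x
  simp

lemma ksum_succ (k : ℕ) (A : Finset G) : ksum (k + 1) A = A + ksum k A := by
  ext x
  unfold ksum
  simp only [Finset.mem_image, Fintype.mem_piFinset, Finset.mem_add]
  constructor
  · rintro ⟨f, hf, rfl⟩
    refine ⟨f 0, hf 0, ∑ i : Fin k, f i.succ, ⟨fun i => f i.succ, fun i => hf _, rfl⟩, ?_⟩
    rw [Fin.sum_univ_succ]
  · rintro ⟨a, ha, _, ⟨g, hg, rfl⟩, rfl⟩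
    refine ⟨Fin.cons a g, fun i => ?_, ?_⟩
    · refine Fin.cases ?_ (fun j => ?_) i
      · simpa using ha
      · simpa using hg j
    · rw [Fin.sum_univ_succ]
      simp

lemma ksum_nonempty (k : ℕ) {A : Finset G} (hA : A.Nonempty) : (ksum k A).Nonempty := by
  induction k with
  | zero => rw [ksum_zero]; exact Finset.singleton_nonempty 0
  | succ k ih => rw [ksum_succ]; exact hA.add ih

lemma card_le_ksum {k : ℕ} (hk : 1 ≤ k) {A : Finset G} (hA : A.Nonempty) :
    A.card ≤ (ksum k A).card := by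
  obtain ⟨j, rfl⟩ : ∃ j, k = j + 1 := ⟨k - 1, by omega⟩
  rw [ksum_succ]
  exact Finset.card_le_card_add_right (ksum_nonempty j hA)

/-- the chain of isoperimetric inequalities -/
theorem chain {n : ℕ} (hn : 2 ≤ n) {θ c β : ℝ} (hθ : 1 / 2 ≤ θ) (hθ1 : θ < 1)
    (hc : 0 < c) (hcθ : c ≤ 2 ^ (1 - θ) - 1)
    (hcβ : 1 / c ≤ ((n : ℝ) - (n - 1) * c) ^ β)
    (A : Finset R) (hA : A.Nonempty) (hAp : ∀ a ∈ A, a ∈ V.S) (k : ℕ) :
    (A.card : ℝ) ^ ((1 + β) * ((1 - θ ^ k) / (1 - θ))) ≤
      ((ksum k (A.image F.φ)).card : ℝ) *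
        ((prodset fun _ : Fin n => A).card : ℝ) ^ (β * ((1 - θ ^ k) / (1 - θ))) := by
  have hcard : (1:ℝ) ≤ A.card := by exact_mod_cast hA.card_pos
  have hPle : (A.card : ℝ) ≤ (prodset fun _ : Fin n => A).card := by
    exact_mod_cast card_le_prodset V (fun _ : Fin n => A) (fun _ => hA) (fun _ => hAp)
      ⟨0, by omega⟩
  set P : ℝ := ((prodset fun _ : Fin n => A).card : ℝ) with hP
  have hP1 : 1 ≤ P := hcard.trans hPle
  have h1θ : 0 < 1 - θ := by linarith
  have hθ0 : 0 < θ := by linarith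
  induction k with
  | zero =>
    rw [ksum_zero]
    simp
  | succ k ih =>
    have h := iso_one F hn hθ hθ1 hc hcθ hcβ A hA hAp (ksum k (A.image F.φ))
      (ksum_nonempty k (hA.image _))
    rw [← ksum_succ] at h
    set e : ℝ := (1 - θ ^ k) / (1 - θ) with he
    have he' : (1 - θ ^ (k + 1)) / (1 - θ) = 1 + θ * e := by
      rw [he, pow_succ]; field_simp; ring
    rw [he']
    have e1 : (A.card : ℝ) ^ ((1 + β) * (1 + θ * e)) =
        (A.card : ℝ) ^ (1 + β) * ((A.card : ℝ) ^ ((1 + β) * e)) ^ θ := by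
      rw [← Real.rpow_mul (by linarith), ← Real.rpow_add (by linarith)]
      congr 1; ring
    have e2 : P ^ (β * (1 + θ * e)) = P ^ β * (P ^ (β * e)) ^ θ := by
      rw [← Real.rpow_mul (by linarith), ← Real.rpow_add (by linarith)]
      congr 1; ring
    have h2 := Real.rpow_le_rpow (by positivity) ih hθ0.le
    rw [Real.mul_rpow (by positivity) (by positivity)] at h2
    rw [e1, e2]
    calc (A.card : ℝ) ^ (1 + β) * ((A.card : ℝ) ^ ((1 + β) * e)) ^ θ
        ≤ (A.card : ℝ) ^ (1 + β) * (((ksum k (A.image F.φ)).card : ℝ) ^ θ * (P ^ (β * e)) ^ θ) :=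
          mul_le_mul_of_nonneg_left h2 (by positivity)
      _ = ((A.card : ℝ) ^ (1 + β) * ((ksum k (A.image F.φ)).card : ℝ) ^ θ) *
          (P ^ (β * e)) ^ θ := by ring
      _ ≤ (((ksum (k + 1) (A.image F.φ)).card : ℝ) * P ^ β) * (P ^ (β * e)) ^ θ :=
          mul_le_mul_of_nonneg_right h (by positivity)
      _ = _ := by ring

/-- the resulting exponent for the maximum -/
theorem max_chain {n : ℕ} (hn : 2 ≤ n) {θ c β : ℝ} (hθ : 1 / 2 ≤ θ) (hθ1 : θ < 1)
    (hc : 0 < c) (hcθ : c ≤ 2 ^ (1 - θ) - 1) (hβ : 0 ≤ β)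
    (hcβ : 1 / c ≤ ((n : ℝ) - (n - 1) * c) ^ β)
    (A : Finset R) (hA : A.Nonempty) (hAp : ∀ a ∈ A, a ∈ V.S) (k : ℕ) {s e : ℝ}
    (hs : s = (1 - θ ^ k) / (1 - θ)) (he : e * (1 + β * s) ≤ (1 + β) * s) :
    (A.card : ℝ) ^ e ≤
      max ((ksum k (A.image F.φ)).card : ℝ) ((prodset fun _ : Fin n => A).card : ℝ) := by
  have hcard : (1:ℝ) ≤ A.card := by exact_mod_cast hA.card_pos
  have hPle : (A.card : ℝ) ≤ (prodset fun _ : Fin n => A).card := by
    exact_mod_cast card_le_prodset V (fun _ : Fin n => A) (fun _ => hA) (fun _ => hAp)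
      ⟨0, by omega⟩
  have h := chain F hn hθ hθ1 hc hcθ hcβ A hA hAp k
  rw [← hs] at h
  set P : ℝ := ((prodset fun _ : Fin n => A).card : ℝ) with hP
  set M := max ((ksum k (A.image F.φ)).card : ℝ) P with hM
  have hM1 : 1 ≤ M := le_max_of_le_right (hcard.trans hPle)
  have hs0 : 0 ≤ s := by
    rw [hs]
    apply div_nonneg _ (by linarith)
    have : θ ^ k ≤ 1 := pow_le_one₀ (by linarith) hθ1.le
    linarith
  have hp : 0 < 1 + β * s := by positivity
  have h2 : (A.card : ℝ) ^ ((1 + β) * s) ≤ M ^ (1 + β * s) := by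
    calc _ ≤ _ := h
      _ ≤ M * M ^ (β * s) := by
          apply mul_le_mul (le_max_left _ _) _ (by positivity) (by linarith)
          exact Real.rpow_le_rpow (by linarith) (le_max_right _ _) (by positivity)
      _ = _ := by rw [Real.rpow_add (by linarith), Real.rpow_one]
  have h3 : ((A.card : ℝ) ^ e) ^ (1 + β * s) ≤ M ^ (1 + β * s) := by
    rw [← Real.rpow_mul (by linarith)]
    exact (Real.rpow_le_rpow_of_exponent_le hcard he).trans h2
  exact (Real.rpow_le_rpow_iff (by positivity) (by linarith) hp).1 h3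

/-- the exponent `log N / (log log N + 7/5)` -/
theorem low (hφ : Set.InjOn F.φ V.S) {N : ℕ} (hN : 2 ≤ N) (A : Finset R) (hA : A.Nonempty)
    (hAp : ∀ a ∈ A, a ∈ V.S) :
    (A.card : ℝ) ^ (Real.log N / (Real.log (Real.log N) + 7 / 5)) ≤
      max ((ksum N (A.image F.φ)).card : ℝ) ((prodset fun _ : Fin N => A).card : ℝ) := by
  have hL1 := Real.log_two_gt_d9
  have hL2 := Real.log_two_lt_d9
  have hN2 : (2:ℝ) ≤ N := by exact_mod_cast hN
  have hcard : (1:ℝ) ≤ A.card := by exact_mod_cast hA.card_pos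
  set x := Real.log N with hx
  have hx0 : Real.log 2 ≤ x := Real.log_le_log (by norm_num) hN2
  have hD : 0 < Real.log x + 7 / 5 := den_pos (by linarith)
  rcases lt_or_ge N 8 with h8 | h8
  · -- exponent at most one
    have hx2 : x ≤ 2 := by
      have h7 : (N:ℝ) ≤ 7 := by exact_mod_cast (by omega : N ≤ 7)
      have he : (7:ℝ) ≤ Real.exp 2 := by
        have h := Real.sum_le_exp_of_nonneg (x := 2) (by norm_num) 7
        simp only [Finset.sum_range_succ, Finset.sum_range_zero, Nat.factorial] at h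
        norm_num at h
        linarith
      calc x ≤ Real.log (Real.exp 2) := Real.log_le_log (by linarith) (h7.trans he)
        _ = 2 := Real.log_exp 2
    have hs := small (by linarith : 0.69 ≤ x) hx2
    have he : x / (Real.log x + 7 / 5) ≤ 1 := by rw [div_le_one hD]; exact hs
    have hci : (A.image F.φ).card = A.card := Finset.card_image_of_injOn fun a ha b hb h =>
      hφ (hAp a ha) (hAp b hb) h
    have hcs := card_le_ksum (k := N) (by omega) (hA.image F.φ)
    rw [hci] at hcs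
    calc (A.card : ℝ) ^ (x / (Real.log x + 7 / 5)) ≤ (A.card : ℝ) ^ (1:ℝ) :=
          Real.rpow_le_rpow_of_exponent_le hcard he
      _ = A.card := Real.rpow_one _
      _ ≤ _ := le_max_of_le_left (by exact_mod_cast hcs)
  have hN8 : (8:ℝ) ≤ N := by exact_mod_cast h8
  have hlog8 : Real.log 8 = 3 * Real.log 2 := by
    have : (8:ℝ) = 2 ^ 3 := by norm_num
    rw [this, Real.log_pow]; norm_num
  have hx2 : 2 ≤ x := by
    have : Real.log 8 ≤ x := Real.log_le_log (by norm_num) hN8
    linarith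
  have hxN : x * (19 / 5) ≤ N := by
    have h1 : Real.log (N / 8) ≤ N / 8 - 1 := Real.log_le_sub_one_of_pos (by positivity)
    rw [Real.log_div (by positivity) (by norm_num), ← hx, hlog8] at h1
    linarith
  set L := Real.log x with hL
  set l2 := Real.log 2 with hl2
  have hl20 : 0 < l2 := by linarith
  set c := l2 / x with hc
  have hxpos : 0 < x := by linarith
  have hc0 : 0 < c := by positivity
  have hcx : c * x = l2 := by rw [hc]; field_simp
  have hc1 : c ≤ 0.3466 := by rw [hc, div_le_iff₀ hxpos]; nlinarith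
  have h1c : 0 < 1 - c := by linarith
  set θ := 1 - 1 / x with hθ
  have h1x : 1 / x ≤ 1 / 2 := one_div_le_one_div_of_le (by norm_num) hx2
  have h1x0 : 0 < 1 / x := by positivity
  have hθ2 : 1 / 2 ≤ θ := by linarith
  have hθ1 : θ < 1 := by linarith
  have hcθ : c ≤ 2 ^ (1 - θ) - 1 := by
    have e : 1 - θ = 1 / x := by rw [hθ]; ring
    rw [e, Real.rpow_def_of_pos (by norm_num)]
    have := Real.add_one_le_exp (Real.log 2 * (1 / x))
    have e2 : Real.log 2 * (1 / x) = c := by rw [hc]; ring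
    rw [e2] at this ⊢
    linarith
  set δ := c / (1 - c) with hδ
  have hδ0 : 0 ≤ δ := by positivity
  have hδ1 : δ ≤ 1 := by rw [hδ, div_le_one h1c]; linarith
  set y := Real.log (x / l2) with hy
  have hyL : y = L - Real.log l2 := by rw [hy, Real.log_div hxpos.ne' hl20.ne']
  have hy0 : 0 ≤ y := Real.log_nonneg (by rw [le_div_iff₀ hl20]; linarith)
  have hxd : 0 < x - δ := by linarith
  set β := y / (x - δ) with hβ
  have hβ0 : 0 ≤ β := by positivity
  have hβx : β * (x - δ) = y := by rw [hβ]; field_simp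
  have hcβ : 1 / c ≤ ((N : ℝ) - (N - 1) * c) ^ β := by
    have hn' : (N:ℝ) * (1 - c) ≤ (N : ℝ) - (N - 1) * c := by linarith
    have hNc : 0 < (N:ℝ) * (1 - c) := by positivity
    have hlog : x - δ ≤ Real.log ((N : ℝ) - (N - 1) * c) := by
      refine le_trans ?_ (Real.log_le_log hNc hn')
      rw [Real.log_mul (by positivity) h1c.ne', ← hx]
      have h3 := Real.one_sub_inv_le_log_of_pos h1c
      have h4 : 1 - (1 - c)⁻¹ = -δ := by rw [hδ]; field_simp; ring
      linarith
    rw [Real.rpow_def_of_pos (by linarith)]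
    have e : 1 / c = Real.exp y := by
      rw [hy, Real.exp_log (by positivity), hc]; field_simp
    rw [e]
    apply Real.exp_le_exp.2
    calc y = (x - δ) * β := by rw [mul_comm, hβx]
      _ ≤ _ := mul_le_mul_of_nonneg_right hlog hβ0
  -- the power
  have hpow : θ ^ N ≤ 1 / 44 := by
    have hθe : θ ≤ Real.exp (-(1 / x)) := by
      have := Real.add_one_le_exp (-(1 / x))
      linarith
    calc θ ^ N ≤ (Real.exp (-(1 / x))) ^ N := pow_le_pow_left₀ (by linarith) hθe N
      _ = Real.exp (-(N / x)) := by rw [← Real.exp_nat_mul]; congr 1; ring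
      _ ≤ Real.exp (-(19 / 5)) := by
          apply Real.exp_le_exp.2
          have : (19 / 5 : ℝ) ≤ N / x := by rw [le_div_iff₀ hxpos]; linarith
          linarith
      _ ≤ 1 / 44 := by
          rw [Real.exp_neg, one_div]
          exact inv_anti₀ (by norm_num) exp38
  have hpow0 : 0 ≤ θ ^ N := pow_nonneg (by linarith) N
  apply max_chain F (by omega) hθ2 hθ1 hc0 hcθ hβ0 hcβ A hA hAp N rfl
  set ε := θ ^ N with hε
  have e1 : (1 - ε) / (1 - θ) = x * (1 - ε) := by
    have : 1 - θ = 1 / x := by rw [hθ]; ring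
    rw [this]; field_simp
  rw [e1, div_mul_eq_mul_div, div_le_iff₀ hD]
  have hLL := loglog2
  have hD2 : 0.69 ≤ L := by
    have : Real.log 2 ≤ L := Real.log_le_log (by norm_num) hx2
    linarith
  -- main inequality, divided by x
  have key : 1 + β * x * (1 - ε) ≤ (1 + β) * (1 - ε) * (L + 7 / 5) := by
    have hβx' : β * x = y + β * δ := by linarith
    rw [hβx']
    have h5 : 1.03 ≤ L + 7 / 5 - y := by rw [hyL]; linarith
    have h6 : 0 ≤ β * (L + 7 / 5 - δ) := mul_nonneg hβ0 (by linarith)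
    have h7 : 1 ≤ (1 - ε) * (L + 7 / 5 - y + β * (L + 7 / 5 - δ)) := by nlinarith
    nlinarith
  calc x * (1 + β * (x * (1 - ε))) = x * (1 + β * x * (1 - ε)) := by ring
    _ ≤ x * ((1 + β) * (1 - ε) * (L + 7 / 5)) := mul_le_mul_of_nonneg_left key hxpos.le
    _ = _ := by ring

end

end Run7.h603
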