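import Pool.Agent.Run7.h603.Sh1

set_option autoImplicit false

/-!
# Products of shifts of sets of positive integers

For a finite nonempty set `A` of positive integers and `σ = 1` or `σ = -1` the `N`-fold product sets
of `A` and of the shifted set `{1 + σ a : a ∈ A}` cannot both be small.
-/

namespace Run7.h603

open Finset Pool.Agent.N811.IS
open scoped Pointwise

/-- the rational numbers `a / b`, `b` prime to `p`, with `a ≡ b` modulo `p ^ (j + 1)` -/
def Kp (p : ℤ) (hp : Prime p) (j : ℕ) : Subgroup ℚˣ where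
  carrier := {x | ∃ a b : ℤ, ¬ p ∣ b ∧ p ^ (j + 1) ∣ a - b ∧ (x : ℚ) * b = a}
  mul_mem' := by
    rintro x y ⟨a, b, hb, h, e⟩ ⟨a', b', hb', h', e'⟩
    refine ⟨a * a', b * b', fun hd => (hp.dvd_or_dvd hd).elim hb hb', ?_, ?_⟩
    · have : a * a' - b * b' = a * (a' - b') + b' * (a - b) := by ring
      rw [this]
      exact dvd_add (Dvd.dvd.mul_left h' _) (Dvd.dvd.mul_left h _)
    · push_cast
      rw [← e, ← e']; ring
  one_mem' := ⟨1, 1, fun h => hp.not_unit (isUnit_of_dvd_one h), by simp, by simp⟩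
  inv_mem' := by
    rintro x ⟨a, b, hb, h, e⟩
    refine ⟨b, a, fun ha => hb ?_, ?_, ?_⟩
    · have h1 : p ∣ a - b := (dvd_pow_self p (Nat.succ_ne_zero j)).trans h
      have : b = a - (a - b) := by ring
      rw [this]
      exact dvd_sub ha h1
    · have : b - a = -(a - b) := by ring
      rw [this]
      exact (dvd_neg).2 h
    · rw [← e, Units.val_inv_eq_inv_val, ← mul_assoc, inv_mul_cancel₀ (Units.ne_zero x), one_mul]

/-- `1 + σ a`, or `2` if this is zero -/
def sh (σ a : ℤ) : ℚ := if (1 + σ * a : ℚ) = 0 then 2 else 1 + σ * a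

lemma sh_ne (σ a : ℤ) : sh σ a ≠ 0 := by
  unfold sh
  split_ifs with h
  · norm_num
  · exact h

lemma sh_eq {σ a : ℤ} (h : 1 + σ * a ≠ 0) : sh σ a = ((1 + σ * a : ℤ) : ℚ) := by
  unfold sh
  rw [if_neg]
  · push_cast; ring
  · intro h'
    exact h (by exact_mod_cast h')

/-- the unit `1 + σ a` -/
def ph (σ a : ℤ) : ℚˣ := Units.mk0 (sh σ a) (sh_ne σ a)

lemma ph_mem (σ : ℤ) (hσ : σ = 1 ∨ σ = -1) (p : ℤ) (hp : Prime p) (j : ℕ) (a : ℤ) (ha : 0 < a) :
    ph σ a ∈ Kp p hp j ↔ p ^ (j + 1) ∣ a := by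
  have hpu : ∀ m : ℕ, p ^ (m + 1) ∣ 1 → False := fun m h =>
    hp.not_unit (isUnit_of_dvd_one ((dvd_pow_self p (Nat.succ_ne_zero m)).trans h))
  by_cases h0 : 1 + σ * a = 0
  · -- `σ = -1`, `a = 1`
    have ha1 : a = 1 := by
      rcases hσ with rfl | rfl
      · omega
      · omega
    have hs : sh σ a = 2 := by
      unfold sh
      rw [if_pos]
      exact_mod_cast h0
    constructor
    · rintro ⟨A, B, hB, hd, e⟩
      exfalso
      unfold ph at e
      rw [Units.val_mk0, hs] at e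
      have e' : 2 * B = A := by exact_mod_cast e
      apply hB
      have : A - B = B := by omega
      rw [this] at hd
      exact (dvd_pow_self p (Nat.succ_ne_zero j)).trans hd
    · intro h
      rw [ha1] at h
      exact (hpu j h).elim
  · have hs := sh_eq h0
    constructor
    · rintro ⟨A, B, hB, hd, e⟩
      unfold ph at e
      rw [Units.val_mk0, hs] at e
      have e' : (1 + σ * a) * B = A := by exact_mod_cast e
      have e2 : A - B = σ * (a * B) := by rw [← e']; ring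
      rw [e2] at hd
      have hd2 : p ^ (j + 1) ∣ a * B := by
        rcases hσ with rfl | rfl
        · simpa using hd
        · have : (-1 : ℤ) * (a * B) = -(a * B) := by ring
          rw [this, dvd_neg] at hd
          exact hd
      exact hp.pow_dvd_of_dvd_mul_right _ hB hd2
    · intro h
      refine ⟨1 + σ * a, 1, fun h1 => hp.not_unit (isUnit_of_dvd_one h1), ?_, ?_⟩
      · have : 1 + σ * a - 1 = σ * a := by ring
        rw [this]
        exact Dvd.dvd.mul_left h _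
      · unfold ph
        rw [Units.val_mk0, hs]
        push_cast; ring

lemma ph_inj (σ : ℤ) (hσ : σ = 1 ∨ σ = -1) {a b : ℤ} (ha : 0 < a) (hb : 0 < b)
    (h : ph σ a = ph σ b) : a = b := by
  have h' : sh σ a = sh σ b := by
    have := congrArg (fun u : ℚˣ => (u : ℚ)) h
    simpa [ph] using this
  by_cases h0 : 1 + σ * a = 0
  · by_cases h1 : 1 + σ * b = 0
    · rcases hσ with rfl | rfl <;> omega
    · have hs : sh σ a = 2 := by
        unfold sh
        rw [if_pos]
        exact_mod_cast h0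
      rw [hs, sh_eq h1] at h'
      have : (2 : ℤ) = 1 + σ * b := by exact_mod_cast h'
      rcases hσ with rfl | rfl <;> omega
  · by_cases h1 : 1 + σ * b = 0
    · have hs : sh σ b = 2 := by
        unfold sh
        rw [if_pos]
        exact_mod_cast h1
      rw [hs, sh_eq h0] at h'
      have : 1 + σ * a = (2 : ℤ) := by exact_mod_cast h'
      rcases hσ with rfl | rfl <;> omega
    · rw [sh_eq h0, sh_eq h1] at h'
      have : 1 + σ * a = 1 + σ * b := by exact_mod_cast h'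
      rcases hσ with rfl | rfl <;> omega

/-- the map `a ↦ 1 + σ a` -/
noncomputable def Fsh (σ : ℤ) (hσ : σ = 1 ∨ σ = -1) : VMap vrInt (Additive ℚˣ) where
  φ a := Additive.ofMul (ph σ a)
  K i j := match j with
    | 0 => ⊤
    | j + 1 => Subgroup.toAddSubgroup (Kp i.1 i.2 j)
  mem_K i j a ha := by
    have ha' : 0 < a := ha
    have h1 : Additive.ofMul (ph σ a) ∈ Subgroup.toAddSubgroup (Kp i.1 i.2 j) ↔
        ph σ a ∈ Kp i.1 i.2 j := Iff.rfl
    rw [h1, ph_mem σ hσ i.1 i.2 j a ha']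
    exact (FiniteMultiplicity.of_prime_left i.2 (ne_of_gt ha')).pow_dvd_iff_le_multiplicity

/-- the underlying rational number -/
def toQ (g : Additive ℚˣ) : ℚ := ((Additive.toMul g : ℚˣ) : ℚ)

lemma toQ_inj : Function.Injective toQ := fun a b h => by
  apply Additive.toMul.injective
  exact Units.ext h

lemma toQ_add (a b : Additive ℚˣ) : toQ (a + b) = toQ a * toQ b := by
  unfold toQ
  rw [toMul_add, Units.val_mul]

lemma toQ_sum {n : ℕ} (f : Fin n → Additive ℚˣ) : toQ (∑ i, f i) = ∏ i, toQ (f i) := by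
  unfold toQ
  rw [toMul_sum, Units.coe_prod]

/-- **Multiplication by shifts expands every finite set.** -/
theorem shift_one (σ : ℤ) (hσ : σ = 1 ∨ σ = -1) {n : ℕ} (hn : 2 ≤ n) {θ c β : ℝ}
    (hθ : 1 / 2 ≤ θ) (hθ1 : θ < 1) (hc : 0 < c) (hcθ : c ≤ 2 ^ (1 - θ) - 1)
    (hcβ : 1 / c ≤ ((n : ℝ) - (n - 1) * c) ^ β)
    (A : Finset ℤ) (hA : A.Nonempty) (hAp : ∀ a ∈ A, 0 < a) (hA1 : ∀ a ∈ A, 1 + σ * a ≠ 0)
    (Y : Finset ℚ) (hY : Y.Nonempty) (hY0 : (0 : ℚ) ∉ Y) :
    (A.card : ℝ) ^ (1 + β) * (Y.card : ℝ) ^ θ ≤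
      ((Finset.image₂ (fun (a : ℤ) (y : ℚ) => ((1 + σ * a : ℤ) : ℚ) * y) A Y).card : ℝ) *
        ((prodset fun _ : Fin n => A).card : ℝ) ^ β := by
  classical
  have hy0 : ∀ y : Y, (y : ℚ) ≠ 0 := fun y h => hY0 (h ▸ y.2)
  set Y' : Finset (Additive ℚˣ) :=
    Y.attach.image fun y : Y => Additive.ofMul (Units.mk0 (y : ℚ) (hy0 y)) with hY'
  have hcY : Y'.card = Y.card := by
    rw [hY', Finset.card_image_of_injective, Finset.card_attach]
    intro y z h
    apply Subtype.ext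
    have := congrArg toQ h
    simpa [toQ] using this
  have hY'n : Y'.Nonempty := by
    rw [hY']
    exact (Finset.attach_nonempty_iff.2 hY).image _
  have h := iso_one (Fsh σ hσ) hn hθ hθ1 hc hcθ hcβ A hA hAp Y' hY'n
  rw [hcY] at h
  refine h.trans ?_
  apply mul_le_mul_of_nonneg_right _ (by positivity)
  have hle : (A.image (Fsh σ hσ).φ + Y').card ≤
      (Finset.image₂ (fun (a : ℤ) (y : ℚ) => ((1 + σ * a : ℤ) : ℚ) * y) A Y).card := by
    rw [← Finset.card_image_of_injective (A.image (Fsh σ hσ).φ + Y') toQ_inj]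
    apply Finset.card_le_card
    intro z hz
    obtain ⟨g, hg, rfl⟩ := Finset.mem_image.1 hz
    obtain ⟨u, hu, v, hv, rfl⟩ := Finset.mem_add.1 hg
    obtain ⟨a, ha, rfl⟩ := Finset.mem_image.1 hu
    rw [hY'] at hv
    obtain ⟨y, _, rfl⟩ := Finset.mem_image.1 hv
    rw [Finset.mem_image₂]
    refine ⟨a, ha, y, y.2, ?_⟩
    rw [toQ_add]
    have e1 : toQ ((Fsh σ hσ).φ a) = sh σ a := rfl
    have e2 : toQ (Additive.ofMul (Units.mk0 (y : ℚ) (hy0 y))) = y := rfl
    rw [e1, e2, sh_eq (hA1 a ha)]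
  exact_mod_cast hle

lemma ksum_le (σ : ℤ) (hσ : σ = 1 ∨ σ = -1) (N : ℕ) (A : Finset ℤ)
    (hA1 : ∀ a ∈ A, 1 + σ * a ≠ 0) :
    (ksum N (A.image (Fsh σ hσ).φ)).card ≤
      (prodset fun _ : Fin N => A.image fun a => 1 + σ * a).card := by
  classical
  rw [← Finset.card_image_of_injective (ksum N (A.image (Fsh σ hσ).φ)) toQ_inj]
  refine le_trans (Finset.card_le_card ?_)
    (Finset.card_image_le (s := prodset fun _ : Fin N => A.image fun a => 1 + σ * a)
      (f := fun z : ℤ => (z : ℚ)))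
  intro z hz
  obtain ⟨g, hg, rfl⟩ := Finset.mem_image.1 hz
  unfold ksum at hg
  obtain ⟨f, hf, rfl⟩ := Finset.mem_image.1 hg
  rw [Fintype.mem_piFinset] at hf
  have hch : ∀ i, ∃ a ∈ A, (Fsh σ hσ).φ a = f i := fun i => Finset.mem_image.1 (hf i)
  choose a ha haf using hch
  rw [Finset.mem_image]
  refine ⟨∏ i, (1 + σ * a i), (mem_prodset _ _).2 ⟨fun i => 1 + σ * a i, fun i =>
    Finset.mem_image_of_mem _ (ha i), rfl⟩, ?_⟩
  rw [toQ_sum]
  push_cast
  refine Finset.prod_congr rfl fun i _ => ?_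
  rw [← haf i]
  have e1 : toQ ((Fsh σ hσ).φ (a i)) = sh σ (a i) := rfl
  rw [e1, sh_eq (hA1 _ (ha i))]
  push_cast; ring

/-- **Products of shifts**: the exponent `log N / (log log N + 7/5)`. -/
theorem shift_low (σ : ℤ) (hσ : σ = 1 ∨ σ = -1) {N : ℕ} (hN : 2 ≤ N) (A : Finset ℤ)
    (hA : A.Nonempty) (hAp : ∀ a ∈ A, 0 < a) (hA1 : ∀ a ∈ A, 1 + σ * a ≠ 0) :
    (A.card : ℝ) ^ (Real.log N / (Real.log (Real.log N) + 7 / 5)) ≤
      max ((prodset fun _ : Fin N => A.image fun a => 1 + σ * a).card : ℝ)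
        ((prodset fun _ : Fin N => A).card : ℝ) := by
  classical
  have h := low (Fsh σ hσ) (fun a ha b hb h => ph_inj σ hσ ha hb
    (Additive.ofMul.injective h)) hN A hA hAp
  refine h.trans (max_le_max_right _ ?_)
  exact_mod_cast ksum_le σ hσ N A hA1

end Run7.h603
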