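import Pool.Agent.Run7.h603.Sh2
import Pool.Agent.W975.SP.ST1

set_option autoImplicit false

/-!
# Sets of integers that are mapped into themselves by `y ↦ (3 y + 1) / 2 ^ k`: product sets

`X` is a finite set of integers, `B` a subset all of whose elements `y` have the same sign and satisfy
`3 y + 1 = 2 ^ k z` with `z ∈ X`. Then the product sets of `X` are large in terms of `|B|`.
-/

namespace Run7.h603

open Finset Pool.Agent.N811.IS
open scoped Pointwise

/-- the set of the products of `N` elements of `X` -/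
def prods (N : ℕ) (X : Finset ℤ) : Finset ℤ :=
  (Fintype.piFinset fun _ : Fin N => X).image fun f => ∏ i, f i

lemma prods_eq (N : ℕ) (X : Finset ℤ) : prods N X = prodset fun _ : Fin N => X := rfl

lemma mem_prods {N : ℕ} {X : Finset ℤ} {z : ℤ} :
    z ∈ prods N X ↔ ∃ f : Fin N → ℤ, (∀ i, f i ∈ X) ∧ ∏ i, f i = z := mem_prodset _ _

lemma prods_nonempty (N : ℕ) {X : Finset ℤ} (hX : X.Nonempty) : (prods N X).Nonempty := by
  obtain ⟨x, hx⟩ := hX
  exact ⟨∏ _i : Fin N, x, mem_prods.2 ⟨fun _ => x, fun _ => hx, rfl⟩⟩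

/-- the products of the multiples `c y`, `y ∈ B` -/
lemma prods_mul_le (N : ℕ) (c : ℤ) (B X : Finset ℤ) (A : Finset ℤ)
    (h : ∀ a ∈ A, ∃ y ∈ X, a = c * y) : (prods N A).card ≤ (prods N X).card := by
  classical
  have hsub : prods N A ⊆ (prods N X).image fun z => c ^ N * z := by
    intro z hz
    obtain ⟨f, hf, rfl⟩ := mem_prods.1 hz
    have hch := fun i => h _ (hf i)
    choose y hy hye using hch
    refine Finset.mem_image.2 ⟨∏ i, y i, mem_prods.2 ⟨y, hy, rfl⟩, ?_⟩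
    rw [Finset.prod_congr rfl fun i _ => hye i, Finset.prod_mul_distrib]
    simp
  exact (Finset.card_le_card hsub).trans Finset.card_image_le

section
variable (σ : ℤ) (hσ : σ = 1 ∨ σ = -1) (k : ℕ) (X B : Finset ℤ) (hB : B.Nonempty) (hBX : B ⊆ X)
  (hs : ∀ y ∈ B, 0 < σ * y) (hf : ∀ y ∈ B, ∃ z ∈ X, 3 * y + 1 = 2 ^ k * z)

include hσ hBX hs in
lemma setA : ∃ A : Finset ℤ, A = B.image (fun y => 3 * σ * y) ∧ A.card = B.card ∧
    (∀ a ∈ A, 0 < a) ∧ (∀ a ∈ A, 1 + σ * a ≠ 0) ∧ (∀ a ∈ A, ∃ y ∈ X, a = (3 * σ) * y) ∧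
    (∀ a ∈ A, ∃ y ∈ B, 1 + σ * a = 3 * y + 1) ∧ ∀ y ∈ B, 3 * σ * y ∈ A := by
  have hσ2 : σ * σ = 1 := by rcases hσ with rfl | rfl <;> norm_num
  have h1 : ∀ y ∈ B, 1 + σ * (3 * σ * y) = 3 * y + 1 := by
    intro y _
    have : 1 + σ * (3 * σ * y) = 1 + 3 * (σ * σ) * y := by ring
    rw [this, hσ2]; ring
  refine ⟨_, rfl, ?_, ?_, ?_, ?_, ?_, ?_⟩
  · apply Finset.card_image_of_injOn
    intro y _ z _ h
    simp only at h
    have h2 : σ * (3 * σ * y) = σ * (3 * σ * z) := by rw [h]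
    have h3 : 3 * (σ * σ) * y = 3 * (σ * σ) * z := by linarith
    rw [hσ2] at h3
    omega
  · intro a ha
    obtain ⟨y, hy, rfl⟩ := Finset.mem_image.1 ha
    have := hs y hy
    have e : 3 * σ * y = 3 * (σ * y) := by ring
    rw [e]; omega
  · intro a ha
    obtain ⟨y, hy, rfl⟩ := Finset.mem_image.1 ha
    rw [h1 y hy]; omega
  · intro a ha
    obtain ⟨y, hy, rfl⟩ := Finset.mem_image.1 ha
    exact ⟨y, hBX hy, rfl⟩
  · intro a ha
    obtain ⟨y, hy, rfl⟩ := Finset.mem_image.1 ha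
    exact ⟨y, hy, h1 y hy⟩
  · intro y hy
    exact Finset.mem_image_of_mem _ hy

include hσ hB hBX hs hf in
/-- **Growth of the iterated product sets.** -/
theorem growth {N : ℕ} (hN : 2 ≤ N) :
    (B.card : ℝ) ^ (Real.log N / (Real.log (Real.log N) + 7 / 5)) ≤ ((prods N X).card : ℝ) := by
  classical
  obtain ⟨A, hA, hcard, hpos, hne, hmul, hsh, hmem⟩ := setA σ hσ X B hBX hs
  have hAn : A.Nonempty := by rw [hA]; exact hB.image _
  have h := shift_low σ hσ hN A hAn hpos hne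
  rw [hcard] at h
  refine h.trans (max_le ?_ ?_)
  · have := prods_mul_le N (2 ^ k) B X (A.image fun a => 1 + σ * a) (fun b hb => by
      obtain ⟨a, ha, rfl⟩ := Finset.mem_image.1 hb
      obtain ⟨y, hy, he⟩ := hsh a ha
      obtain ⟨z, hz, hz'⟩ := hf y hy
      exact ⟨z, hz, by rw [he, hz']⟩)
    exact_mod_cast this
  · have := prods_mul_le N (3 * σ) B X A hmul
    exact_mod_cast this

include hσ hB hBX hs hf in
/-- **Expansion of arbitrary sets.** -/
theorem expand {N : ℕ} (hN : 2 ≤ N) {θ c β : ℝ}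
    (hθ : 1 / 2 ≤ θ) (hθ1 : θ < 1) (hc : 0 < c) (hcθ : c ≤ 2 ^ (1 - θ) - 1) (hβ : 0 ≤ β)
    (hcβ : 1 / c ≤ ((N : ℝ) - (N - 1) * c) ^ β) (Y : Finset ℚ) (hY : Y.Nonempty)
    (hY0 : (0 : ℚ) ∉ Y) :
    (B.card : ℝ) ^ (1 + β) * (Y.card : ℝ) ^ θ ≤
      ((Finset.image₂ (fun (z : ℤ) (y : ℚ) => (z : ℚ) * y) X Y).card : ℝ) *
        ((prods N X).card : ℝ) ^ β := by
  classical
  obtain ⟨A, hA, hcard, hpos, hne, hmul, hsh, hmem⟩ := setA σ hσ X B hBX hs
  have hAn : A.Nonempty := by rw [hA]; exact hB.image _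
  have h := shift_one σ hσ hN hθ hθ1 hc hcθ hcβ A hAn hpos hne Y hY hY0
  rw [hcard] at h
  refine h.trans ?_
  have h1 : (Finset.image₂ (fun (a : ℤ) (y : ℚ) => ((1 + σ * a : ℤ) : ℚ) * y) A Y).card ≤
      (Finset.image₂ (fun (z : ℤ) (y : ℚ) => (z : ℚ) * y) X Y).card := by
    have hsub : Finset.image₂ (fun (a : ℤ) (y : ℚ) => ((1 + σ * a : ℤ) : ℚ) * y) A Y ⊆
        (Finset.image₂ (fun (z : ℤ) (y : ℚ) => (z : ℚ) * y) X Y).image fun w => 2 ^ k * w := by
      intro w hw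
      obtain ⟨a, ha, y, hy, rfl⟩ := Finset.mem_image₂.1 hw
      obtain ⟨b, hb, he⟩ := hsh a ha
      obtain ⟨z, hz, hz'⟩ := hf b hb
      refine Finset.mem_image.2 ⟨(z : ℚ) * y, Finset.mem_image₂.2 ⟨z, hz, y, hy, rfl⟩, ?_⟩
      rw [he, hz']
      push_cast; ring
    exact (Finset.card_le_card hsub).trans Finset.card_image_le
  have h2 : (prodset fun _ : Fin N => A).card ≤ (prods N X).card := prods_mul_le N (3 * σ) B X A hmul
  have h1' : ((Finset.image₂ (fun (a : ℤ) (y : ℚ) => ((1 + σ * a : ℤ) : ℚ) * y) A Y).card : ℝ) ≤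
      ((Finset.image₂ (fun (z : ℤ) (y : ℚ) => (z : ℚ) * y) X Y).card : ℝ) := by exact_mod_cast h1
  have h2' : (((prodset fun _ : Fin N => A).card : ℝ)) ^ β ≤ ((prods N X).card : ℝ) ^ β :=
    Real.rpow_le_rpow (by positivity) (by exact_mod_cast h2) hβ
  exact mul_le_mul h1' h2' (by positivity) (by positivity)

end

/-- **Two factors.** (The argument of Elekes with the theorem of Szemerédi and Trotter.) -/
theorem two_factors (k : ℕ) (X B : Finset ℤ) (hBX : B ⊆ X) (hB0 : ∀ y ∈ B, y ≠ 0)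
    (hf : ∀ y ∈ B, ∃ z ∈ X, 3 * y + 1 = 2 ^ k * z) :
    B.card ^ 5 ≤ 512 * (prods 2 X).card ^ 4 := by
  classical
  rcases Nat.lt_or_ge B.card 2 with h2 | h2
  · rcases B.eq_empty_or_nonempty with he | hne
    · rw [he]; simp
    · have h1 : B.card ^ 5 ≤ 1 := by
        have : B.card ≤ 1 := by omega
        simpa using Nat.pow_le_pow_left this 5
      have h3 : 1 ≤ (prods 2 X).card ^ 4 := Nat.one_le_pow _ _
        (prods_nonempty 2 (hne.mono hBX)).card_pos
      omega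
  have hmem2 : ∀ a ∈ X, ∀ b ∈ X, a * b ∈ prods 2 X := by
    intro a ha b hb
    refine mem_prods.2 ⟨![a, b], ?_, by simp⟩
    intro i
    fin_cases i
    · simpa using ha
    · simpa using hb
  set P : Finset ℝ := (prods 2 X).image fun z : ℤ => (z : ℝ) with hP
  set Q : Finset ℝ := (prods 2 X).image fun z : ℤ => (2 ^ (2 * k) : ℝ) * z with hQ
  set L : Finset (ℝ × ℝ) := (B ×ˢ B).image fun q : ℤ × ℤ =>
    ((3 * (3 * (q.2 : ℝ) + 1) / (q.1 : ℝ), 3 * (q.2 : ℝ) + 1) : ℝ × ℝ) with hL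
  have hPc : P.card ≤ (prods 2 X).card := Finset.card_image_le
  have hQc : Q.card ≤ (prods 2 X).card := Finset.card_image_le
  have h30 : ∀ y : ℤ, (3 * (y : ℝ) + 1) ≠ 0 := by
    intro y h
    have : (3 * y + 1 : ℤ) = 0 := by exact_mod_cast h
    omega
  have hLc : L.card = B.card ^ 2 := by
    rw [hL, Finset.card_image_of_injOn, Finset.card_product, pow_two]
    rintro ⟨b, c⟩ hq ⟨b', c'⟩ hq' h
    simp only [Finset.coe_product, Set.mem_prod, Finset.mem_coe] at hq hq'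
    simp only [Prod.mk.injEq] at h
    obtain ⟨e1, e2⟩ := h
    have hc : (c : ℝ) = c' := by linarith
    have hc' : c = c' := by exact_mod_cast hc
    subst hc'
    have hb : (b : ℝ) ≠ 0 := by exact_mod_cast hB0 b hq.1
    have hb' : (b' : ℝ) ≠ 0 := by exact_mod_cast hB0 b' hq'.1
    rw [div_eq_div_iff hb hb'] at e1
    have h3 : (3 * (3 * (c : ℝ) + 1)) ≠ 0 := mul_ne_zero (by norm_num) (h30 c)
    have := mul_left_cancel₀ h3 e1
    have : b' = b := by exact_mod_cast this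
    rw [this]
  have hmain := Pool.Agent.W975.SP.main' P Q L B.card h2 (by
    intro l hl
    obtain ⟨⟨b, c⟩, hq, rfl⟩ := Finset.mem_image.1 hl
    rw [Finset.mem_product] at hq
    obtain ⟨hb, hc⟩ := hq
    simp only at hb hc ⊢
    have hb0 : (b : ℝ) ≠ 0 := by exact_mod_cast hB0 b hb
    refine ⟨div_ne_zero (mul_ne_zero (by norm_num) (h30 c)) hb0, ?_⟩
    apply Finset.card_le_card_of_injOn (fun a : ℤ => (a : ℝ) * b)
    · intro a ha
      have ha' : a ∈ B := ha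
      simp only [Finset.coe_filter, Set.mem_setOf_eq]
      refine ⟨?_, ?_⟩
      · rw [hP]
        exact Finset.mem_image.2 ⟨a * b, hmem2 a (hBX ha') b (hBX hb), by push_cast; ring⟩
      · obtain ⟨z, hz, hz'⟩ := hf a ha'
        obtain ⟨w, hw, hw'⟩ := hf c hc
        rw [hQ]
        refine Finset.mem_image.2 ⟨z * w, hmem2 z hz w hw, ?_⟩
        have e1 : (3 * (a : ℝ) + 1) = 2 ^ k * z := by exact_mod_cast hz'
        have e2 : (3 * (c : ℝ) + 1) = 2 ^ k * w := by exact_mod_cast hw'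
        have e3 : 3 * (3 * (c : ℝ) + 1) / b * (a * b) + (3 * (c : ℝ) + 1) =
            (3 * (a : ℝ) + 1) * (3 * (c : ℝ) + 1) := by
          field_simp
        rw [e3, e1, e2]
        push_cast
        ring
    · intro a _ a' _ h
      simp only at h
      have := mul_right_cancel₀ hb0 h
      exact_mod_cast this)
  rw [hLc] at hmain
  have h5 : P.card ^ 2 * Q.card ^ 2 ≤ (prods 2 X).card ^ 2 * (prods 2 X).card ^ 2 :=
    Nat.mul_le_mul (Nat.pow_le_pow_left hPc 2) (Nat.pow_le_pow_left hQc 2)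
  calc B.card ^ 5 = B.card ^ 2 * B.card ^ 3 := by ring
    _ ≤ 512 * P.card ^ 2 * Q.card ^ 2 := hmain
    _ = 512 * (P.card ^ 2 * Q.card ^ 2) := by ring
    _ ≤ 512 * ((prods 2 X).card ^ 2 * (prods 2 X).card ^ 2) := Nat.mul_le_mul_left _ h5
    _ = _ := by ring

end Run7.h603
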