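import Pool.Agent.Run7.h603.Sh3

set_option autoImplicit false

/-!
# Trajectories of the Collatz map on the integers: the number of the odd terms followed by exactly
`k` even terms
-/

namespace Run7.h603

open Finset

/-- the Collatz map on the integers -/
def Cz (x : ℤ) : ℤ := if x % 2 = 0 then x / 2 else 3 * x + 1

/-- the odd terms among the first `n` terms of the trajectory of `x` -/
def oddT (x : ℤ) (n : ℕ) : Finset ℤ :=
  ((range n).image fun k => Cz^[k] x).filter fun y => y % 2 = 1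

lemma Cz_even {y : ℤ} (h : y % 2 = 0) : Cz y = y / 2 := if_pos h

lemma Cz_odd {y : ℤ} (h : y % 2 = 1) : Cz y = 3 * y + 1 := if_neg (by omega)

lemma Cz_odd_even {y : ℤ} (h : y % 2 = 1) : Cz y % 2 = 0 := by
  rw [Cz_odd h]; omega

lemma it_succ (x : ℤ) (i : ℕ) : Cz^[i + 1] x = Cz (Cz^[i] x) := Function.iterate_succ_apply' _ _ _

lemma Cz_sign {σ : ℤ} (hσ : σ = 1 ∨ σ = -1) {y : ℤ} (h : 0 < σ * y) : 0 < σ * Cz y := by
  rcases Int.emod_two_eq_zero_or_one y with h0 | h1
  · rw [Cz_even h0]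
    rcases hσ with rfl | rfl <;> omega
  · rw [Cz_odd h1]
    rcases hσ with rfl | rfl <;> omega

lemma it_sign {σ : ℤ} (hσ : σ = 1 ∨ σ = -1) {x : ℤ} (h : 0 < σ * x) (i : ℕ) :
    0 < σ * Cz^[i] x := by
  induction i with
  | zero => simpa using h
  | succ i ih => rw [it_succ]; exact Cz_sign hσ ih

/-- a run of even terms after an odd one -/
lemma run {x : ℤ} {i k : ℕ} (hi : Cz^[i] x % 2 = 1) (h : ∀ j, 1 ≤ j → j ≤ k → Cz^[i + j] x % 2 = 0) :
    3 * Cz^[i] x + 1 = 2 ^ k * Cz^[i + k + 1] x := by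
  induction k with
  | zero => rw [Nat.add_zero, it_succ, Cz_odd hi]; simp
  | succ k ih =>
    have h1 := ih fun j hj1 hj2 => h j hj1 (by omega)
    have h2 := h (k + 1) (by omega) le_rfl
    rw [← add_assoc] at h2
    have e : Cz^[i + (k + 1) + 1] x = Cz^[i + k + 1] x / 2 := by
      rw [it_succ x (i + (k + 1)), ← add_assoc, Cz_even h2]
    have h3 : Cz^[i + k + 1] x = 2 * (Cz^[i + k + 1] x / 2) := by omega
    rw [h1, e, pow_succ]
    calc 2 ^ k * Cz^[i + k + 1] x = 2 ^ k * (2 * (Cz^[i + k + 1] x / 2)) := by rw [← h3]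
      _ = _ := by ring

/-- indices of odd terms -/
def Od (x : ℤ) (n : ℕ) : Finset ℕ := (range n).filter fun i => Cz^[i] x % 2 = 1

/-- indices of even terms -/
def Ev (x : ℤ) (n : ℕ) : Finset ℕ := (range n).filter fun i => ¬ Cz^[i] x % 2 = 1

lemma Od_Ev (x : ℤ) (n : ℕ) : (Od x n).card + (Ev x n).card = n := by
  unfold Od Ev
  rw [Finset.card_filter_add_card_filter_not, Finset.card_range]

lemma grow (x : ℤ) (n : ℕ) :
    2 ^ (Ev x n).card * |Cz^[n] x| ≤ 4 ^ (Od x n).card * |x| := by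
  induction n with
  | zero => simp [Ev, Od]
  | succ n ih =>
    rcases Int.emod_two_eq_zero_or_one (Cz^[n] x) with h0 | h1
    · have e1 : (Od x (n + 1)).card = (Od x n).card := by
        unfold Od
        rw [Finset.range_add_one, Finset.filter_insert, if_neg (by omega)]
      have e2 : (Ev x (n + 1)).card = (Ev x n).card + 1 := by
        unfold Ev
        rw [Finset.range_add_one, Finset.filter_insert, if_pos (by omega),
          Finset.card_insert_of_notMem (by simp)]
      have e3 : 2 * |Cz^[n + 1] x| = |Cz^[n] x| := by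
        rw [it_succ, Cz_even h0]
        have : Cz^[n] x = 2 * (Cz^[n] x / 2) := by omega
        have h2 : |Cz^[n] x| = |2 * (Cz^[n] x / 2)| := by rw [← this]
        rw [h2, abs_mul]; simp
      rw [e1, e2, pow_succ, mul_assoc, e3]
      exact ih
    · have e1 : (Od x (n + 1)).card = (Od x n).card + 1 := by
        unfold Od
        rw [Finset.range_add_one, Finset.filter_insert, if_pos h1,
          Finset.card_insert_of_notMem (by simp)]
      have e2 : (Ev x (n + 1)).card = (Ev x n).card := by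
        unfold Ev
        rw [Finset.range_add_one, Finset.filter_insert, if_neg (by omega)]
      have e3 : |Cz^[n + 1] x| ≤ 4 * |Cz^[n] x| := by
        rw [it_succ, Cz_odd h1]
        have : 1 ≤ |Cz^[n] x| := Int.one_le_abs (by omega)
        calc |3 * Cz^[n] x + 1| ≤ |3 * Cz^[n] x| + |1| := abs_add_le _ _
          _ = 3 * |Cz^[n] x| + 1 := by rw [abs_mul]; norm_num
          _ ≤ _ := by linarith
      rw [e1, e2, pow_succ]
      calc 2 ^ (Ev x n).card * |Cz^[n + 1] x| ≤ 2 ^ (Ev x n).card * (4 * |Cz^[n] x|) :=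
            mul_le_mul_of_nonneg_left e3 (by positivity)
        _ = 4 * (2 ^ (Ev x n).card * |Cz^[n] x|) := by ring
        _ ≤ 4 * (4 ^ (Od x n).card * |x|) := by linarith
        _ = _ := by ring

/-- at least every sixth term is odd -/
lemma many_odd {x : ℤ} (hx : x ≠ 0) {n : ℕ} (h : x ^ 2 ≤ 2 ^ n * (Cz^[n] x) ^ 2) :
    n ≤ 6 * (Od x n).card := by
  have hg := grow x n
  set y := Cz^[n] x with hy
  set m := (Od x n).card with hm
  set E := (Ev x n).card with hE
  have hn : m + E = n := Od_Ev x n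
  have hy0 : y ≠ 0 := by
    intro h0
    rw [h0] at h
    have : 0 < x ^ 2 := by positivity
    simp at h
    exact hx h
  have hy2 : 0 < y ^ 2 := by positivity
  have h1 : (2 ^ E * |y|) ^ 2 ≤ (4 ^ m * |x|) ^ 2 := pow_le_pow_left₀ (by positivity) hg 2
  rw [mul_pow, mul_pow, sq_abs, sq_abs] at h1
  have h2 : (2 ^ E) ^ 2 * y ^ 2 ≤ (4 ^ m) ^ 2 * (2 ^ n * y ^ 2) :=
    h1.trans (mul_le_mul_of_nonneg_left h (by positivity))
  have h3 : ((2:ℤ) ^ E) ^ 2 ≤ (4 ^ m) ^ 2 * 2 ^ n := by
    apply le_of_mul_le_mul_right _ hy2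
    calc ((2:ℤ) ^ E) ^ 2 * y ^ 2 ≤ _ := h2
      _ = _ := by ring
  have e4 : (4:ℤ) = 2 ^ 2 := by norm_num
  rw [e4, ← pow_mul, ← pow_mul, ← pow_mul, ← pow_add] at h3
  have h4 := (pow_le_pow_iff_right₀ (by norm_num : (1:ℤ) < 2)).1 h3
  omega

/-- `i` is followed by exactly `k` even terms -/
def Pk (x : ℤ) (k i : ℕ) : Prop :=
  (∀ j, 1 ≤ j → j ≤ k → Cz^[i + j] x % 2 = 0) ∧ Cz^[i + k + 1] x % 2 = 1

/-- `i` is followed by at least `11` even terms -/
def Qk (x : ℤ) (i : ℕ) : Prop := ∀ j, 1 ≤ j → j ≤ 11 → Cz^[i + j] x % 2 = 0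

lemma dich {x : ℤ} {i : ℕ} (hi : Cz^[i] x % 2 = 1) : Qk x i ∨ ∃ k ∈ Icc 1 10, Pk x k i := by
  classical
  by_cases hQ : Qk x i
  · exact Or.inl hQ
  right
  unfold Qk at hQ
  push Not at hQ
  have hex : ∃ j, 1 ≤ j ∧ j ≤ 11 ∧ ¬ Cz^[i + j] x % 2 = 0 := by
    obtain ⟨j, h1, h2, h3⟩ := hQ
    exact ⟨j, h1, h2, h3⟩
  obtain ⟨h1, h2, h3⟩ := Nat.find_spec hex
  have hmin := fun j (hj : j < Nat.find hex) => Nat.find_min hex hj
  obtain ⟨j, hj⟩ : ∃ j, j = Nat.find hex := ⟨_, rfl⟩
  rw [← hj] at h1 h2 h3 hmin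
  have hj1 : j ≠ 1 := by
    rintro rfl
    apply h3
    rw [it_succ]
    exact Cz_odd_even hi
  refine ⟨j - 1, Finset.mem_Icc.2 ⟨by omega, by omega⟩, ?_, ?_⟩
  · intro a ha1 ha2
    by_contra hcon
    exact hmin a (by omega) ⟨ha1, by omega, hcon⟩
  · have e : i + (j - 1) + 1 = i + j := by omega
    rw [e]
    omega

open Classical in
/-- many odd terms are followed by exactly `k` even terms, for some `k ≤ 10` -/
lemma pigeon (x : ℤ) (n : ℕ) (h6 : n ≤ 6 * (Od x n).card) :
    ∃ k ∈ Icc 1 10, n ≤ 110 * ((Od x (n - 11)).filter (Pk x k)).card + 121 := by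
  set S := Od x (n - 11) with hS
  have hsplit : S ⊆ (S.filter (Qk x)) ∪ (Icc 1 10).biUnion fun k => S.filter (Pk x k) := by
    intro i hi
    have hodd : Cz^[i] x % 2 = 1 := (Finset.mem_filter.1 hi).2
    rcases dich hodd with hq | ⟨k, hk, hp⟩
    · exact Finset.mem_union_left _ (Finset.mem_filter.2 ⟨hi, hq⟩)
    · exact Finset.mem_union_right _ (Finset.mem_biUnion.2 ⟨k, hk, Finset.mem_filter.2 ⟨hi, hp⟩⟩)
  have hcard : S.card ≤ (S.filter (Qk x)).card + ∑ k ∈ Icc 1 10, (S.filter (Pk x k)).card :=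
    (Finset.card_le_card hsplit).trans ((Finset.card_union_le _ _).trans
      (Nat.add_le_add_left Finset.card_biUnion_le _))
  -- the long runs
  have hQ : (S.filter (Qk x)).card * 11 ≤ (Ev x n).card := by
    have h11 : (Icc 1 11 : Finset ℕ).card = 11 := by simp
    have e : (S.filter (Qk x)).card * 11 = ((S.filter (Qk x)) ×ˢ (Icc 1 11 : Finset ℕ)).card := by
      rw [Finset.card_product, h11]
    rw [e]
    apply Finset.card_le_card_of_injOn (fun q => q.1 + q.2)
    · rintro ⟨i, j⟩ hq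
      simp only [Finset.coe_product, Set.mem_prod, Finset.mem_coe, Finset.mem_filter,
        Finset.mem_Icc] at hq
      obtain ⟨⟨hi, hq⟩, hj1, hj2⟩ := hq
      have hi' : i < n - 11 := Finset.mem_range.1 (Finset.mem_filter.1 hi).1
      have := hq j hj1 hj2
      unfold Ev
      simp only [Finset.coe_filter, Finset.mem_range, Set.mem_setOf_eq]
      exact ⟨by omega, by omega⟩
    · rintro ⟨i, j⟩ hq ⟨i', j'⟩ hq' he
      simp only [Finset.coe_product, Set.mem_prod, Finset.mem_coe, Finset.mem_filter,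
        Finset.mem_Icc] at hq hq'
      obtain ⟨⟨hi, hq⟩, hj1, hj2⟩ := hq
      obtain ⟨⟨hi', hq'⟩, hj1', hj2'⟩ := hq'
      simp only at he
      have ho : Cz^[i] x % 2 = 1 := (Finset.mem_filter.1 hi).2
      have ho' : Cz^[i'] x % 2 = 1 := (Finset.mem_filter.1 hi').2
      rcases lt_trichotomy i i' with hlt | heq | hgt
      · exfalso
        have := hq (i' - i) (by omega) (by omega)
        rw [show i + (i' - i) = i' by omega] at this
        omega
      · subst heq
        have : j = j' := by omega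
        rw [this]
      · exfalso
        have := hq' (i - i') (by omega) (by omega)
        rw [show i' + (i - i') = i by omega] at this
        omega
  -- the end
  have hOd : (Od x n).card ≤ S.card + 11 := by
    have hsub : Od x n ⊆ S ∪ Finset.Ico (n - 11) n := by
      intro i hi
      unfold Od at hi
      rw [Finset.mem_filter, Finset.mem_range] at hi
      rw [Finset.mem_union]
      rcases lt_or_ge i (n - 11) with h | h
      · left
        rw [hS]
        unfold Od
        exact Finset.mem_filter.2 ⟨Finset.mem_range.2 h, hi.2⟩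
      · right
        exact Finset.mem_Ico.2 ⟨h, hi.1⟩
    refine (Finset.card_le_card hsub).trans ((Finset.card_union_le _ _).trans ?_)
    rw [Nat.card_Ico]
    omega
  have hEv := Od_Ev x n
  -- pigeonhole
  obtain ⟨k, hk, hle⟩ : ∃ k ∈ (Icc 1 10 : Finset ℕ),
      ∑ k ∈ (Icc 1 10 : Finset ℕ), (S.filter (Pk x k)).card ≤ 10 * (S.filter (Pk x k)).card := by
    obtain ⟨k, hk, hmax⟩ := Finset.exists_max_image (Icc 1 10 : Finset ℕ)
      (fun k => (S.filter (Pk x k)).card) ⟨1, by simp⟩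
    refine ⟨k, hk, ?_⟩
    have := Finset.sum_le_card_nsmul (Icc 1 10 : Finset ℕ) (fun k => (S.filter (Pk x k)).card)
      _ hmax
    simpa using this
  refine ⟨k, hk, ?_⟩
  omega

/-- **Many odd terms of a trajectory are followed by the same number of even terms.** -/
theorem exists_B {x : ℤ} (hx : x ≠ 0) {n : ℕ} (hn : 1 ≤ n)
    (hinj : Set.InjOn (fun k => Cz^[k] x) (Set.Iio n))
    (h : x ^ 2 ≤ 2 ^ n * (Cz^[n] x) ^ 2) :
    (oddT x n).Nonempty ∧ ∃ (k : ℕ) (B : Finset ℤ), B ⊆ oddT x n ∧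
      (∀ y ∈ B, ∃ z ∈ oddT x n, 3 * y + 1 = 2 ^ k * z) ∧ (250 ≤ n → n ≤ 250 * B.card) := by
  classical
  have h6 := many_odd hx h
  have hmem : ∀ i < n, Cz^[i] x % 2 = 1 → Cz^[i] x ∈ oddT x n := by
    intro i hi hodd
    unfold oddT
    exact Finset.mem_filter.2 ⟨Finset.mem_image.2 ⟨i, Finset.mem_range.2 hi, rfl⟩, hodd⟩
  constructor
  · have hpos : 0 < (Od x n).card := by omega
    obtain ⟨i, hi⟩ := Finset.card_pos.1 hpos
    unfold Od at hi
    rw [Finset.mem_filter, Finset.mem_range] at hi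
    exact ⟨_, hmem i hi.1 hi.2⟩
  · obtain ⟨k, hk, hle⟩ := pigeon x n h6
    rw [Finset.mem_Icc] at hk
    have hprop : ∀ i ∈ (Od x (n - 11)).filter (Pk x k), i < n - 11 ∧ Cz^[i] x % 2 = 1 ∧ Pk x k i := by
      intro i hi
      obtain ⟨h1, h2⟩ := Finset.mem_filter.1 hi
      unfold Od at h1
      rw [Finset.mem_filter, Finset.mem_range] at h1
      exact ⟨h1.1, h1.2, h2⟩
    refine ⟨k, ((Od x (n - 11)).filter (Pk x k)).image fun i => Cz^[i] x, ?_, ?_, ?_⟩
    · intro y hy
      obtain ⟨i, hi, rfl⟩ := Finset.mem_image.1 hy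
      obtain ⟨h1, h2, _⟩ := hprop i hi
      exact hmem i (by omega) h2
    · intro y hy
      obtain ⟨i, hi, rfl⟩ := Finset.mem_image.1 hy
      obtain ⟨h1, h2, h3⟩ := hprop i hi
      exact ⟨_, hmem (i + k + 1) (by omega) h3.2, run h2 h3.1⟩
    · intro h250
      rw [Finset.card_image_of_injOn]
      · omega
      · intro i hi j hj hij
        have h1 := (hprop i hi).1
        have h2 := (hprop j hj).1
        exact hinj (show i < n by omega) (show j < n by omega) hij

end Run7.h603
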