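import Pool.Agent.Run7.h603.Om

/-!
# Trees of height at most `ω₁` with a level function
-/

set_option autoImplicit false

open Set

namespace Run7.h603

variable {T : Type} [PartialOrder T]

/-- `lev` is the level function of a tree of height at most `ω₁` -/
structure IsLev (lev : T → Om) : Prop where
  mono : ∀ {s t : T}, s < t → lev s < lev t
  ex : ∀ {t : T} {a : Om}, a < lev t → ∃ s < t, lev s = a
  uniq : ∀ {s s' t : T}, s < t → s' < t → lev s = lev s' → s = s'

/-- Hausdorff trees of height `ω₁` with countable levels, with their level function -/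
structure IsOmTree (lev : T → Om) : Prop extends IsLev lev where
  ne : ∀ a : Om, ∃ t : T, lev t = a
  cnt : ∀ a : Om, {t : T | lev t = a}.Countable
  haus : ∀ s t : T, lev s = lev t → Order.IsSuccPrelimit (lev s) → Iio s = Iio t → s = t

/-- Aronszajn trees with their level function -/
structure IsAron (lev : T → Om) : Prop extends IsOmTree lev where
  chain : ∀ C : Set T, IsChain (· ≤ ·) C → C.Countable

namespace IsLev

variable {lev : T → Om} (h : IsLev lev)

include h

theorem mono_le {s t : T} (hst : s ≤ t) : lev s ≤ lev t := by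
  rcases hst.lt_or_eq with h1 | h1
  · exact (h.mono h1).le
  · rw [h1]

theorem ex_le {t : T} {a : Om} (ha : a ≤ lev t) : ∃ s ≤ t, lev s = a := by
  rcases ha.lt_or_eq with h1 | h1
  · obtain ⟨s, hs, h2⟩ := h.ex h1
    exact ⟨s, hs.le, h2⟩
  · exact ⟨t, le_rfl, h1.symm⟩

theorem eq_of_le_of_lev {s t : T} (hst : s ≤ t) (he : lev s = lev t) : s = t := by
  rcases hst.lt_or_eq with h1 | h1
  · exact absurd he (h.mono h1).ne
  · exact h1

theorem uniq_le {s s' t : T} (hs : s ≤ t) (hs' : s' ≤ t) (he : lev s = lev s') : s = s' := by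
  rcases hs.lt_or_eq with h1 | h1
  · rcases hs'.lt_or_eq with h2 | h2
    · exact h.uniq h1 h2 he
    · subst h2
      exact h.eq_of_le_of_lev hs he
  · subst h1
    exact (h.eq_of_le_of_lev hs' he.symm).symm

theorem le_of_lev_le {s s' t : T} (hs : s ≤ t) (hs' : s' ≤ t) (he : lev s ≤ lev s') : s ≤ s' := by
  obtain ⟨r, hr, h1⟩ := h.ex_le he
  have : r = s := h.uniq_le (hr.trans hs') hs h1
  rw [← this]
  exact hr

theorem lt_of_lev_lt {s s' t : T} (hs : s ≤ t) (hs' : s' ≤ t) (he : lev s < lev s') : s < s' := by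
  refine lt_of_le_of_ne (h.le_of_lev_le hs hs' he.le) ?_
  rintro rfl
  exact lt_irrefl _ he

theorem comp {s s' t : T} (hs : s ≤ t) (hs' : s' ≤ t) : s ≤ s' ∨ s' ≤ s := by
  rcases le_total (lev s) (lev s') with h1 | h1
  · exact Or.inl (h.le_of_lev_le hs hs' h1)
  · exact Or.inr (h.le_of_lev_le hs' hs h1)

end IsLev

open Classical in
/-- the restriction of `t` to the level `a` -/
noncomputable def res (lev : T → Om) (t : T) (a : Om) : T :=
  if hx : ∃ s ≤ t, lev s = a then hx.choose else t

namespace IsLev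

variable {lev : T → Om} (h : IsLev lev)

include h

theorem res_spec {t : T} {a : Om} (ha : a ≤ lev t) : res lev t a ≤ t ∧ lev (res lev t a) = a := by
  have hx : ∃ s ≤ t, lev s = a := h.ex_le ha
  unfold res
  rw [dif_pos hx]
  exact hx.choose_spec

theorem res_le {t : T} {a : Om} (ha : a ≤ lev t) : res lev t a ≤ t := (h.res_spec ha).1

theorem lev_res {t : T} {a : Om} (ha : a ≤ lev t) : lev (res lev t a) = a := (h.res_spec ha).2

theorem res_eq {s t : T} (hst : s ≤ t) : res lev t (lev s) = s :=
  h.uniq_le (h.res_le (h.mono_le hst)) hst (h.lev_res (h.mono_le hst))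

theorem res_eq' {s t : T} {a : Om} (hst : s ≤ t) (ha : lev s = a) : res lev t a = s := by
  rw [← ha]
  exact h.res_eq hst

theorem res_self (t : T) : res lev t (lev t) = t := h.res_eq le_rfl

theorem res_mono {t : T} {a b : Om} (hab : a ≤ b) (hb : b ≤ lev t) :
    res lev t a ≤ res lev t b :=
  h.le_of_lev_le (h.res_le (hab.trans hb)) (h.res_le hb)
    (by rw [h.lev_res (hab.trans hb), h.lev_res hb]; exact hab)

theorem le_res {s t : T} {a : Om} (hst : s ≤ t) (hs : lev s ≤ a) (ha : a ≤ lev t) :
    s ≤ res lev t a :=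
  h.le_of_lev_le hst (h.res_le ha) (by rw [h.lev_res ha]; exact hs)

theorem res_res {t : T} {a b : Om} (hab : a ≤ b) (hb : b ≤ lev t) :
    res lev (res lev t b) a = res lev t a :=
  h.res_eq' (h.res_mono hab hb) (h.lev_res (hab.trans hb))

theorem res_of_le {s t : T} {a : Om} (hst : s ≤ t) (ha : a ≤ lev s) :
    res lev s a = res lev t a :=
  (h.res_eq' ((h.res_le ha).trans hst) (h.lev_res ha)).symm

theorem le_iff_res {s t : T} : s ≤ t ↔ lev s ≤ lev t ∧ res lev t (lev s) = s := by
  constructor
  · intro hst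
    exact ⟨h.mono_le hst, h.res_eq hst⟩
  · rintro ⟨h1, h2⟩
    rw [← h2]
    exact h.res_le h1

/-- extension of a meet -/
theorem isGLB_ext {a a' x y m : T} (hax : a ≤ x) (hay : a' ≤ y) (h1 : ¬ a ≤ a') (h2 : ¬ a' ≤ a)
    (hm : IsGLB {a, a'} m) : IsGLB {x, y} m := by
  have hma : m ≤ a := hm.1 (by simp)
  have hma' : m ≤ a' := hm.1 (by simp)
  constructor
  · rintro z hz
    rcases hz with rfl | rfl
    · exact hma.trans hax
    · exact hma'.trans hay
  · intro z hz
    have hzx : z ≤ x := hz (by simp)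
    have hzy : z ≤ y := hz (by simp)
    refine hm.2 ?_
    rcases h.comp hzx hax with h3 | h3
    · rcases h.comp hzy hay with h4 | h4
      · rintro w (rfl | rfl)
        · exact h3
        · exact h4
      · exact absurd (h4.trans h3) h2
    · rcases h.comp hzy hay with h4 | h4
      · exact absurd (h3.trans h4) h1
      · rcases h.comp h3 h4 with h5 | h5
        · exact absurd h5 h1
        · exact absurd h5 h2

omit h in
/-- a lower bound of two incomparable nodes `x`, `y` is below both and strictly so -/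
theorem lt_of_isGLB {x y m : T} (hxy : ¬ x ≤ y) (hm : IsGLB {x, y} m) : m < x := by
  refine lt_of_le_of_ne (hm.1 (by simp)) ?_
  rintro rfl
  exact hxy (hm.1 (by simp))

theorem isGLB_of_lb {x y m : T} (hm1 : m ≤ x) (hm2 : m ≤ y)
    (hsup : ∀ z, z ≤ x → z ≤ y → lev z ≤ lev m) : IsGLB {x, y} m := by
  constructor
  · rintro z (rfl | rfl)
    · exact hm1
    · exact hm2
  · intro z hz
    have hzx : z ≤ x := hz (by simp)
    have hzy : z ≤ y := hz (by simp)
    exact h.le_of_lev_le hzx hm1 (hsup z hzx hzy)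

omit h in
theorem isGLB_unique {x y m m' : T} (hm : IsGLB {x, y} m) (hm' : IsGLB {x, y} m') : m = m' :=
  hm.unique hm'

end IsLev

namespace IsOmTree

variable {lev : T → Om} (h : IsOmTree lev)

include h

theorem haus' {s t : T} (hst : lev s = lev t) (hl : Order.IsSuccPrelimit (lev s))
    (hr : ∀ a < lev s, res lev s a = res lev t a) : s = t := by
  refine h.haus s t hst hl ?_
  ext r
  constructor
  · intro (hr1 : r < s)
    have h1 : lev r < lev s := h.mono hr1
    have h2 : res lev s (lev r) = r := h.res_eq hr1.le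
    have h3 := hr _ h1
    rw [h2] at h3
    show r < t
    refine lt_of_le_of_ne ?_ ?_
    · rw [h3]
      exact h.res_le (by rw [← hst]; exact h1.le)
    · rintro rfl
      rw [hst] at h1
      exact lt_irrefl _ h1
  · intro (hr1 : r < t)
    have h1 : lev r < lev s := by
      rw [hst]
      exact h.mono hr1
    have h2 : res lev t (lev r) = r := h.res_eq hr1.le
    have h3 := hr _ h1
    rw [h2] at h3
    show r < s
    refine lt_of_le_of_ne ?_ ?_
    · rw [← h3]
      exact h.res_le h1.le
    · rintro rfl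
      exact lt_irrefl _ h1

theorem exists_meet (x y : T) : ∃ m, IsGLB {x, y} m := by
  classical
  by_cases hxy : x ≤ y
  · exact ⟨x, h.isGLB_of_lb le_rfl hxy fun z hz _ => h.mono_le hz⟩
  by_cases hyx : y ≤ x
  · exact ⟨y, h.isGLB_of_lb hyx le_rfl fun z _ hz => h.mono_le hz⟩
  -- incomparable
  have hne : {a : Om | a ≤ lev x ∧ a ≤ lev y ∧ res lev x a ≠ res lev y a}.Nonempty := by
    rcases le_total (lev x) (lev y) with h1 | h1
    · refine ⟨lev x, le_rfl, h1, fun he => hxy ?_⟩
      rw [h.res_self] at he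
      rw [he]
      exact h.res_le h1
    · refine ⟨lev y, h1, le_rfl, fun he => hyx ?_⟩
      rw [h.res_self] at he
      rw [← he]
      exact h.res_le h1
  obtain ⟨a, ⟨ha1, ha2, ha3⟩, hmin⟩ : ∃ a ∈ {a : Om | a ≤ lev x ∧ a ≤ lev y ∧
      res lev x a ≠ res lev y a}, ∀ b < a, b ∉ {a : Om | a ≤ lev x ∧ a ≤ lev y ∧
      res lev x a ≠ res lev y a} :=
    ⟨WellFounded.min wellFounded_lt _ hne, WellFounded.min_mem wellFounded_lt _ hne,
      fun b hb hb2 => WellFounded.not_lt_min wellFounded_lt _ hb2 hb⟩
  have heq : ∀ b < a, res lev x b = res lev y b := by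
    intro b hb
    by_contra hc
    exact hmin b hb ⟨hb.le.trans ha1, hb.le.trans ha2, hc⟩
  have hnl : ¬ Order.IsSuccPrelimit a := by
    intro hl
    apply ha3
    apply h.haus'
    · rw [h.lev_res ha1, h.lev_res ha2]
    · rw [h.lev_res ha1]
      exact hl
    · intro b hb
      rw [h.lev_res ha1] at hb
      rw [h.res_res hb.le ha1, h.res_res hb.le ha2]
      exact heq b hb
  rw [Order.not_isSuccPrelimit_iff_mem_range_succ] at hnl
  obtain ⟨b, hb⟩ := hnl
  have hba : b < a := by
    rw [← hb]
    exact Order.lt_succ b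
  refine ⟨res lev x b, h.isGLB_of_lb (h.res_le (hba.le.trans ha1)) ?_ ?_⟩
  · rw [heq b hba]
    exact h.res_le (hba.le.trans ha2)
  · intro z hzx hzy
    rw [h.lev_res (hba.le.trans ha1)]
    by_contra hc
    rw [not_le] at hc
    have hza : a ≤ lev z := by
      rw [← hb]
      exact Order.succ_le_of_lt hc
    apply ha3
    rw [← h.res_of_le hzx hza, ← h.res_of_le hzy hza]

theorem countable_levels (a : Om) : {t : T | lev t ≤ a}.Countable := by
  have : {t : T | lev t ≤ a} = ⋃ b ∈ Iic a, {t : T | lev t = b} := by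
    ext t
    simp
  rw [this]
  exact (Om.countable_Iic a).biUnion fun b _ => h.cnt b

theorem exists_lev_gt {P : Set T} (hP : ¬ P.Countable) (a : Om) : ∃ p ∈ P, a < lev p := by
  by_contra hc
  push Not at hc
  exact hP ((h.countable_levels a).mono fun p hp => hc p hp)

end IsOmTree

end Run7.h603
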