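import Pool.Agent.Run7.h603.Coc

/-!
# Weighted walks on `ω₁`
-/

set_option autoImplicit false

open Set

namespace Run7.h603

/-- a step function for walks: for `α < γ` the next step `nx γ α` of the walk from `γ` to `α` -/
structure IsStep (nx : Om → Om → Om) : Prop where
  le : ∀ {α γ}, α < γ → α ≤ nx γ α
  lt : ∀ {α γ}, α < γ → nx γ α < γ
  cont : ∀ {β γ}, β < γ → ContOn β (nx γ)

theorem exists_cofinal_seq {γ : Om} (hγ : Order.IsSuccLimit γ) :
    ∃ s : ℕ → Om, StrictMono s ∧ (∀ n, s n < γ) ∧ ∀ α < γ, ∃ n, α ≤ s n := by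
  obtain ⟨f, hf⟩ : ∃ f : ℕ → Om, Iio γ = range f := by
    refine (Om.countable_Iio γ).exists_eq_range ⟨⊥, ?_⟩
    exact bot_lt_iff_ne_bot.2 hγ.ne_bot
  have hfl : ∀ n, f n < γ := fun n => by
    have : f n ∈ Iio γ := by rw [hf]; exact ⟨n, rfl⟩
    exact this
  let s : ℕ → Om := fun n => Nat.rec (f 0) (fun k x => max (Order.succ x) (f (k + 1))) n
  have hs1 : ∀ n, s (n + 1) = max (Order.succ (s n)) (f (n + 1)) := fun n => rfl
  have hsl : ∀ n, s n < γ := by
    intro n
    induction n with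
    | zero => exact hfl 0
    | succ n ih =>
      rw [hs1]
      exact max_lt (hγ.succ_lt ih) (hfl _)
  refine ⟨s, strictMono_nat_of_lt_succ fun n => ?_, hsl, fun α hα => ?_⟩
  · rw [hs1]
    exact (Order.lt_succ (s n)).trans_le (le_max_left _ _)
  · have : α ∈ range f := by rw [← hf]; exact hα
    obtain ⟨n, rfl⟩ := this
    refine ⟨n, ?_⟩
    cases n with
    | zero => exact le_rfl
    | succ n =>
      rw [hs1]
      exact le_max_right _ _

theorem exists_step : ∃ nx : Om → Om → Om, IsStep nx := by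
  classical
  have key : ∀ γ : Om, ∃ f : Om → Om, (∀ α < γ, α ≤ f α) ∧ (∀ α < γ, f α < γ) ∧
      ∀ β < γ, ContOn β f := by
    intro γ
    by_cases hl : Order.IsSuccLimit γ
    · obtain ⟨s, hs, hsl, hsc⟩ := exists_cofinal_seq hl
      let f : Om → Om := fun α => if h : ∃ n, α ≤ s n then s (Nat.find h) else ⊥
      have hf : ∀ α (h : ∃ n, α ≤ s n), f α = s (Nat.find h) := fun α h => dif_pos h
      refine ⟨f, fun α hα => ?_, fun α hα => ?_, fun β hβ δ hδ hδl => ?_⟩
      · rw [hf α (hsc α hα)]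
        exact Nat.find_spec (hsc α hα)
      · rw [hf α (hsc α hα)]
        exact hsl _
      · have hδγ : δ < γ := hδ.trans_lt hβ
        have hx := hsc δ hδγ
        -- all `s m` with `m < find` are below `δ`
        have hlt : ∀ m < Nat.find hx, s m < δ := fun m hm => not_le.1 (Nat.find_min hx hm)
        obtain ⟨ξ, hξ, h1⟩ : ∃ ξ < δ, ∀ m < Nat.find hx, s m ≤ ξ := by
          rcases Nat.eq_zero_or_pos (Nat.find hx) with h0 | h0
          · exact ⟨⊥, bot_lt_iff_ne_bot.2 hδl.ne_bot, fun m hm => absurd hm (by omega)⟩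
          · refine ⟨s (Nat.find hx - 1), hlt _ (by omega), fun m hm => ?_⟩
            exact hs.monotone (by omega)
        refine ⟨ξ, hξ, fun α hα hαδ => ?_⟩
        have hy := hsc α (hαδ.trans hδγ)
        rw [hf α hy, hf δ hx]
        congr 1
        refine le_antisymm ?_ ?_
        · exact Nat.find_min' hy (hαδ.le.trans (Nat.find_spec hx))
        · by_contra hc
          rw [not_le] at hc
          exact absurd (h1 _ hc) (not_le.2 (hα.trans_le (Nat.find_spec hy)))
    · by_cases hb : γ = ⊥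
      · subst hb
        exact ⟨fun _ => ⊥, fun α hα => absurd hα not_lt_bot, fun α hα => absurd hα not_lt_bot,
          fun β hβ => absurd hβ not_lt_bot⟩
      · have h1 : ¬ Order.IsSuccPrelimit γ := by
          intro h
          exact hl ⟨by rwa [isMin_iff_eq_bot], h⟩
        rw [Order.not_isSuccPrelimit_iff_mem_range_succ] at h1
        obtain ⟨b, rfl⟩ := h1
        exact ⟨fun _ => b, fun α hα => Order.lt_succ_iff.1 hα, fun α _ => Order.lt_succ b,
          fun β _ => contOn_const b⟩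
  choose nx h1 h2 h3 using key
  exact ⟨nx, fun {α γ} h => h1 γ α h, fun {α γ} h => h2 γ α h, fun {β γ} h => h3 γ β h⟩

variable {A : Type} [AddCommGroup A]

/-- the weighted walk: the sum of the weights along the walk from `γ` to `α` -/
noncomputable def walk (nx : Om → Om → Om) (w : Om → Om → A) (α : Om) : Om → A :=
  WellFounded.fix (wellFounded_lt (α := Om)) fun γ rec =>
    if h : α < γ ∧ nx γ α < γ then w γ α + rec (nx γ α) h.2 else 0

variable {nx : Om → Om → Om}

theorem walk_lt (hn : IsStep nx) (w : Om → Om → A) {α γ : Om} (h : α < γ) :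
    walk nx w α γ = w γ α + walk nx w α (nx γ α) := by
  unfold walk
  rw [WellFounded.fix_eq]
  rw [dif_pos ⟨h, hn.lt h⟩]

theorem walk_not_lt (w : Om → Om → A) {α γ : Om} (h : ¬ α < γ) :
    walk nx w α γ = 0 := by
  unfold walk
  rw [WellFounded.fix_eq]
  rw [dif_neg (fun hc => h hc.1)]

theorem walk_self (w : Om → Om → A) (α : Om) : walk nx w α α = 0 :=
  walk_not_lt w (lt_irrefl α)

theorem walk_congr (hn : IsStep nx) {w w' : Om → Om → A} {δ : Om}
    (h : ∀ γ < δ, ∀ α < γ, w γ α = w' γ α) (α : Om) :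
    ∀ γ < δ, walk nx w α γ = walk nx w' α γ := by
  intro γ
  induction γ using WellFoundedLT.induction with
  | ind γ ih =>
    intro hγ
    by_cases hα : α < γ
    · rw [walk_lt hn w hα, walk_lt hn w' hα, h γ hγ α hα,
        ih (nx γ α) (hn.lt hα) ((hn.lt hα).trans hγ)]
    · rw [walk_not_lt w hα, walk_not_lt w' hα]

theorem walk_cont (hn : IsStep nx) {w : Om → Om → A}
    (hw : ∀ γ, ∀ β < γ, ContOn β (w γ)) :
    ∀ γ β, β ≤ γ → ContOn β (fun α => walk nx w α γ - walk nx w α β) := by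
  intro γ
  induction γ using WellFoundedLT.induction with
  | ind γ ih =>
    intro β hβ δ hδ hl
    rcases hβ.eq_or_lt with rfl | hβγ
    · exact ⟨⊥, bot_lt_iff_ne_bot.2 hl.ne_bot, fun α _ _ => by simp⟩
    · have hδγ : δ < γ := hδ.trans_lt hβγ
      obtain ⟨ξ0, h0, h0'⟩ := hn.cont hβγ δ hδ hl
      obtain ⟨ξ1, h1, h1'⟩ := hw γ β hβγ δ hδ hl
      have hη : nx γ δ < γ := hn.lt hδγ
      have hδη : δ ≤ nx γ δ := hn.le hδγ
      have h2 : ∃ ξ < δ, ∀ α, ξ < α → α < δ →
          walk nx w α (nx γ δ) - walk nx w α β = walk nx w δ (nx γ δ) - walk nx w δ β := by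
        rcases le_total β (nx γ δ) with h3 | h3
        · exact ih (nx γ δ) hη β h3 δ hδ hl
        · obtain ⟨ξ, h4, h5⟩ := ih β hβγ (nx γ δ) h3 δ hδη hl
          refine ⟨ξ, h4, fun α hα hαδ => ?_⟩
          have h6 := h5 α hα hαδ
          simp only at h6
          rw [← neg_sub, h6, neg_sub]
      obtain ⟨ξ2, h2, h2'⟩ := h2
      refine ⟨max ξ0 (max ξ1 ξ2), max_lt h0 (max_lt h1 h2), fun α hα hαδ => ?_⟩
      have hα0 : ξ0 < α := (le_max_left _ _).trans_lt hα
      have hα1 : ξ1 < α := ((le_max_left _ _).trans (le_max_right _ _)).trans_lt hα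
      have hα2 : ξ2 < α := ((le_max_right _ _).trans (le_max_right _ _)).trans_lt hα
      show walk nx w α γ - walk nx w α β = walk nx w δ γ - walk nx w δ β
      rw [walk_lt hn w (hαδ.trans hδγ), walk_lt hn w hδγ, h0' α hα0 hαδ, h1' α hα1 hαδ]
      have h7 := h2' α hα2 hαδ
      rw [add_sub_assoc, add_sub_assoc, h7]

theorem isLev_id : IsLev (id : Om → Om) where
  mono := fun h => h
  ex := fun {_ a} h => ⟨a, h, rfl⟩
  uniq := fun _ _ h => h

theorem isOmTree_id : IsOmTree (id : Om → Om) where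
  toIsLev := isLev_id
  ne := fun a => ⟨a, rfl⟩
  cnt := fun a => (countable_singleton a).mono fun _ h => h
  haus := fun _ _ h _ _ => h

theorem res_id {s α : Om} (h : α ≤ s) : res id s α = α := isLev_id.res_eq' h rfl

/-- additive version of the conditions on cocycles, on `ω₁` -/
theorem isCoc_of {a : Om → Om → A} (h0 : ∀ t, a t t = 0)
    (h1 : ∀ γ β, β ≤ γ → ContOn β (fun α => a α γ - a α β)) :
    IsCoc (id : Om → Om) (fun α γ => Multiplicative.ofAdd (a α γ)) where
  diag := fun t => by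
    show Multiplicative.ofAdd (a t t) = 1
    rw [h0]
    rfl
  cont := fun s t hst => by
    refine ((h1 t s hst).map2 (h1 t s hst) (fun x _ => Multiplicative.ofAdd x)).congr
      fun α hα => ?_
    have hα' : α ≤ s := hα
    rw [res_id hα', ← ofAdd_neg, ← ofAdd_add]
    congr 1
    abel

/-- the case of `ω₁` -/
theorem CATL.cocycle_om (hC : CATL) [Finite A] {a : Om → Om → A} (h0 : ∀ t, a t t = 0)
    (h1 : ∀ γ β, β ≤ γ → ContOn β (fun α => a α γ - a α β)) :
    ∃ E : Set Om, IsClub E ∧ ∃ κ : Om → A, ∀ δ ∈ E, Order.IsSuccLimit δ →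
      ∃ ξ < δ, ∀ α ∈ E, ξ < α → α < δ → a α δ = κ δ - κ α := by
  have : Finite (Multiplicative A) := inferInstanceAs (Finite A)
  obtain ⟨S, hS, hS2, E, hE, κ, hκ⟩ := hC.cocycle isOmTree_id (isCoc_of h0 h1)
  have hSu : ∀ t, t ∈ S := by
    intro t
    obtain ⟨s, hs, h2⟩ := hS2 t
    have : s = t := h2
    rw [← this]
    exact hs
  refine ⟨E, hE, fun δ => Multiplicative.toAdd (κ δ), fun δ hδ hl => ?_⟩
  obtain ⟨ξ, h2, h3⟩ := hκ δ (hSu δ) hδ hl
  refine ⟨ξ, h2, fun α hα h4 h5 => ?_⟩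
  have h6 := h3 α h5 hα h4
  have h7 := congrArg Multiplicative.toAdd h6
  rw [toAdd_mul, toAdd_inv, toAdd_ofAdd] at h7
  rw [h7]
  abel

end Run7.h603
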